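import Pool.Agent.TSQ.Stmts
import Pool.Agent.TSP.LSA

/-!
# TSQ.LKA: rotation, reversal, members, arcs and neighbouring links of link lists
-/

set_option autoImplicit false

namespace Pool.Agent.TSQ

open Pool.Agent.TSM Pool.Agent.TSP

namespace LKA_

variable {V : Type} [DecidableEq V] {T : Finset (Finset V)} {v : V}

theorem rot {l1 l2 : List V} (h : IsLink T v (l1 ++ l2)) : IsLink T v (l2 ++ l1) := by
  cases l2 with
  | nil => simpa using h
  | cons x t =>
    obtain ⟨h1, h2, h3, h4⟩ := h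
    have hp : (x :: t ++ l1).Perm (l1 ++ x :: t) := List.perm_append_comm
    refine ⟨?_, ?_, ?_, ?_⟩
    · rw [hp.length_eq]; exact h1
    · exact hp.nodup_iff.2 h2
    · rw [hp.mem_iff]; exact h3
    · intro t'
      rw [h4]
      have hc : ∀ p : V × V, p ∈ cyc (x :: t ++ l1) ↔ p ∈ cyc (l1 ++ x :: t) := fun p =>
        LSA_.cyc_rot' x l1 t p
      simp only [hc]

theorem next {x m b : V} {r l : List V} (hv : IsLink T v (x :: m :: (r ++ [b])))
    (hx : IsLink T x l) : ∃ r' : List V, IsLink T x (v :: m :: (r' ++ [b])) := by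
  have h1 : ({v, x, m} : Finset V) ∈ T :=
    ((hv.2.2.2 {v, x, m}).2 ⟨x, m, by simp [cyc, conseq], rfl⟩).1
  have h2 : ({v, b, x} : Finset V) ∈ T := by
    refine ((hv.2.2.2 {v, b, x}).2 ⟨b, x, ?_, rfl⟩).1
    have e : cyc (x :: m :: (r ++ [b])) = conseq ((x :: m :: r) ++ [b] ++ [x]) := by
      simp [cyc]
    rw [e, LSA_.conseq_snoc]
    simp
  have hnd := hv.2.1
  have hvn := hv.2.2.1
  simp only [List.nodup_cons, List.mem_cons, List.mem_append, List.not_mem_nil, or_false,
    not_or] at hnd hvn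
  obtain ⟨⟨hxm, -, hxb⟩, ⟨-, hmb⟩, -⟩ := hnd
  obtain ⟨hvx, hvm, -, hvb⟩ := hvn
  have key := (lsa_proof V T x l hx).2.2.2.2.1 b v m (Ne.symm hmb) (Ne.symm hvb) hvm hxb
    (Ne.symm hvx) hxm (by
      have e : ({x, b, v} : Finset V) = {v, b, x} := by
        ext z; simp only [Finset.mem_insert, Finset.mem_singleton]; tauto
      rw [e]; exact h2) (by
      have e : ({x, v, m} : Finset V) = {v, x, m} := by
        ext z; simp only [Finset.mem_insert, Finset.mem_singleton]; tauto
      rw [e]; exact h1)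
  obtain ⟨r', h3, -⟩ := key
  refine ⟨r', ?_⟩
  have h4 : IsLink T x ([b] ++ (v :: m :: r')) := h3
  exact rot h4

end LKA_

open LKA_

theorem LKA_proof : Stmt_LKA := by
  intro V _ T v
  refine ⟨fun l1 l2 h => rot h, fun l h => LSA_.reverse h, ?_, ?_, ?_, ?_⟩
  · intro l u h
    exact (lsa_proof V T v l h).2.2.1 u
  · intro l σ h
    exact LSA_.arcs_iff h σ
  · intro l x y h hvx hvy hxy ht
    obtain ⟨r, h1, h2⟩ := LSA_.edge h hxy hvx hvy ht
    refine ⟨r, ?_, h1⟩
    rintro rfl
    have := h.1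
    simp only [List.length_nil] at h2
    omega
  · intro x m b r l h1 h2
    exact next h1 h2

end Pool.Agent.TSQ
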