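import Pool.Agent.TSQ.Stmts
import Pool.Agent.TSQ.LKA

/-!
# TSQ, module SPM: the number of inner edges at old boundary vertices decreases in a split
-/

set_option autoImplicit false

open scoped RealInnerProductSpace

namespace Pool.Agent.TSQ

open Pool.Agent.TSM Pool.Agent.TSP

namespace SPM_

theorem adj_symm {V : Type} [Fintype V] [DecidableEq V] {K : Surf V} {u v : V}
    (h : K.Adj u v) : K.Adj v u := by
  obtain ⟨hne, t, ht, h1, h2⟩ := h
  exact ⟨hne.symm, t, ht, h2, h1⟩

theorem te_symm {V : Type} [Fintype V] [DecidableEq V] {Φ : Finset (E3 × ℝ)} {p : V → E3}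
    {u v : V} (h : TE Φ p u v) : TE Φ p v u := by
  obtain ⟨ψ, hψ, h1, h2⟩ := h
  exact ⟨ψ, hψ, h2, h1⟩

end SPM_

open SPM_ in
theorem SPM_proof (h1 : Stmt_SPA) (h2 : Stmt_NPS) : Stmt_SPM := by
  classical
  intro V _ _ K p Φ W z x y mid rest φ hpre hpath hmid hind hpk hzW
  obtain ⟨s0, hs0, -, hs⟩ := h2 V p Φ hpre.hull z x y φ hpk.mem hpk.ez hpk.ex hpk.ey hind
  refine ⟨s0, hs0, fun s hs1 hs2 K' hK' => ?_⟩
  obtain ⟨n1, n2, -⟩ := hs s hs1 hs2
  obtain ⟨a1, a2, -, -⟩ := h1 V K.tri z x y mid rest K.card3 hpath.1 hmid hpk.rest_ne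
  obtain ⟨m1, hm1⟩ := List.exists_mem_of_ne_nil mid hmid
  have hadj : ∀ u w, K'.Adj (some u) (some w) ↔
      K.Adj u w ∧ ¬ (u = z ∧ w ∈ mid) ∧ ¬ (w = z ∧ u ∈ mid) := by
    intro u w
    have h3 := a2 u w
    rw [← hK'] at h3
    exact h3
  have hadjn : ∀ u, K'.Adj (some u) none ↔ (u = x ∨ u = y ∨ u = z ∨ u ∈ mid) := by
    intro u
    have h3 := a1 u
    rw [← hK'] at h3
    exact h3
  have hTEn : ∀ u, ev φ (p u) = 0 → TE Φ (splitPos p (newPos p z x y s)) (some u) none :=
    fun u h => ⟨φ, hpk.mem, h, n1⟩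
  have hmem : ∀ u ∈ mid, K.Adj z u := by
    intro u hu
    have h3 := ((LKA_proof V K.tri z).2.2.1 _ u hpath.1).1 (by simp [hu])
    exact h3
  have hmidz : z ∉ mid := by
    intro h
    exact (hmem z h).1 rfl
  have hnone : ∀ v, K'.Adj (some v) none →
      ¬ TE Φ (splitPos p (newPos p z x y s)) (some v) none → v ∈ mid := by
    intro v hv1 hv2
    rcases (hadjn v).1 hv1 with h | h | h | h
    · exact absurd (hTEn v (by rw [h]; exact hpk.ex)) hv2
    · exact absurd (hTEn v (by rw [h]; exact hpk.ey)) hv2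
    · exact absurd (hTEn v (by rw [h]; exact hpk.ez)) hv2
    · exact h
  unfold mu
  refine lt_of_le_of_lt (Finset.card_le_card_of_injOn
    (fun q : Option V × Option V => (q.1.getD z, q.2.getD z))
    (t := (Finset.univ.filter fun q : V × V => q.1 ∉ W ∧ (∃ φ ∈ Φ, ev φ (p q.1) = 0) ∧
      K.Adj q.1 q.2 ∧ ¬ TE Φ p q.1 q.2).erase (z, m1)) ?_ ?_)
    (Finset.card_erase_lt_of_mem ?_)
  · intro q hq
    obtain ⟨q1, q2⟩ := q
    simp only [Finset.coe_filter, Finset.mem_univ, true_and, Set.mem_ofPred_eq] at hq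
    obtain ⟨hW, hb, hA, hT⟩ := hq
    cases q1 with
    | none => exact absurd (Finset.mem_insert_self _ _) hW
    | some v =>
      have hvW : v ∉ W := fun h => hW (Finset.mem_insert_of_mem (Finset.mem_image_of_mem _ h))
      rw [Finset.mem_coe, Finset.mem_erase, Finset.mem_filter]
      cases q2 with
      | none =>
        have hv := hnone v hA hT
        refine ⟨?_, Finset.mem_univ _, hvW, hb, adj_symm (hmem v hv), fun h => ?_⟩
        · intro h
          have h3 : z = m1 := (Prod.mk.inj h).2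
          rw [← h3] at hm1
          exact hmidz hm1
        · exact hpath.2.2.2 v hv (te_symm h)
      | some u =>
        obtain ⟨hA1, hA2, hA3⟩ := (hadj v u).1 hA
        refine ⟨?_, Finset.mem_univ _, hvW, hb, hA1, hT⟩
        intro h
        have h3 : v = z := (Prod.mk.inj h).1
        have h4 : u = m1 := (Prod.mk.inj h).2
        exact hA2 ⟨h3, by rw [h4]; exact hm1⟩
  · intro q hq q' hq' heq
    obtain ⟨q1, q2⟩ := q
    obtain ⟨q1', q2'⟩ := q'
    simp only [Finset.coe_filter, Finset.mem_univ, true_and, Set.mem_ofPred_eq] at hq hq'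
    obtain ⟨hW, hb, hA, hT⟩ := hq
    obtain ⟨hW', hb', hA', hT'⟩ := hq'
    have e1 := (Prod.mk.inj heq).1
    have e2 := (Prod.mk.inj heq).2
    cases q1 with
    | none => exact absurd (Finset.mem_insert_self _ _) hW
    | some v =>
    cases q1' with
    | none => exact absurd (Finset.mem_insert_self _ _) hW'
    | some v' =>
    have e1' : v = v' := e1
    subst e1'
    cases q2 with
    | none =>
      cases q2' with
      | none => rfl
      | some u' =>
        have e2' : z = u' := e2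
        exact absurd ⟨e2'.symm, hnone v hA hT⟩ ((hadj v u').1 hA').2.2
    | some u =>
      cases q2' with
      | none =>
        have e2' : u = z := e2
        exact absurd ⟨e2', hnone v hA' hT'⟩ ((hadj v u).1 hA).2.2
      | some u' =>
        have e2' : u = u' := e2
        rw [e2']
  · rw [Finset.mem_filter]
    exact ⟨Finset.mem_univ _, hzW, ⟨φ, hpk.mem, hpk.ez⟩, hmem m1 hm1, hpath.2.2.2 m1 hm1⟩

end Pool.Agent.TSQ
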