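import Pool.Agent.TSQ.Stmts
import Pool.Agent.TSQ.LKA

/-!
# TSQ, module SPW: the sets of new corners after a split
-/

set_option autoImplicit false

open scoped RealInnerProductSpace

namespace Pool.Agent.TSQ

open Pool.Agent.TSM Pool.Agent.TSP

namespace SPW_

theorem te_symm {V : Type} [Fintype V] [DecidableEq V] {Φ : Finset (E3 × ℝ)} {p : V → E3}
    {u v : V} (h : TE Φ p u v) : TE Φ p v u := by
  obtain ⟨ψ, hψ, h1, h2⟩ := h
  exact ⟨ψ, hψ, h2, h1⟩

theorem ind_symm {a b : E3} (h : Indep2 a b) : Indep2 b a := by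
  intro s t hst
  have := h t s (by rw [add_comm]; exact hst)
  exact ⟨this.2, this.1⟩

theorem tri_ne {V : Type} [Fintype V] [DecidableEq V] {K : Surf V} {a b c : V}
    (h : {a, b, c} ∈ K.tri) : a ≠ b ∧ a ≠ c ∧ b ≠ c := by
  have h3 := K.card3 _ h
  refine ⟨?_, ?_, ?_⟩
  · rintro rfl
    have : ({a, a, c} : Finset V) = {a, c} := by simp
    rw [this] at h3
    have := Finset.card_le_two (a := a) (b := c)
    omega
  · rintro rfl
    have : ({a, b, a} : Finset V) = {b, a} := by
      ext u
      simp only [Finset.mem_insert, Finset.mem_singleton]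
      tauto
    rw [this] at h3
    have := Finset.card_le_two (a := b) (b := a)
    omega
  · rintro rfl
    have : ({a, b, b} : Finset V) = {a, b} := by simp
    rw [this] at h3
    have := Finset.card_le_two (a := a) (b := b)
    omega

theorem adj_of_tri {V : Type} [Fintype V] [DecidableEq V] {K : Surf V} {a b c : V}
    (h : {a, b, c} ∈ K.tri) : K.Adj a b :=
  ⟨(tri_ne h).1, _, h, by simp, by simp⟩

theorem rot3 {V : Type} [DecidableEq V] (a b c : V) : ({a, b, c} : Finset V) = {c, a, b} := by
  ext u
  simp only [Finset.mem_insert, Finset.mem_singleton]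
  tauto

theorem swap3 {V : Type} [DecidableEq V] (a b c : V) : ({a, b, c} : Finset V) = {b, a, c} := by
  ext u
  simp only [Finset.mem_insert, Finset.mem_singleton]
  tauto

theorem pair_mem {V : Type} [DecidableEq V] {a b c d : V} (h : ({a, b} : Finset V) = {c, d}) :
    (a = c ∨ a = d) ∧ (b = c ∨ b = d) := by
  have h1 : a ∈ ({c, d} : Finset V) := by rw [← h]; simp
  have h2 : b ∈ ({c, d} : Finset V) := by rw [← h]; simp
  simp only [Finset.mem_insert, Finset.mem_singleton] at h1 h2
  exact ⟨h1, h2⟩

end SPW_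

open SPW_ in
theorem SPW_proof (h1 : Stmt_EMC) (h2 : Stmt_SPA) (h3 : Stmt_NPS) (h4 : Stmt_SPR) : Stmt_SPW := by
  classical
  intro V _ _ K p Φ W z x y mid rest φ hpre hpath hmid hind hpk hzW hgood
  obtain ⟨s0, hs0, -, hs⟩ := h3 V p Φ hpre.hull z x y φ hpk.mem hpk.ez hpk.ex hpk.ey hind
  obtain ⟨s1, hs1, hr⟩ := h4 V K p Φ W z x y mid rest φ hpre hpath hmid hind hpk hzW hgood.1
  obtain ⟨e1, -, -, -⟩ := h1 V K p hpre.emb
  refine ⟨min s0 s1, lt_min hs0 hs1, fun s hsp hsl K' hK' => ?_⟩
  obtain ⟨n1, n2, -, -, n3, n4⟩ := hs s hsp (lt_of_lt_of_le hsl (min_le_left _ _))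
  obtain ⟨a1, a2, a3, a4⟩ := h2 V K.tri z x y mid rest K.card3 hpath.1 hmid hpk.rest_ne
  refine ⟨hr s hsp (lt_of_lt_of_le hsl (min_le_right _ _)) K' hK', ?_⟩
  have hadj : ∀ u w, K'.Adj (some u) (some w) ↔
      K.Adj u w ∧ ¬ (u = z ∧ w ∈ mid) ∧ ¬ (w = z ∧ u ∈ mid) := by
    intro u w
    have h5 := a2 u w
    rw [← hK'] at h5
    exact h5
  have hadjn : ∀ u, K'.Adj (some u) none ↔ (u = x ∨ u = y ∨ u = z ∨ u ∈ mid) := by
    intro u
    have h5 := a1 u
    rw [← hK'] at h5
    exact h5
  rw [← hK'] at a3 a4
  have hTEn : ∀ u, TE Φ (splitPos p (newPos p z x y s)) (some u) none ↔ ev φ (p u) = 0 := by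
    intro u
    constructor
    · rintro ⟨ψ, hψ, h5, h6⟩
      by_cases hψφ : ψ = φ
      · rw [← hψφ]
        exact h5
      · exact absurd h6 (n2 ψ hψ hψφ).ne
    · exact fun h => ⟨φ, hpk.mem, h, n1⟩
  -- the link list of `z`
  have hnd := hpath.1.2.1
  have hznot := hpath.1.2.2.1
  have hxmid : x ∉ mid := by
    intro h
    rw [List.nodup_cons] at hnd
    exact hnd.1 (by simp [h])
  have hymid : y ∉ mid := by
    intro h
    rw [List.nodup_cons, List.nodup_append] at hnd
    exact hnd.2.2.2 y h y (by simp) rfl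
  have hzmid : z ∉ mid := fun h => hznot (by simp [h])
  have hzx : z ≠ x := fun h => hznot (by simp [h])
  have hzy : z ≠ y := fun h => hznot (by simp [h])
  -- old third vertices
  have old : ∀ (v a : V) (m : Option V), {some v, some a, m} ∈ K'.tri →
      ¬ TE Φ (splitPos p (newPos p z x y s)) (some v) m →
      ∃ m0, {v, a, m0} ∈ K.tri ∧ ¬ TE Φ p v m0 := by
    intro v a m hm hT
    cases m with
    | some m0 => exact ⟨m0, a3 v a m0 hm, hT⟩
    | none =>
      have h5 : {none, some v, some a} ∈ K'.tri := by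
        rw [← rot3]
        exact hm
      have h6 : K'.Adj (some v) none := by
        refine adj_of_tri (c := some a) ?_
        rw [swap3]
        exact h5
      have hv : v ∈ mid := by
        rcases (hadjn v).1 h6 with h | h | h | h
        · exact absurd ((hTEn v).2 (by rw [h]; exact hpk.ex)) hT
        · exact absurd ((hTEn v).2 (by rw [h]; exact hpk.ey)) hT
        · exact absurd ((hTEn v).2 (by rw [h]; exact hpk.ez)) hT
        · exact h
      have hvz : v ≠ z := fun h => hzmid (h ▸ hv)
      have hvx : v ≠ x := fun h => hxmid (h ▸ hv)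
      have hvy : v ≠ y := fun h => hymid (h ▸ hv)
      refine ⟨z, ?_, fun h => hpath.2.2.2 v hv (te_symm h)⟩
      rcases a4 v a h5 with h7 | h7 | h7
      · rw [rot3]
        exact h7
      · rcases (pair_mem h7).1 with h8 | h8
        · exact absurd h8 hvz
        · exact absurd h8 hvx
      · rcases (pair_mem h7).1 with h8 | h8
        · exact absurd h8 hvz
        · exact absurd h8 hvy
  -- vertices with an inner edge next to the new vertex
  have new : ∀ (v : V) (m : Option V), {some v, none, m} ∈ K'.tri →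
      TE Φ (splitPos p (newPos p z x y s)) (some v) none →
      ¬ TE Φ (splitPos p (newPos p z x y s)) (some v) m → v = x ∨ v = y := by
    intro v m hm hT1 hT2
    rcases (hadjn v).1 (adj_of_tri hm) with h | h | h | h
    · exact Or.inl h
    · exact Or.inr h
    · exfalso
      cases m with
      | none => exact (tri_ne hm).2.2 rfl
      | some m0 =>
        have h5 : {none, some v, some m0} ∈ K'.tri := by
          rw [← swap3]
          exact hm
        rcases a4 v m0 h5 with h7 | h7 | h7
        · rw [h] at h7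
          exact (tri_ne h7).1 rfl
        · rcases (pair_mem h7).2 with h8 | h8
          · exact (tri_ne hm).2.1 (by rw [h, h8])
          · refine hT2 ?_
            rw [h, h8]
            exact hpath.2.1
        · rcases (pair_mem h7).2 with h8 | h8
          · exact (tri_ne hm).2.1 (by rw [h, h8])
          · refine hT2 ?_
            rw [h, h8]
            exact hpath.2.2.1
    · have h5 := (hTEn v).1 hT1
      have h6 := hpk.emid v h
      rw [h5] at h6
      exact absurd h6 (lt_irrefl _)
  have indn : ∀ (v a : V), v = x ∨ v = y → K'.Adj (some v) (some a) →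
      Indep2 (newPos p z x y s - p v) (p a - p v) := by
    intro v a hv ha
    have h5 := e1 v a ((hadj v a).1 ha).1
    rcases hv with h | h
    · rw [h] at h5 ⊢
      exact n3 a h5
    · rw [h] at h5 ⊢
      exact n4 a h5
  intro v0 w u m m' hv0 hw huw hTw hTu hTm hTm' ht ht'
  cases v0 with
  | none => exact absurd (Finset.mem_insert_self _ _) hv0
  | some v =>
  have hvW : v ∉ W := fun h => hv0 (Finset.mem_insert_of_mem (Finset.mem_image_of_mem _ h))
  cases w with
  | none =>
    cases u with
    | none => exact absurd rfl huw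
    | some u0 => exact indn v u0 (new v m ht hTw hTm) (adj_of_tri ht')
  | some w0 =>
    have hw0 : w0 ∈ W := by
      rcases Finset.mem_insert.1 hw with h | h
      · exact absurd h (by simp)
      · obtain ⟨w1, h5, h6⟩ := Finset.mem_image.1 h
        rw [← Option.some.inj h6]
        exact h5
    cases u with
    | none => exact ind_symm (indn v w0 (new v m' ht' hTu hTm') (adj_of_tri ht))
    | some u0 =>
      obtain ⟨m0, h5, h6⟩ := old v w0 m ht hTm
      obtain ⟨m0', h5', h6'⟩ := old v u0 m' ht' hTm'
      exact hgood.2 v w0 u0 m0 m0' hvW hw0 (fun h => huw (by rw [h])) hTw hTu h6 h6' h5 h5'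

end Pool.Agent.TSQ
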