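import Pool.Agent.TSQ.PAsm
import Pool.Agent.TSQ.SPM
import Pool.Agent.TSQ.SPW
import Pool.Agent.TSP.P3Asm

/-!
# TSQ.PFinal: Part P of the tight smoothing theorem (MP_89ee87_gt), unconditional
-/

set_option autoImplicit false

open scoped RealInnerProductSpace

namespace Pool.Agent.TSQ

open Pool.Agent.TSM Pool.Agent.TSP

open PAsm_ in
/-- Part P: every tight polyhedral immersion of a closed surface is arbitrarily close to a
framed one. -/
theorem stmt_P : Stmt_P :=
  stmt_P_of' TSP.p3 TSP.hsp (SPW_proof EMC_proof SPA_proof NPS_proof spr)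
    (SPM_proof SPA_proof NPS_proof)

end Pool.Agent.TSQ
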