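import Pool.Agent.TSQ.Stmts

/-!
# TSQ.AVD: avoiding finitely many planes
-/

set_option autoImplicit false

open scoped RealInnerProductSpace Topology

namespace Pool.Agent.TSQ

open Pool.Agent.TSM Pool.Agent.TSP

theorem AVD_proof : Stmt_AVD := by
  intro fa G
  induction G using Finset.induction_on with
  | empty =>
    intro x hx _ ε hε
    exact ⟨x, by simpa using hε, hx, fun g hg => absurd hg (Finset.notMem_empty g)⟩
  | insert g G _ ih =>
    intro x hx hG ε hε
    obtain ⟨x1, h1, h2, h3⟩ := ih x hx (fun g hg => hG g (Finset.mem_insert_of_mem hg)) (ε / 2)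
      (by linarith)
    by_cases hg : ev g x1 = 0
    · obtain ⟨y, hy1, hy2⟩ := hG g (Finset.mem_insert_self _ _)
      have hsum : ∀ (φ : E3 × ℝ) (t : ℝ), ev φ (x1 + t • (y - x1)) =
          (1 - t) * ev φ x1 + t * ev φ y := by
        intro φ t
        unfold ev
        rw [inner_add_right, inner_smul_right, inner_sub_right]
        ring
      have hev1 : ∀ᶠ t in 𝓝[>] (0 : ℝ), ∀ g' ∈ G, ev g' (x1 + t • (y - x1)) ≠ 0 := by
        apply Filter.Eventually.filter_mono nhdsWithin_le_nhds
        rw [Finset.eventually_all]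
        intro g' hg'
        have hcont : Continuous fun t : ℝ => ev g' (x1 + t • (y - x1)) := by
          unfold ev; fun_prop
        apply hcont.continuousAt.eventually_ne
        simpa using h3 g' hg'
      have hev2 : ∀ᶠ t in 𝓝[>] (0 : ℝ), ‖(x1 + t • (y - x1)) - x1‖ < ε / 2 := by
        apply Filter.Eventually.filter_mono nhdsWithin_le_nhds
        have hcont : Continuous fun t : ℝ => ‖(x1 + t • (y - x1)) - x1‖ := by fun_prop
        apply hcont.continuousAt.eventually_lt continuousAt_const
        simp only [zero_smul, add_zero, sub_self, norm_zero]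
        linarith
      obtain ⟨t, ⟨ht1, ht2⟩, ht0⟩ := ((hev1.and hev2).and self_mem_nhdsWithin).exists
      refine ⟨x1 + t • (y - x1), ?_, ?_, ?_⟩
      · calc ‖x1 + t • (y - x1) - x‖ = ‖(x1 + t • (y - x1) - x1) + (x1 - x)‖ := by
              congr 1; abel
          _ ≤ ‖x1 + t • (y - x1) - x1‖ + ‖x1 - x‖ := norm_add_le _ _
          _ < ε := by linarith
      · intro φ hφ
        rw [hsum, h2 φ hφ, hy1 φ hφ]
        ring
      · intro g' hg'
        rw [Finset.mem_insert] at hg'
        rcases hg' with rfl | hg'
        · rw [hsum, hg, mul_zero, zero_add]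
          exact mul_ne_zero (ne_of_gt ht0) hy2
        · exact ht1 g' hg'
    · refine ⟨x1, by linarith, h2, fun g' hg' => ?_⟩
      rw [Finset.mem_insert] at hg'
      rcases hg' with rfl | hg'
      · exact hg
      · exact h3 g' hg'

end Pool.Agent.TSQ
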