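import Pool.Agent.TSQ.Stmts

/-!
# TSQ, module BOP: strict balance is an open condition
-/

set_option autoImplicit false

open scoped RealInnerProductSpace

namespace Pool.Agent.TSQ

open Pool.Agent.TSM Pool.Agent.TSP

theorem BOP_proof : Stmt_BOP := by
  classical
  intro V _ _ K p v hB
  obtain ⟨G, hGdef⟩ : ∃ G : E3 → ℝ, G = fun ν => ∑ w, if K.Adj v w then
      max (⟪ν, p w - p v⟫ : ℝ) 0 else 0 := ⟨_, rfl⟩
  have hG : Continuous G := by
    rw [hGdef]
    refine continuous_finset_sum _ fun w _ => ?_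
    by_cases h : K.Adj v w
    · simp only [if_pos h]
      exact (continuous_id.inner continuous_const).max continuous_const
    · simp only [if_neg h]
      exact continuous_const
  have hne : (Metric.sphere (0 : E3) 1).Nonempty := NormedSpace.sphere_nonempty.2 zero_le_one
  obtain ⟨ν0, hν0, hmin⟩ := (isCompact_sphere (0 : E3) 1).exists_isMinOn hne hG.continuousOn
  have hpos : 0 < G ν0 := by
    have h0 : ν0 ≠ 0 := by
      intro h
      rw [h, mem_sphere_zero_iff_norm, norm_zero] at hν0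
      exact zero_ne_one hν0
    obtain ⟨w, hw, hw2⟩ := hB ν0 h0
    rw [hGdef]
    refine Finset.sum_pos' (fun u _ => ?_) ⟨w, Finset.mem_univ w, ?_⟩
    · split_ifs
      · exact le_max_right _ _
      · exact le_rfl
    · rw [if_pos hw]
      exact lt_max_of_lt_left hw2
  have hN : (0 : ℝ) < 2 * (Fintype.card V : ℝ) + 1 := by positivity
  refine ⟨G ν0 / (2 * (Fintype.card V : ℝ) + 1), div_pos hpos hN, fun X hX ν hν => ?_⟩
  by_contra hcon
  push Not at hcon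
  obtain ⟨ε, hε⟩ : ∃ ε : ℝ, ε = G ν0 / (2 * (Fintype.card V : ℝ) + 1) := ⟨_, rfl⟩
  rw [← hε] at hX
  have hnν : 0 < ‖ν‖ := norm_pos_iff.2 hν
  have hμ : ‖ν‖⁻¹ • ν ∈ Metric.sphere (0 : E3) 1 := by
    rw [mem_sphere_zero_iff_norm, norm_smul, norm_inv, norm_norm, inv_mul_cancel₀ hnν.ne']
  have hμ1 : ‖‖ν‖⁻¹ • ν‖ = 1 := mem_sphere_zero_iff_norm.1 hμ
  have h1 : G ν0 ≤ G (‖ν‖⁻¹ • ν) := hmin hμ
  have hε0 : 0 < ε := by rw [hε]; exact div_pos hpos hN
  have h2 : ∀ w, K.Adj v w → (⟪‖ν‖⁻¹ • ν, p w - p v⟫ : ℝ) ≤ 2 * ε := by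
    intro w hw
    have a1 : (⟪‖ν‖⁻¹ • ν, X w - X v⟫ : ℝ) ≤ 0 := by
      rw [real_inner_smul_left]
      exact mul_nonpos_of_nonneg_of_nonpos (inv_nonneg.2 hnν.le) (hcon w hw)
    have a2 : (⟪‖ν‖⁻¹ • ν, p w - p v⟫ : ℝ) = ⟪‖ν‖⁻¹ • ν, X w - X v⟫ +
        ⟪‖ν‖⁻¹ • ν, (p w - X w) - (p v - X v)⟫ := by
      rw [← inner_add_right]
      congr 1
      abel
    have a3 : (⟪‖ν‖⁻¹ • ν, (p w - X w) - (p v - X v)⟫ : ℝ) ≤
        ‖(p w - X w) - (p v - X v)‖ := by
      have := real_inner_le_norm (‖ν‖⁻¹ • ν) ((p w - X w) - (p v - X v))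
      rwa [hμ1, one_mul] at this
    have a4 : ‖(p w - X w) - (p v - X v)‖ ≤ ‖p w - X w‖ + ‖p v - X v‖ := norm_sub_le _ _
    have a5 : ‖p w - X w‖ < ε := by rw [norm_sub_rev]; exact hX w
    have a6 : ‖p v - X v‖ < ε := by rw [norm_sub_rev]; exact hX v
    linarith
  have h3 : G (‖ν‖⁻¹ • ν) ≤ (Fintype.card V : ℝ) * (2 * ε) := by
    rw [hGdef]
    calc (∑ w, if K.Adj v w then max (⟪‖ν‖⁻¹ • ν, p w - p v⟫ : ℝ) 0 else 0)
        ≤ ∑ w : V, 2 * ε := by
          refine Finset.sum_le_sum fun w _ => ?_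
          split_ifs with h
          · exact max_le (h2 w h) (by linarith)
          · linarith
      _ = (Fintype.card V : ℝ) * (2 * ε) := by
          rw [Finset.sum_const, Finset.card_univ, nsmul_eq_mul]
  have h4 : (2 * (Fintype.card V : ℝ) + 1) * ε = G ν0 := by
    rw [hε]
    field_simp
  nlinarith

end Pool.Agent.TSQ
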