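import Pool.Agent.TSQ.Stmts

/-!
# CIA: the stars of the ends `x` and `y` after a split
-/

set_option autoImplicit false

open scoped RealInnerProductSpace Topology

namespace Pool.Agent.TSQ

open Pool.Agent.TSM Pool.Agent.TSP

namespace CIA_

section
variable {V : Type} [Fintype V] [DecidableEq V]

omit [DecidableEq V] in
theorem sum_opt (ζ : Option V → ℝ) (D : V → E3) (w : E3) :
    ∑ o, ζ o • (fun o : Option V => o.elim w D) o = ζ none • w + ∑ u, ζ (some u) • D u := by
  rw [Fintype.sum_option]
  rfl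

theorem sum_split (f : V → E3) (z : V) : ∑ u, f u = f z + ∑ u ∈ Finset.univ.erase z, f u :=
  (Finset.add_sum_erase Finset.univ f (Finset.mem_univ z)).symm

/-- a sum supported on three vertices -/
theorem sum_three (f : V → E3) (z m b : V) (hzm : z ≠ m) (hzb : z ≠ b) (hmb : m ≠ b)
    (h : ∀ u, u ≠ z → u ≠ m → u ≠ b → f u = 0) : ∑ u, f u = f z + f m + f b := by
  rw [← Finset.sum_subset (Finset.subset_univ ({z, m, b} : Finset V))]
  · rw [Finset.sum_insert, Finset.sum_insert, Finset.sum_singleton, add_assoc]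
    · simp [hmb]
    · simp [hzm, hzb]
  · intro u _ hu
    simp only [Finset.mem_insert, Finset.mem_singleton, not_or] at hu
    exact h u hu.1 hu.2.1 hu.2.2

theorem sum_two (f : V → E3) (z m : V) (hzm : z ≠ m)
    (h : ∀ u, u ≠ z → u ≠ m → f u = 0) : ∑ u, f u = f z + f m := by
  rw [← Finset.sum_subset (Finset.subset_univ ({z, m} : Finset V))]
  · rw [Finset.sum_insert, Finset.sum_singleton]
    simp [hzm]
  · intro u _ hu
    simp only [Finset.mem_insert, Finset.mem_singleton, not_or] at hu
    exact h u hu.1 hu.2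

theorem kept_kept (A : Finset (Finset V)) (D : V → E3) (w : E3) (hA : ConeInj A D)
    (σ τ : Finset V) (hσ : σ ∈ A) (hτ : τ ∈ A) (ζ : Option V → ℝ)
    (h1 : ∀ o, o ∉ σ.image some → ζ o ≤ 0) (h2 : ∀ o, o ∉ τ.image some → 0 ≤ ζ o)
    (h3 : ∑ o, ζ o • (fun o : Option V => o.elim w D) o = 0) : ζ = 0 := by
  have hn : ζ none = 0 :=
    le_antisymm (h1 none (by simp)) (h2 none (by simp))
  rw [sum_opt, hn, zero_smul, zero_add] at h3
  have key := hA σ hσ τ hτ (fun u => ζ (some u))
    (fun u hu => h1 (some u) (by simpa using hu)) (fun u hu => h2 (some u) (by simpa using hu)) h3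
  funext o
  cases o with
  | none => exact hn
  | some u => exact congrFun key u

/-- new positive part, kept negative part not containing `z` -/
theorem new_kept1 (A : Finset (Finset V)) (D : V → E3) (z m : V) (g : E3) (ε s : ℝ)
    (hc : ∀ d' : V → E3, (∀ σ ∈ A, ∀ u ∈ σ, ‖d' u - D u‖ < ε) → ConeInj A d')
    (hzm : {z, m} ∈ A) (hε : 0 < ε) (hs : 0 < s) (hsg : s * ‖g‖ < ε)
    (τ : Finset V) (hτ : τ ∈ A) (hz : z ∉ τ) (ζ : Option V → ℝ)
    (h1 : ∀ u, u ≠ z → u ≠ m → ζ (some u) ≤ 0) (h2 : ∀ o, o ∉ τ.image some → 0 ≤ ζ o)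
    (h3 : ∑ o, ζ o • (fun o : Option V => o.elim (D z + s • g) D) o = 0) : ζ = 0 := by
  have hn : 0 ≤ ζ none := h2 none (by simp)
  have hzz : 0 ≤ ζ (some z) := h2 (some z) (by simpa using hz)
  obtain ⟨s', hs'0, hs's, hs'⟩ : ∃ s' : ℝ, 0 ≤ s' ∧ s' ≤ s ∧
      (ζ (some z) + ζ none) * s' = s * ζ none := by
    rcases (add_nonneg hzz hn).eq_or_lt with h | h
    · have : ζ none = 0 := by linarith
      exact ⟨0, le_rfl, hs.le, by rw [this]; ring⟩
    · refine ⟨s * ζ none / (ζ (some z) + ζ none), ?_, ?_, ?_⟩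
      · exact div_nonneg (mul_nonneg hs.le hn) h.le
      · rw [div_le_iff₀ h]
        exact mul_le_mul_of_nonneg_left (by linarith) hs.le
      · field_simp
  have hC : ConeInj A (Function.update D z (D z + s' • g)) := by
    refine hc _ fun σ _ u _ => ?_
    by_cases hu : u = z
    · rw [hu, Function.update_self, add_sub_cancel_left, norm_smul, Real.norm_eq_abs,
        abs_of_nonneg hs'0]
      exact (mul_le_mul_of_nonneg_right hs's (norm_nonneg g)).trans_lt hsg
    · rw [Function.update_of_ne hu, sub_self, norm_zero]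
      exact hε
  have key := hC {z, m} hzm τ hτ
    (Function.update (fun u => ζ (some u)) z (ζ (some z) + ζ none)) ?_ ?_ ?_
  · have hz0 : ζ (some z) + ζ none = 0 := by
      have := congrFun key z
      rw [Function.update_self] at this
      exact this
    funext o
    cases o with
    | none =>
      show ζ none = 0
      linarith
    | some u =>
      by_cases hu : u = z
      · rw [hu]
        show ζ (some z) = 0
        linarith
      · have := congrFun key u
        rw [Function.update_of_ne hu] at this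
        exact this
  · intro u hu
    simp only [Finset.mem_insert, Finset.mem_singleton, not_or] at hu
    rw [Function.update_of_ne hu.1]
    exact h1 u hu.1 hu.2
  · intro u hu
    by_cases huz : u = z
    · rw [huz, Function.update_self]
      exact add_nonneg hzz hn
    · rw [Function.update_of_ne huz]
      exact h2 (some u) (by simpa using hu)
  · rw [sum_opt, sum_split (fun u => ζ (some u) • D u) z] at h3
    rw [sum_split _ z, Function.update_self, Function.update_self]
    have e : ∑ u ∈ Finset.univ.erase z,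
        Function.update (fun u => ζ (some u)) z (ζ (some z) + ζ none) u •
          Function.update D z (D z + s' • g) u = ∑ u ∈ Finset.univ.erase z, ζ (some u) • D u := by
      refine Finset.sum_congr rfl fun u hu => ?_
      have hu' := Finset.ne_of_mem_erase hu
      rw [Function.update_of_ne hu', Function.update_of_ne hu']
    rw [e]
    have e2 : (ζ (some z) + ζ none) • (D z + s' • g) =
        ζ none • (D z + s • g) + ζ (some z) • D z := by
      have : (ζ (some z) + ζ none) • (D z + s' • g) =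
          (ζ (some z) + ζ none) • D z + ((ζ (some z) + ζ none) * s') • g := by
        rw [smul_add, smul_smul]
      rw [this, hs']
      module
    rw [e2, add_assoc]
    exact h3

/-- new positive part, kept negative part `{b, z}` -/
theorem new_kept2 (A : Finset (Finset V)) (D : V → E3) (z m b : V) (g : E3) (s : ℝ)
    (hA : ConeInj A D) (hzmA : {z, m} ∈ A) (hbzA : {b, z} ∈ A) (hzm : z ≠ m) (hzb : z ≠ b)
    (hmb : m ≠ b) (hs : 0 < s)
    (hlr : ∀ l μ k r : ℝ, 0 < μ → 0 ≤ k → 0 ≤ r → l • D z + μ • g + k • D m ≠ r • D b)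
    (ζ : Option V → ℝ)
    (h1 : ∀ u, u ≠ z → u ≠ m → ζ (some u) ≤ 0)
    (h2 : ∀ o, o ∉ ({b, z} : Finset V).image some → 0 ≤ ζ o)
    (h3 : ∑ o, ζ o • (fun o : Option V => o.elim (D z + s • g) D) o = 0) : ζ = 0 := by
  have hn : 0 ≤ ζ none := h2 none (by simp)
  have hm : 0 ≤ ζ (some m) := h2 (some m) (by simp [hmb, hzm.symm])
  have hb : ζ (some b) ≤ 0 := h1 b hzb.symm hmb.symm
  have h0 : ∀ u, u ≠ z → u ≠ m → u ≠ b → ζ (some u) • D u = 0 := by
    intro u huz hum hub
    have e1 := h1 u huz hum
    have e2 := h2 (some u) (by simp [hub, huz])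
    rw [le_antisymm e1 e2, zero_smul]
  rw [sum_opt, sum_three _ z m b hzm hzb hmb h0] at h3
  have hn0 : ζ none = 0 := by
    rcases hn.eq_or_lt with h | h
    · exact h.symm
    · exfalso
      refine hlr (ζ (some z) + ζ none) (s * ζ none) (ζ (some m)) (-(ζ (some b)))
        (mul_pos hs h) hm (by linarith) ?_
      have e : (ζ (some z) + ζ none) • D z + (s * ζ none) • g + ζ (some m) • D m -
          (-(ζ (some b))) • D b = ζ none • (D z + s • g) +
            (ζ (some z) • D z + ζ (some m) • D m + ζ (some b) • D b) := by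
        module
      rw [← sub_eq_zero, e]
      exact h3
  have key := hA {z, m} hzmA {b, z} hbzA (fun u => ζ (some u)) ?_ ?_ ?_
  · funext o
    cases o with
    | none => exact hn0
    | some u => exact congrFun key u
  · intro u hu
    simp only [Finset.mem_insert, Finset.mem_singleton, not_or] at hu
    exact h1 u hu.1 hu.2
  · intro u hu
    exact h2 (some u) (by simpa using hu)
  · rw [sum_three _ z m b hzm hzb hmb h0]
    rw [hn0, zero_smul, zero_add] at h3
    exact h3

theorem new_new (D : V → E3) (z m : V) (g n : E3) (s : ℝ) (hzm : z ≠ m)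
    (hnz : ⟪n, D z⟫ = 0) (hng : ⟪n, g⟫ = 0) (hnm : ⟪n, D m⟫ ≠ 0) (hI : Indep2 (D z) g)
    (hs : 0 < s) (ζ : Option V → ℝ)
    (h1 : ∀ u, u ≠ z → u ≠ m → ζ (some u) ≤ 0) (h2 : ∀ u, u ≠ z → u ≠ m → 0 ≤ ζ (some u))
    (h3 : ∑ o, ζ o • (fun o : Option V => o.elim (D z + s • g) D) o = 0) : ζ = 0 := by
  have h0 : ∀ u, u ≠ z → u ≠ m → ζ (some u) = 0 := fun u h h' =>
    le_antisymm (h1 u h h') (h2 u h h')
  rw [sum_opt, sum_two _ z m hzm fun u h h' => by rw [h0 u h h', zero_smul]] at h3
  have hm0 : ζ (some m) = 0 := by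
    have := congrArg (fun x => ⟪n, x⟫) h3
    simp only [inner_add_right, inner_smul_right, hnz, hng, inner_zero_right, mul_zero, add_zero,
      zero_add] at this
    exact (mul_eq_zero.1 this).resolve_right hnm
  have e := hI (ζ (some z) + ζ none) (s * ζ none) (by
    have e : (ζ (some z) + ζ none) • D z + (s * ζ none) • g = ζ none • (D z + s • g) +
        (ζ (some z) • D z + (0 : ℝ) • D m) := by
      module
    rw [e, ← hm0]
    exact h3)
  have hn0 : ζ none = 0 := (mul_eq_zero.1 e.2).resolve_left hs.ne'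
  have hz0 : ζ (some z) = 0 := by linarith [e.1]
  funext o
  cases o with
  | none => exact hn0
  | some u =>
    by_cases hu : u = z
    · rw [hu]; exact hz0
    · by_cases hu' : u = m
      · rw [hu']; exact hm0
      · exact h0 u hu hu'

end

end CIA_

theorem CIA_proof (hCIO : Stmt_CIO) : Stmt_CIA := by
  intro V _ _ A D z m b g n hA hzmA hbzA hone hzm hzb hmb hnz hng hnm hI hlr
  obtain ⟨ε, hε, hc⟩ := hCIO V A D hA
  have hg : 0 < ‖g‖ + 1 := by positivity
  refine ⟨ε / (‖g‖ + 1), div_pos hε hg, fun s hs hs0 A' hA' => ?_⟩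
  have hsg : s * ‖g‖ < ε := by
    rw [lt_div_iff₀ hg] at hs0
    linarith
  -- the case of a new and a kept set
  have NK : ∀ τ ∈ A, τ ≠ {z, m} → ∀ ζ : Option V → ℝ,
      (∀ u, u ≠ z → u ≠ m → ζ (some u) ≤ 0) → (∀ o, o ∉ τ.image some → 0 ≤ ζ o) →
      ∑ o, ζ o • (fun o : Option V => o.elim (D z + s • g) D) o = 0 → ζ = 0 := by
    intro τ hτ hτne ζ h1 h2 h3
    by_cases hz : z ∈ τ
    · rcases hone τ hτ hz with h | h
      · exact absurd h hτne
      · subst h
        exact CIA_.new_kept2 A D z m b g s hA hzmA hbzA hzm hzb hmb hs hlr ζ h1 h2 h3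
    · exact CIA_.new_kept1 A D z m g ε s hc hzmA hε hs hsg τ hτ hz ζ h1 h2 h3
  have hnew : ∀ τ : Finset (Option V), (τ = {some z, none} ∨ τ = {none, some m}) →
      ∀ u, u ≠ z → u ≠ m → some u ∉ τ := by
    rintro τ (rfl | rfl) u hu hu' h
    · simp [hu] at h
    · simp [hu'] at h
  intro σ hσ τ hτ ζ h1 h2 h3
  rcases hA' σ hσ with ⟨σ0, hσ0, hσne, rfl⟩ | hσn
  · rcases hA' τ hτ with ⟨τ0, hτ0, hτne, rfl⟩ | hτn
    · exact CIA_.kept_kept A D _ hA σ0 τ0 hσ0 hτ0 ζ h1 h2 h3
    · have key := NK σ0 hσ0 hσne (fun o => - ζ o)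
        (fun u hu hu' => by
          have := h2 (some u) (hnew τ hτn u hu hu')
          linarith)
        (fun o ho => by
          have := h1 o ho
          linarith)
        (by
          simp only [neg_smul, Finset.sum_neg_distrib]
          rw [neg_eq_zero]
          exact h3)
      funext o
      have := congrFun key o
      simp only [Pi.zero_apply, neg_eq_zero] at this
      exact this
  · rcases hA' τ hτ with ⟨τ0, hτ0, hτne, rfl⟩ | hτn
    · exact NK τ0 hτ0 hτne ζ (fun u hu hu' => h1 (some u) (hnew σ hσn u hu hu')) h2 h3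
    · exact CIA_.new_new D z m g n s hzm hnz hng hnm hI hs ζ
        (fun u hu hu' => h1 (some u) (hnew σ hσn u hu hu'))
        (fun u hu hu' => h2 (some u) (hnew τ hτn u hu hu')) h3

end Pool.Agent.TSQ
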