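import Pool.Agent.TSQ.Stmts

/-!
# TSQ.CIM: the stars of the middle vertices after a split
-/

set_option autoImplicit false

open scoped RealInnerProductSpace

namespace Pool.Agent.TSQ

open Pool.Agent.TSM Pool.Agent.TSP

theorem CIM_proof (hCIO : Stmt_CIO) : Stmt_CIM := by
  intro V _ _ A D z g hA
  obtain ⟨ε, hε, hCI⟩ := hCIO V A D hA
  refine ⟨ε / (‖g‖ + 1), by positivity, ?_⟩
  intro s hs0 hs A' hA' σ' hσ' τ' hτ' ζ h1 h2 h3
  obtain ⟨σ, hσ, rfl⟩ := hA' σ' hσ'
  obtain ⟨τ, hτ, rfl⟩ := hA' τ' hτ'
  have hz : ∀ ρ : Finset V, some z ∉ ρ.image fun u => if u = z then none else some u := by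
    intro ρ h
    rw [Finset.mem_image] at h
    obtain ⟨u, _, hu⟩ := h
    split_ifs at hu with h'
    exact h' (Option.some.inj hu)
  have hsz : ζ (some z) = 0 := le_antisymm (h1 _ (hz σ)) (h2 _ (hz τ))
  have hCI2 := hCI (fun u => if u = z then D z + s • g else D u) (by
    intro ρ _ u _
    by_cases hu : u = z
    · subst hu
      simp only [if_true, add_sub_cancel_left]
      rw [norm_smul, Real.norm_eq_abs, abs_of_pos hs0]
      have : s * (‖g‖ + 1) < ε := by
        rw [lt_div_iff₀ (by positivity)] at hs; exact hs
      nlinarith [norm_nonneg g]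
    · simp only [hu, if_false, sub_self, norm_zero]; exact hε)
  have key : ∀ ρ : Finset V, ∀ u, u ∉ ρ →
      (if u = z then none else some u) ∉ ρ.image fun u => if u = z then none else some u := by
    intro ρ u hu h
    rw [Finset.mem_image] at h
    obtain ⟨w, hw, hwu⟩ := h
    have : w = u := by
      split_ifs at hwu with h1 h2 h2
      · rw [h1, h2]
      · exact Option.some.inj hwu
    exact hu (this ▸ hw)
  have := hCI2 σ hσ τ hτ (fun u => ζ (if u = z then none else some u))
    (fun u hu => h1 _ (key σ u hu)) (fun u hu => h2 _ (key τ u hu)) (by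
      rw [Fintype.sum_option] at h3
      rw [← h3]
      simp only [Option.elim]
      rw [← Finset.add_sum_erase _ _ (Finset.mem_univ z),
        ← Finset.add_sum_erase (a := z) Finset.univ (fun u => ζ (some u) • D u)
          (Finset.mem_univ z), hsz, zero_smul, zero_add]
      simp only [if_true]
      congr 1
      refine Finset.sum_congr rfl fun u hu => ?_
      rw [Finset.mem_erase] at hu
      simp only [hu.1, if_false])
  funext o
  cases o with
  | none =>
    have := congrFun this z
    simpa using this
  | some u =>
    by_cases hu : u = z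
    · rw [hu, hsz]; rfl
    · have := congrFun this u
      simpa [hu] using this

end Pool.Agent.TSQ
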