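import Pool.Agent.TSQ.Stmts

/-!
# TSQ.CIO: cone injectivity is an open condition
-/

set_option autoImplicit false

open scoped RealInnerProductSpace

namespace Pool.Agent.TSQ

open Pool.Agent.TSM Pool.Agent.TSP

namespace CIO_

variable {V : Type} [Fintype V] [DecidableEq V]

/-- The compact set of normalised relations of type `(σ, τ)`. -/
def Rel (σ τ : Finset V) : Set (V → ℝ) :=
  {ζ | (∀ u, u ∉ σ → ζ u ≤ 0) ∧ (∀ u, u ∉ τ → 0 ≤ ζ u) ∧ ∑ u, |ζ u| = 1}

theorem isCompact_Rel (σ τ : Finset V) : IsCompact (Rel σ τ) := by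
  refine Metric.isCompact_of_isClosed_isBounded ?_ ?_
  · have h1 : IsClosed {ζ : V → ℝ | ∀ u, u ∉ σ → ζ u ≤ 0} := by
      simp only [Set.setOf_forall]
      exact isClosed_iInter fun u => isClosed_iInter fun _ =>
        isClosed_le (continuous_apply u) continuous_const
    have h2 : IsClosed {ζ : V → ℝ | ∀ u, u ∉ τ → 0 ≤ ζ u} := by
      simp only [Set.setOf_forall]
      exact isClosed_iInter fun u => isClosed_iInter fun _ =>
        isClosed_le continuous_const (continuous_apply u)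
    have h3 : IsClosed {ζ : V → ℝ | ∑ u, |ζ u| = 1} :=
      isClosed_eq (continuous_finset_sum _ fun u _ => (continuous_apply u).abs) continuous_const
    have h4 : Rel σ τ = ({ζ : V → ℝ | ∀ u, u ∉ σ → ζ u ≤ 0} ∩ {ζ : V → ℝ | ∀ u, u ∉ τ → 0 ≤ ζ u}) ∩
        {ζ : V → ℝ | ∑ u, |ζ u| = 1} := by
      ext ζ; simp only [Rel, Set.mem_inter_iff, Set.mem_setOf_eq, and_assoc]
    rw [h4]
    exact (h1.inter h2).inter h3
  · refine (Metric.isBounded_closedBall (x := (0 : V → ℝ)) (r := 1)).subset ?_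
    intro ζ hζ
    rw [mem_closedBall_zero_iff, pi_norm_le_iff_of_nonneg zero_le_one]
    intro u
    rw [Real.norm_eq_abs, ← hζ.2.2]
    exact Finset.single_le_sum (f := fun u => |ζ u|) (fun _ _ => abs_nonneg _)
      (Finset.mem_univ u)

theorem pair (A : Finset (Finset V)) (d : V → E3) (hA : ConeInj A d) (σ τ : Finset V)
    (hσ : σ ∈ A) (hτ : τ ∈ A) :
    ∃ ε : ℝ, 0 < ε ∧ ∀ d' : V → E3, (∀ ρ ∈ A, ∀ u ∈ ρ, ‖d' u - d u‖ < ε) →
      ∀ ζ : V → ℝ, (∀ u, u ∉ σ → ζ u ≤ 0) → (∀ u, u ∉ τ → 0 ≤ ζ u) → ∑ u, ζ u • d' u = 0 →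
        ζ = 0 := by
  by_cases hne : (Rel σ τ).Nonempty
  · have hc : ContinuousOn (fun ζ : V → ℝ => ‖∑ u, ζ u • d u‖) (Rel σ τ) := by
      apply Continuous.continuousOn
      fun_prop
    obtain ⟨ζ0, hζ0, hmin⟩ := (isCompact_Rel σ τ).exists_isMinOn hne hc
    have hpos : 0 < ‖∑ u, ζ0 u • d u‖ := by
      rw [norm_pos_iff]
      intro h0
      have := hA σ hσ τ hτ ζ0 hζ0.1 hζ0.2.1 h0
      have h1 := hζ0.2.2
      rw [this] at h1
      simp at h1
    refine ⟨‖∑ u, ζ0 u • d u‖, hpos, ?_⟩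
    intro d' hd' ζ h1 h2 h3
    by_contra hζ
    have hS : 0 < ∑ u, |ζ u| := by
      obtain ⟨u, hu⟩ := Function.ne_iff.1 hζ
      exact Finset.sum_pos' (fun _ _ => abs_nonneg _) ⟨u, Finset.mem_univ u, abs_pos.2 hu⟩
    set S := ∑ u, |ζ u| with hSdef
    set ξ : V → ℝ := fun u => S⁻¹ * ζ u with hξ
    have hξR : ξ ∈ Rel σ τ := by
      refine ⟨fun u hu => ?_, fun u hu => ?_, ?_⟩
      · exact mul_nonpos_of_nonneg_of_nonpos (by positivity) (h1 u hu)
      · exact mul_nonneg (by positivity) (h2 u hu)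
      · simp only [hξ, abs_mul, ← Finset.mul_sum]
        rw [abs_of_pos (inv_pos.2 hS), ← hSdef, inv_mul_cancel₀ hS.ne']
    have hm := hmin hξR
    simp only at hm
    have h4 : ∑ u, ξ u • d' u = 0 := by
      simp only [hξ, mul_smul, ← Finset.smul_sum]
      rw [h3, smul_zero]
    have h5 : ∑ u, ξ u • d u = - ∑ u, ξ u • (d' u - d u) := by
      simp only [smul_sub, Finset.sum_sub_distrib]
      rw [h4, zero_sub, neg_neg]
    have h6 : ‖∑ u, ξ u • d u‖ < ‖∑ u, ζ0 u • d u‖ := by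
      rw [h5, norm_neg]
      have h7 : ∀ u, ‖ξ u • (d' u - d u)‖ ≤ |ξ u| * ‖∑ u, ζ0 u • d u‖ := by
        intro u
        rw [norm_smul, Real.norm_eq_abs]
        by_cases hu : u ∈ σ ∨ u ∈ τ
        · rcases hu with hu | hu
          · exact mul_le_mul_of_nonneg_left (hd' σ hσ u hu).le (abs_nonneg _)
          · exact mul_le_mul_of_nonneg_left (hd' τ hτ u hu).le (abs_nonneg _)
        · push Not at hu
          have : ξ u = 0 := le_antisymm (hξR.1 u hu.1) (hξR.2.1 u hu.2)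
          rw [this, abs_zero, zero_mul, zero_mul]
      obtain ⟨u0, hu0⟩ : ∃ u, ξ u ≠ 0 := by
        by_contra hcon
        push Not at hcon
        have := hξR.2.2
        simp [hcon] at this
      calc ‖∑ u, ξ u • (d' u - d u)‖ ≤ ∑ u, ‖ξ u • (d' u - d u)‖ := norm_sum_le _ _
        _ < ∑ u, |ξ u| * ‖∑ u, ζ0 u • d u‖ := by
            refine Finset.sum_lt_sum (fun u _ => h7 u) ⟨u0, Finset.mem_univ _, ?_⟩
            rw [norm_smul, Real.norm_eq_abs]
            have hu : u0 ∈ σ ∨ u0 ∈ τ := by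
              by_contra hcon
              push Not at hcon
              exact hu0 (le_antisymm (hξR.1 u0 hcon.1) (hξR.2.1 u0 hcon.2))
            rcases hu with hu | hu
            · exact mul_lt_mul_of_pos_left (hd' σ hσ u0 hu) (abs_pos.2 hu0)
            · exact mul_lt_mul_of_pos_left (hd' τ hτ u0 hu) (abs_pos.2 hu0)
        _ = ‖∑ u, ζ0 u • d u‖ := by rw [← Finset.sum_mul, hξR.2.2, one_mul]
    exact absurd hm (not_le.2 h6)
  · refine ⟨1, one_pos, ?_⟩
    intro d' _ ζ h1 h2 _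
    by_contra hζ
    have hS : 0 < ∑ u, |ζ u| := by
      obtain ⟨u, hu⟩ := Function.ne_iff.1 hζ
      exact Finset.sum_pos' (fun _ _ => abs_nonneg _) ⟨u, Finset.mem_univ u, abs_pos.2 hu⟩
    refine hne ⟨fun u => (∑ u, |ζ u|)⁻¹ * ζ u, fun u hu => ?_, fun u hu => ?_, ?_⟩
    · exact mul_nonpos_of_nonneg_of_nonpos (by positivity) (h1 u hu)
    · exact mul_nonneg (by positivity) (h2 u hu)
    · simp only [abs_mul, ← Finset.mul_sum]
      rw [abs_of_pos (inv_pos.2 hS), inv_mul_cancel₀ hS.ne']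

end CIO_

theorem CIO_proof : Stmt_CIO := by
  intro V _ _ A d hA
  have key : ∀ B : Finset (Finset V × Finset V), (∀ q ∈ B, q.1 ∈ A ∧ q.2 ∈ A) →
      ∃ ε : ℝ, 0 < ε ∧ ∀ d' : V → E3, (∀ ρ ∈ A, ∀ u ∈ ρ, ‖d' u - d u‖ < ε) →
        ∀ q ∈ B, ∀ ζ : V → ℝ, (∀ u, u ∉ q.1 → ζ u ≤ 0) → (∀ u, u ∉ q.2 → 0 ≤ ζ u) →
          ∑ u, ζ u • d' u = 0 → ζ = 0 := by
    intro B
    induction B using Finset.induction_on with
    | empty => intro _; exact ⟨1, one_pos, fun _ _ q hq => absurd hq (Finset.notMem_empty q)⟩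
    | insert q B _ ih =>
      intro hB
      obtain ⟨ε1, he1, h1⟩ := ih fun q hq => hB q (Finset.mem_insert_of_mem hq)
      obtain ⟨h2a, h2b⟩ := hB q (Finset.mem_insert_self _ _)
      obtain ⟨ε2, he2, h2⟩ := CIO_.pair A d hA q.1 q.2 h2a h2b
      refine ⟨min ε1 ε2, lt_min he1 he2, ?_⟩
      intro d' hd' q' hq'
      rw [Finset.mem_insert] at hq'
      rcases hq' with rfl | hq'
      · exact h2 d' fun ρ hρ u hu => (hd' ρ hρ u hu).trans_le (min_le_right _ _)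
      · exact h1 d' (fun ρ hρ u hu => (hd' ρ hρ u hu).trans_le (min_le_left _ _)) q' hq'
  obtain ⟨ε, hε, h⟩ := key (A ×ˢ A) fun q hq => Finset.mem_product.1 hq
  exact ⟨ε, hε, fun d' hd' σ hσ τ hτ ζ h1 h2 h3 =>
    h d' hd' (σ, τ) (Finset.mem_product.2 ⟨hσ, hτ⟩) ζ h1 h2 h3⟩

end Pool.Agent.TSQ
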