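import Pool.Agent.TSQ.Stmts

/-!
# TSQ.CIS: stars which are unchanged by a split
-/

set_option autoImplicit false

open scoped RealInnerProductSpace

namespace Pool.Agent.TSQ

open Pool.Agent.TSM Pool.Agent.TSP

theorem CIS_proof : Stmt_CIS := by
  intro V _ _ A D hA A' hA' σ' hσ' τ' hτ' ζ h1 h2 h3
  obtain ⟨σ, hσ, rfl⟩ := hA' σ' hσ'
  obtain ⟨τ, hτ, rfl⟩ := hA' τ' hτ'
  have hn : ζ none = 0 := le_antisymm (h1 none (by simp)) (h2 none (by simp))
  have := hA σ hσ τ hτ (fun u => ζ (some u)) (fun u hu => h1 (some u) (by simpa using hu))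
    (fun u hu => h2 (some u) (by simpa using hu)) (by
      rw [Fintype.sum_option, hn, zero_smul, zero_add] at h3
      exact h3)
  funext o
  cases o with
  | none => exact hn
  | some u => exact congrFun this u

end Pool.Agent.TSQ
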