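import Pool.Agent.TSQ.Stmts

/-!
# TSQ.CIW: the star of the new vertex of a vertex split
-/

set_option autoImplicit false

open scoped RealInnerProductSpace

namespace Pool.Agent.TSQ

open Pool.Agent.TSM Pool.Agent.TSP

namespace CIW_

section
variable {V : Type} [Fintype V] [DecidableEq V]

/-- a relation supported on `x, y, z` -/
theorem rel3 {d : V → E3} {x y z : V} (hxy : x ≠ y) (hxz : x ≠ z) (hyz : y ≠ z) (hz : d z = 0)
    (hI : Indep2 (d x) (d y)) {s : ℝ} (ζ : V → ℝ) (h0 : ∀ u, u ≠ x → u ≠ y → u ≠ z → ζ u = 0)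
    (h : ∑ u, ζ u • (d u - s • (d x + d y)) = 0) :
    ζ x = ζ y ∧ s * ζ z = ζ x * (1 - 2 * s) := by
  have h1 : ∑ u, ζ u • (d u - s • (d x + d y)) =
      ζ x • (d x - s • (d x + d y)) + (ζ y • (d y - s • (d x + d y)) +
        ζ z • (d z - s • (d x + d y))) := by
    rw [← Finset.sum_subset (Finset.subset_univ ({x, y, z} : Finset V))]
    · rw [Finset.sum_insert, Finset.sum_insert, Finset.sum_singleton]
      · simpa using hyz
      · simp only [Finset.mem_insert, Finset.mem_singleton, not_or]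
        exact ⟨hxy, hxz⟩
    · intro u _ hu
      simp only [Finset.mem_insert, Finset.mem_singleton, not_or] at hu
      rw [h0 u hu.1 hu.2.1 hu.2.2, zero_smul]
  rw [h1, hz] at h
  have h2 : (ζ x - s * (ζ x + ζ y + ζ z)) • d x + (ζ y - s * (ζ x + ζ y + ζ z)) • d y = 0 := by
    rw [← h]
    module
  obtain ⟨h3, h4⟩ := hI _ _ h2
  constructor
  · linarith
  · have h5 : ζ x = ζ y := by linarith
    rw [← h5] at h3
    linarith

/-- the main case: `σ` is one of the two new arcs -/
theorem main {B : Finset (Finset V)} {d : V → E3} {x y z : V} {n : E3} (hB : ∀ σ ∈ B, z ∉ σ)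
    (hz : d z = 0) (hxy : x ≠ y) (hxz : x ≠ z) (hyz : y ≠ z) (hI : Indep2 (d x) (d y))
    (hnx : ⟪n, d x⟫ = 0) (hny : ⟪n, d y⟫ = 0)
    (hn : ∀ σ ∈ B, ∀ u ∈ σ, u ≠ x → u ≠ y → ⟪n, d u⟫ < 0) {s : ℝ} (hs : 0 < s) (hs2 : s < 1 / 2)
    (σ τ : Finset V) (hσ : σ = {z, x} ∨ σ = {y, z}) (hτ : τ ∈ B ∨ τ = {z, x} ∨ τ = {y, z})
    (ζ : V → ℝ) (h1 : ∀ u, u ∉ σ → ζ u ≤ 0) (h2 : ∀ u, u ∉ τ → 0 ≤ ζ u)
    (h3 : ∑ u, ζ u • (d u - s • (d x + d y)) = 0) : ζ = 0 := by
  have hle : ∀ u, u ≠ x → u ≠ y → u ≠ z → ζ u ≤ 0 := by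
    intro u hux huy huz
    apply h1
    rcases hσ with rfl | rfl
    · simp only [Finset.mem_insert, Finset.mem_singleton, not_or]
      exact ⟨huz, hux⟩
    · simp only [Finset.mem_insert, Finset.mem_singleton, not_or]
      exact ⟨huy, huz⟩
  have h0 : ∀ u, u ≠ x → u ≠ y → u ≠ z → ζ u = 0 := by
    rcases hτ with hτ | hτ
    · -- apply the functional
      have h4 : ∑ u, ζ u * ⟪n, d u⟫ = 0 := by
        have := congrArg (fun v => ⟪n, v⟫) h3
        simp only [inner_sum, inner_smul_right, inner_sub_right, inner_add_right, inner_zero_right,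
          hnx, hny] at this
        simpa using this
      have h5 : ∀ u ∈ Finset.univ, 0 ≤ ζ u * ⟪n, d u⟫ := by
        intro u _
        by_cases hux : u = x
        · rw [hux, hnx, mul_zero]
        by_cases huy : u = y
        · rw [huy, hny, mul_zero]
        by_cases huz : u = z
        · rw [huz, hz, inner_zero_right, mul_zero]
        by_cases hu : u ∈ τ
        · exact mul_nonneg_of_nonpos_of_nonpos (hle u hux huy huz) (hn τ hτ u hu hux huy).le
        · have : ζ u = 0 := le_antisymm (hle u hux huy huz) (h2 u hu)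
          rw [this, zero_mul]
      have h6 := (Finset.sum_eq_zero_iff_of_nonneg h5).1 h4
      intro u hux huy huz
      by_cases hu : u ∈ τ
      · have h7 := h6 u (Finset.mem_univ u)
        rcases mul_eq_zero.1 h7 with h8 | h8
        · exact h8
        · exact absurd h8 (hn τ hτ u hu hux huy).ne
      · exact le_antisymm (hle u hux huy huz) (h2 u hu)
    · intro u hux huy huz
      refine le_antisymm (hle u hux huy huz) (h2 u ?_)
      rcases hτ with rfl | rfl
      · simp only [Finset.mem_insert, Finset.mem_singleton, not_or]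
        exact ⟨huz, hux⟩
      · simp only [Finset.mem_insert, Finset.mem_singleton, not_or]
        exact ⟨huy, huz⟩
  obtain ⟨h4, h5⟩ := rel3 hxy hxz hyz hz hI ζ h0 h3
  have hc1 : ζ x ≤ 0 := by
    rcases hσ with rfl | rfl
    · rw [h4]
      apply h1
      simp only [Finset.mem_insert, Finset.mem_singleton, not_or]
      exact ⟨hyz, hxy.symm⟩
    · apply h1
      simp only [Finset.mem_insert, Finset.mem_singleton, not_or]
      exact ⟨hxy, hxz⟩
  have hc2 : 0 ≤ ζ x := by
    rcases hτ with hτ | rfl | rfl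
    · have h6 := h2 z (hB τ hτ)
      have h7 : 0 ≤ ζ x * (1 - 2 * s) := by
        rw [← h5]
        positivity
      exact nonneg_of_mul_nonneg_left h7 (by linarith)
    · rw [h4]
      apply h2
      simp only [Finset.mem_insert, Finset.mem_singleton, not_or]
      exact ⟨hyz, hxy.symm⟩
    · apply h2
      simp only [Finset.mem_insert, Finset.mem_singleton, not_or]
      exact ⟨hxy, hxz⟩
  have hx : ζ x = 0 := le_antisymm hc1 hc2
  have hzz : ζ z = 0 := by
    rw [hx, zero_mul] at h5
    rcases mul_eq_zero.1 h5 with h6 | h6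
    · exact absurd h6 hs.ne'
    · exact h6
  funext u
  change ζ u = 0
  by_cases hux : u = x
  · rw [hux, hx]
  by_cases huy : u = y
  · rw [huy, ← h4, hx]
  by_cases huz : u = z
  · rw [huz, hzz]
  exact h0 u hux huy huz

end

end CIW_

theorem CIW_proof (hCIO : Stmt_CIO) : Stmt_CIW := by
  intro V _ _ B d x y z n hB hzB hz hxy hxz hyz hI hnx hny hn
  obtain ⟨ε, hε, h⟩ := hCIO V B d hB
  have hg : 0 < ‖d x + d y‖ + 1 := by positivity
  refine ⟨min (1 / 2) (ε / (‖d x + d y‖ + 1)), lt_min (by norm_num) (div_pos hε hg), ?_⟩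
  intro s hs hs0
  have hs2 : s < 1 / 2 := lt_of_lt_of_le hs0 (min_le_left _ _)
  have hs3 : s * ‖d x + d y‖ < ε := by
    have h1 : s < ε / (‖d x + d y‖ + 1) := lt_of_lt_of_le hs0 (min_le_right _ _)
    rw [lt_div_iff₀ hg] at h1
    have h2 : s * ‖d x + d y‖ ≤ s * (‖d x + d y‖ + 1) :=
      mul_le_mul_of_nonneg_left (by linarith) hs.le
    linarith
  intro σ hσ τ hτ ζ h1 h2 h3
  have mem : ∀ σ : Finset V, σ ∈ B ∪ {{z, x}, {y, z}} → σ ∈ B ∨ σ = {z, x} ∨ σ = {y, z} := by
    intro σ hσ
    simpa only [Finset.mem_union, Finset.mem_insert, Finset.mem_singleton] using hσ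
  rcases mem σ hσ with hσ' | hσ'
  · rcases mem τ hτ with hτ' | hτ'
    · refine h (fun u => d u - s • (d x + d y)) ?_ σ hσ' τ hτ' ζ h1 h2 h3
      intro _ _ u _
      rw [sub_sub_cancel_left, norm_neg, norm_smul, Real.norm_of_nonneg hs.le]
      exact hs3
    · have h5 := CIW_.main hzB hz hxy hxz hyz hI hnx hny hn hs hs2 τ σ hτ' (Or.inl hσ')
        (fun u => -ζ u)
        (fun u hu => by
          have := h2 u hu
          linarith)
        (fun u hu => by
          have := h1 u hu
          linarith)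
        (by
          simp only [neg_smul, Finset.sum_neg_distrib]
          rw [h3, neg_zero])
      funext u
      have := congrFun h5 u
      change -ζ u = 0 at this
      change ζ u = 0
      linarith
  · exact CIW_.main hzB hz hxy hxz hyz hI hnx hny hn hs hs2 σ τ hσ' (mem τ hτ) ζ h1 h2 h3

end Pool.Agent.TSQ
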