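import Pool.Agent.TSQ.Stmts

set_option autoImplicit false

/-!
# TSQ, module CIZ: the star of `z` after a split
-/

open scoped RealInnerProductSpace

namespace Pool.Agent.TSQ

open Pool.Agent.TSM Pool.Agent.TSP

namespace CIZ_

variable {V : Type} [Fintype V] [DecidableEq V]

/-- One new arc and one old arc. -/
lemma mixed {A : Finset (Finset V)} {d : V → E3} {x y : V} {s : ℝ} (hs : 0 < s)
    (hA : ConeInj A d) (hx : ∃ σ ∈ A, x ∈ σ)
    (hfree : ∀ σ ∈ A, ∀ α : V → ℝ, (∀ u, 0 ≤ α u) → (∀ u, u ∉ σ → α u = 0) →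
      ∀ l m : ℝ, 0 < l → 0 < m → ∑ u, α u • d u ≠ l • d x + m • d y)
    {τ : Finset V} (hτ : τ ∈ A) (a : ℝ) (ζ : V → ℝ) (ha : 0 ≤ a) (h1 : ∀ u, u ≠ x → ζ u ≤ 0)
    (h2 : ∀ u, u ∉ τ → 0 ≤ ζ u) (h0 : a • (s • (d x + d y)) + ∑ v, ζ v • d v = 0) :
    a = 0 ∧ ζ = 0 := by
  have ha0 : a = 0 := by
    by_contra hne
    have hapos : 0 < a := lt_of_le_of_ne ha (Ne.symm hne)
    have hc : 0 ≤ max (ζ x) 0 := le_max_right _ _
    have has : 0 < a * s := mul_pos hapos hs
    refine hfree τ hτ (fun u => max (-ζ u) 0) (fun u => le_max_right _ _)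
      (fun u hu => max_eq_right (by have := h2 u hu; linarith)) (max (ζ x) 0 + a * s) (a * s)
      (by linarith) has ?_
    have e1 : ∀ u, max (-ζ u) 0 • d u = -(ζ u • d u) + (if u = x then max (ζ x) 0 • d u else 0) := by
      intro u
      by_cases hu : u = x
      · subst hu
        rw [if_pos rfl, ← neg_smul, ← add_smul]
        congr 1
        rcases le_total (ζ u) 0 with h | h
        · rw [max_eq_left (by linarith), max_eq_right h]
          ring
        · rw [max_eq_right (by linarith), max_eq_left h]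
          ring
      · rw [if_neg hu, add_zero, max_eq_left (by have := h1 u hu; linarith), neg_smul]
    have e2 : ∑ u, max (-ζ u) 0 • d u = -(∑ u, ζ u • d u) + max (ζ x) 0 • d x := by
      rw [Finset.sum_congr rfl fun u _ => e1 u, Finset.sum_add_distrib, Finset.sum_neg_distrib,
        Finset.sum_ite_eq' Finset.univ x, if_pos (Finset.mem_univ x)]
    have h3 : ∑ v, ζ v • d v = -(a • (s • (d x + d y))) := eq_neg_of_add_eq_zero_right h0
    change ∑ u, max (-ζ u) 0 • d u = _
    rw [e2, h3]
    module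
  subst ha0
  refine ⟨rfl, ?_⟩
  obtain ⟨σ, hσ, hxσ⟩ := hx
  refine hA σ hσ τ hτ ζ (fun u hu => h1 u ?_) h2 ?_
  · rintro rfl
    exact hu hxσ
  · rw [zero_smul, zero_add] at h0
    exact h0

end CIZ_

open CIZ_ in
theorem CIZ_proof : Stmt_CIZ := by
  intro V _ _ A d x y s hs hA hxy hx hy hfree A' hA'
  have hne : x ≠ y := by
    rintro rfl
    have h := hxy 1 (-1) (by simp)
    exact one_ne_zero h.1
  have hfree' : ∀ σ ∈ A, ∀ α : V → ℝ, (∀ u, 0 ≤ α u) → (∀ u, u ∉ σ → α u = 0) →
      ∀ l m : ℝ, 0 < l → 0 < m → ∑ u, α u • d u ≠ l • d y + m • d x := by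
    intro σ hσ α h1 h2 l m hl hm h
    exact hfree σ hσ α h1 h2 m l hm hl (by rw [h, add_comm])
  -- new and old
  have key : ∀ σ τ : Finset (Option V), (σ = {some x, none} ∨ σ = {none, some y}) →
      (∃ τ₀ ∈ A, τ = τ₀.image some) → ∀ ζ : Option V → ℝ, (∀ u, u ∉ σ → ζ u ≤ 0) →
      (∀ u, u ∉ τ → 0 ≤ ζ u) →
      ζ none • (s • (d x + d y)) + ∑ v, ζ (some v) • d v = 0 → ζ = 0 := by
    rintro σ τ hσ ⟨τ₀, hτ₀, rfl⟩ ζ h1 h2 h0
    have hn : 0 ≤ ζ none := h2 none (by simp)
    have h2' : ∀ u, u ∉ τ₀ → 0 ≤ ζ (some u) := fun u hu => h2 (some u) (by simpa using hu)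
    have hfin : ζ none = 0 ∧ (fun v => ζ (some v)) = 0 := by
      rcases hσ with rfl | rfl
      · exact mixed hs hA hx hfree hτ₀ (ζ none) (fun v => ζ (some v)) hn
          (fun u hu => h1 (some u) (by simp [hu])) h2' h0
      · refine mixed (x := y) (y := x) hs hA hy hfree' hτ₀ (ζ none) (fun v => ζ (some v)) hn
          (fun u hu => h1 (some u) (by simp [hu])) h2' ?_
        rw [add_comm (d y) (d x)]
        exact h0
    funext o
    cases o with
    | none => exact hfin.1
    | some v => exact congrFun hfin.2 v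
  intro σ hσ τ hτ ζ h1 h2 h0
  rw [Fintype.sum_option] at h0
  change ζ none • (s • (d x + d y)) + ∑ v, ζ (some v) • d v = 0 at h0
  rcases hA' σ hσ with hσ' | hσ' <;> rcases hA' τ hτ with hτ' | hτ'
  · obtain ⟨σ₀, hσ₀, rfl⟩ := hσ'
    obtain ⟨τ₀, hτ₀, rfl⟩ := hτ'
    have hn : ζ none = 0 := le_antisymm (h1 none (by simp)) (h2 none (by simp))
    rw [hn, zero_smul, zero_add] at h0
    have h3 := hA σ₀ hσ₀ τ₀ hτ₀ (fun v => ζ (some v))
      (fun u hu => h1 (some u) (by simpa using hu))
      (fun u hu => h2 (some u) (by simpa using hu)) h0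
    funext o
    cases o with
    | none => exact hn
    | some v => exact congrFun h3 v
  · obtain ⟨σ₀, hσ₀, rfl⟩ := hσ'
    have h3 := key τ _ hτ' ⟨σ₀, hσ₀, rfl⟩ (fun o => -ζ o)
      (fun u hu => by have := h2 u hu; linarith) (fun u hu => by have := h1 u hu; linarith) (by
        simp only [neg_smul]
        rw [Finset.sum_neg_distrib, ← neg_add, h0, neg_zero])
    funext o
    have h4 := congrFun h3 o
    simpa using h4
  · exact key σ τ hσ' hτ' ζ h1 h2 h0
  · have hz : ∀ u, u ≠ x → u ≠ y → ζ (some u) = 0 := by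
      intro u hux huy
      refine le_antisymm (h1 (some u) ?_) (h2 (some u) ?_)
      · rcases hσ' with rfl | rfl <;> simp [hux, huy]
      · rcases hτ' with rfl | rfl <;> simp [hux, huy]
    have e : ∑ v, ζ (some v) • d v = ζ (some x) • d x + ζ (some y) • d y := by
      rw [← Finset.sum_subset (Finset.subset_univ {x, y}) (fun u _ hu => ?_)]
      · rw [Finset.sum_pair hne]
      · simp only [Finset.mem_insert, Finset.mem_singleton, not_or] at hu
        rw [hz u hu.1 hu.2, zero_smul]
    rw [e] at h0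
    have h3 := hxy (ζ (some x) + s * ζ none) (ζ (some y) + s * ζ none) (by
      rw [← h0]
      module)
    have hle : ζ (some x) ≤ 0 := by
      rcases hσ' with rfl | rfl
      · have := h1 (some y) (by simp [hne.symm])
        linarith [h3.1, h3.2]
      · exact h1 (some x) (by simp [hne])
    have hge : 0 ≤ ζ (some x) := by
      rcases hτ' with rfl | rfl
      · have := h2 (some y) (by simp [hne.symm])
        linarith [h3.1, h3.2]
      · exact h2 (some x) (by simp [hne])
    have hx0 : ζ (some x) = 0 := le_antisymm hle hge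
    have hn : ζ none = 0 := by
      have h5 := h3.1
      rw [hx0, zero_add] at h5
      exact (mul_eq_zero.1 h5).resolve_left hs.ne'
    have hy0 : ζ (some y) = 0 := by
      have h5 := h3.2
      rw [hn, mul_zero, add_zero] at h5
      exact h5
    funext o
    cases o with
    | none => exact hn
    | some v =>
      by_cases hvx : v = x
      · rw [hvx]
        exact hx0
      · by_cases hvy : v = y
        · rw [hvy]
          exact hy0
        · exact hz v hvx hvy

end Pool.Agent.TSQ
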