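import Pool.Agent.TSQ.Stmts

/-!
# TSQ.CRN: corners in list form are corners
-/

set_option autoImplicit false

open scoped RealInnerProductSpace

namespace Pool.Agent.TSQ

open Pool.Agent.TSM Pool.Agent.TSP

namespace CRN_

theorem ev_sub (φ : E3 × ℝ) (x y : E3) : ⟪φ.1, x - y⟫ = ev φ x - ev φ y := by
  unfold ev
  rw [inner_sub_right]
  ring

section
variable {V : Type} [Fintype V] [DecidableEq V]

omit [Fintype V] in
theorem arc_mem {T : Finset (Finset V)} {v x y : V} (h : {v, x, y} ∈ T) (hx : x ≠ v)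
    (hy : y ≠ v) : {x, y} ∈ arcs T v := by
  refine Finset.mem_image.mpr ⟨{v, x, y}, Finset.mem_filter.mpr ⟨h, by simp⟩, ?_⟩
  rw [Finset.erase_insert]
  simp only [Finset.mem_insert, Finset.mem_singleton, not_or]
  exact ⟨hx.symm, hy.symm⟩

/-- a direction in the cone of an arc belongs to no other arc -/
theorem no_cone {A : Finset (Finset V)} {d : V → E3} (h : ConeInj A d) {x y z w : V}
    (h1 : {x, y} ∈ A) (h2 : {z, w} ∈ A) (hzx : z ≠ x) (hzy : z ≠ y) {s t r : ℝ}
    (hs : 0 ≤ s) (ht : 0 ≤ t) (hr : 0 < r) : s • d x + t • d y ≠ r • d z := by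
  intro he
  set ζ : V → ℝ := fun u => (if u = x then s else 0) + (if u = y then t else 0) +
    (if u = z then -r else 0) with hζ
  have key := h _ h1 _ h2 ζ ?_ ?_ ?_
  · have := congrFun key z
    simp only [hζ, if_neg hzx, if_neg hzy, if_true, Pi.zero_apply] at this
    linarith
  · intro u hu
    simp only [Finset.mem_insert, Finset.mem_singleton, not_or] at hu
    simp only [hζ]
    rw [if_neg hu.1, if_neg hu.2]
    split_ifs <;> linarith
  · intro u hu
    simp only [Finset.mem_insert, Finset.mem_singleton, not_or] at hu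
    simp only [hζ]
    rw [if_neg hu.1]
    split_ifs <;> linarith
  · have e1 : ∀ u, ζ u • d u = (if u = x then s • d u else 0) + (if u = y then t • d u else 0) +
        (if u = z then (-r) • d u else 0) := by
      intro u
      simp only [hζ]
      rw [add_smul, add_smul]
      congr 1
      · congr 1
        · split_ifs
          · rfl
          · exact zero_smul _ _
        · split_ifs
          · rfl
          · exact zero_smul _ _
      · split_ifs
        · rfl
        · exact zero_smul _ _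
    rw [Finset.sum_congr rfl fun u _ => e1 u, Finset.sum_add_distrib, Finset.sum_add_distrib,
      Finset.sum_ite_eq' Finset.univ x (fun u => s • d u),
      Finset.sum_ite_eq' Finset.univ y (fun u => t • d u),
      Finset.sum_ite_eq' Finset.univ z (fun u => (-r) • d u),
      if_pos (Finset.mem_univ _), if_pos (Finset.mem_univ _), if_pos (Finset.mem_univ _), he]
    rw [neg_smul, add_neg_cancel]

end

theorem cast_inj {n i j : ℕ} (hi : i < n) (hj : j < n) (h : (i : ZMod n) = (j : ZMod n)) :
    i = j := by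
  rw [ZMod.natCast_eq_natCast_iff', Nat.mod_eq_of_lt hi, Nat.mod_eq_of_lt hj] at h
  exact h

end CRN_

theorem CRN_proof (_ : Stmt_LKA) (hLKB : Stmt_LKB) (hEMC : Stmt_EMC) (hFAN : Stmt_FAN) :
    Stmt_CRN := by
  intro V _ _ K p Φ v hΦ hE hC
  obtain ⟨φ, hφ, h0, hψ, F, P, hF3, hP, hl, hFz, hPn, hbal⟩ := hC
  have hex : ∃ (n : ℕ) (c : ZMod n → V), n = (F ++ P).length ∧ IsLinkCycle K.tri v n c ∧
      ∀ (i : ℕ) (h : i < (F ++ P).length), c (i : ZMod n) = (F ++ P)[i] := by
    obtain ⟨c, hc, hcl⟩ := (hLKB V K.tri v).2 (F ++ P) hl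
    exact ⟨_, c, rfl, hc, hcl⟩
  obtain ⟨n, c, hn, hc, hcl⟩ := hex
  have hnFP : n = F.length + P.length := by rw [hn, List.length_append]
  have hP1 : 1 ≤ P.length := List.length_pos_iff.mpr hP
  obtain ⟨hn3, hinj, hcv, htri⟩ := hc
  set m := F.length - 1 with hm
  have hcF : ∀ i : ℕ, i ≤ m → c (i : ZMod n) ∈ F := by
    intro i hi
    have h1 : i < F.length := by omega
    rw [hcl i (by omega), List.getElem_append_left h1]
    exact List.getElem_mem h1
  have hcP : ∀ i : ℕ, m < i → i < n → c (i : ZMod n) ∈ P := by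
    intro i hi hin
    have h1 : F.length ≤ i := by omega
    rw [hcl i (by omega), List.getElem_append_right h1]
    exact List.getElem_mem _
  have htr : ∀ i : ℕ, {v, c (i : ZMod n), c ((i + 1 : ℕ) : ZMod n)} ∈ K.tri := by
    intro i
    have := (htri {v, c (i : ZMod n), c ((i + 1 : ℕ) : ZMod n)}).mpr
      ⟨(i : ZMod n), by rw [Nat.cast_add, Nat.cast_one]⟩
    exact this.1
  have harc : ∀ i : ℕ, {c (i : ZMod n), c ((i + 1 : ℕ) : ZMod n)} ∈ arcs K.tri v := fun i =>
    CRN_.arc_mem (htr i) (hcv _) (hcv _)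
  have hne : ∀ i j : ℕ, i < n → j < n → i ≠ j → c (i : ZMod n) ≠ c (j : ZMod n) :=
    fun i j hi hj hij h => hij (CRN_.cast_inj hi hj (hinj h))
  set q : ℕ → E3 := fun i => p (c (i : ZMod n)) - p v with hq
  have hfan := hFAN q m φ.1 (hΦ φ hφ) (by omega) ?_ ?_ ?_ ?_
  · obtain ⟨hind, s, t, i, hs, ht, hi, heq⟩ := hfan
    refine ⟨φ, hφ, h0, hψ, n, c, m, ⟨hn3, hinj, hcv, htri⟩, by omega, by omega,
      fun i hi => hFz _ (hcF i hi), fun i hi hin => hPn _ (hcP i hi hin), ?_,
      1, 1, s, t, i, one_pos, one_pos, hs, ht, hi, ?_⟩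
    · intro a b hab
      refine hind a b ?_
      simp only [hq, Nat.cast_zero]
      exact hab
    · rw [one_smul, one_smul]
      simp only [hq, Nat.cast_zero] at heq
      exact heq
  · intro i hi
    simp only [hq]
    rw [CRN_.ev_sub, hFz _ (hcF i hi), h0, sub_self]
  · intro u hu
    obtain ⟨x, hx, hx0⟩ := hbal u hu
    obtain ⟨i, hi, rfl⟩ := List.mem_iff_getElem.mp hx
    refine ⟨i, by omega, ?_⟩
    simp only [hq]
    rw [hcl i (by omega), List.getElem_append_left hi]
    exact hx0
  · intro i hi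
    exact (hEMC V K p hE).2.1 v _ _ (hcv _).symm (hcv _).symm
      (hne i (i + 1) (by omega) (by omega) (by omega)) (htr i)
  · intro i j hi hj hji hji' s t r hs ht hr
    exact CRN_.no_cone (hE v) (harc i) (harc j) (hne j i (by omega) (by omega) hji)
      (hne j (i + 1) (by omega) (by omega) hji') hs ht hr

end Pool.Agent.TSQ
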