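import Pool.Agent.TSQ.Stmts

/-!
# TSQ module CRO: the corner condition is stable in the facet plane
-/

set_option autoImplicit false

open scoped RealInnerProductSpace

namespace Pool.Agent.TSQ

open Pool.Agent.TSM Pool.Agent.TSP

namespace CRO_

/-- uniform positivity on the unit circle of the plane orthogonal to `n` -/
theorem uniform {V : Type} [DecidableEq V] (F : Finset V) (q : V → E3) (n : E3)
    (h : ∀ u : E3, (∀ t : ℝ, u ≠ t • n) → ∃ x ∈ F, 0 < ⟪u, q x⟫) :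
    ∃ δ : ℝ, 0 < δ ∧ ∀ u : E3, ‖u‖ = 1 → ⟪u, n⟫ = 0 → ∃ x ∈ F, δ ≤ ⟪u, q x⟫ := by
  classical
  set S : Set E3 := {u | ‖u‖ = 1 ∧ ⟪u, n⟫ = 0} with hS
  have hnm : ∀ u ∈ S, ∀ t : ℝ, u ≠ t • n := by
    rintro u ⟨h1, h2⟩ t rfl
    have h3 : ⟪t • n, t • n⟫ = 0 := by rw [inner_smul_right, h2, mul_zero]
    rw [inner_self_eq_zero] at h3
    rw [h3, norm_zero] at h1
    exact zero_ne_one h1
  by_cases hne : S.Nonempty
  · have hF : F.Nonempty := by
      obtain ⟨u, hu⟩ := hne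
      obtain ⟨x, hx, -⟩ := h u (hnm u hu)
      exact ⟨x, hx⟩
    have hc : IsCompact S := by
      have h1 : IsClosed {u : E3 | ⟪u, n⟫ = 0} :=
        isClosed_eq (by fun_prop) continuous_const
      have h2 : S = Metric.sphere (0 : E3) 1 ∩ {u : E3 | ⟪u, n⟫ = 0} := by
        ext u; simp [hS]
      rw [h2]
      exact (isCompact_sphere 0 1).inter_right h1
    have hcont : Continuous (fun u : E3 => F.sup' hF (fun x => ⟪u, q x⟫)) := by
      refine Continuous.finset_sup'_apply hF fun x _ => ?_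
      fun_prop
    obtain ⟨u0, hu0, hmin⟩ := hc.exists_isMinOn hne hcont.continuousOn
    refine ⟨F.sup' hF (fun x => ⟪u0, q x⟫), ?_, ?_⟩
    · obtain ⟨x, hx, hpos⟩ := h u0 (hnm u0 hu0)
      exact lt_of_lt_of_le hpos (Finset.le_sup' (fun x => ⟪u0, q x⟫) hx)
    · intro u hu1 hu2
      obtain ⟨x, hx, hxe⟩ := Finset.exists_mem_eq_sup' hF (fun x => ⟪u, q x⟫)
      refine ⟨x, hx, ?_⟩
      rw [← hxe]
      exact hmin (⟨hu1, hu2⟩ : u ∈ S)
  · refine ⟨1, one_pos, fun u h1 h2 => (hne ⟨u, h1, h2⟩).elim⟩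

end CRO_

open CRO_ in
theorem CRO_proof : Stmt_CRO := by
  classical
  intro V _ _ K p Φ v hΦ hC
  obtain ⟨φ, hφ, hφv, hψ, F, P, hF, hP, hL, hFφ, hPφ, hbal⟩ := hC
  obtain ⟨δ, hδ, hu⟩ := uniform F.toFinset (fun x => p x - p v) φ.1
    (fun u h => by
      obtain ⟨x, hx, h1⟩ := hbal u h
      exact ⟨x, List.mem_toFinset.2 hx, h1⟩)
  -- a bound for all the strict inequalities
  have hopen : ∀ (ψ : E3 × ℝ) (y : V), ev ψ (p y) < 0 →
      ∃ ε : ℝ, 0 < ε ∧ ∀ z : E3, ‖z - p y‖ < ε → ev ψ z < 0 := by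
    intro ψ y h
    have hc : Continuous (fun z : E3 => ev ψ z) := by unfold ev; fun_prop
    have := (hc.tendsto (p y)).eventually (gt_mem_nhds h)
    obtain ⟨ε, hε, h2⟩ := Metric.eventually_nhds_iff.1 this
    exact ⟨ε, hε, fun z hz => h2 (by rwa [dist_eq_norm])⟩
  have hopen' : ∀ q : (E3 × ℝ) × V, ∃ ε : ℝ, 0 < ε ∧ (ev q.1 (p q.2) < 0 →
      ∀ z : E3, ‖z - p q.2‖ < ε → ev q.1 z < 0) := by
    intro q
    by_cases h : ev q.1 (p q.2) < 0
    · obtain ⟨ε, h1, h2⟩ := hopen q.1 q.2 h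
      exact ⟨ε, h1, fun _ => h2⟩
    · exact ⟨1, one_pos, fun h' => (h h').elim⟩
  choose e he0 he using hopen'
  have hex : ∃ ε : ℝ, 0 < ε ∧ ∀ q ∈ Φ ×ˢ (Finset.univ : Finset V), ε ≤ e q := by
    have : ∀ T : Finset ((E3 × ℝ) × V), ∃ ε : ℝ, 0 < ε ∧ ∀ q ∈ T, ε ≤ e q := by
      intro T
      induction T using Finset.induction_on with
      | empty => exact ⟨1, one_pos, by simp⟩
      | insert a T _ ih =>
        obtain ⟨ε, h1, h2⟩ := ih
        refine ⟨min ε (e a), lt_min h1 (he0 a), ?_⟩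
        intro q hq
        rcases Finset.mem_insert.1 hq with rfl | hq
        · exact min_le_right _ _
        · exact (min_le_left _ _).trans (h2 q hq)
    exact this _
  obtain ⟨ε₁, hε₁, hε₁'⟩ := hex
  refine ⟨min ε₁ (δ / 4), lt_min hε₁ (by linarith), ?_⟩
  intro p' hp' hflat
  have hneg : ∀ ψ ∈ Φ, ∀ y, ev ψ (p y) < 0 → ev ψ (p' y) < 0 := by
    intro ψ hψ y h
    refine he (ψ, y) h (p' y) ?_
    exact lt_of_lt_of_le (hp' y) ((min_le_left _ _).trans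
      (hε₁' (ψ, y) (Finset.mem_product.2 ⟨hψ, Finset.mem_univ _⟩)))
  refine ⟨φ, hφ, hflat v φ hφ hφv, fun ψ hψ1 hψ2 => hneg ψ hψ1 v (hψ ψ hψ1 hψ2), F, P, hF, hP, hL,
    fun x hx => hflat x φ hφ (hFφ x hx), fun x hx => hneg φ hφ x (hPφ x hx), ?_⟩
  intro u hu'
  have hn : φ.1 ≠ 0 := hΦ φ hφ
  have hnn : ⟪φ.1, φ.1⟫ ≠ 0 := fun h => hn (inner_self_eq_zero.1 h)
  set t : ℝ := ⟪u, φ.1⟫ / ⟪φ.1, φ.1⟫ with ht
  set w : E3 := u - t • φ.1 with hw
  have hw0 : w ≠ 0 := by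
    intro h
    exact hu' t (sub_eq_zero.1 h)
  have hwn : ⟪w, φ.1⟫ = 0 := by
    rw [hw, inner_sub_left, inner_smul_left]
    simp only [conj_trivial]
    rw [ht, div_mul_cancel₀ _ hnn, sub_self]
  have hwpos : 0 < ‖w‖ := norm_pos_iff.2 hw0
  set w1 : E3 := ‖w‖⁻¹ • w with hw1
  have hw1n : ‖w1‖ = 1 := by
    rw [hw1, norm_smul, norm_inv, norm_norm, inv_mul_cancel₀ hwpos.ne']
  have hw1o : ⟪w1, φ.1⟫ = 0 := by
    rw [hw1, inner_smul_left, hwn, mul_zero]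
  obtain ⟨x, hx, hxδ⟩ := hu w1 hw1n hw1o
  have hxF : x ∈ F := List.mem_toFinset.1 hx
  refine ⟨x, hxF, ?_⟩
  have h1 : ‖(p' x - p' v) - (p x - p v)‖ < δ / 2 := by
    have e1 : (p' x - p' v) - (p x - p v) = (p' x - p x) - (p' v - p v) := by abel
    rw [e1]
    have a1 := lt_of_lt_of_le (hp' x) (min_le_right ε₁ (δ / 4))
    have a2 := lt_of_lt_of_le (hp' v) (min_le_right ε₁ (δ / 4))
    calc ‖(p' x - p x) - (p' v - p v)‖ ≤ ‖p' x - p x‖ + ‖p' v - p v‖ := norm_sub_le _ _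
      _ < δ / 2 := by linarith
  have h2 : |⟪w1, (p' x - p' v) - (p x - p v)⟫| ≤ δ / 2 := by
    refine (abs_real_inner_le_norm _ _).trans ?_
    rw [hw1n, one_mul]
    exact h1.le
  have h3 : 0 < ⟪w1, p' x - p' v⟫ := by
    have e2 : ⟪w1, p' x - p' v⟫ = ⟪w1, p x - p v⟫ + ⟪w1, (p' x - p' v) - (p x - p v)⟫ := by
      rw [← inner_add_right]; congr 1; abel
    rw [e2]
    have := (abs_le.1 h2).1
    linarith
  have h4 : 0 < ⟪w, p' x - p' v⟫ := by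
    have : w = ‖w‖ • w1 := by
      rw [hw1, smul_smul, mul_inv_cancel₀ hwpos.ne', one_smul]
    rw [this, inner_smul_left]
    exact mul_pos hwpos h3
  have h5 : ⟪φ.1, p' x - p' v⟫ = 0 := by
    have a1 := hflat x φ hφ (hFφ x hxF)
    have a2 := hflat v φ hφ hφv
    unfold ev at a1 a2
    rw [inner_sub_right]
    linarith
  have h6 : ⟪u, p' x - p' v⟫ = ⟪w, p' x - p' v⟫ := by
    have : u = w + t • φ.1 := by rw [hw]; abel
    rw [this, inner_add_left, inner_smul_left, h5, mul_zero, add_zero]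
  rw [h6]
  exact h4

end Pool.Agent.TSQ
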