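import Pool.Agent.TSQ.Stmts

/-!
# TSQ.EMB: embedded stars in cone form
-/

set_option autoImplicit false

open scoped RealInnerProductSpace

namespace Pool.Agent.TSQ

open Pool.Agent.TSM Pool.Agent.TSP

namespace EMB_

section
variable {V : Type} [Fintype V] [DecidableEq V]

/-- the point of the star with the direction coefficients `α` -/
noncomputable def pt (v : V) (δ : ℝ) (α : V → ℝ) (u : V) : ℝ :=
  δ * α u + if u = v then 1 - δ * ∑ x, α x else 0

theorem pt_sum (v : V) (δ : ℝ) (α : V → ℝ) : ∑ u, pt v δ α u = 1 := by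
  unfold pt
  rw [Finset.sum_add_distrib, ← Finset.mul_sum]
  simp

theorem pt_nonneg {v : V} {δ : ℝ} {α : V → ℝ} (hδ : 0 ≤ δ) (hα : ∀ u, 0 ≤ α u)
    (h : δ * ∑ x, α x ≤ 1) (u : V) : 0 ≤ pt v δ α u := by
  unfold pt
  have := mul_nonneg hδ (hα u)
  split_ifs
  · linarith
  · linarith

theorem pt_lin (p : V → E3) (v : V) (δ : ℝ) (α : V → ℝ) :
    lin p (pt v δ α) = p v + δ • ∑ u, α u • (p u - p v) := by
  unfold lin pt
  have e1 : ∀ u, (δ * α u + if u = v then 1 - δ * ∑ x, α x else 0) • p u =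
      δ • (α u • p u) + (if u = v then (1 - δ * ∑ x, α x) • p u else 0) := by
    intro u
    split_ifs
    · rw [add_smul, mul_smul]
    · rw [add_zero, add_zero, mul_smul]
  rw [Finset.sum_congr rfl fun u _ => e1 u, Finset.sum_add_distrib, ← Finset.smul_sum]
  rw [Finset.sum_ite_eq' Finset.univ v (fun u => (1 - δ * ∑ x, α x) • p u),
    if_pos (Finset.mem_univ v)]
  have e2 : ∑ u, α u • (p u - p v) = ∑ u, α u • p u - (∑ u, α u) • p v := by
    rw [Finset.sum_smul, ← Finset.sum_sub_distrib]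
    exact Finset.sum_congr rfl fun u _ => smul_sub _ _ _
  rw [e2]
  module

theorem pt_star {T : Finset (Finset V)} {v : V} {s : Finset V} (hs : s ∈ T) (hv : v ∈ s)
    {δ : ℝ} {α : V → ℝ} (hα : ∀ u, u ∉ s → α u = 0) :
    ∃ t ∈ T, v ∈ t ∧ ∀ u, u ∉ t → pt v δ α u = 0 := by
  refine ⟨s, hs, hv, fun u hu => ?_⟩
  have : u ≠ v := fun h => hu (h ▸ hv)
  unfold pt
  rw [hα u hu, if_neg this]
  ring

theorem mp (K : Surf V) (p : V → E3) (h : K.EmbStars p) : Emb K.tri p := by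
  intro v σ hσ τ hτ ζ h1 h2 h3
  obtain ⟨s, hs, rfl⟩ := Finset.mem_image.mp hσ
  obtain ⟨t, ht, rfl⟩ := Finset.mem_image.mp hτ
  obtain ⟨hs1, hs2⟩ := Finset.mem_filter.mp hs
  obtain ⟨ht1, ht2⟩ := Finset.mem_filter.mp ht
  have hα0 : ∀ u, 0 ≤ max (ζ u) 0 := fun u => le_max_right _ _
  have hβ0 : ∀ u, 0 ≤ max (-ζ u) 0 := fun u => le_max_right _ _
  set α : V → ℝ := fun u => max (ζ u) 0 with hα
  set β : V → ℝ := fun u => max (-ζ u) 0 with hβ
  have hA : 0 ≤ ∑ u, α u := Finset.sum_nonneg fun u _ => hα0 u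
  have hB : 0 ≤ ∑ u, β u := Finset.sum_nonneg fun u _ => hβ0 u
  have hD : 0 < 1 + ∑ u, α u + ∑ u, β u := by linarith
  set δ : ℝ := (1 + ∑ u, α u + ∑ u, β u)⁻¹ with hδ
  have hδ0 : 0 < δ := inv_pos.mpr hD
  have hδD : δ * (1 + ∑ u, α u + ∑ u, β u) = 1 := inv_mul_cancel₀ hD.ne'
  have hδA : δ * ∑ u, α u ≤ 1 := by nlinarith [mul_nonneg hδ0.le hA, mul_nonneg hδ0.le hB]
  have hδB : δ * ∑ u, β u ≤ 1 := by nlinarith [mul_nonneg hδ0.le hA, mul_nonneg hδ0.le hB]
  have hsub : ∀ u, α u - β u = ζ u := by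
    intro u
    simp only [hα, hβ]
    rcases le_total (ζ u) 0 with h | h
    · rw [max_eq_right h, max_eq_left (by linarith)]; ring
    · rw [max_eq_left h, max_eq_right (by linarith)]; ring
  have hmem : ∀ {γ : V → ℝ} {r : Finset V}, r ∈ K.tri → v ∈ r → (∀ u, 0 ≤ γ u) →
      δ * ∑ u, γ u ≤ 1 → (∀ u, u ∉ r → γ u = 0) → pt v δ γ ∈ K.star v :=
    fun hr hv hγ hγ1 hγ2 => ⟨pt_nonneg hδ0.le hγ hγ1, pt_sum _ _ _, pt_star hr hv hγ2⟩
  have hw : pt v δ α ∈ K.star v := hmem hs1 hs2 hα0 hδA fun u hu =>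
    max_eq_right (h1 u fun hc => hu (Finset.mem_of_mem_erase hc))
  have hw' : pt v δ β ∈ K.star v := hmem ht1 ht2 hβ0 hδB fun u hu =>
    max_eq_right (by linarith [h2 u fun hc => hu (Finset.mem_of_mem_erase hc)])
  have heq : lin p (pt v δ α) = lin p (pt v δ β) := by
    rw [pt_lin, pt_lin]
    have : ∑ u, α u • (p u - p v) = ∑ u, β u • (p u - p v) := by
      rw [← sub_eq_zero, ← Finset.sum_sub_distrib, ← h3]
      refine Finset.sum_congr rfl fun u _ => ?_
      rw [← sub_smul, hsub]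
    rw [this]
  have hww := h v hw hw' heq
  have hζv : ζ v = 0 := le_antisymm (h1 v (Finset.notMem_erase v s))
    (h2 v (Finset.notMem_erase v t))
  funext u
  by_cases hu : u = v
  · rw [hu, hζv]
    rfl
  · have := congrFun hww u
    unfold pt at this
    rw [if_neg hu, add_zero, if_neg hu, add_zero] at this
    have h4 : α u = β u := mul_left_cancel₀ hδ0.ne' this
    rw [← hsub u, h4, sub_self]
    rfl

theorem mpr (K : Surf V) (p : V → E3) (h : Emb K.tri p) : K.EmbStars p := by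
  rintro v w ⟨hw0, hw1, s, hs, hvs, hws⟩ w' ⟨hw0', hw1', t, ht, hvt, hwt⟩ heq
  set ζ : V → ℝ := fun u => if u = v then 0 else w u - w' u with hζ
  have hσ : s.erase v ∈ arcs K.tri v :=
    Finset.mem_image.mpr ⟨s, Finset.mem_filter.mpr ⟨hs, hvs⟩, rfl⟩
  have hτ : t.erase v ∈ arcs K.tri v :=
    Finset.mem_image.mpr ⟨t, Finset.mem_filter.mpr ⟨ht, hvt⟩, rfl⟩
  have hz : ∀ u, u ≠ v → ζ u = w u - w' u := fun u hu => if_neg hu
  have hzv : ζ v = 0 := if_pos rfl
  have key := h v _ hσ _ hτ ζ ?_ ?_ ?_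
  · have h5 : ∀ u, u ≠ v → w u = w' u := by
      intro u hu
      have := congrFun key u
      rw [hz u hu] at this
      have h0 : (0 : V → ℝ) u = 0 := rfl
      rw [h0] at this
      linarith
    funext u
    by_cases hu : u = v
    · rw [hu]
      have e1 : w v + ∑ u ∈ Finset.univ.erase v, w u = 1 := by
        rw [Finset.add_sum_erase _ _ (Finset.mem_univ v)]; exact hw1
      have e2 : w' v + ∑ u ∈ Finset.univ.erase v, w' u = 1 := by
        rw [Finset.add_sum_erase _ _ (Finset.mem_univ v)]; exact hw1'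
      have e3 : ∑ u ∈ Finset.univ.erase v, w u = ∑ u ∈ Finset.univ.erase v, w' u :=
        Finset.sum_congr rfl fun u hu => h5 u (Finset.ne_of_mem_erase hu)
      linarith
    · exact h5 u hu
  · intro u hu
    by_cases huv : u = v
    · rw [huv, hzv]
    · rw [hz u huv, hws u fun hc => hu (Finset.mem_erase.mpr ⟨huv, hc⟩)]
      linarith [hw0' u]
  · intro u hu
    by_cases huv : u = v
    · rw [huv, hzv]
    · rw [hz u huv, hwt u fun hc => hu (Finset.mem_erase.mpr ⟨huv, hc⟩)]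
      linarith [hw0 u]
  · have e1 : ∀ u, ζ u • (p u - p v) = (w u - w' u) • (p u - p v) := by
      intro u
      by_cases huv : u = v
      · rw [huv, sub_self, smul_zero, smul_zero]
      · rw [hz u huv]
    rw [Finset.sum_congr rfl fun u _ => e1 u]
    have e2 : ∑ u, (w u - w' u) • (p u - p v) =
        (lin p w - lin p w') - (∑ u, w u - ∑ u, w' u) • p v := by
      unfold lin
      rw [← Finset.sum_sub_distrib, ← Finset.sum_sub_distrib, Finset.sum_smul,
        ← Finset.sum_sub_distrib]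
      refine Finset.sum_congr rfl fun u _ => ?_
      module
    rw [e2, heq, hw1, hw1', sub_self, sub_self, zero_smul, sub_zero]

end

end EMB_

theorem EMB_proof : Stmt_EMB := fun _ _ _ K p => ⟨EMB_.mp K p, EMB_.mpr K p⟩

end Pool.Agent.TSQ
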