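import Pool.Agent.TSQ.Stmts

/-!
# EMC: consequences of embeddedness of the stars (cone form)
-/

set_option autoImplicit false

open scoped RealInnerProductSpace

namespace Pool.Agent.TSQ

open Pool.Agent.TSM Pool.Agent.TSP

namespace EMC_

theorem mem_arcs {V : Type} [DecidableEq V] {T : Finset (Finset V)} {z x : V} {t : Finset V}
    (ht : t ∈ T) (hz : z ∈ t) (hx : x ∈ t) (hne : z ≠ x) :
    t.erase z ∈ arcs T z ∧ x ∈ t.erase z := by
  refine ⟨?_, Finset.mem_erase.2 ⟨hne.symm, hx⟩⟩
  unfold arcs
  exact Finset.mem_image.2 ⟨t, Finset.mem_filter.2 ⟨ht, hz⟩, rfl⟩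

/-- the function with values `a` at `x`, `b` at `y` and `0` elsewhere -/
noncomputable def two {V : Type} [DecidableEq V] (x y : V) (a b : ℝ) : V → ℝ :=
  fun u => if u = x then a else if u = y then b else 0

theorem two_sum {V : Type} [Fintype V] [DecidableEq V] {x y : V} (hxy : x ≠ y) (a b : ℝ)
    (d : V → E3) : ∑ u, two x y a b u • d u = a • d x + b • d y := by
  have h : ∀ u, two x y a b u • d u = (if u = x then a • d x else 0) +
      (if u = y then b • d y else 0) := by
    intro u
    unfold two
    by_cases h1 : u = x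
    · subst h1
      simp [hxy]
    · by_cases h2 : u = y
      · subst h2
        simp [h1]
      · simp [h1, h2]
  simp_rw [h, Finset.sum_add_distrib]
  simp

end EMC_

theorem EMC_proof : Stmt_EMC := by
  intro V _ _ K p hE
  have e1 : ∀ z x, K.Adj z x → p x ≠ p z := by
    rintro z x ⟨hne, t, ht, hz, hx⟩ heq
    obtain ⟨ha, hxa⟩ := EMC_.mem_arcs ht hz hx hne
    have h0 := hE z _ ha _ ha (fun u => if u = x then (1 : ℝ) else 0)
      (by
        intro u hu
        have : u ≠ x := fun h => hu (h ▸ hxa)
        simp [this])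
      (by
        intro u _
        split_ifs <;> norm_num)
      (by
        simp [heq])
    have := congrFun h0 x
    simp at this
  have e3 : ∀ z x y, K.Adj z x → K.Adj z y → x ≠ y → ∀ r : ℝ, 0 ≤ r →
      p y - p z ≠ r • (p x - p z) := by
    rintro z x y ⟨hne, t, ht, hz, hx⟩ ⟨hne', t', ht', hz', hy⟩ hxy r hr heq
    obtain ⟨ha, hxa⟩ := EMC_.mem_arcs ht hz hx hne
    obtain ⟨hb, hyb⟩ := EMC_.mem_arcs ht' hz' hy hne'
    have h0 := hE z _ ha _ hb (EMC_.two x y r (-1))
      (by
        intro u hu
        have : u ≠ x := fun h => hu (h ▸ hxa)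
        unfold EMC_.two
        simp only [this, if_false]
        split_ifs <;> norm_num)
      (by
        intro u hu
        have : u ≠ y := fun h => hu (h ▸ hyb)
        unfold EMC_.two
        simp only [this, if_false]
        split_ifs
        · exact hr
        · exact le_refl _)
      (by
        rw [EMC_.two_sum hxy]
        rw [heq]
        simp)
    have := congrFun h0 y
    unfold EMC_.two at this
    simp [hxy.symm] at this
  refine ⟨e1, ?_, e3, ?_⟩
  · intro z x y hzx hzy hxy ht a b hab
    obtain ⟨ha, hxa⟩ := EMC_.mem_arcs (T := K.tri) (z := z) (x := x) ht (by simp) (by simp) hzx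
    have hya : y ∈ ({z, x, y} : Finset V).erase z := by
      simp [hzy.symm]
    have hcase : ∀ u, u ∉ ({z, x, y} : Finset V).erase z → EMC_.two x y a b u = 0 := by
      intro u hu
      have h1 : u ≠ x := fun h => hu (h ▸ hxa)
      have h2 : u ≠ y := fun h => hu (h ▸ hya)
      unfold EMC_.two
      simp [h1, h2]
    have h0 := hE z _ ha _ ha (EMC_.two x y a b) (fun u hu => (hcase u hu).le)
      (fun u hu => (hcase u hu).ge)
      (by
        rw [EMC_.two_sum hxy]
        exact hab)
    have hx0 := congrFun h0 x
    have hy0 := congrFun h0 y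
    unfold EMC_.two at hx0 hy0
    simp at hx0
    simp [hxy.symm] at hy0
    exact ⟨hx0, hy0⟩
  · intro z x y hzx hzy hxy hI
    unfold Indep2 at hI
    push Not at hI
    obtain ⟨a, b, hab, hne⟩ := hI
    have hdx : p x - p z ≠ 0 := sub_ne_zero.2 (e1 z x hzx)
    have hb : b ≠ 0 := by
      intro hb
      rw [hb, zero_smul, add_zero] at hab
      rcases smul_eq_zero.1 hab with h | h
      · exact hne h hb
      · exact hdx h
    have hy : p y - p z = (-(a / b)) • (p x - p z) := by
      have h1 : b • (p y - p z) = (-a) • (p x - p z) := by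
        rw [neg_smul]
        exact eq_neg_of_add_eq_zero_right hab
      have h2 : p y - p z = b⁻¹ • (b • (p y - p z)) := by
        rw [smul_smul, inv_mul_cancel₀ hb, one_smul]
      rw [h2, h1, smul_smul]
      congr 1
      field_simp
    refine ⟨a / b, ?_, hy⟩
    by_contra hneg
    exact e3 z x y hzx hzy hxy (-(a / b)) (by linarith [not_lt.1 hneg]) hy

end Pool.Agent.TSQ
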