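import Pool.Agent.TSQ.Stmts

/-!
# TSQ module EXU: every extreme point of the hull is the image of exactly one vertex
-/

set_option autoImplicit false

open scoped RealInnerProductSpace Topology

namespace Pool.Agent.TSQ

open Pool.Agent.TSM Pool.Agent.TSP

namespace EXU_

theorem ev_line (φ : E3 × ℝ) (e d : E3) (t : ℝ) : ev φ (e + t • d) = ev φ e + t * ⟪φ.1, d⟫ := by
  simp only [ev, inner_add_right, inner_smul_right]
  ring

open Classical in
/-- the sum of the active facet functions -/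
noncomputable def act (Φ : Finset (E3 × ℝ)) (e : E3) : E3 × ℝ :=
  ∑ φ ∈ Φ.filter (fun φ => ev φ e = 0), φ

open Classical in
theorem ev_act (Φ : Finset (E3 × ℝ)) (e x : E3) :
    ev (act Φ e) x = ∑ φ ∈ Φ.filter (fun φ => ev φ e = 0), ev φ x := by
  have h : ∀ S : Finset (E3 × ℝ), ev (∑ φ ∈ S, φ) x = ∑ φ ∈ S, ev φ x := by
    intro S
    unfold ev
    rw [Prod.fst_sum, Prod.snd_sum, sum_inner, Finset.sum_sub_distrib]
  exact h _

theorem act_nonpos {Φ : Finset (E3 × ℝ)} {e x : E3} (hx : x ∈ Pool.Agent.TSM.hull Φ) :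
    ev (act Φ e) x ≤ 0 := by
  classical
  rw [ev_act]
  exact Finset.sum_nonpos fun φ hφ => hx φ (Finset.mem_filter.1 hφ).1

theorem act_self (Φ : Finset (E3 × ℝ)) (e : E3) : ev (act Φ e) e = 0 := by
  classical
  rw [ev_act]
  exact Finset.sum_eq_zero fun φ hφ => (Finset.mem_filter.1 hφ).2

theorem eq_of_act {Φ : Finset (E3 × ℝ)} {e x : E3}
    (he : e ∈ Set.extremePoints ℝ (Pool.Agent.TSM.hull Φ)) (hx : x ∈ Pool.Agent.TSM.hull Φ)
    (h0 : ev (act Φ e) x = 0) : x = e := by
  classical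
  by_contra hne
  have hactive : ∀ φ ∈ Φ, ev φ e = 0 → ev φ x = 0 := by
    intro φ hφ hφe
    rw [ev_act, Finset.sum_eq_zero_iff_of_nonpos
      (fun φ hφ => hx φ (Finset.mem_filter.1 hφ).1)] at h0
    exact h0 φ (Finset.mem_filter.2 ⟨hφ, hφe⟩)
  have hehull : ∀ φ ∈ Φ, ev φ e ≤ 0 := he.1
  -- directions
  have hdir : ∀ φ ∈ Φ, ev φ e = 0 → ⟪φ.1, x - e⟫ = 0 := by
    intro φ hφ hφe
    have h1 := hactive φ hφ hφe
    unfold ev at h1 hφe
    rw [inner_sub_right]
    linarith
  have hev : ∀ᶠ t : ℝ in 𝓝 0, ∀ φ ∈ Φ, ev φ (e + t • (x - e)) ≤ 0 := by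
    rw [Filter.eventually_all_finset]
    intro φ hφ
    rcases (hehull φ hφ).eq_or_lt with h | h
    · refine Filter.Eventually.of_forall fun t => ?_
      rw [ev_line, hdir φ hφ h, h]
      simp
    · have hc : Continuous fun t : ℝ => ev φ (e + t • (x - e)) := by
        have : (fun t : ℝ => ev φ (e + t • (x - e))) = fun t => ev φ e + t * ⟪φ.1, x - e⟫ := by
          funext t
          exact ev_line φ e (x - e) t
        rw [this]
        fun_prop
      have h2 : ev φ (e + (0 : ℝ) • (x - e)) < 0 := by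
        rw [zero_smul, add_zero]
        exact h
      have h5 : ∀ᶠ t : ℝ in 𝓝 0, ev φ (e + t • (x - e)) < 0 :=
        hc.continuousAt.eventually_lt continuousAt_const h2
      exact h5.mono fun t ht => le_of_lt ht
  obtain ⟨δ, hδ, hball⟩ := Metric.eventually_nhds_iff.1 hev
  have hd1 : dist (δ / 2) 0 < δ := by
    rw [Real.dist_eq, sub_zero, abs_of_pos (by positivity)]
    linarith
  have hd2 : dist (-(δ / 2)) 0 < δ := by
    rw [Real.dist_eq, sub_zero, abs_neg, abs_of_pos (by positivity)]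
    linarith
  have m1 : e + (δ / 2) • (x - e) ∈ Pool.Agent.TSM.hull Φ := fun φ hφ => hball hd1 φ hφ
  have m2 : e + (-(δ / 2)) • (x - e) ∈ Pool.Agent.TSM.hull Φ := fun φ hφ => hball hd2 φ hφ
  have hseg : e ∈ openSegment ℝ (e + (δ / 2) • (x - e)) (e + (-(δ / 2)) • (x - e)) := by
    refine ⟨1 / 2, 1 / 2, by norm_num, by norm_num, by norm_num, ?_⟩
    module
  have h3 := he.2 m1 m2 hseg
  have h4 : (δ / 2) • (x - e) = 0 := by
    have := add_left_cancel (h3.trans (add_zero e).symm)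
    exact this
  rw [smul_eq_zero] at h4
  rcases h4 with h4 | h4
  · linarith
  · exact hne (sub_eq_zero.1 h4)

end EXU_

theorem EXU_proof (hEMC : Stmt_EMC) : Stmt_EXU := by
  intro V _ _ K p Φ hemb hVT hH e he
  have hr : e ∈ Set.range p := by
    rw [hH.eq] at he
    exact extremePoints_convexHull_subset he
  obtain ⟨z, hz⟩ := hr
  refine ⟨z, hz, fun y hy => ?_⟩
  by_contra hne
  have hzero : ev (EXU_.act Φ e) e = 0 := EXU_.act_self Φ e
  obtain ⟨y', hadj, hy', -⟩ := hVT (EXU_.act Φ e) (fun v => EXU_.act_nonpos (hH.mem v)) z 0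
    (by rw [hz]; exact hzero) ⟨y, hne, by
      have : p y = e := hy
      rw [this]; exact hzero, by simp⟩
  have h1 : p y' = e := EXU_.eq_of_act he (hH.mem y') hy'
  exact (hEMC V K p hemb).1 z y' hadj (h1.trans hz.symm)

end Pool.Agent.TSQ
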