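import Pool.Agent.TSQ.Stmts

/-!
# TSQ, module FAN: a fan of plane vectors which is strictly balanced has an angle `> π`
-/

set_option autoImplicit false

open scoped RealInnerProductSpace

namespace Pool.Agent.TSQ

open Pool.Agent.TSM Pool.Agent.TSP

namespace FAN_

/-- the cone of `(a,b)` and `(a',b')` contains one of `e0`, `e1`, `-e0-e1` (up to scaling) -/
def Hit (a b a' b' : ℝ) : Prop :=
  ∃ s t r : ℝ, 0 ≤ s ∧ 0 ≤ t ∧ 0 < r ∧
    ((s * a + t * a' = r ∧ s * b + t * b' = 0) ∨ (s * a + t * a' = 0 ∧ s * b + t * b' = r) ∨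
      (s * a + t * a' = -r ∧ s * b + t * b' = -r))

theorem hit_swap {a b a' b' : ℝ} (h : Hit a b a' b') : Hit a' b' a b := by
  obtain ⟨s, t, r, hs, ht, hr, h⟩ := h
  refine ⟨t, s, r, ht, hs, hr, ?_⟩
  rcases h with ⟨h1, h2⟩ | ⟨h1, h2⟩ | ⟨h1, h2⟩
  · exact Or.inl ⟨by linarith, by linarith⟩
  · exact Or.inr (Or.inl ⟨by linarith, by linarith⟩)
  · exact Or.inr (Or.inr ⟨by linarith, by linarith⟩)

theorem hit_rot {a b a' b' : ℝ} (h : Hit (-b) (a - b) (-b') (a' - b')) : Hit a b a' b' := by
  obtain ⟨s, t, r, hs, ht, hr, h⟩ := h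
  refine ⟨s, t, r, hs, ht, hr, ?_⟩
  rcases h with ⟨h1, h2⟩ | ⟨h1, h2⟩ | ⟨h1, h2⟩
  · exact Or.inr (Or.inr ⟨by linarith, by linarith⟩)
  · exact Or.inl ⟨by linarith, by linarith⟩
  · exact Or.inr (Or.inl ⟨by linarith, by linarith⟩)

theorem hit12 {a b a' b' : ℝ} (ha : 0 < a) (hb : 0 < b) (ha' : a' < 0)
    (hD : a * b' - a' * b ≠ 0) : Hit a b a' b' := by
  rcases lt_or_gt_of_ne hD with h | h
  · refine ⟨-(a * b' - a' * b) + b * (-a'), b * a, -(a * b' - a' * b) * a, ?_, by positivity, ?_,
      Or.inl ⟨by ring, by ring⟩⟩
    · have : 0 < b * (-a') := mul_pos hb (by linarith)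
      linarith
    · exact mul_pos (by linarith) ha
  · exact ⟨-a', a, a * b' - a' * b, by linarith, ha.le, h, Or.inr (Or.inl ⟨by ring, by ring⟩)⟩

theorem hit31 {a b a' b' : ℝ} (hb : b < 0) (hba : b < a) (ha' : 0 < a') (hb' : 0 < b')
    (hD : a * b' - a' * b ≠ 0) : Hit a b a' b' := by
  apply hit_rot
  refine hit12 (by linarith) (by linarith) (by linarith) ?_
  intro h
  apply hD
  linarith

theorem hit23 {a b a' b' : ℝ} (ha : a < 0) (hab : a < b) (hb' : b' < 0) (hba' : b' < a')
    (hD : a * b' - a' * b ≠ 0) : Hit a b a' b' := by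
  apply hit_rot
  refine hit31 (by linarith) (by linarith) (by linarith) (by linarith) ?_
  intro h
  apply hD
  linarith

/-- the sector of a point -/
def Sec (k : ℕ) (a b : ℝ) : Prop :=
  (k = 0 ∧ 0 < a ∧ 0 < b) ∨ (k = 1 ∧ a < 0 ∧ a < b) ∨ (k = 2 ∧ b < 0 ∧ b < a)

theorem hit_of_sec {k l : ℕ} {a b a' b' : ℝ} (h : Sec k a b) (h' : Sec l a' b') (hkl : k ≠ l)
    (hD : a * b' - a' * b ≠ 0) : Hit a b a' b' := by
  have hD' : a' * b - a * b' ≠ 0 := fun h => hD (by linarith)
  rcases h with ⟨hk, h1, h2⟩ | ⟨hk, h1, h2⟩ | ⟨hk, h1, h2⟩ <;>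
    rcases h' with ⟨hl, h3, h4⟩ | ⟨hl, h3, h4⟩ | ⟨hl, h3, h4⟩
  · exact absurd (hk.trans hl.symm) hkl
  · exact hit12 h1 h2 h3 hD
  · exact hit_swap (hit31 h3 h4 h1 h2 hD')
  · exact hit_swap (hit12 h3 h4 h1 hD')
  · exact absurd (hk.trans hl.symm) hkl
  · exact hit23 h1 h2 h3 h4 hD
  · exact hit31 h1 h2 h3 h4 hD
  · exact hit_swap (hit23 h3 h4 h1 h2 hD')
  · exact absurd (hk.trans hl.symm) hkl

/-- the planar statement in coordinates -/
theorem planar (a b : ℕ → ℝ) (m : ℕ) (hm : 2 ≤ m) (ha0 : a 0 = 1) (hb0 : b 0 = 0) (ham : a m = 0)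
    (hbm : b m = 1) (hbal : ∃ i, i ≤ m ∧ a i + b i < 0)
    (hind : ∀ i, i < m → a i * b (i + 1) - a (i + 1) * b i ≠ 0)
    (hcone : ∀ i j, i < m → j ≤ m → j ≠ i → j ≠ i + 1 → ∀ s t r : ℝ, 0 ≤ s → 0 ≤ t → 0 < r →
      ¬ (s * a i + t * a (i + 1) = r * a j ∧ s * b i + t * b (i + 1) = r * b j)) :
    ∃ (s t : ℝ) (i : ℕ), 0 ≤ s ∧ 0 ≤ t ∧ i < m ∧ s * a i + t * a (i + 1) = -1 ∧
      s * b i + t * b (i + 1) = -1 := by
  by_contra hno
  push Not at hno
  -- no scaled version either
  have hw : ∀ i, i < m → ∀ s t r : ℝ, 0 ≤ s → 0 ≤ t → 0 < r →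
      ¬ (s * a i + t * a (i + 1) = -r ∧ s * b i + t * b (i + 1) = -r) := by
    rintro i hi s t r hs ht hr ⟨h1, h2⟩
    refine hno (s / r) (t / r) i (by positivity) (by positivity) hi ?_ ?_
    · rw [div_mul_eq_mul_div, div_mul_eq_mul_div, ← add_div, h1, neg_div, div_self hr.ne']
    · rw [div_mul_eq_mul_div, div_mul_eq_mul_div, ← add_div, h2, neg_div, div_self hr.ne']
  have h0 : ∀ i, i < m → 0 < i → ∀ s t r : ℝ, 0 ≤ s → 0 ≤ t → 0 < r →
      ¬ (s * a i + t * a (i + 1) = r ∧ s * b i + t * b (i + 1) = 0) := by
    rintro i hi hi0 s t r hs ht hr ⟨h1, h2⟩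
    refine hcone i 0 hi (by omega) (by omega) (by omega) s t r hs ht hr ⟨?_, ?_⟩
    · rw [ha0, mul_one]; exact h1
    · rw [hb0, mul_zero]; exact h2
  have h1 : ∀ i, i + 1 < m → ∀ s t r : ℝ, 0 ≤ s → 0 ≤ t → 0 < r →
      ¬ (s * a i + t * a (i + 1) = 0 ∧ s * b i + t * b (i + 1) = r) := by
    rintro i hi s t r hs ht hr ⟨h1, h2⟩
    refine hcone i m (by omega) le_rfl (by omega) (by omega) s t r hs ht hr ⟨?_, ?_⟩
    · rw [ham, mul_zero]; exact h1
    · rw [hbm, mul_one]; exact h2
  -- the sectors of the middle points
  have hsec : ∀ i, 0 < i → i < m → ∃ k, Sec k (a i) (b i) := by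
    intro i hi0 him
    by_cases hA : 0 < a i
    · by_cases hB : 0 < b i
      · exact ⟨0, Or.inl ⟨rfl, hA, hB⟩⟩
      · by_cases hB' : b i < 0
        · exact ⟨2, Or.inr (Or.inr ⟨rfl, hB', by linarith⟩)⟩
        · exfalso
          have hb : b i = 0 := by linarith
          exact h0 i him hi0 1 0 (a i) zero_le_one le_rfl hA ⟨by ring, by rw [hb]; ring⟩
    · by_cases hA' : a i < 0
      · rcases lt_trichotomy (a i) (b i) with h | h | h
        · exact ⟨1, Or.inr (Or.inl ⟨rfl, hA', h⟩)⟩
        · exfalso
          exact hw i him 1 0 (-(a i)) zero_le_one le_rfl (by linarith) ⟨by ring, by rw [← h]; ring⟩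
        · exact ⟨2, Or.inr (Or.inr ⟨rfl, by linarith, h⟩)⟩
      · have ha : a i = 0 := by linarith
        rcases lt_trichotomy (b i) 0 with h | h | h
        · exact ⟨2, Or.inr (Or.inr ⟨rfl, h, by linarith⟩)⟩
        · exfalso
          exact hind i him (by rw [ha, h]; ring)
        · exfalso
          by_cases hi1 : i + 1 < m
          · exact h1 i hi1 1 0 (b i) zero_le_one le_rfl h ⟨by rw [ha]; ring, by ring⟩
          · have hi1 : i + 1 = m := by omega
            exact hind i him (by rw [hi1, ham, hbm, ha]; ring)
  obtain ⟨k, hk⟩ := hsec 1 one_pos (by omega)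
  have hall : ∀ i, 0 < i → i < m → Sec k (a i) (b i) := by
    intro i hi0
    induction i with
    | zero => exact absurd hi0 (lt_irrefl _)
    | succ i ih =>
      intro him
      by_cases hi : i = 0
      · subst hi; exact hk
      · have hi' : 0 < i := Nat.pos_of_ne_zero hi
        have ih' := ih hi' (by omega)
        obtain ⟨l, hl⟩ := hsec (i + 1) (by omega) him
        by_cases hkl : k = l
        · rw [hkl]; exact hl
        · exfalso
          obtain ⟨s, t, r, hs, ht, hr, h | h | h⟩ :=
            hit_of_sec ih' hl hkl (hind i (by omega))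
          · exact h0 i (by omega) hi' s t r hs ht hr h
          · exact h1 i him s t r hs ht hr h
          · exact hw i (by omega) s t r hs ht hr h
  rcases hk with ⟨hk, hA, hB⟩ | ⟨hk, hA, hB⟩ | ⟨hk, hA, hB⟩
  · -- all in the small sector
    subst hk
    obtain ⟨i, him, hi⟩ := hbal
    rcases Nat.eq_zero_or_pos i with h | h
    · rw [h, ha0, hb0] at hi; linarith
    · rcases Nat.lt_or_ge i m with h' | h'
      · rcases hall i h h' with ⟨_, h2, h3⟩ | ⟨h2, _⟩ | ⟨h2, _⟩
        · linarith
        · exact absurd h2 (by norm_num)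
        · exact absurd h2 (by norm_num)
      · have : i = m := le_antisymm him h'
        rw [this, ham, hbm] at hi; linarith
  · -- `q 1` between `q m` and `w`
    have hi0 := hind 0 (by omega)
    rw [ha0, hb0] at hi0
    simp only [zero_add, one_mul, mul_zero, sub_zero] at hi0
    rcases lt_or_gt_of_ne hi0 with h | h
    · refine hw 0 (by omega) (b 1 - a 1) 1 (-(b 1)) (by linarith) zero_le_one (by linarith) ⟨?_, ?_⟩
      · rw [ha0, zero_add]; ring
      · rw [hb0, zero_add]; ring
    · refine h1 0 (by omega) (-(a 1)) 1 (b 1) (by linarith) zero_le_one h ⟨?_, ?_⟩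
      · rw [ha0, zero_add]; ring
      · rw [hb0, zero_add]; ring
  · -- `q (m - 1)` between `w` and `q 0`
    obtain ⟨l, rfl⟩ : ∃ l, m = l + 1 := ⟨m - 1, by omega⟩
    have hl := hall l (by omega) (by omega)
    subst hk
    rcases hl with ⟨h2, _⟩ | ⟨h2, _⟩ | ⟨_, hA', hB'⟩
    · exact absurd h2 (by norm_num)
    · exact absurd h2 (by norm_num)
    · have hi0 := hind l (by omega)
      rw [ham, hbm] at hi0
      simp only [mul_one, zero_mul, sub_zero] at hi0
      rcases lt_or_gt_of_ne hi0 with h | h
      · refine hw l (by omega) 1 (a l - b l) (-(a l)) zero_le_one (by linarith) (by linarith)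
          ⟨?_, ?_⟩
        · rw [ham]; ring
        · rw [hbm]; ring
      · refine h0 l (by omega) (by omega) 1 (-(b l)) (a l) zero_le_one (by linarith) h ⟨?_, ?_⟩
        · rw [ham]; ring
        · rw [hbm]; ring

theorem inner_cr_swap (n x y : E3) : ⟪cr n x, y⟫ = -⟪cr n y, x⟫ := by
  rw [inner3, inner3, cr_zero, cr_one, cr_two, cr_zero, cr_one, cr_two]; ring

theorem inner_cr_self (n x : E3) : ⟪cr n x, x⟫ = 0 := by
  rw [inner3, cr_zero, cr_one, cr_two]; ring

theorem inner_cr_n (n x : E3) : ⟪cr n x, n⟫ = 0 := by
  rw [inner3, cr_zero, cr_one, cr_two]; ring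

theorem not_multiple {n u v : E3} (hn : n ≠ 0) (hu : ⟪u, n⟫ = 0) (hv : ⟪u, v⟫ ≠ 0) (t : ℝ) :
    u ≠ t • n := by
  rintro rfl
  rw [real_inner_smul_left] at hu
  have : t = 0 := (mul_eq_zero.1 hu).resolve_right (inner_self_pos hn).ne'
  rw [this, zero_smul, inner_zero_left] at hv
  exact hv rfl

/-- plane vectors with vanishing determinant are dependent -/
theorem indep_cr {n x y : E3} (hn : n ≠ 0) (hx : ⟪n, x⟫ = 0) (hy : ⟪n, y⟫ = 0)
    (h : Indep2 x y) : ⟪cr n x, y⟫ ≠ 0 := by
  intro h0
  -- `cr n x` is orthogonal to `x, y`, hence a multiple of `n`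
  obtain ⟨t, ht⟩ := normal_multiple hn hx hy h (u := cr n x) (inner_cr_self n x) h0
  have h1 : ⟪cr n x, n⟫ = 0 := inner_cr_n n x
  rw [ht, real_inner_smul_left] at h1
  have h2 : t = 0 := (mul_eq_zero.1 h1).resolve_right (inner_self_pos hn).ne'
  rw [h2, zero_smul] at ht
  have h3 : Indep2 n x := by
    intro a b hab
    have e1 : ⟪n, a • n + b • x⟫ = 0 := by rw [hab, inner_zero_right]
    rw [inner_add_right, real_inner_smul_right, real_inner_smul_right, hx, mul_zero, add_zero] at e1
    have ha : a = 0 := (mul_eq_zero.1 e1).resolve_right (inner_self_pos hn).ne'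
    rw [ha, zero_smul, zero_add] at hab
    refine ⟨ha, ?_⟩
    rcases smul_eq_zero.1 hab with h | h'
    · exact h
    · exact absurd h' h.ne_zero_left
  exact cr_ne_zero h3 ht

end FAN_

open FAN_ in
theorem FAN_proof : Stmt_FAN := by
  intro q m n hn hm hpl hbal hind hcone
  -- a dependent pair is a multiple
  have hne : ∀ i, i ≤ m → q i ≠ 0 := by
    intro i hi
    rcases Nat.lt_or_ge i m with h | h
    · exact (hind i h).ne_zero_left
    · have him : i = m := le_antisymm hi h
      obtain ⟨l, rfl⟩ : ∃ l, m = l + 1 := ⟨m - 1, by omega⟩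
      rw [him]
      exact (hind l (by omega)).ne_zero_right
  have hI : Indep2 (q 0) (q m) := by
    by_contra hdep
    have h0 := hne 0 (Nat.zero_le _)
    obtain ⟨c, hc⟩ : ∃ c : ℝ, q m = c • q 0 := by
      by_contra hno
      apply hdep
      intro a b hab
      have hb : b = 0 := by
        by_contra hb
        apply hno
        refine ⟨-(a / b), ?_⟩
        have : b • q m = b • (-(a / b)) • q 0 := by
          rw [smul_smul]
          have e : b * -(a / b) = -a := by field_simp
          rw [e, neg_smul]
          exact eq_neg_of_add_eq_zero_right hab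
        exact smul_right_injective _ hb this
      rw [hb, zero_smul, add_zero] at hab
      exact ⟨(smul_eq_zero.1 hab).resolve_right h0, hb⟩
    have hc0 : c ≠ 0 := by
      rintro rfl
      rw [zero_smul] at hc
      exact hne m le_rfl hc
    rcases lt_or_gt_of_ne hc0 with hcn | hcp
    · -- antipodal: all others on one side
      set D : ℕ → ℝ := fun i => ⟪cr n (q 0), q i⟫ with hD
      have hD0 : D 0 = 0 := inner_cr_self n (q 0)
      have hDm : D m = 0 := by
        rw [hD]; simp only []; rw [hc, real_inner_smul_right, inner_cr_self, mul_zero]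
      -- a middle vector off the line
      have hoff : ∀ i, 0 < i → i < m → D i ≠ 0 := by
        intro i hi0 him h
        have h1 : ∃ c' : ℝ, q i = c' • q 0 := by
          by_contra hno
          have : Indep2 (q 0) (q i) := by
            intro a b hab
            have hb : b = 0 := by
              by_contra hb
              apply hno
              refine ⟨-(a / b), ?_⟩
              have : b • q i = b • (-(a / b)) • q 0 := by
                rw [smul_smul]
                have e : b * -(a / b) = -a := by field_simp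
                rw [e, neg_smul]
                exact eq_neg_of_add_eq_zero_right hab
              exact smul_right_injective _ hb this
            rw [hb, zero_smul, add_zero] at hab
            exact ⟨(smul_eq_zero.1 hab).resolve_right h0, hb⟩
          exact indep_cr hn (hpl 0 (Nat.zero_le _)) (hpl i him.le) this h
        obtain ⟨c', hc'⟩ := h1
        have hc'0 : c' ≠ 0 := by
          rintro rfl
          rw [zero_smul] at hc'
          exact hne i him.le hc'
        rcases lt_or_gt_of_ne hc'0 with hn' | hp'
        · -- positive multiple of `q m`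
          by_cases hi1 : i + 1 = m
          · have := hind i him
            rw [hi1, hc, hc'] at this
            have h2 := this c (-c') (by rw [smul_smul, smul_smul, ← add_smul]; ring_nf; simp)
            exact hcn.ne h2.1
          · refine hcone i m him le_rfl (by omega) (by omega) 1 0 (c' / c) zero_le_one le_rfl
              (div_pos_of_neg_of_neg hn' hcn) ?_
            rw [zero_smul, add_zero, one_smul, hc, smul_smul, div_mul_cancel₀ _ hcn.ne, hc']
        · by_cases hi1 : i = 1
          · have := hind 0 (by omega)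
            rw [zero_add, ← hi1, hc'] at this
            have h2 := this c' (-1) (by rw [neg_one_smul, add_neg_cancel])
            exact hc'0 h2.1
          · refine hcone 0 i (by omega) him.le (by omega) (by omega) c' 0 1 hp'.le le_rfl
              one_pos ?_
            rw [zero_smul, add_zero, one_smul, hc']
      -- all on the same side as `q 1`
      have hside : ∀ i, 0 < i → i < m → 0 < D 1 * D i := by
        intro i hi0
        induction i with
        | zero => exact absurd hi0 (lt_irrefl _)
        | succ i ih =>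
          intro him
          by_cases hi : i = 0
          · subst hi
            have := hoff 1 one_pos (by omega)
            rw [zero_add]
            exact mul_self_pos.2 this
          · have hi' : 0 < i := Nat.pos_of_ne_zero hi
            have ih' := ih hi' (by omega)
            have hDi := hoff i hi' (by omega)
            have hDs := hoff (i + 1) (by omega) him
            by_contra hcon
            -- opposite signs of D i and D (i+1)
            have hopp : D i * D (i + 1) < 0 := by
              have h1 : D 1 * D (i + 1) < 0 := by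
                refine lt_of_le_of_ne (not_lt.1 hcon) (mul_ne_zero (hoff 1 one_pos (by omega)) hDs)
              have h2 : (D 1 * D 1) * (D i * D (i + 1)) < 0 := by
                have : (D 1 * D 1) * (D i * D (i + 1)) = (D 1 * D i) * (D 1 * D (i + 1)) := by ring
                rw [this]
                exact mul_neg_of_pos_of_neg ih' h1
              have h3 : 0 < D 1 * D 1 := mul_self_pos.2 (hoff 1 one_pos (by omega))
              by_contra h4
              exact absurd h2 (not_lt.2 (mul_nonneg h3.le (not_lt.1 h4)))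
            -- the combination on the line
            set v : E3 := |D (i + 1)| • q i + |D i| • q (i + 1) with hv
            have hvD : ⟪cr n (q 0), v⟫ = 0 := by
              rw [hv, inner_add_right, real_inner_smul_right, real_inner_smul_right]
              change |D (i + 1)| * D i + |D i| * D (i + 1) = 0
              rcases lt_or_gt_of_ne hDi with h | h
              · have h' : 0 < D (i + 1) := by
                  by_contra h5
                  exact absurd hopp (not_lt.2 (mul_nonneg_of_nonpos_of_nonpos h.le (not_lt.1 h5)))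
                rw [abs_of_pos h', abs_of_neg h]; ring
              · have h' : D (i + 1) < 0 := by
                  by_contra h5
                  exact absurd hopp (not_lt.2 (mul_nonneg h.le (not_lt.1 h5)))
                rw [abs_of_neg h', abs_of_pos h]; ring
            have hvn : ⟪n, v⟫ = 0 := by
              rw [hv, inner_add_right, real_inner_smul_right, real_inner_smul_right,
                hpl i (by omega), hpl (i + 1) him.le, mul_zero, mul_zero, add_zero]
            have hv0 : v ≠ 0 := by
              intro h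
              exact hDi (abs_eq_zero.1 (hind i (by omega) _ _ h).2)
            obtain ⟨ρ, hρ⟩ : ∃ ρ : ℝ, v = ρ • q 0 := by
              by_contra hno
              have : Indep2 (q 0) v := by
                intro a b hab
                have hb : b = 0 := by
                  by_contra hb
                  apply hno
                  refine ⟨-(a / b), ?_⟩
                  have : b • v = b • (-(a / b)) • q 0 := by
                    rw [smul_smul]
                    have e : b * -(a / b) = -a := by field_simp
                    rw [e, neg_smul]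
                    exact eq_neg_of_add_eq_zero_right hab
                  exact smul_right_injective _ hb this
                rw [hb, zero_smul, add_zero] at hab
                exact ⟨(smul_eq_zero.1 hab).resolve_right h0, hb⟩
              exact indep_cr hn (hpl 0 (Nat.zero_le _)) hvn this hvD
            have hρ0 : ρ ≠ 0 := by
              rintro rfl
              rw [zero_smul] at hρ
              exact hv0 hρ
            rcases lt_or_gt_of_ne hρ0 with hneg | hpos
            · refine hcone i m (by omega) le_rfl (by omega) (by omega) |D (i + 1)| |D i| (ρ / c)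
                (abs_nonneg _) (abs_nonneg _) (div_pos_of_neg_of_neg hneg hcn) ?_
              rw [← hv, hρ, hc, smul_smul, div_mul_cancel₀ _ hcn.ne]
            · exact hcone i 0 (by omega) (by omega) (by omega) (by omega) |D (i + 1)| |D i| ρ
                (abs_nonneg _) (abs_nonneg _) hpos hρ
      -- contradiction to the balance
      have hD1 := hoff 1 one_pos (by omega)
      obtain ⟨i, him, hi⟩ := hbal ((-(D 1)) • cr n (q 0)) (fun t => by
        refine not_multiple hn (v := q 1) ?_ ?_ t
        · rw [real_inner_smul_left, inner_cr_n, mul_zero]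
        · rw [real_inner_smul_left]
          change -(D 1) * D 1 ≠ 0
          exact mul_ne_zero (neg_ne_zero.2 hD1) hD1)
      rw [real_inner_smul_left] at hi
      change 0 < -(D 1) * D i at hi
      rcases Nat.eq_zero_or_pos i with h | h
      · rw [h, hD0, mul_zero] at hi; exact lt_irrefl _ hi
      · rcases Nat.lt_or_ge i m with h' | h'
        · have := hside i h h'
          linarith
        · have : i = m := le_antisymm him h'
          rw [this, hDm, mul_zero] at hi; exact lt_irrefl _ hi
    · refine hcone 0 m (by omega) le_rfl (by omega) (by omega) c 0 1 hcp.le le_rfl one_pos ?_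
      rw [zero_smul, add_zero, one_smul, hc]
  refine ⟨hI, ?_⟩
  -- coordinates
  have hco : ∀ i, ∃ l k : ℝ, i ≤ m → q i = l • q 0 + k • q m := by
    intro i
    by_cases hi : i ≤ m
    · obtain ⟨l, k, h⟩ := plane_coords hn (hpl 0 (Nat.zero_le _)) (hpl m le_rfl) hI (hpl i hi)
      exact ⟨l, k, fun _ => h⟩
    · exact ⟨0, 0, fun h => absurd h hi⟩
  choose a b hab using hco
  have huniq : ∀ l k l' k' : ℝ, l • q 0 + k • q m = l' • q 0 + k' • q m → l = l' ∧ k = k' := by
    intro l k l' k' h
    have h1 : (l - l') • q 0 + (k - k') • q m = 0 := by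
      rw [sub_smul, sub_smul]
      have : l • q 0 - l' • q 0 + (k • q m - k' • q m) =
        (l • q 0 + k • q m) - (l' • q 0 + k' • q m) := by abel
      rw [this, h, sub_self]
    obtain ⟨h2, h3⟩ := hI _ _ h1
    exact ⟨sub_eq_zero.1 h2, sub_eq_zero.1 h3⟩
  obtain ⟨ha0, hb0⟩ : a 0 = 1 ∧ b 0 = 0 := by
    apply huniq
    rw [← hab 0 (Nat.zero_le _), one_smul, zero_smul, add_zero]
  obtain ⟨ham, hbm⟩ : a m = 0 ∧ b m = 1 := by
    apply huniq
    rw [← hab m le_rfl, one_smul, zero_smul, zero_add]
  have hcomb : ∀ i, i < m → ∀ s t : ℝ, s • q i + t • q (i + 1) =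
      (s * a i + t * a (i + 1)) • q 0 + (s * b i + t * b (i + 1)) • q m := by
    intro i hi s t
    rw [hab i hi.le, hab (i + 1) hi]
    module
  obtain ⟨s, t, i, hs, ht, hi, h1, h2⟩ := planar a b m hm ha0 hb0 ham hbm (by
      set E : ℝ := ⟪cr n (q 0), q m⟫ with hE
      have hE0 : E ≠ 0 := indep_cr hn (hpl 0 (Nat.zero_le _)) (hpl m le_rfl) hI
      have hval : ∀ x y : ℝ, ⟪(-E) • cr n (q 0 - q m), x • q 0 + y • q m⟫ = -(E * E) * (x + y) := by
        intro x y
        have e1 : ⟪cr n (q 0 - q m), q 0⟫ = E := by
          have : q 0 - q m = q 0 + (-1 : ℝ) • q m := by rw [neg_one_smul, sub_eq_add_neg]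
          rw [inner_cr_swap, this, inner_add_right, real_inner_smul_right, inner_cr_self, ← hE]
          ring
        have e2 : ⟪cr n (q 0 - q m), q m⟫ = E := by
          have : q 0 - q m = q 0 + (-1 : ℝ) • q m := by rw [neg_one_smul, sub_eq_add_neg]
          rw [inner_cr_swap, this, inner_add_right, real_inner_smul_right, inner_cr_self,
            inner_cr_swap, ← hE]
          ring
        rw [real_inner_smul_left, inner_add_right, real_inner_smul_right, real_inner_smul_right,
          e1, e2]
        ring
      obtain ⟨i, him, hi⟩ := hbal ((-E) • cr n (q 0 - q m)) (fun t => by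
        refine not_multiple hn (v := q 0) ?_ ?_ t
        · rw [real_inner_smul_left, inner_cr_n, mul_zero]
        · have := hval 1 0
          rw [one_smul, zero_smul, add_zero] at this
          rw [this]
          simp only [add_zero, mul_one, ne_eq, neg_eq_zero, mul_eq_zero, or_self]
          exact hE0)
      refine ⟨i, him, ?_⟩
      rw [hab i him, hval] at hi
      by_contra hcon
      have h3 : 0 ≤ (E * E) * (a i + b i) := mul_nonneg (mul_self_nonneg _) (not_lt.1 hcon)
      linarith)
    (by
      intro i hi h0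
      have h := hind i hi
      have hlin : ∀ s t : ℝ, s * a i + t * a (i + 1) = 0 → s * b i + t * b (i + 1) = 0 →
          s = 0 ∧ t = 0 := by
        intro s t h1 h2
        apply h
        rw [hcomb i hi, h1, h2, zero_smul, zero_smul, add_zero]
      have h1 := hlin (a (i + 1)) (-(a i)) (by ring) (by linarith)
      have h2 := hlin (b (i + 1)) (-(b i)) (by linarith) (by ring)
      have h3 : q i ≠ 0 := hne i hi.le
      apply h3
      rw [hab i hi.le, neg_eq_zero.1 h1.2, neg_eq_zero.1 h2.2, zero_smul, zero_smul, add_zero])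
    (by
      rintro i j hi hj h1 h2 s t r hs ht hr ⟨h3, h4⟩
      refine hcone i j hi hj h1 h2 s t r hs ht hr ?_
      rw [hcomb i hi, h3, h4, hab j hj]
      module)
  refine ⟨s, t, i, hs, ht, hi, ?_⟩
  rw [hcomb i hi, h1, h2]
  module

end Pool.Agent.TSQ
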