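import Pool.Agent.TSQ.Stmts

/-!
# TSQ, FCV: a face contains a vertex which is extreme in a given direction
-/

set_option autoImplicit false

open scoped RealInnerProductSpace

namespace Pool.Agent.TSQ

open Pool.Agent.TSM Pool.Agent.TSP

namespace FCV_

theorem weights {V : Type} [Fintype V] (p : V → E3) (x : E3)
    (hx : x ∈ convexHull ℝ (Set.range p)) :
    ∃ w : V → ℝ, (∀ v, 0 ≤ w v) ∧ ∑ v, w v = 1 ∧ ∑ v, w v • p v = x := by
  classical
  have h : convexHull ℝ (Set.range p) ⊆
      {x | ∃ w : V → ℝ, (∀ v, 0 ≤ w v) ∧ ∑ v, w v = 1 ∧ ∑ v, w v • p v = x} := by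
    refine convexHull_min ?_ ?_
    · rintro _ ⟨v, rfl⟩
      refine ⟨Pi.single v 1, ?_, ?_, ?_⟩
      · intro u
        by_cases huv : u = v
        · subst huv; simp
        · simp [huv]
      · simp
      · rw [Finset.sum_eq_single v]
        · simp
        · intro u _ huv
          simp [huv]
        · intro h; exact absurd (Finset.mem_univ v) h
    · rintro x ⟨w, h1, h2, h3⟩ y ⟨w', h1', h2', h3'⟩ a b ha hb hab
      refine ⟨fun v => a * w v + b * w' v, ?_, ?_, ?_⟩
      · intro v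
        exact add_nonneg (mul_nonneg ha (h1 v)) (mul_nonneg hb (h1' v))
      · rw [Finset.sum_add_distrib, ← Finset.mul_sum, ← Finset.mul_sum, h2, h2', mul_one, mul_one,
          hab]
      · simp only [add_smul, mul_smul]
        rw [Finset.sum_add_distrib, ← Finset.smul_sum, ← Finset.smul_sum, h3, h3']
  exact h hx

theorem sum_ev {V : Type} [Fintype V] (p : V → E3) (w : V → ℝ) (hw : ∑ v, w v = 1)
    (φ : E3 × ℝ) : ev φ (∑ v, w v • p v) = ∑ v, w v * ev φ (p v) := by
  unfold ev
  rw [inner_sum]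
  simp only [real_inner_smul_right, mul_sub]
  rw [Finset.sum_sub_distrib, ← Finset.sum_mul, hw, one_mul]

end FCV_

theorem FCV_proof : Stmt_FCV := by
  intro V _ p Φ hH φ hφ ψ hψ x hx hφx hψx u
  rw [hH.eq] at hx
  obtain ⟨w, h1, h2, h3⟩ := FCV_.weights p x hx
  have key : ∀ χ ∈ Φ, ev χ x = 0 → ∀ v, w v * ev χ (p v) = 0 := by
    intro χ hχ hχx v
    rw [← h3, FCV_.sum_ev p w h2] at hχx
    have h := (Finset.sum_eq_zero_iff_of_nonpos (fun v _ =>
      mul_nonpos_of_nonneg_of_nonpos (h1 v) (hH.mem v χ hχ))).1 hχx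
    exact h v (Finset.mem_univ v)
  by_contra hcon
  push Not at hcon
  have hsum : ∑ v, w v * (⟪u, p v⟫ - ⟪u, x⟫) = 0 := by
    simp only [mul_sub]
    rw [Finset.sum_sub_distrib, ← Finset.sum_mul, h2, one_mul]
    have h4 : ⟪u, x⟫ = ∑ v, w v * ⟪u, p v⟫ := by
      rw [← h3, inner_sum]
      simp only [real_inner_smul_right]
    rw [h4, sub_self]
  have hneg : ∀ v, 0 < w v → ⟪u, p v⟫ < ⟪u, x⟫ := by
    intro v hv
    apply hcon v
    · rcases mul_eq_zero.1 (key φ hφ hφx v) with h | h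
      · exact absurd h hv.ne'
      · exact h
    · rcases mul_eq_zero.1 (key ψ hψ hψx v) with h | h
      · exact absurd h hv.ne'
      · exact h
  have hterm : ∀ v ∈ (Finset.univ : Finset V), w v * (⟪u, p v⟫ - ⟪u, x⟫) ≤ 0 := by
    intro v _
    rcases (h1 v).eq_or_lt with h | h
    · rw [← h, zero_mul]
    · exact (mul_neg_of_pos_of_neg h (sub_neg.2 (hneg v h))).le
  have hz := (Finset.sum_eq_zero_iff_of_nonpos hterm).1 hsum
  have hw0 : ∀ v, w v = 0 := by
    intro v
    rcases (h1 v).eq_or_lt with h | h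
    · exact h.symm
    · exfalso
      have := hz v (Finset.mem_univ v)
      have h5 := mul_neg_of_pos_of_neg h (sub_neg.2 (hneg v h))
      linarith
  rw [Finset.sum_eq_zero (fun v _ => hw0 v)] at h2
  exact zero_ne_one h2

end Pool.Agent.TSQ
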