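import Pool.Agent.TSQ.Stmts

/-!
# TSQ.FOL: follow the line
-/

set_option autoImplicit false

open scoped RealInnerProductSpace

namespace Pool.Agent.TSQ

open Pool.Agent.TSM Pool.Agent.TSP

namespace FOL_

lemma exists_split {α : Type} (L : List α) (a b : α) (h : (a, b) ∈ conseq L) :
    ∃ l1 l2, L = l1 ++ a :: b :: l2 := by
  induction L with
  | nil => simp [conseq] at h
  | cons c L ih =>
    cases L with
    | nil => simp [conseq] at h
    | cons d L =>
      rw [conseq, List.mem_cons] at h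
      rcases h with h | h
      · obtain ⟨h1, h2⟩ := Prod.mk.inj h
        subst h1; subst h2
        exact ⟨[], L, rfl⟩
      · obtain ⟨l1, l2, hl⟩ := ih h
        exact ⟨c :: l1, l2, by rw [hl]; rfl⟩

lemma of_split {α : Type} (l1 l2 : List α) (a b : α) : (a, b) ∈ conseq (l1 ++ a :: b :: l2) := by
  induction l1 with
  | nil => simp [conseq]
  | cons c l1 ih =>
    cases l1 with
    | nil => simp [conseq]
    | cons d l1 =>
      show (a, b) ∈ (c, d) :: conseq (d :: (l1 ++ a :: b :: l2))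
      exact List.mem_cons_of_mem _ ih

lemma notMem_of_nodup {α : Type} {x y m : α} {A B rest : List α}
    (hnd : (x :: ((A ++ m :: B) ++ y :: rest)).Nodup) :
    m ∉ x :: A ∧ m ∉ B ++ y :: rest ++ [x] := by
  have e1 : x :: ((A ++ m :: B) ++ y :: rest) = (x :: A) ++ (m :: (B ++ y :: rest)) := by simp
  rw [e1] at hnd
  have h2 : ∀ a ∈ x :: A, ∀ b ∈ m :: (B ++ y :: rest), a ≠ b := (List.nodup_append.1 hnd).2.2
  have h3 : m ∉ B ++ y :: rest := (List.nodup_cons.1 (List.nodup_append.1 hnd).2.1).1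
  refine ⟨fun h => h2 m h m (by simp) rfl, ?_⟩
  rw [List.mem_append]
  rintro (h | h)
  · exact h3 h
  · rw [List.mem_singleton] at h
    exact h2 x (by simp) m (by simp) h.symm

lemma next_mem {α : Type} {x y m u : α} {mid rest : List α}
    (hnd : (x :: (mid ++ y :: rest)).Nodup) (hm : m ∈ mid)
    (h : (m, u) ∈ cyc (x :: (mid ++ y :: rest))) : u ∈ mid ∨ u = y := by
  obtain ⟨A, B, rfl⟩ := List.append_of_mem hm
  obtain ⟨l1, l2, hl⟩ := exists_split _ _ _ h
  obtain ⟨n1, n2⟩ := notMem_of_nodup hnd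
  have h1 : (x :: A) ++ m :: (B ++ y :: rest ++ [x]) = l1 ++ m :: (u :: l2) := by
    rw [← hl]; simp
  have h2 := ((List.append_cons_inj_of_notMem n1 n2).1 h1).2.2
  cases B with
  | nil =>
    right
    exact (List.cons.inj h2).1.symm
  | cons b B =>
    left
    have : b = u := (List.cons.inj h2).1
    subst this
    simp

lemma prev_mem {α : Type} {x y m u : α} {mid rest : List α}
    (hnd : (x :: (mid ++ y :: rest)).Nodup) (hm : m ∈ mid)
    (h : (u, m) ∈ cyc (x :: (mid ++ y :: rest))) : u = x ∨ u ∈ mid := by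
  obtain ⟨A, B, rfl⟩ := List.append_of_mem hm
  obtain ⟨l1, l2, hl⟩ := exists_split _ _ _ h
  obtain ⟨n1, n2⟩ := notMem_of_nodup hnd
  have h1 : (x :: A) ++ m :: (B ++ y :: rest ++ [x]) = (l1 ++ [u]) ++ m :: l2 := by
    have e : (l1 ++ [u]) ++ m :: l2 = l1 ++ u :: m :: l2 := by simp
    rw [e, ← hl]; simp
  have h2 := ((List.append_cons_inj_of_notMem n1 n2).1 h1).1
  have h3 : u ∈ x :: A := by rw [h2]; simp
  rw [List.mem_cons] at h3
  rcases h3 with h3 | h3
  · exact Or.inl h3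
  · right; simp [h3]

lemma cyc_mem {α : Type} (l : List α) (a b : α) (h : (a, b) ∈ cyc l) : a ∈ l ∧ b ∈ l := by
  cases l with
  | nil => simp [cyc] at h
  | cons c l =>
    obtain ⟨l1, l2, hl⟩ := exists_split _ _ _ h
    constructor
    · have h1 : a ∈ c :: l ++ [c] := by rw [hl]; simp
      simp only [List.cons_append, List.mem_cons, List.mem_append, List.mem_nil_iff,
        or_false] at h1 ⊢
      tauto
    · have h1 : b ∈ c :: l ++ [c] := by rw [hl]; simp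
      simp only [List.cons_append, List.mem_cons, List.mem_append, List.mem_nil_iff,
        or_false] at h1 ⊢
      tauto

lemma nbr {V : Type} [DecidableEq V] {T : Finset (Finset V)} {v x y u m : V} {mid rest : List V}
    (hl : IsLink T v (x :: (mid ++ y :: rest))) (hm : m ∈ mid) (hvu : v ≠ u) (hvm : v ≠ m)
    (hum : u ≠ m) (h : {v, u, m} ∈ T) : u = x ∨ u ∈ mid ∨ u = y := by
  obtain ⟨h3, hnd, hv, hT⟩ := hl
  obtain ⟨a, b, hab, he⟩ := (hT {v, u, m}).1 ⟨h, by simp⟩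
  obtain ⟨ha, hb⟩ := cyc_mem _ _ _ hab
  have hav : a ≠ v := fun e => hv (e ▸ ha)
  have hbv : b ≠ v := fun e => hv (e ▸ hb)
  have hu : u ∈ ({v, a, b} : Finset V) := by rw [← he]; simp
  have hm' : m ∈ ({v, a, b} : Finset V) := by rw [← he]; simp
  simp only [Finset.mem_insert, Finset.mem_singleton] at hu hm'
  rcases hu with hu | hu | hu
  · exact absurd hu.symm hvu
  · rcases hm' with hm' | hm' | hm'
    · exact absurd hm'.symm hvm
    · exact absurd (hu.trans hm'.symm) hum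
    · subst hu; subst hm'
      rcases prev_mem hnd hm hab with h' | h'
      · exact Or.inl h'
      · exact Or.inr (Or.inl h')
  · rcases hm' with hm' | hm' | hm'
    · exact absurd hm'.symm hvm
    · subst hu; subst hm'
      rcases next_mem hnd hm hab with h' | h'
      · exact Or.inr (Or.inl h')
      · exact Or.inr (Or.inr h')
    · exact absurd (hu.trans hm'.symm) hum

lemma first_tri {V : Type} [DecidableEq V] {T : Finset (Finset V)} {v x y : V}
    {mid rest : List V} (hl : IsLink T v (x :: (mid ++ y :: rest))) (hmid : mid ≠ []) :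
    ∃ m ∈ mid, {v, x, m} ∈ T := by
  obtain ⟨h3, hnd, hv, hT⟩ := hl
  cases mid with
  | nil => exact absurd rfl hmid
  | cons m A =>
    refine ⟨m, by simp, ?_⟩
    exact ((hT {v, x, m}).2 ⟨x, m, of_split [] (A ++ y :: rest ++ [x]) x m, rfl⟩).1

lemma last_tri {V : Type} [DecidableEq V] {T : Finset (Finset V)} {v x y : V}
    {mid rest : List V} (hl : IsLink T v (x :: (mid ++ y :: rest))) (hmid : mid ≠ []) :
    ∃ m ∈ mid, {v, y, m} ∈ T := by
  obtain ⟨h3, hnd, hv, hT⟩ := hl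
  obtain ⟨A, m, rfl⟩ : ∃ A m, mid = A ++ [m] :=
    ⟨mid.dropLast, mid.getLast hmid, (List.dropLast_append_getLast hmid).symm⟩
  refine ⟨m, by simp, ?_⟩
  have h : (m, y) ∈ cyc (x :: ((A ++ [m]) ++ y :: rest)) := by
    have e : x :: ((A ++ [m]) ++ y :: rest) ++ [x] = (x :: A) ++ m :: y :: (rest ++ [x]) := by simp
    show (m, y) ∈ conseq (x :: ((A ++ [m]) ++ y :: rest) ++ [x])
    rw [e]
    exact of_split _ _ _ _
  have e2 : ({v, y, m} : Finset V) = {v, m, y} := by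
    ext t; simp only [Finset.mem_insert, Finset.mem_singleton]; tauto
  rw [e2]
  exact ((hT {v, m, y}).2 ⟨m, y, h, rfl⟩).1

lemma te_symm {V : Type} [Fintype V] [DecidableEq V] {Φ : Finset (E3 × ℝ)} {p : V → E3}
    {z y : V} (h : TE Φ p z y) : TE Φ p y z := by
  obtain ⟨φ, h1, h2, h3⟩ := h
  exact ⟨φ, h1, h3, h2⟩

section main
variable {V : Type} [Fintype V] [DecidableEq V]

/-- the state of the walk -/
def EE (K : Surf V) (p : V → E3) (Φ : Finset (E3 × ℝ)) (W : Finset V) (z x : V) : Prop :=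
  z ∉ W ∧ x ∉ W ∧ K.Adj z x ∧ TE Φ p z x ∧
    ∃ m, m ≠ z ∧ m ≠ x ∧ {z, x, m} ∈ K.tri ∧ ¬ TE Φ p z m

lemma ends (hLKA : Stmt_LKA) (hEMC : Stmt_EMC) {K : Surf V} {p : V → E3} {Φ : Finset (E3 × ℝ)}
    {W : Finset V} (hPre : Pre K p Φ) (hW : WGood K p Φ W)
    {z x y : V} {mid rest : List V} (hz : z ∉ W) (hP : Path K p Φ z x y mid rest)
    (hmid : mid ≠ []) (hI : ¬ Indep2 (p x - p z) (p y - p z)) :
    EE K p Φ W z x ∧ EE K p Φ W z y ∧ ∃ r : ℝ, 0 < r ∧ p y - p z = (-r) • (p x - p z) := by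
  obtain ⟨hl, hx, hy, hm⟩ := hP
  have hadj : ∀ u ∈ x :: (mid ++ y :: rest), K.Adj z u := fun u hu =>
    ((hLKA V K.tri z).2.2.1 _ u hl).1 hu
  have hnd := hl.2.1
  have hxy : x ≠ y := by
    intro h
    subst h
    exact (List.nodup_cons.1 hnd).1 (by simp)
  have hax : K.Adj z x := hadj x (by simp)
  have hay : K.Adj z y := hadj y (by simp)
  obtain ⟨m1, hm1, ht1⟩ := first_tri hl hmid
  obtain ⟨m2, hm2, ht2⟩ := last_tri hl hmid
  have hmx : ∀ m ∈ mid, m ≠ x := by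
    intro m hm' h
    subst h
    exact (List.nodup_cons.1 hnd).1 (by simp [hm'])
  have hmy : ∀ m ∈ mid, m ≠ y := by
    intro m hm' h
    subst h
    exact (List.nodup_append.1 (List.nodup_cons.1 hnd).2).2.2 m hm' m (by simp) rfl
  have hmz : ∀ m ∈ mid, m ≠ z := by
    intro m hm' h
    subst h
    exact hl.2.2.1 (by simp [hm'])
  have hxW : x ∉ W := by
    intro hxW
    exact hI (hW.2 z x y m1 m2 hz hxW hxy.symm hx hy (hm m1 hm1) (hm m2 hm2) ht1 ht2)
  have hyW : y ∉ W := by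
    intro hyW
    have h := hW.2 z y x m2 m1 hz hyW hxy hy hx (hm m2 hm2) (hm m1 hm1) ht2 ht1
    apply hI
    intro a b hab
    have := h b a (by rw [add_comm]; exact hab)
    exact ⟨this.2, this.1⟩
  refine ⟨⟨hz, hxW, hax, hx, m1, hmz m1 hm1, hmx m1 hm1, ht1, hm m1 hm1⟩,
    ⟨hz, hyW, hay, hy, m2, hmz m2 hm2, hmy m2 hm2, ht2, hm m2 hm2⟩, ?_⟩
  exact (hEMC V K p hPre.emb).2.2.2 z x y hax hay hxy hI

lemma getPath (hLKA : Stmt_LKA) (hLKB : Stmt_LKB) (hPTH : Stmt_PTH) (hTWO : Stmt_TWO)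
    {K : Surf V} {p : V → E3} {Φ : Finset (E3 × ℝ)} (hPre : Pre K p Φ) (z m : V)
    (hz : ∃ φ ∈ Φ, ev φ (p z) = 0) (ha : K.Adj z m) (hm : ¬ TE Φ p z m) :
    ∃ (x y : V) (mid rest : List V), Path K p Φ z x y mid rest ∧ m ∈ mid := by
  obtain ⟨φ, hφ, hz0⟩ := hz
  obtain ⟨a, b, hab, ha', hb', hpa, hpb⟩ := hTWO V K p Φ hPre z φ hφ hz0
  obtain ⟨n, c, hc⟩ := K.link z
  obtain ⟨l, hl⟩ := (hLKB V K.tri z).1 n c hc
  have hmem := (hLKA V K.tri z).2.2.1 l
  obtain ⟨x, mid, y, rest, h1, h2, h3, h4, h5⟩ := hPTH V K.tri z l (TE Φ p z) hl a b m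
    ((hmem a hl).2 ha') ((hmem b hl).2 hb') hab ⟨φ, hφ, hz0, hpa⟩ ⟨φ, hφ, hz0, hpb⟩
    ((hmem m hl).2 ha) hm
  exact ⟨x, y, mid, rest, ⟨h1, h2, h3, h4⟩, h5⟩

end main

end FOL_

open FOL_

theorem FOL_proof (hLKA : Stmt_LKA) (hLKB : Stmt_LKB) (hPTH : Stmt_PTH) (hEMC : Stmt_EMC)
    (hTWO : Stmt_TWO) (hTTR : Stmt_TTR) : Stmt_FOL := by
  classical
  intro V _ _ K p Φ W hPre hW z0 m0 hz0 hφ0 hadj hm0
  by_contra hno
  have hI : ∀ (z x y : V) (mid rest : List V), z ∉ W → Path K p Φ z x y mid rest → mid ≠ [] →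
      ¬ Indep2 (p x - p z) (p y - p z) := by
    intro z x y mid rest h1 h2 h3 h4
    exact hno ⟨z, x, y, mid, rest, h1, h2, h3, h4⟩
  obtain ⟨x0, y0, mid0, rest0, hP0, hm0'⟩ :=
    getPath hLKA hLKB hPTH hTWO hPre z0 m0 hφ0 hadj hm0
  have hmid0 : mid0 ≠ [] := by
    intro h; rw [h] at hm0'; simp at hm0'
  obtain ⟨hE0, -, -⟩ := ends hLKA hEMC hPre hW hz0 hP0 hmid0 (hI _ _ _ _ _ hz0 hP0 hmid0)
  set w0 : E3 := p x0 - p z0 with hw0
  have hw0ne : w0 ≠ 0 := by
    intro h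
    exact (hEMC V K p hPre.emb).1 z0 x0 hE0.2.2.1 (sub_eq_zero.1 h)
  let S : Finset (V × V) := Finset.univ.filter fun q =>
    EE K p Φ W q.1 q.2 ∧ ∃ c : ℝ, 0 < c ∧ p q.2 - p q.1 = c • w0
  have hS : S.Nonempty := ⟨(z0, x0), by
    simp only [S, Finset.mem_filter, Finset.mem_univ, true_and]
    exact ⟨hE0, 1, one_pos, by rw [one_smul]⟩⟩
  obtain ⟨⟨z, x⟩, hq, hmax⟩ := Finset.exists_max_image S (fun q => ⟪w0, p q.1⟫) hS
  simp only [S, Finset.mem_filter, Finset.mem_univ, true_and] at hq hmax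
  obtain ⟨⟨hz, hx, hzx, hTE, m, hmz, hmx, ht, hmT⟩, c, hc, hcw⟩ := hq
  -- the other end at x
  have htx : {x, z, m} ∈ K.tri := by
    have e2 : ({x, z, m} : Finset V) = {z, x, m} := by
      ext t; simp only [Finset.mem_insert, Finset.mem_singleton]; tauto
    rw [e2]; exact ht
  have hxm : ¬ TE Φ p x m := by
    intro h
    obtain ⟨φ, hφ, h1, h2, h3⟩ := hTTR V K p Φ hPre x z m hzx.1.symm (Ne.symm hmx)
      (Ne.symm hmz) htx (te_symm hTE) h
    exact hmT ⟨φ, hφ, h2, h3⟩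
  have hxφ : ∃ φ ∈ Φ, ev φ (p x) = 0 := by
    obtain ⟨φ, hφ, h1, h2⟩ := hTE
    exact ⟨φ, hφ, h2⟩
  have hadjxm : K.Adj x m := ⟨Ne.symm hmx, {x, z, m}, htx, by simp, by simp⟩
  obtain ⟨x', y', mid, rest, hP, hmm⟩ :=
    getPath hLKA hLKB hPTH hTWO hPre x m hxφ hadjxm hxm
  have hmid : mid ≠ [] := by
    intro h; rw [h] at hmm; simp at hmm
  obtain ⟨hE1, hE2, r, hr, hrr⟩ := ends hLKA hEMC hPre hW hx hP hmid (hI _ _ _ _ _ hx hP hmid)
  have hpos : ⟪w0, p z⟫ < ⟪w0, p x⟫ := by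
    have h1 : p x = p z + c • w0 := by rw [← hcw]; abel
    rw [h1, inner_add_right, inner_smul_right]
    have h2 : 0 < ⟪w0, w0⟫ := real_inner_self_pos.2 hw0ne
    have := mul_pos hc h2
    linarith
  rcases nbr hP.1 hmm hzx.1.symm (Ne.symm hmx) (Ne.symm hmz) htx with h | h | h
  · -- z = x'
    subst h
    have h1 : p y' - p x = (r * c) • w0 := by
      rw [hrr, mul_smul, ← hcw, neg_smul, ← smul_neg, neg_sub]
    have := hmax (x, y') ⟨hE2, r * c, mul_pos hr hc, h1⟩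
    simp only at this
    linarith
  · exact hP.2.2.2 z h (te_symm hTE)
  · -- z = y'
    subst h
    have h1 : p x' - p x = (r⁻¹ * c) • w0 := by
      have h2 : c • w0 = r • (p x' - p x) := by
        have : p x - p z = r • (p x' - p x) := by
          have h3 : p x - p z = -(p z - p x) := by abel
          rw [h3, hrr, neg_smul, neg_neg]
        rw [← hcw, this]
      rw [mul_smul, h2, smul_smul, inv_mul_cancel₀ hr.ne', one_smul]
    have := hmax (x, x') ⟨hE1, r⁻¹ * c, mul_pos (inv_pos.2 hr) hc, h1⟩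
    simp only at this
    linarith

end Pool.Agent.TSQ
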