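import Pool.Agent.TSQ.Stmts

/-!
# TSQ, module GEN: generic position of the non-outer vertices
-/

set_option autoImplicit false

open scoped RealInnerProductSpace

namespace Pool.Agent.TSQ

open Pool.Agent.TSM Pool.Agent.TSP

namespace GEN_

/-- three points are not collinear (weight form) -/
def T3 (x y z : E3) : Prop :=
  ∀ α β γ : ℝ, α + β + γ = 0 → α • x + β • y + γ • z = 0 → α = 0 ∧ β = 0 ∧ γ = 0

/-- four points are not coplanar (weight form) -/
def T4 (x y z w : E3) : Prop :=
  ∀ α β γ δ : ℝ, α + β + γ + δ = 0 → α • x + β • y + γ • z + δ • w = 0 →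
    α = 0 ∧ β = 0 ∧ γ = 0 ∧ δ = 0

theorem T3.aff {x y z : E3} (h : T3 x y z) : AffineIndependent ℝ ![x, y, z] := by
  rw [affineIndependent_iff_of_fintype]
  intro w hw0 hw
  rw [Finset.weightedVSub_eq_linear_combination _ hw0] at hw
  rw [Fin.sum_univ_three] at hw0 hw
  obtain ⟨h0, h1, h2⟩ := h (w 0) (w 1) (w 2) hw0 hw
  intro i
  fin_cases i
  · exact h0
  · exact h1
  · exact h2

theorem T4.aff {x y z u : E3} (h : T4 x y z u) : AffineIndependent ℝ ![x, y, z, u] := by
  rw [affineIndependent_iff_of_fintype]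
  intro w hw0 hw
  rw [Finset.weightedVSub_eq_linear_combination _ hw0] at hw
  rw [Fin.sum_univ_four] at hw0 hw
  obtain ⟨h0, h1, h2, h3⟩ := h (w 0) (w 1) (w 2) (w 3) hw0 hw
  intro i
  fin_cases i
  · exact h0
  · exact h1
  · exact h2
  · exact h3

theorem T3.s12 {x y z : E3} (h : T3 x y z) : T3 y x z := by
  intro α β γ h0 h1
  obtain ⟨a, b, c⟩ := h β α γ (by linarith) (by rw [← h1]; abel)
  exact ⟨b, a, c⟩

theorem T3.s23 {x y z : E3} (h : T3 x y z) : T3 x z y := by
  intro α β γ h0 h1
  obtain ⟨a, b, c⟩ := h α γ β (by linarith) (by rw [← h1]; abel)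
  exact ⟨a, c, b⟩

theorem T4.s12 {x y z u : E3} (h : T4 x y z u) : T4 y x z u := by
  intro α β γ δ h0 h1
  obtain ⟨a, b, c, d⟩ := h β α γ δ (by linarith) (by rw [← h1]; abel)
  exact ⟨b, a, c, d⟩

theorem T4.s23 {x y z u : E3} (h : T4 x y z u) : T4 x z y u := by
  intro α β γ δ h0 h1
  obtain ⟨a, b, c, d⟩ := h α γ β δ (by linarith) (by rw [← h1]; abel)
  exact ⟨a, c, b, d⟩

theorem T4.s34 {x y z u : E3} (h : T4 x y z u) : T4 x y u z := by
  intro α β γ δ h0 h1
  obtain ⟨a, b, c, d⟩ := h α β δ γ (by linarith) (by rw [← h1]; abel)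
  exact ⟨a, b, d, c⟩

theorem ev_comb3 (g : E3 × ℝ) (α β γ : ℝ) (x y z : E3) (h0 : α + β + γ = 0)
    (h1 : α • x + β • y + γ • z = 0) : α * ev g x + β * ev g y + γ * ev g z = 0 := by
  have h2 : ⟪g.1, α • x + β • y + γ • z⟫ = 0 := by rw [h1, inner_zero_right]
  simp only [inner_add_right, inner_smul_right] at h2
  unfold ev
  linear_combination h2 - g.2 * h0

theorem ev_comb4 (g : E3 × ℝ) (α β γ δ : ℝ) (x y z u : E3) (h0 : α + β + γ + δ = 0)
    (h1 : α • x + β • y + γ • z + δ • u = 0) :
    α * ev g x + β * ev g y + γ * ev g z + δ * ev g u = 0 := by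
  have h2 : ⟪g.1, α • x + β • y + γ • z + δ • u⟫ = 0 := by rw [h1, inner_zero_right]
  simp only [inner_add_right, inner_smul_right] at h2
  unfold ev
  linear_combination h2 - g.2 * h0

theorem exists_perp (u w : E3) : ∃ n : E3, n ≠ 0 ∧ ⟪n, u⟫ = 0 ∧ ⟪n, w⟫ = 0 := by
  let f : E3 →ₗ[ℝ] (Fin 2 → ℝ) := LinearMap.pi ![(innerₛₗ ℝ) u, (innerₛₗ ℝ) w]
  have hlt : Module.finrank ℝ (Fin 2 → ℝ) < Module.finrank ℝ E3 := by
    simp
  have hk := LinearMap.ker_ne_bot_of_finrank_lt (f := f) hlt
  obtain ⟨n, hn, hn0⟩ := Submodule.exists_mem_ne_zero_of_ne_bot hk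
  rw [LinearMap.mem_ker] at hn
  have h0 := congrFun hn 0
  have h1 := congrFun hn 1
  refine ⟨n, hn0, ?_, ?_⟩
  · rw [real_inner_comm]; simpa [f] using h0
  · rw [real_inner_comm]; simpa [f] using h1

/-- an affine function vanishing on a plane is a multiple of its equation -/
theorem mult_of_plane {φ g : E3 × ℝ} (hφ : φ.1 ≠ 0) (h : ∀ y, ev φ y = 0 → ev g y = 0) :
    ∃ c : ℝ, ∀ x, ev g x = c * ev φ x := by
  have hp : ⟪φ.1, φ.1⟫ ≠ 0 := (inner_self_pos hφ).ne'
  refine ⟨⟪g.1, φ.1⟫ / ⟪φ.1, φ.1⟫, fun x => ?_⟩
  have h1 := h (x - (ev φ x / ⟪φ.1, φ.1⟫) • φ.1) (by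
    unfold ev
    rw [inner_sub_right, inner_smul_right]
    field_simp
    ring)
  unfold ev at h1 ⊢
  rw [inner_sub_right, inner_smul_right] at h1
  field_simp at h1 ⊢
  linarith

variable {V : Type} [Fintype V] [DecidableEq V]

end GEN_

open GEN_ in
/-- generic position -/
theorem GEN_proof (h1 : Stmt_AVD) : Stmt_GEN := by
  intro V _ _ p S fa
  have key : ∀ S : Finset V,
    (∀ v ∈ S, ∀ φ, fa v = some φ → φ.1 ≠ 0 ∧ ev φ (p v) = 0) →
    (∀ v ∈ S, ∀ w ∈ S, ∀ ψ, fa w = some ψ → fa v ≠ some ψ → ev ψ (p v) ≠ 0) →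
    ∀ ε : ℝ, 0 < ε → ∃ p' : V → E3, (∀ v, v ∉ S → p' v = p v) ∧ (∀ v, ‖p' v - p v‖ < ε) ∧
    (∀ v ∈ S, ∀ φ, fa v = some φ → ev φ (p' v) = 0) ∧
    (∀ a ∈ S, ∀ b ∈ S, a ≠ b → p' a ≠ p' b) ∧
    (∀ a ∈ S, ∀ b ∈ S, ∀ c ∈ S, a ≠ b → a ≠ c → b ≠ c → T3 (p' a) (p' b) (p' c)) ∧
    (∀ a ∈ S, ∀ b ∈ S, ∀ c ∈ S, ∀ d ∈ S, a ≠ b → a ≠ c → a ≠ d → b ≠ c → b ≠ d → c ≠ d →
      (¬ ∃ φ, fa a = some φ ∧ fa b = some φ ∧ fa c = some φ ∧ fa d = some φ) →
      T4 (p' a) (p' b) (p' c) (p' d)) := by
    intro S
    induction S using Finset.induction_on with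
    | empty =>
      intro _ _ ε hε
      refine ⟨p, fun _ _ => rfl, fun v => by simpa using hε, by simp, by simp, by simp, by simp⟩
    | insert v S hv ih =>
      intro hf1 hf2 ε hε
      -- smallness
      have hδ : ∃ δ : ℝ, 0 < δ ∧ ∀ a ∈ S, ∀ φ, fa v = some φ → fa a ≠ some φ →
          ∀ x : E3, ‖x - p a‖ < δ → ev φ x ≠ 0 := by
        have h2 : ∀ a ∈ S, ∃ δ : ℝ, 0 < δ ∧ ∀ φ, fa v = some φ → fa a ≠ some φ →
            ∀ x : E3, ‖x - p a‖ < δ → ev φ x ≠ 0 := by
          intro a ha
          cases hfv : fa v with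
          | none => exact ⟨1, one_pos, by simp⟩
          | some φ =>
            by_cases hfa : fa a = some φ
            · refine ⟨1, one_pos, ?_⟩
              intro ψ hψ h3
              rw [Option.some.injEq] at hψ
              exact absurd (hψ ▸ hfa) h3
            · have hne := hf2 a (Finset.mem_insert_of_mem ha) v (Finset.mem_insert_self _ _) φ hfv hfa
              have hφ := (hf1 v (Finset.mem_insert_self _ _) φ hfv).1
              have hn : 0 < ‖φ.1‖ := norm_pos_iff.2 hφ
              refine ⟨|ev φ (p a)| / ‖φ.1‖, div_pos (abs_pos.2 hne) hn, ?_⟩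
              intro ψ hψ _ x hx h0
              rw [Option.some.injEq] at hψ
              subst hψ
              rw [lt_div_iff₀ hn] at hx
              have h3 : ev φ x - ev φ (p a) = ⟪φ.1, x - p a⟫ := by
                unfold ev; rw [inner_sub_right]; ring
              have h4 := abs_real_inner_le_norm φ.1 (x - p a)
              rw [← h3, h0, zero_sub, abs_neg] at h4
              linarith [mul_comm ‖φ.1‖ ‖x - p a‖]
        choose! δ hδ1 hδ2 using h2
        by_cases hS : S.Nonempty
        · refine ⟨S.inf' hS δ, ?_, ?_⟩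
          · rw [Finset.lt_inf'_iff]
            exact hδ1
          · intro a ha φ hφ hne x hx
            refine hδ2 a ha φ hφ hne x (lt_of_lt_of_le hx ?_)
            exact Finset.inf'_le _ ha
        · refine ⟨1, one_pos, ?_⟩
          intro a ha
          exact absurd ⟨a, ha⟩ hS
      obtain ⟨δ, hδ0, hδ⟩ := hδ
      obtain ⟨q, hq0, hq1, hqf, hq2, hq3, hq4⟩ := ih
        (fun a ha => hf1 a (Finset.mem_insert_of_mem ha))
        (fun a ha b hb => hf2 a (Finset.mem_insert_of_mem ha) b (Finset.mem_insert_of_mem hb))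
        (min ε δ) (lt_min hε hδ0)
      have hqδ : ∀ a ∈ S, ∀ φ, fa v = some φ → fa a ≠ some φ → ev φ (q a) ≠ 0 := by
        intro a ha φ hφ hne
        exact hδ a ha φ hφ hne _ (lt_of_lt_of_le (hq1 a) (min_le_right _ _))
      -- the normal of the face of `v` (or zero)
      let m : E3 := (fa v).elim 0 fun φ => φ.1
      have hgl : ∀ a b : V, ∃ g : E3 × ℝ, ev g (q a) = 0 ∧ ev g (q b) = 0 ∧
          ∃ y, (∀ φ, fa v = some φ → ev φ y = 0) ∧ ev g y ≠ 0 := by
        intro a b
        obtain ⟨n, hn, hn1, hn2⟩ := exists_perp (q b - q a) m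
        refine ⟨(n, ⟪n, q a⟫), ?_, ?_, ?_⟩
        · unfold ev; simp
        · unfold ev
          rw [inner_sub_right] at hn1
          simpa using hn1
        · by_cases h3 : ev (n, ⟪n, q a⟫) (p v) = 0
          · refine ⟨p v + n, ?_, ?_⟩
            · intro φ hφ
              have h4 := (hf1 v (Finset.mem_insert_self _ _) φ hφ).2
              have h5 : ⟪φ.1, n⟫ = 0 := by
                have : m = φ.1 := by simp [m, hφ]
                rw [real_inner_comm, ← this]; exact hn2
              unfold ev at h4 ⊢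
              rw [inner_add_right, h5]
              linarith
            · intro h4
              unfold ev at h3 h4
              rw [inner_add_right] at h4
              have h5 := inner_self_pos hn
              simp only at h3 h4
              linarith
          · exact ⟨p v, fun φ hφ => (hf1 v (Finset.mem_insert_self _ _) φ hφ).2, h3⟩
      choose gl hgl1 hgl2 hgl3 using hgl
      have hgq : ∀ a b c : V, ∃ g : E3 × ℝ, ev g (q a) = 0 ∧ ev g (q b) = 0 ∧ ev g (q c) = 0 ∧
          (a ∈ S → b ∈ S → c ∈ S →
            (¬ ∃ φ, fa v = some φ ∧ fa a = some φ ∧ fa b = some φ ∧ fa c = some φ) →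
            ∃ y, (∀ φ, fa v = some φ → ev φ y = 0) ∧ ev g y ≠ 0) := by
        intro a b c
        obtain ⟨n, hn, hn1, hn2⟩ := exists_perp (q b - q a) (q c - q a)
        have ha : ev (n, ⟪n, q a⟫) (q a) = 0 := by unfold ev; simp
        have hb : ev (n, ⟪n, q a⟫) (q b) = 0 := by
          unfold ev
          rw [inner_sub_right] at hn1
          simpa using hn1
        have hc : ev (n, ⟪n, q a⟫) (q c) = 0 := by
          unfold ev
          rw [inner_sub_right] at hn2
          simpa using hn2
        refine ⟨(n, ⟪n, q a⟫), ha, hb, hc, ?_⟩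
        intro haS hbS hcS hno
        by_contra hcon
        push Not at hcon
        cases hfv : fa v with
        | none =>
          have h3 := hcon (q a + n) (by simp [hfv])
          unfold ev at ha h3
          rw [inner_add_right] at h3
          have h5 := inner_self_pos hn
          simp only at ha h3
          linarith
        | some φ =>
          have hφ := (hf1 v (Finset.mem_insert_self _ _) φ hfv).1
          obtain ⟨k, hk⟩ := mult_of_plane hφ (g := (n, ⟪n, q a⟫)) (fun y hy => hcon y (by
            intro ψ hψ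
            rw [hfv, Option.some.injEq] at hψ
            rw [← hψ]; exact hy))
          have hk0 : k = 0 := by
            have hx : ∀ x ∈ S, fa x ≠ some φ → ev (n, ⟪n, q a⟫) (q x) = 0 → k = 0 := by
              intro x hx hne h0
              have h5 := hqδ x hx φ hfv hne
              rw [hk] at h0
              rcases mul_eq_zero.1 h0 with h | h
              · exact h
              · exact absurd h h5
            by_cases e1 : fa a = some φ
            · by_cases e2 : fa b = some φ
              · by_cases e3 : fa c = some φ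
                · exact absurd ⟨φ, hfv, e1, e2, e3⟩ hno
                · exact hx c hcS e3 hc
              · exact hx b hbS e2 hb
            · exact hx a haS e1 ha
          have h3 := hk (q a + n)
          rw [hk0, zero_mul] at h3
          unfold ev at ha h3
          rw [inner_add_right] at h3
          have h5 := inner_self_pos hn
          simp only at ha h3
          linarith
      choose gq hgq1 hgq2 hgq3 hgq4 using hgq
      -- the functions to avoid
      classical
      let G : Finset (E3 × ℝ) := ((S ×ˢ S).image fun t => gl t.1 t.2) ∪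
        ((S ×ˢ (S ×ˢ S)).filter fun t =>
          ¬ ∃ φ, fa v = some φ ∧ fa t.1 = some φ ∧ fa t.2.1 = some φ ∧ fa t.2.2 = some φ).image
            fun t => gq t.1 t.2.1 t.2.2
      obtain ⟨x', hx1, hx2, hx3⟩ := h1 (fa v) G (p v)
        (fun φ hφ => (hf1 v (Finset.mem_insert_self _ _) φ hφ).2)
        (by
          intro g hg
          rw [Finset.mem_union, Finset.mem_image, Finset.mem_image] at hg
          rcases hg with ⟨t, ht, rfl⟩ | ⟨t, ht, rfl⟩
          · exact hgl3 _ _
          · rw [Finset.mem_filter, Finset.mem_product, Finset.mem_product] at ht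
            exact hgq4 _ _ _ ht.1.1 ht.1.2.1 ht.1.2.2 ht.2)
        ε hε
      have hxl : ∀ a ∈ S, ∀ b ∈ S, ev (gl a b) x' ≠ 0 := by
        intro a ha b hb
        refine hx3 _ (Finset.mem_union_left _ ?_)
        exact Finset.mem_image.2 ⟨(a, b), Finset.mem_product.2 ⟨ha, hb⟩, rfl⟩
      have hxq : ∀ a ∈ S, ∀ b ∈ S, ∀ c ∈ S,
          (¬ ∃ φ, fa v = some φ ∧ fa a = some φ ∧ fa b = some φ ∧ fa c = some φ) →
          ev (gq a b c) x' ≠ 0 := by
        intro a ha b hb c hc hno
        refine hx3 _ (Finset.mem_union_right _ ?_)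
        refine Finset.mem_image.2 ⟨(a, b, c), Finset.mem_filter.2 ⟨?_, hno⟩, rfl⟩
        exact Finset.mem_product.2 ⟨ha, Finset.mem_product.2 ⟨hb, hc⟩⟩
      let p' : V → E3 := Function.update q v x'
      have hpv : p' v = x' := Function.update_self _ _ _
      have hpn : ∀ a, a ≠ v → p' a = q a := fun a ha => Function.update_of_ne ha _ _
      have hpS : ∀ a ∈ S, p' a = q a := fun a ha => hpn a (fun h => hv (h ▸ ha))
      have hS : ∀ a ∈ insert v S, a ≠ v → a ∈ S := by
        intro a ha hne
        rcases Finset.mem_insert.1 ha with h | h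
        · exact absurd h hne
        · exact h
      -- new pairs, triples, quadruples
      have n2 : ∀ a ∈ S, x' ≠ q a := by
        intro a ha h
        exact hxl a ha a ha (h ▸ hgl1 a a)
      have n3 : ∀ a ∈ S, ∀ b ∈ S, a ≠ b → T3 x' (q a) (q b) := by
        intro a ha b hb hab α β γ h0 hc
        have h3 := ev_comb3 (gl a b) α β γ _ _ _ h0 hc
        rw [hgl1, hgl2, mul_zero, mul_zero, add_zero, add_zero] at h3
        have hα : α = 0 := by
          rcases mul_eq_zero.1 h3 with h | h
          · exact h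
          · exact absurd h (hxl a ha b hb)
        have hγ : γ = -β := by linarith
        rw [hα, hγ, zero_smul, zero_add, neg_smul, ← sub_eq_add_neg, ← smul_sub] at hc
        have hβ : β = 0 := by
          rcases smul_eq_zero.1 hc with h | h
          · exact h
          · exact absurd (sub_eq_zero.1 h) (hq2 a ha b hb hab)
        exact ⟨hα, hβ, by rw [hγ, hβ, neg_zero]⟩
      have n4 : ∀ a ∈ S, ∀ b ∈ S, ∀ c ∈ S, a ≠ b → a ≠ c → b ≠ c →
          (¬ ∃ φ, fa v = some φ ∧ fa a = some φ ∧ fa b = some φ ∧ fa c = some φ) →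
          T4 x' (q a) (q b) (q c) := by
        intro a ha b hb c hc hab hac hbc hno α β γ δ' h0 hcomb
        have h3 := ev_comb4 (gq a b c) α β γ δ' _ _ _ _ h0 hcomb
        rw [hgq1, hgq2, hgq3, mul_zero, mul_zero, mul_zero, add_zero, add_zero, add_zero] at h3
        have hα : α = 0 := by
          rcases mul_eq_zero.1 h3 with h | h
          · exact h
          · exact absurd h (hxq a ha b hb c hc hno)
        rw [hα, zero_smul, zero_add] at hcomb
        rw [hα, zero_add] at h0
        obtain ⟨e1, e2, e3⟩ := hq3 a ha b hb c hc hab hac hbc β γ δ' h0 hcomb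
        exact ⟨hα, e1, e2, e3⟩
      refine ⟨p', ?_, ?_, ?_, ?_, ?_, ?_⟩
      · intro a ha
        rw [Finset.mem_insert, not_or] at ha
        rw [hpn a ha.1]
        exact hq0 a ha.2
      · intro a
        by_cases h : a = v
        · rw [h, hpv]; exact hx1
        · rw [hpn a h]
          exact lt_of_lt_of_le (hq1 a) (min_le_left _ _)
      · intro a ha φ hφ
        by_cases h : a = v
        · rw [h, hpv]
          exact hx2 φ (h ▸ hφ)
        · rw [hpn a h]
          exact hqf a (hS a ha h) φ hφ
      · intro a ha b hb hab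
        by_cases h : a = v
        · have hb' := hS b hb (fun e => hab (h.trans e.symm))
          rw [h, hpv, hpS b hb']
          exact n2 b hb'
        · have ha' := hS a ha h
          by_cases h' : b = v
          · rw [h', hpv, hpS a ha']
            exact (n2 a ha').symm
          · have hb' := hS b hb h'
            rw [hpS a ha', hpS b hb']
            exact hq2 a ha' b hb' hab
      · intro a ha b hb c hc hab hac hbc
        by_cases h : a = v
        · have hb' := hS b hb (fun e => hab (h.trans e.symm))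
          have hc' := hS c hc (fun e => hac (h.trans e.symm))
          rw [h, hpv, hpS b hb', hpS c hc']
          exact n3 b hb' c hc' hbc
        · have ha' := hS a ha h
          by_cases h' : b = v
          · have hc' := hS c hc (fun e => hbc (h'.trans e.symm))
            rw [h', hpv, hpS a ha', hpS c hc']
            exact (n3 a ha' c hc' hac).s12
          · have hb' := hS b hb h'
            by_cases h'' : c = v
            · rw [h'', hpv, hpS a ha', hpS b hb']
              exact (n3 a ha' b hb' hab).s12.s23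
            · have hc' := hS c hc h''
              rw [hpS a ha', hpS b hb', hpS c hc']
              exact hq3 a ha' b hb' c hc' hab hac hbc
      · intro a ha b hb c hc d hd hab hac had hbc hbd hcd hno
        by_cases h : a = v
        · have hb' := hS b hb (fun e => hab (h.trans e.symm))
          have hc' := hS c hc (fun e => hac (h.trans e.symm))
          have hd' := hS d hd (fun e => had (h.trans e.symm))
          rw [h, hpv, hpS b hb', hpS c hc', hpS d hd']
          exact n4 b hb' c hc' d hd' hbc hbd hcd (h ▸ hno)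
        · have ha' := hS a ha h
          by_cases h' : b = v
          · have hc' := hS c hc (fun e => hbc (h'.trans e.symm))
            have hd' := hS d hd (fun e => hbd (h'.trans e.symm))
            rw [h', hpv, hpS a ha', hpS c hc', hpS d hd']
            refine (n4 a ha' c hc' d hd' hac had hcd ?_).s12
            rintro ⟨φ, e1, e2, e3, e4⟩
            exact hno ⟨φ, e2, h' ▸ e1, e3, e4⟩
          · have hb' := hS b hb h'
            by_cases h'' : c = v
            · have hd' := hS d hd (fun e => hcd (h''.trans e.symm))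
              rw [h'', hpv, hpS a ha', hpS b hb', hpS d hd']
              refine (n4 a ha' b hb' d hd' hab had hbd ?_).s12.s23
              rintro ⟨φ, e1, e2, e3, e4⟩
              exact hno ⟨φ, e2, e3, h'' ▸ e1, e4⟩
            · have hc' := hS c hc h''
              by_cases h3 : d = v
              · rw [h3, hpv, hpS a ha', hpS b hb', hpS c hc']
                refine (n4 a ha' b hb' c hc' hab hac hbc ?_).s12.s23.s34
                rintro ⟨φ, e1, e2, e3, e4⟩
                exact hno ⟨φ, e2, e3, e4, h3 ▸ e1⟩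
              · have hd' := hS d hd h3
                rw [hpS a ha', hpS b hb', hpS c hc', hpS d hd']
                exact hq4 a ha' b hb' c hc' d hd' hab hac had hbc hbd hcd hno
  intro hf1 hf2 ε hε
  obtain ⟨p', e0, e1, e2, -, e3, e4⟩ := key S hf1 hf2 ε hε
  refine ⟨p', e0, e1, e2, ?_, ?_⟩
  · intro a ha b hb c hc hab hac hbc
    exact (e3 a ha b hb c hc hab hac hbc).aff
  · intro a ha b hb c hc d hd hab hac had hbc hbd hcd hno
    exact (e4 a ha b hb c hc d hd hab hac had hbc hbd hcd hno).aff

end Pool.Agent.TSQ
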