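import Pool.Agent.TSQ.Stmts

/-!
# TSQ, module HPA: separation of a point from a polytope by a facet plane
-/

set_option autoImplicit false

open scoped RealInnerProductSpace

namespace Pool.Agent.TSQ

open Pool.Agent.TSM Pool.Agent.TSP

namespace HPA_

/-- a nonzero vector orthogonal to a given one -/
theorem exists_orth (A : E3) : ∃ u : E3, u ≠ 0 ∧ ⟪u, A⟫ = 0 := by
  by_cases h : A 0 = 0 ∧ A 1 = 0
  · refine ⟨!₂[1, 0, 0], fun hu => ?_, ?_⟩
    · have := congrArg (fun w : E3 => w 0) hu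
      simp at this
    · rw [inner3]
      simp [h.1]
  · refine ⟨!₂[-A 1, A 0, 0], fun hu => ?_, ?_⟩
    · have h0 := congrArg (fun w : E3 => w 0) hu
      have h1 := congrArg (fun w : E3 => w 1) hu
      simp at h0 h1
      exact h ⟨h1, h0⟩
    · rw [inner3]
      simp
      ring

/-- if no nonzero vector is orthogonal to all vectors of a family, three of them are independent -/
theorem exists_three {V : Type} (d : V → E3) (S : V → Prop)
    (h : ∀ u : E3, u ≠ 0 → ∃ v, S v ∧ ⟪u, d v⟫ ≠ 0) :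
    ∃ a b c : V, S a ∧ S b ∧ S c ∧ det3 (d c) (d a) (d b) ≠ 0 := by
  obtain ⟨e, he, -⟩ := exists_orth 0
  obtain ⟨a, ha, hae⟩ := h e he
  have hA : d a ≠ 0 := by
    intro h0
    rw [h0, inner_zero_right] at hae
    exact hae rfl
  obtain ⟨u, hu, huA⟩ := exists_orth (d a)
  obtain ⟨b, hb, hbu⟩ := h u hu
  have hI : Indep2 (d a) (d b) := by
    intro s t hst
    have h1 : ⟪u, s • d a + t • d b⟫ = 0 := by rw [hst, inner_zero_right]
    rw [inner_add_right, inner_smul_right, inner_smul_right, huA, mul_zero, zero_add] at h1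
    have ht : t = 0 := (mul_eq_zero.1 h1).resolve_right hbu
    rw [ht, zero_smul, add_zero] at hst
    exact ⟨(smul_eq_zero.1 hst).resolve_right hA, ht⟩
  obtain ⟨c, hc, hcc⟩ := h _ (cr_ne_zero hI)
  refine ⟨a, b, c, ha, hb, hc, ?_⟩
  rw [det3_eq, real_inner_comm]
  exact hcc

theorem indep_diff (A B C : E3) (h : det3 C A B ≠ 0) : Indep2 (B - A) (C - A) := by
  intro s t hst
  have : (-s - t) • A + s • B + t • C = 0 := by
    rw [← hst]; module
  have := coords_zero C A B h this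
  exact ⟨this.2.1, this.2.2⟩

variable {V : Type} [Fintype V]

/-- the polar body -/
def D (p : V → E3) (o : E3) : Set E3 := {n | ∀ v, ⟪n, p v - o⟫ ≤ 1}

theorem D_closed (p : V → E3) (o : E3) : IsClosed (D p o) := by
  have : D p o = ⋂ v, {n : E3 | ⟪n, p v - o⟫ ≤ 1} := by
    ext n; simp [D]
  rw [this]
  refine isClosed_iInter fun v => ?_
  exact isClosed_le (continuous_id.inner continuous_const) continuous_const

theorem D_hull (p : V → E3) (o n : E3) (hn : n ∈ D p o) (y : E3) (hy : y ∈ convexHull ℝ (Set.range p)) :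
    ⟪n, y - o⟫ ≤ 1 := by
  have hc : Convex ℝ {y : E3 | ⟪n, y - o⟫ ≤ 1} := by
    intro x hx y hy a b ha hb hab
    simp only [Set.mem_setOf_eq] at *
    have : a • x + b • y - o = a • (x - o) + b • (y - o) := by
      have : o = (a + b) • o := by rw [hab, one_smul]
      nth_rw 1 [this]
      module
    rw [this, inner_add_right, inner_smul_right, inner_smul_right]
    nlinarith
  have : convexHull ℝ (Set.range p) ⊆ {y : E3 | ⟪n, y - o⟫ ≤ 1} := by
    refine convexHull_min ?_ hc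
    rintro _ ⟨v, rfl⟩
    exact hn v
  exact this hy

theorem D_bdd (p : V → E3) (o : E3) (r : ℝ) (hr : 0 < r) (hb : Metric.ball o r ⊆ convexHull ℝ (Set.range p)) :
    D p o ⊆ Metric.closedBall 0 (2 / r) := by
  intro n hn
  rw [mem_closedBall_zero_iff]
  by_cases h0 : n = 0
  · rw [h0, norm_zero]; positivity
  have hnp : 0 < ‖n‖ := norm_pos_iff.2 h0
  have hy : o + (r / 2 / ‖n‖) • n ∈ convexHull ℝ (Set.range p) := by
    apply hb
    rw [Metric.mem_ball, dist_eq_norm, add_sub_cancel_left, norm_smul, Real.norm_eq_abs, abs_of_pos (by positivity)]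
    have : r / 2 / ‖n‖ * ‖n‖ = r / 2 := by field_simp
    rw [this]; linarith
  have h1 := D_hull p o n hn _ hy
  rw [add_sub_cancel_left, inner_smul_right, real_inner_self_eq_norm_sq] at h1
  have : r / 2 / ‖n‖ * ‖n‖ ^ 2 = r / 2 * ‖n‖ := by field_simp
  rw [this] at h1
  rw [le_div_iff₀ hr]
  linarith

/-- the main step: a maximiser with three tight vertices -/
theorem main (p : V → E3) (o x : E3) (ho : o ∈ interior (convexHull ℝ (Set.range p)))
    (hx : x ∉ convexHull ℝ (Set.range p)) :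
    ∃ n : E3, n ∈ D p o ∧ 1 < ⟪n, x - o⟫ ∧ ∀ u : E3, u ≠ 0 → ∃ v, ⟪n, p v - o⟫ = 1 ∧ ⟪u, p v - o⟫ ≠ 0 := by
  obtain ⟨r, hr, hb⟩ := Metric.isOpen_iff.1 isOpen_interior o ho
  have hb' : Metric.ball o r ⊆ convexHull ℝ (Set.range p) := hb.trans interior_subset
  have hcomp : IsCompact (D p o) := (isCompact_closedBall 0 (2 / r)).of_isClosed_subset (D_closed p o) (D_bdd p o r hr hb')
  -- a point of the polar body which separates
  obtain ⟨f, w, hf, hfx⟩ := geometric_hahn_banach_closed_point (convex_convexHull ℝ (Set.range p))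
    ((Set.finite_range p).isClosed_convexHull ℝ) hx
  set m : E3 := (InnerProductSpace.toDual ℝ E3).symm f with hm
  have hmf : ∀ y, ⟪m, y⟫ = f y := fun y => InnerProductSpace.toDual_symm_apply
  have hfo := hf o (interior_subset ho)
  have hpos : 0 < w - f o := by linarith
  have hm1 : (w - f o)⁻¹ • m ∈ D p o := by
    intro v
    rw [real_inner_smul_left, inner_sub_right, hmf, hmf, inv_mul_le_iff₀ hpos]
    have := hf (p v) (subset_convexHull ℝ _ ⟨v, rfl⟩)
    linarith
  have hm2 : 1 < ⟪(w - f o)⁻¹ • m, x - o⟫ := by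
    rw [real_inner_smul_left, inner_sub_right, hmf, hmf, lt_inv_mul_iff₀ hpos]
    linarith
  have hcont : Continuous fun n : E3 => ⟪n, x - o⟫ := continuous_id.inner continuous_const
  obtain ⟨n1, hn1, hmax⟩ := hcomp.exists_isMaxOn ⟨_, hm1⟩ hcont.continuousOn
  have hmax' : ∀ n ∈ D p o, ⟪n, x - o⟫ ≤ ⟪n1, x - o⟫ := fun n hn => hmax hn
  -- the face of the maximisers
  set M : Set E3 := D p o ∩ {n | ⟪n, x - o⟫ = ⟪n1, x - o⟫} with hM
  have hMc : IsCompact M := hcomp.inter_right (isClosed_eq hcont continuous_const)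
  obtain ⟨n, hn⟩ := hMc.extremePoints_nonempty ⟨n1, hn1, rfl⟩
  rw [mem_extremePoints] at hn
  obtain ⟨⟨hnD, hnx⟩, hext⟩ := hn
  have hnx' : ⟪n, x - o⟫ = ⟪n1, x - o⟫ := hnx
  refine ⟨n, hnD, ?_, ?_⟩
  · rw [hnx']
    exact lt_of_lt_of_le hm2 (hmax' _ hm1)
  intro u hu
  by_contra hcon
  push Not at hcon
  -- a small step in the direction of u
  have hstep : ∃ e : ℝ, 0 < e ∧ ∀ v, ⟪n + e • u, p v - o⟫ ≤ 1 ∧ ⟪n - e • u, p v - o⟫ ≤ 1 := by
    have h1 : ∀ v, ∃ e : ℝ, 0 < e ∧ ∀ e', 0 < e' → e' ≤ e →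
        ⟪n + e' • u, p v - o⟫ ≤ 1 ∧ ⟪n - e' • u, p v - o⟫ ≤ 1 := by
      intro v
      rcases (hnD v).lt_or_eq with hlt | heq
      · refine ⟨(1 - ⟪n, p v - o⟫) / (|⟪u, p v - o⟫| + 1), div_pos (by linarith) (by positivity), ?_⟩
        intro e' he' hle
        rw [le_div_iff₀ (by positivity)] at hle
        have ha : e' * |⟪u, p v - o⟫| ≤ 1 - ⟪n, p v - o⟫ := by nlinarith
        have hb1 := le_abs_self (⟪u, p v - o⟫)
        have hb2 := neg_abs_le (⟪u, p v - o⟫)
        rw [inner_add_left, inner_sub_left, real_inner_smul_left]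
        constructor
        · nlinarith
        · nlinarith
      · refine ⟨1, one_pos, fun e' _ _ => ?_⟩
        rw [inner_add_left, inner_sub_left, real_inner_smul_left, hcon v heq]
        constructor <;> linarith
    choose e he he2 using h1
    rcases isEmpty_or_nonempty V with hV | hV
    · exact ⟨1, one_pos, fun v => (hV.false v).elim⟩
    · obtain ⟨v0, -, hv0⟩ := Finset.exists_min_image Finset.univ e Finset.univ_nonempty
      exact ⟨e v0, he v0, fun v => he2 v _ (he v0) (hv0 v (Finset.mem_univ v))⟩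
  obtain ⟨e, he, hev⟩ := hstep
  have hp : n + e • u ∈ D p o := fun v => (hev v).1
  have hq : n - e • u ∈ D p o := fun v => (hev v).2
  have i1 := hmax' _ hp
  have i2 := hmax' _ hq
  rw [← hnx', inner_add_left, real_inner_smul_left] at i1
  rw [← hnx', inner_sub_left, real_inner_smul_left] at i2
  have hux : e * ⟪u, x - o⟫ = 0 := by linarith
  have hpM : n + e • u ∈ M := ⟨hp, by
    show ⟪n + e • u, x - o⟫ = ⟪n1, x - o⟫
    rw [inner_add_left, real_inner_smul_left, hux, hnx', add_zero]⟩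
  have hqM : n - e • u ∈ M := ⟨hq, by
    show ⟪n - e • u, x - o⟫ = ⟪n1, x - o⟫
    rw [inner_sub_left, real_inner_smul_left, hux, hnx', sub_zero]⟩
  have hseg : n ∈ openSegment ℝ (n + e • u) (n - e • u) := by
    refine ⟨1 / 2, 1 / 2, by norm_num, by norm_num, by norm_num, ?_⟩
    module
  have := (hext _ hpM _ hqM hseg).1
  have h0 : e • u = 0 := by simpa using this
  rcases smul_eq_zero.1 h0 with h | h
  · exact he.ne' h
  · exact hu h

end HPA_

open HPA_ in
theorem HPA_proof : Stmt_HPA := by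
  intro V _ p hint x hx
  obtain ⟨o, ho⟩ := hint
  obtain ⟨n, hn, hnx, hspan⟩ := main p o x ho hx
  obtain ⟨a, b, c, ha, hb, hc, hdet⟩ := exists_three (fun v => p v - o) (fun v => ⟪n, p v - o⟫ = 1) hspan
  have hn0 : n ≠ 0 := by
    rintro rfl
    rw [inner_zero_left] at hnx
    linarith
  have hnp : 0 < ‖n‖ := norm_pos_iff.2 hn0
  have hev : ∀ y : E3, ev (‖n‖⁻¹ • n, ‖n‖⁻¹ * (⟪n, o⟫ + 1)) y = ‖n‖⁻¹ * (⟪n, y - o⟫ - 1) := by
    intro y
    unfold ev
    simp only
    rw [real_inner_smul_left, inner_sub_right]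
    ring
  refine ⟨(‖n‖⁻¹ • n, ‖n‖⁻¹ * (⟪n, o⟫ + 1)), ?_, ?_, ?_, a, b, c, ?_, ?_, ?_, ?_⟩
  · simp only
    rw [norm_smul, norm_inv, norm_norm, inv_mul_cancel₀ hnp.ne']
  · intro v
    rw [hev]
    have := hn v
    exact mul_nonpos_of_nonneg_of_nonpos (inv_nonneg.2 hnp.le) (by linarith)
  · rw [hev]
    exact mul_pos (inv_pos.2 hnp) (by linarith)
  · rw [hev, ha, sub_self, mul_zero]
  · rw [hev, hb, sub_self, mul_zero]
  · rw [hev, hc, sub_self, mul_zero]
  · rw [indep2_iff_affine]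
    have := indep_diff (p a - o) (p b - o) (p c - o) hdet
    simpa using this

end Pool.Agent.TSQ
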