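import Pool.Agent.TSQ.Stmts

set_option autoImplicit false

open scoped RealInnerProductSpace

namespace Pool.Agent.TSQ

open Pool.Agent.TSM Pool.Agent.TSP

namespace HPL_

/-- candidates for the facet planes -/
def cand {V : Type} (p : V → E3) : Set (E3 × ℝ) :=
  {φ | ‖φ.1‖ = 1 ∧ (∀ v, ev φ (p v) ≤ 0) ∧ ∃ a b c : V, ev φ (p a) = 0 ∧ ev φ (p b) = 0 ∧
    ev φ (p c) = 0 ∧ AffineIndependent ℝ ![p a, p b, p c]}

theorem cand_finite {V : Type} [Fintype V] (p : V → E3) : (cand p).Finite := by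
  have hsub : cand p ⊆ Set.range (fun q : V × V × V × Bool =>
      let n : E3 := cr (p q.2.1 - p q.1) (p q.2.2.1 - p q.1)
      let m : E3 := (if q.2.2.2 then ‖n‖⁻¹ else -‖n‖⁻¹) • n
      ((m, ⟪m, p q.1⟫) : E3 × ℝ)) := by
    rintro φ ⟨h1, -, a, b, c, ha, hb, hc, hI⟩
    rw [indep2_iff_affine] at hI
    have hφ0 : φ.1 ≠ 0 := by
      intro h
      rw [h, norm_zero] at h1
      exact zero_ne_one h1
    have hn0 : cr (p b - p a) (p c - p a) ≠ 0 := cr_ne_zero hI
    have e1 : ⟪φ.1, p b - p a⟫ = 0 := by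
      rw [inner_sub_right]
      unfold ev at ha hb
      linarith
    have e2 : ⟪φ.1, p c - p a⟫ = 0 := by
      rw [inner_sub_right]
      unfold ev at ha hc
      linarith
    have e3 : ⟪cr (p b - p a) (p c - p a), p b - p a⟫ = 0 := by
      rw [real_inner_comm, inner_cr_left]
    have e4 : ⟪cr (p b - p a) (p c - p a), p c - p a⟫ = 0 := by
      rw [real_inner_comm, inner_cr_right]
    obtain ⟨t, ht⟩ := normal_multiple hn0 e3 e4 hI e1 e2
    have hnn : 0 < ‖cr (p b - p a) (p c - p a)‖ := norm_pos_iff.2 hn0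
    have habs : |t| = ‖cr (p b - p a) (p c - p a)‖⁻¹ := by
      rw [ht, norm_smul, Real.norm_eq_abs] at h1
      exact eq_inv_of_mul_eq_one_left h1
    have h2 : φ.2 = ⟪φ.1, p a⟫ := by
      unfold ev at ha
      linarith
    rcases abs_choice t with h | h
    · refine ⟨(a, b, c, true), ?_⟩
      apply Prod.ext
      · simp only [if_true]
        rw [← habs, h, ← ht]
      · simp only [if_true]
        rw [← habs, h, ← ht, h2]
    · refine ⟨(a, b, c, false), ?_⟩
      apply Prod.ext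
      · simp only [Bool.false_eq_true, if_false]
        rw [← habs, h, neg_neg, ← ht]
      · simp only [Bool.false_eq_true, if_false]
        rw [← habs, h, neg_neg, ← ht, h2]
  exact (Set.finite_range _).subset hsub

theorem convex_hull (Φ : Finset (E3 × ℝ)) : Convex ℝ (TSM.hull Φ) := by
  intro x hx y hy a b ha hb hab φ hφ
  have h1 := hx φ hφ
  have h2 := hy φ hφ
  unfold ev at h1 h2 ⊢
  rw [inner_add_right, inner_smul_right, inner_smul_right]
  have : a * ⟪φ.1, x⟫ + b * ⟪φ.1, y⟫ ≤ a * φ.2 + b * φ.2 := by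
    apply add_le_add
    · exact mul_le_mul_of_nonneg_left (by linarith) ha
    · exact mul_le_mul_of_nonneg_left (by linarith) hb
  have e : a * φ.2 + b * φ.2 = φ.2 := by rw [← add_mul, hab, one_mul]
  linarith

theorem int_ne {V : Type} [Fintype V] (p : V → E3) (hV : Nonempty V)
    (h : ¬ ∃ (ν : E3) (c : ℝ), ν ≠ 0 ∧ ∀ v, ⟪ν, p v⟫ = c) :
    (interior (convexHull ℝ (Set.range p))).Nonempty := by
  rw [interior_convexHull_nonempty_iff_affineSpan_eq_top]
  by_contra hne
  obtain ⟨v0⟩ := hV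
  have hne' : vectorSpan ℝ (Set.range p) ≠ ⊤ := by
    intro htop
    apply hne
    rw [← direction_affineSpan] at htop
    rw [AffineSubspace.direction_eq_top_iff_of_nonempty] at htop
    · exact htop
    · exact ⟨p v0, subset_affineSpan ℝ _ ⟨v0, rfl⟩⟩
  have hbot : (vectorSpan ℝ (Set.range p))ᗮ ≠ ⊥ := by
    intro hb
    exact hne' ((Submodule.orthogonal_eq_bot_iff).1 hb)
  obtain ⟨ν, hν, hν0⟩ := Submodule.exists_mem_ne_zero_of_ne_bot hbot
  apply h
  refine ⟨ν, ⟪ν, p v0⟫, hν0, fun v => ?_⟩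
  have h1 : p v -ᵥ p v0 ∈ vectorSpan ℝ (Set.range p) :=
    vsub_mem_vectorSpan ℝ ⟨v, rfl⟩ ⟨v0, rfl⟩
  have h2 := (Submodule.mem_orthogonal' _ _).1 hν _ h1
  rw [vsub_eq_sub, inner_sub_right] at h2
  linarith

end HPL_

open HPL_ in
theorem HPL_proof (hHPA : Stmt_HPA) : Stmt_HPL := by
  intro V _ _ p hV hpl
  have hint := int_ne p hV hpl
  have hfin := cand_finite p
  have hmem : ∀ φ, φ ∈ hfin.toFinset ↔ φ ∈ cand p := fun φ => Set.Finite.mem_toFinset hfin
  have heq : TSM.hull hfin.toFinset = convexHull ℝ (Set.range p) := by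
    apply Set.Subset.antisymm
    · intro x hx
      by_contra hc
      obtain ⟨φ, h1, h2, h3, h4⟩ := hHPA V p hint x hc
      have := hx φ ((hmem φ).2 ⟨h1, h2, h4⟩)
      linarith
    · apply convexHull_min _ (convex_hull _)
      rintro _ ⟨v, rfl⟩ φ hφ
      exact ((hmem φ).1 hφ).2.1 v
  refine ⟨hfin.toFinset, ?_, ?_, ?_, ?_, ?_, ?_, heq⟩
  · intro φ hφ
    exact ((hmem φ).1 hφ).1
  · intro φ hφ ψ hψ h
    obtain ⟨-, h1, a, -, -, ha, -⟩ := (hmem φ).1 hφ
    obtain ⟨-, h2, b, -, -, hb, -⟩ := (hmem ψ).1 hψ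
    have e1 := h1 b
    have e2 := h2 a
    apply Prod.ext h
    unfold ev at e1 e2 ha hb
    rw [h] at e1 ha
    linarith
  · rw [heq]
    exact ((Set.finite_range p).isCompact_convexHull ℝ).isBounded
  · rw [heq]; exact hint
  · intro φ hφ
    exact ((hmem φ).1 hφ).2.2
  · intro v
    rw [heq]
    exact subset_convexHull ℝ _ ⟨v, rfl⟩

end Pool.Agent.TSQ
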