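import Pool.Agent.TSQ.Stmts

set_option autoImplicit false

namespace Pool.Agent.TSQ

open Pool.Agent.TSM Pool.Agent.TSP

namespace LKB_

theorem mem_conseq_iff {α : Type} (L : List α) (x y : α) :
    (x, y) ∈ conseq L ↔ ∃ i, L[i]? = some x ∧ L[i+1]? = some y := by
  induction L with
  | nil => simp [conseq]
  | cons a L ih =>
    cases L with
    | nil =>
      constructor
      · intro h; simp [conseq] at h
      · rintro ⟨i, h1, h2⟩
        rw [List.getElem?_cons_succ] at h2
        simp at h2
    | cons b L =>
      show (x, y) ∈ (a, b) :: conseq (b :: L) ↔ _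
      rw [List.mem_cons, ih]
      constructor
      · rintro (h | ⟨i, h1, h2⟩)
        · rw [Prod.mk.injEq] at h
          obtain ⟨rfl, rfl⟩ := h
          exact ⟨0, by simp, by simp⟩
        · exact ⟨i + 1, by simpa using h1, by simpa using h2⟩
      · rintro ⟨i, h1, h2⟩
        rcases i with _ | i
        · left
          have e1 : a = x := by simpa using h1
          have e2 : b = y := by simpa using h2
          rw [e1, e2]
        · right
          exact ⟨i, by simpa using h1, by simpa using h2⟩

theorem mem_cyc_iff {α : Type} (l : List α) (x y : α) :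
    (x, y) ∈ cyc l ↔ ∃ (i : ℕ) (h : i < l.length), l[i] = x ∧
      l[(i + 1) % l.length]'(Nat.mod_lt _ (by omega)) = y := by
  cases l with
  | nil => simp [cyc]
  | cons a l =>
    show (x, y) ∈ conseq (a :: l ++ [a]) ↔ _
    rw [mem_conseq_iff]
    constructor
    · rintro ⟨i, h1, h2⟩
      have hi : i + 1 < (a :: l ++ [a]).length := by
        by_contra hc
        rw [List.getElem?_eq_none (by omega)] at h2
        simp at h2
      have hlen : (a :: l ++ [a]).length = (a :: l).length + 1 := by simp
      have hi' : i < (a :: l).length := by omega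
      refine ⟨i, hi', ?_, ?_⟩
      · rw [List.getElem?_append_left hi', List.getElem?_eq_getElem hi'] at h1
        exact Option.some.inj h1
      · by_cases hc : i + 1 < (a :: l).length
        · rw [List.getElem?_append_left hc, List.getElem?_eq_getElem hc] at h2
          have e := Option.some.inj h2
          have : (i + 1) % (a :: l).length = i + 1 := Nat.mod_eq_of_lt hc
          simp only [this]
          exact e
        · have he : i + 1 = (a :: l).length := by omega
          rw [he, List.getElem?_append_right (le_refl _)] at h2
          have e : a = y := by simpa using h2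
          have : (i + 1) % (a :: l).length = 0 := by rw [he]; exact Nat.mod_self _
          simp only [this]
          simpa using e
    · rintro ⟨i, hi, h1, h2⟩
      refine ⟨i, ?_, ?_⟩
      · rw [List.getElem?_append_left hi, List.getElem?_eq_getElem hi, h1]
      · by_cases hc : i + 1 < (a :: l).length
        · rw [List.getElem?_append_left hc, List.getElem?_eq_getElem hc]
          have : (i + 1) % (a :: l).length = i + 1 := Nat.mod_eq_of_lt hc
          simp only [this] at h2
          rw [h2]
        · have he : i + 1 = (a :: l).length := by omega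
          rw [he, List.getElem?_append_right (le_refl _)]
          have : (i + 1) % (a :: l).length = 0 := by rw [he]; exact Nat.mod_self _
          simp only [this] at h2
          have e : a = y := by simpa using h2
          simp [e]

end LKB_

open LKB_ in
theorem LKB_proof : Stmt_LKB := by
  intro V _ T v
  refine ⟨?_, ?_⟩
  · rintro n c ⟨hn, hinj, hv, hlink⟩
    have : NeZero n := ⟨by omega⟩
    have : Fact (1 < n) := ⟨by omega⟩
    have hval : ∀ i : ZMod n, ((i.val : ℕ) : ZMod n) = i := fun i => ZMod.natCast_zmod_val i
    have hlen : (List.ofFn fun i : Fin n => c ((i : ℕ) : ZMod n)).length = n := by simp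
    refine ⟨List.ofFn fun i : Fin n => c ((i : ℕ) : ZMod n), ?_, ?_, ?_, ?_⟩
    · rw [hlen]; exact hn
    · rw [List.nodup_ofFn]
      intro i j hij
      have h := hinj hij
      have h2 := congrArg ZMod.val h
      rw [ZMod.val_natCast, ZMod.val_natCast, Nat.mod_eq_of_lt i.2, Nat.mod_eq_of_lt j.2] at h2
      exact Fin.ext h2
    · rw [List.mem_ofFn]
      rintro ⟨i, hi⟩
      exact hv _ hi
    · intro t
      rw [hlink]
      constructor
      · rintro ⟨i, hi⟩
        refine ⟨c i, c (i + 1), ?_, hi⟩
        rw [mem_cyc_iff]
        refine ⟨i.val, by rw [hlen]; exact ZMod.val_lt i, ?_, ?_⟩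
        · rw [List.getElem_ofFn]
          simp only [hval]
        · rw [List.getElem_ofFn]
          have : (((i.val + 1) % (List.ofFn fun i : Fin n => c ((i : ℕ) : ZMod n)).length : ℕ) :
              ZMod n) = i + 1 := by
            rw [hlen, ZMod.natCast_mod]
            push_cast
            rw [hval]
          simp only [this]
      · rintro ⟨x, y, hxy, rfl⟩
        rw [mem_cyc_iff] at hxy
        obtain ⟨i, hi, h1, h2⟩ := hxy
        rw [List.getElem_ofFn] at h1 h2
        refine ⟨(i : ZMod n), ?_⟩
        rw [← h1, ← h2]
        have : (((i + 1) % (List.ofFn fun i : Fin n => c ((i : ℕ) : ZMod n)).length : ℕ) :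
              ZMod n) = (i : ZMod n) + 1 := by
          rw [hlen, ZMod.natCast_mod]
          push_cast
          rfl
        simp only [this]
  · rintro l ⟨hn, hnd, hv, hlink⟩
    have : NeZero l.length := ⟨by omega⟩
    have : Fact (1 < l.length) := ⟨by omega⟩
    have hnat : ∀ (i : ℕ) (h : i < l.length), ((i : ZMod l.length)).val = i := by
      intro i h
      rw [ZMod.val_natCast, Nat.mod_eq_of_lt h]
    have hadd : ∀ i : ZMod l.length, (i + 1).val = (i.val + 1) % l.length := by
      intro i
      rw [ZMod.val_add, ZMod.val_one]
    refine ⟨fun i => l[i.val]'(ZMod.val_lt i), ⟨hn, ?_, ?_, ?_⟩, ?_⟩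
    · intro i j hij
      have h := (List.Nodup.getElem_inj_iff hnd).1 hij
      exact ZMod.val_injective _ h
    · intro i h
      apply hv
      have h' : l[i.val]'(ZMod.val_lt i) = v := h
      rw [← h']
      exact List.getElem_mem _
    · intro t
      rw [hlink]
      constructor
      · rintro ⟨x, y, hxy, rfl⟩
        rw [mem_cyc_iff] at hxy
        obtain ⟨i, hi, h1, h2⟩ := hxy
        refine ⟨(i : ZMod l.length), ?_⟩
        simp only [hadd, hnat i hi, h1, h2]
      · rintro ⟨i, rfl⟩
        refine ⟨_, _, ?_, rfl⟩
        rw [mem_cyc_iff]
        refine ⟨i.val, ZMod.val_lt i, rfl, ?_⟩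
        simp only [hadd]
    · intro i h
      simp only [hnat i h]

end Pool.Agent.TSQ
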