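import Pool.Agent.TSQ.Stmts

/-!
# TSQ module NPL: the vertices of an embedded surface are not in a plane
-/

set_option autoImplicit false

open scoped RealInnerProductSpace

namespace Pool.Agent.TSQ

open Pool.Agent.TSM Pool.Agent.TSP

namespace NPL_

theorem sum_three {V : Type} [Fintype V] [DecidableEq V] (d : V → E3) {x y z : V} (hxy : x ≠ y)
    (hxz : x ≠ z) (hyz : y ≠ z) (a b c : ℝ) :
    ∑ u, (if u = x then a else if u = y then b else if u = z then c else 0) • d u =
      a • d x + b • d y + c • d z := by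
  have e : ∀ u, (if u = x then a else if u = y then b else if u = z then c else 0) • d u =
      (if u = x then a • d x else 0) + (if u = y then b • d y else 0) +
        (if u = z then c • d z else 0) := by
    intro u
    by_cases h1 : u = x
    · have h2 : u ≠ y := fun h => hxy (h1.symm.trans h)
      have h3 : u ≠ z := fun h => hxz (h1.symm.trans h)
      rw [if_pos h1, if_pos h1, if_neg h2, if_neg h3, h1]
      simp
    · by_cases h2 : u = y
      · have h3 : u ≠ z := fun h => hyz (h2.symm.trans h)
        rw [if_neg h1, if_neg h1, if_pos h2, if_pos h2, if_neg h3, h2]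
        simp
      · by_cases h3 : u = z
        · rw [if_neg h1, if_neg h1, if_neg h2, if_neg h2, if_pos h3, if_pos h3, h3]
          simp
        · rw [if_neg h1, if_neg h1, if_neg h2, if_neg h2, if_neg h3, if_neg h3]
          simp
  rw [Finset.sum_congr rfl fun u _ => e u, Finset.sum_add_distrib, Finset.sum_add_distrib,
    Finset.sum_ite_eq' Finset.univ x, Finset.sum_ite_eq' Finset.univ y,
    Finset.sum_ite_eq' Finset.univ z]
  simp

theorem main {V : Type} [Fintype V] [DecidableEq V] {A : Finset (Finset V)} {d : V → E3}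
    (hA : ConeInj A d) {x1 x2 y : V} (h1 : ({x1, y} : Finset V) ∈ A)
    (h2 : ({x2, y} : Finset V) ∈ A) (h12 : x1 ≠ x2) (h1y : x1 ≠ y) (h2y : x2 ≠ y)
    (l h : V → ℝ) (l1 : 0 < l x1) (ly : 0 < l y)
    (D12 : 0 ≤ h x2 * l x1 - h x1 * l x2) (D2y : 0 ≤ h y * l x2 - h x2 * l y)
    (D1y : 0 ≤ h y * l x1 - h x1 * l y)
    (id1 : (h y * l x1 - h x1 * l y) • d x2 =
      (h y * l x2 - h x2 * l y) • d x1 + (h x2 * l x1 - h x1 * l x2) • d y)
    (id2 : h y * l x1 - h x1 * l y = 0 → l y • d x1 = l x1 • d y) : False := by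
  have key := hA {x1, y} h1 {x2, y} h2
    (fun u => if u = x1 then (h y * l x2 - h x2 * l y) else if u = y then
      (h x2 * l x1 - h x1 * l x2) else if u = x2 then -(h y * l x1 - h x1 * l y) else 0)
    (by
      intro u hu
      have a1 : u ≠ x1 := fun e => hu (by rw [e]; exact Finset.mem_insert_self _ _)
      have a2 : u ≠ y := fun e => hu (by
        rw [e]
        exact Finset.mem_insert_of_mem (Finset.mem_singleton_self _))
      simp only [if_neg a1, if_neg a2]
      by_cases a3 : u = x2
      · rw [if_pos a3]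
        linarith
      · rw [if_neg a3])
    (by
      intro u hu
      have a1 : u ≠ x2 := fun e => hu (by rw [e]; exact Finset.mem_insert_self _ _)
      have a2 : u ≠ y := fun e => hu (by
        rw [e]
        exact Finset.mem_insert_of_mem (Finset.mem_singleton_self _))
      simp only [if_neg a1, if_neg a2]
      by_cases a3 : u = x1
      · rw [if_pos a3]
        linarith
      · rw [if_neg a3])
    (by
      rw [sum_three d h1y h12 h2y.symm, neg_smul, id1]
      simp)
  have k2 := congrFun key x2
  simp only [if_neg h12.symm, if_neg h2y, if_pos, Pi.zero_apply] at k2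
  have k3 := id2 (by linarith)
  have key2 := hA {x1, y} h1 {x2, y} h2
    (fun u => if u = x1 then l y else if u = y then -(l x1) else if u = x2 then 0 else 0)
    (by
      intro u hu
      have a1 : u ≠ x1 := fun e => hu (by rw [e]; exact Finset.mem_insert_self _ _)
      have a2 : u ≠ y := fun e => hu (by
        rw [e]
        exact Finset.mem_insert_of_mem (Finset.mem_singleton_self _))
      simp only [if_neg a1, if_neg a2]
      by_cases a3 : u = x2
      · rw [if_pos a3]
      · rw [if_neg a3])
    (by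
      intro u hu
      have a1 : u ≠ x2 := fun e => hu (by rw [e]; exact Finset.mem_insert_self _ _)
      have a2 : u ≠ y := fun e => hu (by
        rw [e]
        exact Finset.mem_insert_of_mem (Finset.mem_singleton_self _))
      simp only [if_neg a1, if_neg a2]
      by_cases a3 : u = x1
      · rw [if_pos a3]
        exact ly.le
      · rw [if_neg a3])
    (by
      rw [sum_three d h1y h12 h2y.symm, neg_smul, k3]
      simp)
  have k4 := congrFun key2 x1
  simp only [if_pos, Pi.zero_apply] at k4
  linarith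

theorem arc_mem {V : Type} [DecidableEq V] {T : Finset (Finset V)} {v x y : V}
    (h : ({v, x, y} : Finset V) ∈ T) (hx : x ≠ v) (hy : y ≠ v) :
    ({x, y} : Finset V) ∈ arcs T v := by
  unfold arcs
  rw [Finset.mem_image]
  refine ⟨{v, x, y}, Finset.mem_filter.2 ⟨h, Finset.mem_insert_self _ _⟩, ?_⟩
  rw [Finset.erase_insert]
  intro hv
  rw [Finset.mem_insert, Finset.mem_singleton] at hv
  rcases hv with hv | hv
  · exact hx hv.symm
  · exact hy hv.symm

end NPL_

open NPL_

theorem NPL_proof (_h1 : Stmt_LKA) (_h2 : Stmt_LKB) (_h3 : Stmt_EMC) : Stmt_NPL := by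
  intro V _ _ _ K p hE ⟨ν, c, hν, hc⟩
  obtain ⟨z, hz⟩ := Finite.exists_max fun v => ‖p v‖
  obtain ⟨n, q, hn, hinj, hqz, hq⟩ := K.link z
  have hn0 : NeZero n := ⟨by omega⟩
  have hνd : ∀ u, ⟪ν, p u - p z⟫ = 0 := by
    intro u
    rw [inner_sub_right, hc, hc, sub_self]
  have hneg : ∀ u, p u - p z ≠ 0 → 0 < -⟪p z, p u - p z⟫ := by
    intro u hu
    have e1 : ‖p u‖ ^ 2 = ‖p z‖ ^ 2 + 2 * ⟪p z, p u - p z⟫ + ‖p u - p z‖ ^ 2 := by
      rw [← norm_add_sq_real]
      congr 2
      abel
    have e2 : ‖p u‖ ^ 2 ≤ ‖p z‖ ^ 2 := pow_le_pow_left₀ (norm_nonneg _) (hz u) 2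
    have e3 : 0 < ‖p u - p z‖ ^ 2 := by
      have := norm_pos_iff.2 hu
      positivity
    linarith
  have tri : ∀ i : ZMod n, ({z, q i, q (i + 1)} : Finset V) ∈ K.tri := fun i =>
    ((hq _).2 ⟨i, rfl⟩).1
  have arc : ∀ i : ZMod n, ({q i, q (i + 1)} : Finset V) ∈ arcs K.tri z := fun i =>
    arc_mem (tri i) (hqz i) (hqz (i + 1))
  have one_ne : (1 : ZMod n) ≠ 0 := by
    intro h
    have := (ZMod.natCast_eq_zero_iff 1 n).1 (by exact_mod_cast h)
    have := Nat.le_of_dvd one_pos this
    omega
  have two_ne : (1 : ZMod n) + 1 ≠ 0 := by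
    intro h
    have := (ZMod.natCast_eq_zero_iff 2 n).1 (by
      push_cast
      rw [← h]
      norm_num)
    have := Nat.le_of_dvd two_pos this
    omega
  have dne : ∀ i : ZMod n, p (q i) - p z ≠ 0 := by
    intro i hi
    have key := hE z {q i, q (i + 1)} (arc i) {q i, q (i + 1)} (arc i)
      (fun u => if u = q i then 1 else 0)
      (by
        intro u hu
        have a1 : u ≠ q i := fun e => hu (by rw [e]; exact Finset.mem_insert_self _ _)
        simp only [if_neg a1]
        exact le_rfl)
      (by
        intro u hu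
        have a1 : u ≠ q i := fun e => hu (by rw [e]; exact Finset.mem_insert_self _ _)
        simp only [if_neg a1]
        exact le_rfl)
      (by
        simp only [ite_smul, one_smul, zero_smul]
        rw [Finset.sum_ite_eq' Finset.univ (q i)]
        simpa using hi)
    have := congrFun key (q i)
    simp at this
  have lpos : ∀ i : ZMod n, 0 < -⟪p z, p (q i) - p z⟫ := fun i => hneg _ (dne i)
  have hind : Indep2 ν (p z) := by
    intro a b hab
    have e : ⟪a • ν + b • p z, p (q 0) - p z⟫ = 0 := by rw [hab, inner_zero_left]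
    rw [inner_add_left, real_inner_smul_left, real_inner_smul_left, hνd, mul_zero, zero_add] at e
    have hb : b = 0 := by
      rcases mul_eq_zero.1 e with h | h
      · exact h
      · have := lpos 0
        linarith
    rw [hb, zero_smul, add_zero] at hab
    rcases smul_eq_zero.1 hab with h | h
    · exact ⟨h, hb⟩
    · exact absurd h hν
  have hdet : det3 (cr ν (p z)) ν (p z) ≠ 0 := by
    rw [det3_cr]
    exact (inner_self_pos (cr_ne_zero hind)).ne'
  have hzero : ∀ v : E3, ⟪ν, v⟫ = 0 → ⟪p z, v⟫ = 0 → ⟪cr ν (p z), v⟫ = 0 → v = 0 := by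
    intro v a1 a2 a3
    obtain ⟨l, m, k, hv⟩ := exists_coords (cr ν (p z)) ν (p z) hdet v
    have : ⟪v, v⟫ = 0 := by
      nth_rewrite 1 [hv]
      rw [inner_add_left, inner_add_left, real_inner_smul_left, real_inner_smul_left,
        real_inner_smul_left, a1, a2, a3]
      ring
    exact inner_self_eq_zero.1 this
  obtain ⟨i, hi⟩ := Finite.exists_max fun i : ZMod n =>
    ⟪cr ν (p z), p (q i) - p z⟫ / -⟪p z, p (q i) - p z⟫
  have hcmp : ∀ a b : ZMod n, ⟪cr ν (p z), p (q a) - p z⟫ / -⟪p z, p (q a) - p z⟫ ≤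
      ⟪cr ν (p z), p (q b) - p z⟫ / -⟪p z, p (q b) - p z⟫ →
      0 ≤ ⟪cr ν (p z), p (q b) - p z⟫ * -⟪p z, p (q a) - p z⟫ -
        ⟪cr ν (p z), p (q a) - p z⟫ * -⟪p z, p (q b) - p z⟫ := by
    intro a b hab
    rw [div_le_div_iff₀ (lpos a) (lpos b)] at hab
    linarith
  have fin : ∀ a b : ZMod n, a ≠ b → a ≠ i → b ≠ i →
      ({q a, q i} : Finset V) ∈ arcs K.tri z → ({q b, q i} : Finset V) ∈ arcs K.tri z →
      ⟪cr ν (p z), p (q a) - p z⟫ / -⟪p z, p (q a) - p z⟫ ≤
      ⟪cr ν (p z), p (q b) - p z⟫ / -⟪p z, p (q b) - p z⟫ → False := by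
    intro a b hab hai hbi A1 A2 hr
    refine main (hE z) A1 A2 (fun e => hab (hinj e)) (fun e => hai (hinj e))
      (fun e => hbi (hinj e)) (fun u => -⟪p z, p u - p z⟫) (fun u => ⟪cr ν (p z), p u - p z⟫)
      (lpos a) (lpos i) (hcmp a b hr) (hcmp b i (hi b)) (hcmp a i (hi a)) ?_ ?_
    · rw [← sub_eq_zero]
      refine hzero _ ?_ ?_ ?_
      · rw [inner_sub_right, inner_add_right, real_inner_smul_right, real_inner_smul_right,
          real_inner_smul_right, hνd, hνd, hνd]
        ring
      · rw [inner_sub_right, inner_add_right, real_inner_smul_right, real_inner_smul_right,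
          real_inner_smul_right]
        ring
      · rw [inner_sub_right, inner_add_right, real_inner_smul_right, real_inner_smul_right,
          real_inner_smul_right]
        ring
    · intro h0
      rw [← sub_eq_zero]
      refine hzero _ ?_ ?_ ?_
      · rw [inner_sub_right, real_inner_smul_right, real_inner_smul_right, hνd, hνd]
        ring
      · rw [inner_sub_right, real_inner_smul_right, real_inner_smul_right]
        ring
      · rw [inner_sub_right, real_inner_smul_right, real_inner_smul_right]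
        linarith
  have arc1 : ({q (i - 1), q i} : Finset V) ∈ arcs K.tri z := by
    have := arc (i - 1)
    rwa [sub_add_cancel] at this
  have arc2 : ({q (i + 1), q i} : Finset V) ∈ arcs K.tri z := by
    rw [Finset.pair_comm]
    exact arc i
  have n1 : i - 1 ≠ i + 1 := by
    intro h
    apply two_ne
    have : (i + 1) - (i - 1) = 0 := by rw [h, sub_self]
    rw [← this]
    ring
  have n2 : i - 1 ≠ i := by
    intro h
    apply one_ne
    have : i - (i - 1) = 0 := by rw [h, sub_self]
    rw [← this]
    ring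
  have n3 : i + 1 ≠ i := by
    intro h
    apply one_ne
    have : (i + 1) - i = 0 := by rw [h, sub_self]
    rw [← this]
    ring
  rcases le_total (⟪cr ν (p z), p (q (i - 1)) - p z⟫ / -⟪p z, p (q (i - 1)) - p z⟫)
    (⟪cr ν (p z), p (q (i + 1)) - p z⟫ / -⟪p z, p (q (i + 1)) - p z⟫) with h | h
  · exact fin _ _ n1 n2 n3 arc1 arc2 h
  · exact fin _ _ n1.symm n3 n2 arc2 arc1 h

end Pool.Agent.TSQ
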