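import Pool.Agent.TSQ.Stmts

/-!
# TSQ, module NPS: position of the new vertex
-/

set_option autoImplicit false

open scoped RealInnerProductSpace

namespace Pool.Agent.TSQ

open Pool.Agent.TSM Pool.Agent.TSP

variable {V : Type}

theorem NPS_ev (p : V → E3) (z x y : V) (ψ : E3 × ℝ) (s : ℝ) :
    ev ψ (newPos p z x y s) = (1 - 2 * s) * ev ψ (p z) + s * ev ψ (p x) + s * ev ψ (p y) := by
  unfold ev newPos
  rw [inner_add_right, inner_smul_right, inner_add_right, inner_sub_right, inner_sub_right]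
  ring

theorem NPS_swap (p : V → E3) (z x y : V) (s : ℝ) : newPos p z x y s = newPos p z y x s := by
  unfold newPos
  rw [add_comm (p x - p z)]

theorem NPS_sub (p : V → E3) (z x y : V) (s : ℝ) :
    newPos p z x y s - p x = (-(1 - s)) • (p x - p z) + s • (p y - p z) := by
  unfold newPos
  module

/-- avoid finitely many small values -/
theorem NPS_avoid (B : Set ℝ) (hB : B.Finite) :
    ∃ δ : ℝ, 0 < δ ∧ δ < 1 / 2 ∧ ∀ s : ℝ, 0 < s → s < δ → s ∉ B := by
  have h1 : (B \ {0})ᶜ ∈ nhds (0 : ℝ) := by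
    apply (hB.subset Set.sdiff_subset).isClosed.isOpen_compl.mem_nhds
    intro h
    exact h.2 rfl
  obtain ⟨ε, hε, h2⟩ := Metric.mem_nhds_iff.1 h1
  refine ⟨min ε (1 / 4), lt_min hε (by norm_num),
    lt_of_le_of_lt (min_le_right _ _) (by norm_num), ?_⟩
  intro s hs hsd hsB
  have h3 : s ∈ Metric.ball (0 : ℝ) ε := by
    rw [Metric.mem_ball, Real.dist_eq, sub_zero, abs_of_pos hs]
    exact lt_of_lt_of_le hsd (min_le_left _ _)
  exact h2 h3 ⟨hsB, fun h => hs.ne' h⟩

theorem NPS_bad1 (p : V → E3) (z x y v : V) (h : Indep2 (p x - p z) (p y - p z)) :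
    {s : ℝ | p v = newPos p z x y s}.Subsingleton := by
  intro s hs t ht
  rw [Set.mem_ofPred_eq] at hs ht
  have h1 : (s - t) • (p x - p z) + (s - t) • (p y - p z) = 0 := by
    have h2 : newPos p z x y s - newPos p z x y t = 0 := by rw [← hs, ← ht, sub_self]
    unfold newPos at h2
    rw [← h2]
    module
  have := (h _ _ h1).1
  linarith

theorem NPS_bad2 (p : V → E3) (z x y v : V) (h : Indep2 (p x - p z) (p y - p z))
    (hv : p v ≠ p x) :
    {s : ℝ | ¬ Indep2 (newPos p z x y s - p x) (p v - p x)}.Subsingleton := by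
  have key : ∀ s : ℝ, ¬ Indep2 (newPos p z x y s - p x) (p v - p x) →
      ∃ γ : ℝ, newPos p z x y s - p x = γ • (p v - p x) := by
    intro s hs
    unfold Indep2 at hs
    push Not at hs
    obtain ⟨α, β, h1, h2⟩ := hs
    have hα : α ≠ 0 := by
      intro hα
      have h3 := h2 hα
      rw [hα, zero_smul, zero_add] at h1
      rcases smul_eq_zero.1 h1 with h4 | h4
      · exact h3 h4
      · exact hv (sub_eq_zero.1 h4)
    refine ⟨-(β / α), ?_⟩
    have h5 : newPos p z x y s - p x = α⁻¹ • (α • (newPos p z x y s - p x)) := by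
      rw [smul_smul, inv_mul_cancel₀ hα, one_smul]
    rw [h5, eq_neg_of_add_eq_zero_left h1, ← neg_smul, smul_smul]
    congr 1
    field_simp
  intro s hs t ht
  obtain ⟨γ, h1⟩ := key s hs
  obtain ⟨δ, h2⟩ := key t ht
  have h3 : (-(δ * (1 - s)) + γ * (1 - t)) • (p x - p z) + (δ * s - γ * t) • (p y - p z) = 0 := by
    have h4 : δ • (newPos p z x y s - p x) - γ • (newPos p z x y t - p x) = 0 := by
      rw [h1, h2, smul_smul, smul_smul, mul_comm δ γ, sub_self]
    rw [NPS_sub, NPS_sub] at h4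
    rw [← h4]
    module
  obtain ⟨h5, h6⟩ := h _ _ h3
  have h7 : γ = δ := by linarith
  by_contra hst
  have h8 : γ * (s - t) = 0 := by
    rw [← h7] at h6
    linarith
  have h9 : γ = 0 := (mul_eq_zero.1 h8).resolve_right (sub_ne_zero.2 hst)
  rw [h9, zero_smul, NPS_sub] at h1
  obtain ⟨h10, h11⟩ := h _ _ h1
  linarith

theorem NPS_hull_mid {Φ : Finset (E3 × ℝ)} {a b : E3} (ha : a ∈ TSM.hull Φ)
    (hb : b ∈ TSM.hull Φ) : (1 / 2 : ℝ) • (a + b) ∈ TSM.hull Φ := by
  intro ψ hψ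
  have h1 := ha ψ hψ
  have h2 := hb ψ hψ
  unfold ev at *
  rw [inner_smul_right, inner_add_right]
  linarith

theorem NPS_active [Fintype V] [DecidableEq V] {p : V → E3} {Φ : Finset (E3 × ℝ)}
    (hH : Hull p Φ) {z x y : V} {φ ψ : E3 × ℝ} (hφ : φ ∈ Φ) (hψ : ψ ∈ Φ) (hne : ψ ≠ φ)
    (hz : ev φ (p z) = 0) (hx : ev φ (p x) = 0) (hy : ev φ (p y) = 0)
    (h : Indep2 (p x - p z) (p y - p z))
    (hz' : ev ψ (p z) = 0) (hx' : ev ψ (p x) = 0) (hy' : ev ψ (p y) = 0) : False := by
  have hn : φ.1 ≠ 0 := by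
    intro h0
    have := hH.unit φ hφ
    rw [h0, norm_zero] at this
    exact zero_ne_one this
  unfold ev at hz hx hy hz' hx' hy'
  obtain ⟨t, ht⟩ := normal_multiple (n := φ.1) (u := ψ.1) hn
    (by rw [inner_sub_right]; linarith) (by rw [inner_sub_right]; linarith) h
    (by rw [inner_sub_right]; linarith) (by rw [inner_sub_right]; linarith)
  have h1 : |t| = 1 := by
    have h2 := hH.unit ψ hψ
    rw [ht, norm_smul, hH.unit φ hφ, mul_one, Real.norm_eq_abs] at h2
    exact h2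
  rcases (abs_eq (zero_le_one)).1 h1 with h2 | h2
  · rw [h2, one_smul] at ht
    exact hne (hH.normals ψ hψ φ hφ ht)
  · rw [h2, neg_one_smul] at ht
    obtain ⟨w, hw⟩ := hH.int
    obtain ⟨ε, hε, hb⟩ := Metric.mem_nhds_iff.1 (mem_interior_iff_mem_nhds.1 hw)
    have hw0 : w ∈ TSM.hull Φ := hb (Metric.mem_ball_self hε)
    have hw1 : w + (ε / 2) • φ.1 ∈ TSM.hull Φ := by
      apply hb
      rw [Metric.mem_ball, dist_eq_norm, add_sub_cancel_left, norm_smul, hH.unit φ hφ, mul_one,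
        Real.norm_eq_abs, abs_of_pos (by positivity)]
      linarith
    have h3 := hw0 ψ hψ
    have h4 := hw1 φ hφ
    unfold ev at h3 h4
    rw [inner_add_right, inner_smul_right, real_inner_self_eq_norm_sq, hH.unit φ hφ] at h4
    rw [ht, inner_neg_left] at h3 hz'
    linarith

theorem NPS_proof : Stmt_NPS := by
  intro V _ _ p Φ hH z x y φ hφ hz hx hy h
  have hfin : ({s : ℝ | ∃ v, p v = newPos p z x y s} ∪
      {s : ℝ | ∃ v, p v ≠ p x ∧ ¬ Indep2 (newPos p z x y s - p x) (p v - p x)} ∪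
      {s : ℝ | ∃ v, p v ≠ p y ∧ ¬ Indep2 (newPos p z x y s - p y) (p v - p y)}).Finite := by
    refine Set.Finite.union (Set.Finite.union ?_ ?_) ?_
    · rw [show {s : ℝ | ∃ v, p v = newPos p z x y s} =
        ⋃ v, {s : ℝ | p v = newPos p z x y s} by ext s; simp]
      exact Set.finite_iUnion fun v => (NPS_bad1 p z x y v h).finite
    · apply Set.Finite.subset (s := ⋃ v : {v // p v ≠ p x},
        {s : ℝ | ¬ Indep2 (newPos p z x y s - p x) (p v.1 - p x)})
      · exact Set.finite_iUnion fun v => (NPS_bad2 p z x y v.1 h v.2).finite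
      · rintro s ⟨v, h1, h2⟩
        exact Set.mem_iUnion.2 ⟨⟨v, h1⟩, h2⟩
    · apply Set.Finite.subset (s := ⋃ v : {v // p v ≠ p y},
        {s : ℝ | ¬ Indep2 (newPos p z y x s - p y) (p v.1 - p y)})
      · exact Set.finite_iUnion fun v => (NPS_bad2 p z y x v.1 h.symm v.2).finite
      · rintro s ⟨v, h1, h2⟩
        rw [NPS_swap] at h2
        exact Set.mem_iUnion.2 ⟨⟨v, h1⟩, h2⟩
  obtain ⟨δ, hδ, hδ2, hav⟩ := NPS_avoid _ hfin
  refine ⟨δ, hδ, hδ2, ?_⟩
  intro s hs hsδ
  have hs2 : s < 1 / 2 := hsδ.trans hδ2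
  have hB := hav s hs hsδ
  refine ⟨?_, ?_, ?_, ?_, ?_, ?_⟩
  · rw [NPS_ev, hz, hx, hy]
    ring
  · intro ψ hψ hne
    have h1 : ev ψ (p z) ≤ 0 := hH.mem z ψ hψ
    have h2 : ev ψ (p x) ≤ 0 := hH.mem x ψ hψ
    have h3 : ev ψ (p y) ≤ 0 := hH.mem y ψ hψ
    rw [NPS_ev]
    have h4 : 0 < 1 - 2 * s := by linarith
    have m1 := mul_nonpos_of_nonneg_of_nonpos h4.le h1
    have m2 := mul_nonpos_of_nonneg_of_nonpos hs.le h2
    have m3 := mul_nonpos_of_nonneg_of_nonpos hs.le h3
    rcases h1.lt_or_eq with h5 | h5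
    · have := mul_neg_of_pos_of_neg h4 h5
      linarith
    · rcases h2.lt_or_eq with h6 | h6
      · have := mul_neg_of_pos_of_neg hs h6
        linarith
      · rcases h3.lt_or_eq with h7 | h7
        · have := mul_neg_of_pos_of_neg hs h7
          linarith
        · exact (NPS_active hH hφ hψ hne hz hx hy h h5 h6 h7).elim
  · intro hext
    rw [mem_extremePoints] at hext
    have h1 := hext.2 (p z) (hH.mem z) _ (NPS_hull_mid (hH.mem x) (hH.mem y)) (by
      refine ⟨1 - 2 * s, 2 * s, by linarith, by linarith, by ring, ?_⟩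
      unfold newPos
      module)
    have h2 : s • (p x - p z) + s • (p y - p z) = 0 := by
      have h3 : newPos p z x y s - p z = 0 := by rw [← h1.1]; exact sub_self _
      unfold newPos at h3
      rw [← h3]
      module
    exact hs.ne' (h _ _ h2).1
  · intro v hv
    exact hB (Or.inl (Or.inl ⟨v, hv⟩))
  · intro v hv
    by_contra hc
    exact hB (Or.inl (Or.inr ⟨v, hv, hc⟩))
  · intro v hv
    by_contra hc
    exact hB (Or.inr ⟨v, hv, hc⟩)

end Pool.Agent.TSQ
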