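import Pool.Agent.TSQ.Stmts

/-!
# TSQ.OCH: directions strictly inside the tangent cone
-/

set_option autoImplicit false

open scoped RealInnerProductSpace Topology

namespace Pool.Agent.TSQ

open Pool.Agent.TSM Pool.Agent.TSP

theorem OCH_proof : Stmt_OCH := by
  intro V _ p Φ hH z x y hxy
  obtain ⟨q, hq⟩ := hH.int
  have hneg : ∀ φ ∈ Φ, ev φ q < 0 := by
    intro φ hφ
    rw [mem_interior_iff_mem_nhds, Metric.mem_nhds_iff] at hq
    obtain ⟨r, hr, hb⟩ := hq
    have h1 : q + (r / 2) • φ.1 ∈ Metric.ball q r := by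
      rw [Metric.mem_ball, dist_eq_norm, add_sub_cancel_left, norm_smul, hH.unit φ hφ,
        Real.norm_eq_abs, abs_of_pos (by linarith)]
      linarith
    have h2 := hb h1 φ hφ
    unfold ev at h2 ⊢
    rw [inner_add_right, inner_smul_right, real_inner_self_eq_norm_sq, hH.unit φ hφ] at h2
    linarith
  set o1 : E3 := q - p z with ho1
  have h1 : ∀ φ ∈ Φ, ev φ (p z) = 0 → ⟪φ.1, o1⟫ < 0 := by
    intro φ hφ hz
    have := hneg φ hφ
    unfold ev at this hz
    rw [ho1, inner_sub_right]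
    linarith
  by_cases hdet : det3 o1 (p x - p z) (p y - p z) = 0
  · set c := cr (p x - p z) (p y - p z) with hc
    have hev : ∀ᶠ t in 𝓝[>] (0 : ℝ), ∀ φ ∈ Φ, ev φ (p z) = 0 → ⟪φ.1, o1 + t • c⟫ < 0 := by
      apply Filter.Eventually.filter_mono nhdsWithin_le_nhds
      rw [Finset.eventually_all]
      intro φ hφ
      by_cases hz : ev φ (p z) = 0
      · have hcont : Continuous fun t : ℝ => ⟪φ.1, o1 + t • c⟫ := by fun_prop
        have h2 : ∀ᶠ t in 𝓝 (0 : ℝ), ⟪φ.1, o1 + t • c⟫ < 0 := by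
          apply hcont.continuousAt.eventually_lt continuousAt_const
          simpa using h1 φ hφ hz
        exact h2.mono fun t ht _ => ht
      · exact Filter.Eventually.of_forall fun t h => absurd h hz
    obtain ⟨t, ht, ht0⟩ := (hev.and self_mem_nhdsWithin).exists
    refine ⟨o1 + t • c, ht, ?_⟩
    have h3 : det3 (o1 + t • c) (p x - p z) (p y - p z) =
        det3 o1 (p x - p z) (p y - p z) + t * det3 c (p x - p z) (p y - p z) := by
      rw [det3_eq, det3_eq, det3_eq, inner_add_left, real_inner_smul_left]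
    rw [h3, hdet, zero_add, hc, det3_cr]
    exact mul_ne_zero (ne_of_gt ht0) (inner_self_pos (cr_ne_zero hxy)).ne'
  · exact ⟨o1, h1, hdet⟩

end Pool.Agent.TSQ
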