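import Pool.Agent.TSQ.Stmts

/-!
# TSQ.OUT: a boundary vertex with only boundary edges is an outer vertex
-/

set_option autoImplicit false

open scoped RealInnerProductSpace

namespace Pool.Agent.TSQ

open Pool.Agent.TSM Pool.Agent.TSP

theorem OUT_proof (hTTR : Stmt_TTR) : Stmt_OUT := by
  intro V _ _ K p Φ hpre z hz t ht hzt
  have hc := K.card3 t ht
  have h2 : (t.erase z).card = 2 := by rw [Finset.card_erase_of_mem hzt, hc]
  obtain ⟨x, y, hxy, he⟩ := Finset.card_eq_two.1 h2
  have hx : x ∈ t.erase z := by rw [he]; simp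
  have hy : y ∈ t.erase z := by rw [he]; simp
  rw [Finset.mem_erase] at hx hy
  have htt : t = {z, x, y} := by
    rw [← Finset.insert_erase hzt, he]
  have hax : K.Adj z x := ⟨hx.1.symm, t, ht, hzt, hx.2⟩
  have hay : K.Adj z y := ⟨hy.1.symm, t, ht, hzt, hy.2⟩
  obtain ⟨φ, hφ, e1, e2, e3⟩ := hTTR V K p Φ hpre z x y hx.1.symm hy.1.symm hxy (htt ▸ ht)
    (hz x hax) (hz y hay)
  refine ⟨φ, hφ, fun w hw => ?_⟩
  rw [htt] at hw
  simp only [Finset.mem_insert, Finset.mem_singleton] at hw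
  rcases hw with rfl | rfl | rfl
  · exact e1
  · exact e2
  · exact e3

end Pool.Agent.TSQ
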