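import Pool.Agent.TSQ.Stmts

/-!
# TSQ, module P4M: strict balance of the inner vertices after a small perturbation
-/

set_option autoImplicit false

open scoped RealInnerProductSpace

namespace Pool.Agent.TSQ

open Pool.Agent.TSM Pool.Agent.TSP

namespace P4M_

lemma pos_min {ι : Type} [Fintype ι] (e : ι → ℝ) (h : ∀ i, 0 < e i) :
    ∃ ε : ℝ, 0 < ε ∧ ∀ i, ε ≤ e i := by
  rcases isEmpty_or_nonempty ι with hι | hι
  · exact ⟨1, one_pos, fun i => (hι.false i).elim⟩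
  · obtain ⟨i, -, hi⟩ := Finset.exists_min_image Finset.univ e Finset.univ_nonempty
    exact ⟨e i, h i, fun j => hi j (Finset.mem_univ j)⟩

lemma pos_min_finset {ι : Type} (s : Finset ι) (e : ι → ℝ) (h : ∀ i ∈ s, 0 < e i) :
    ∃ ε : ℝ, 0 < ε ∧ ∀ i ∈ s, ε ≤ e i := by
  obtain ⟨ε, h1, h2⟩ := pos_min (fun i : s => e i.1) (fun i => h i.1 i.2)
  exact ⟨ε, h1, fun i hi => h2 ⟨i, hi⟩⟩

lemma ev_sub (φ : E3 × ℝ) (x y : E3) : ev φ x - ev φ y = ⟪φ.1, x - y⟫ := by
  simp only [ev, inner_sub_right]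
  ring

lemma ev_close {φ : E3 × ℝ} (hφ : ‖φ.1‖ = 1) (x y : E3) : |ev φ x - ev φ y| ≤ ‖x - y‖ := by
  rw [ev_sub]
  have h1 := abs_real_inner_le_norm φ.1 (x - y)
  rw [hφ, one_mul] at h1
  exact h1

/-- an extreme point of the hull lies on one of the planes -/
lemma not_extreme {Φ : Finset (E3 × ℝ)} (hu : ∀ φ ∈ Φ, ‖φ.1‖ = 1) {e : E3}
    (he : ∀ φ ∈ Φ, ev φ e < 0) : e ∉ Set.extremePoints ℝ (TSM.hull Φ) := by
  intro hex
  obtain ⟨δ, hδ, hδ2⟩ := pos_min_finset Φ (fun φ => -ev φ e) (fun φ hφ => by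
    have := he φ hφ
    linarith)
  obtain ⟨w, hw⟩ : ∃ w : E3, ‖w‖ = 1 := ⟨EuclideanSpace.single 0 1, by simp⟩
  have hmem : ∀ s : ℝ, |s| ≤ δ → e + s • w ∈ TSM.hull Φ := by
    intro s hs φ hφ
    have h1 := ev_close (hu φ hφ) (e + s • w) e
    have h2 : ‖e + s • w - e‖ = |s| := by
      rw [add_sub_cancel_left, norm_smul, hw, mul_one, Real.norm_eq_abs]
    rw [h2] at h1
    have h3 := hδ2 φ hφ
    have h4 := (abs_le.1 h1).2
    linarith
  rw [mem_extremePoints] at hex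
  have h1 := hex.2 (e + δ • w) (hmem δ (by rw [abs_of_pos hδ])) (e + (-δ) • w)
    (hmem (-δ) (by rw [abs_neg, abs_of_pos hδ])) ⟨1 / 2, 1 / 2, by norm_num, by norm_num,
      by norm_num, by module⟩
  have h2 : δ • w = 0 := by
    have := h1.1
    simpa using this
  rcases smul_eq_zero.1 h2 with h3 | h3
  · exact hδ.ne' h3
  · rw [h3, norm_zero] at hw
    exact zero_ne_one hw

lemma isClosed_hull (Φ : Finset (E3 × ℝ)) : IsClosed (TSM.hull Φ) := by
  have : TSM.hull Φ = ⋂ φ ∈ Φ, {x | ev φ x ≤ 0} := by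
    ext x
    simp [TSM.hull]
  rw [this]
  refine isClosed_biInter fun φ _ => ?_
  have hc : Continuous fun x : E3 => ev φ x := by
    unfold ev
    fun_prop
  exact isClosed_le hc continuous_const

lemma convex_hull' (Φ : Finset (E3 × ℝ)) : Convex ℝ (TSM.hull Φ) := by
  intro x hx y hy a b ha hb hab φ hφ
  have h1 := hx φ hφ
  have h2 := hy φ hφ
  have h3 : ev φ (a • x + b • y) = a * ev φ x + b * ev φ y := by
    simp only [ev, inner_add_right, inner_smul_right]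
    have : φ.2 = (a + b) * φ.2 := by rw [hab, one_mul]
    nlinarith [this]
  rw [h3]
  nlinarith [mul_nonneg ha (neg_nonneg.2 h1), mul_nonneg hb (neg_nonneg.2 h2)]

end P4M_

open P4M_ in
theorem P4M_proof (hEMC : Stmt_EMC) (hEXU : Stmt_EXU) (hWBA : Stmt_WBA) (hTUT : Stmt_TUT)
    (hSTB : Stmt_STB) (hCIO : Stmt_CIO) : Stmt_P4M := by
  classical
  intro V _ _ K p Φ hemb hvt hH hnf ε hε
  obtain ⟨hE1, -, -, -⟩ := hEMC V K p hemb
  -- the inner vertices
  set I : Finset V := Finset.univ.filter (fun v => Int Φ p v) with hI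
  set N : V → Finset V := fun v => Finset.univ.filter (fun y => K.Adj v y) with hN
  have hmI : ∀ v, v ∈ I ↔ Int Φ p v := fun v => by simp [hI]
  have hmN : ∀ v y, y ∈ N v ↔ K.Adj v y := fun v y => by simp [hN]
  have hne : ∀ v, ∃ y, K.Adj v y := by
    intro v
    obtain ⟨n, c, hn, hc1, hc2, hc3⟩ := K.link v
    refine ⟨c 0, (hc2 0).symm, {v, c 0, c (0 + 1)}, ((hc3 _).2 ⟨0, rfl⟩).1, by simp, by simp⟩
  -- constants
  have e1 : ∀ v, ∃ δ : ℝ, 0 < δ ∧ ∀ d' : V → E3,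
      (∀ σ ∈ arcs K.tri v, ∀ u ∈ σ, ‖d' u - (p u - p v)‖ < δ) → ConeInj (arcs K.tri v) d' :=
    fun v => hCIO V (arcs K.tri v) (fun u => p u - p v) (hemb v)
  choose δ1 hδ1 hδ1' using e1
  have e2 : ∀ v, ∃ δ : ℝ, 0 < δ ∧ (Int Φ p v → ∀ X : V → E3, (∀ y, ‖X y - p y‖ < δ) →
    (∃ w : V → ℝ, (∀ y, K.Adj v y → 0 < w y) ∧ (∀ y, ¬ K.Adj v y → w y = 0) ∧ ∑ y, w y = 1 ∧
      X v = ∑ y, w y • X y) → Bal K X v) := by
    intro v
    by_cases hv : Int Φ p v
    · obtain ⟨δ, h1, h2⟩ := hSTB V K p v (hnf v hv)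
      exact ⟨δ, h1, fun _ => h2⟩
    · exact ⟨1, one_pos, fun h => (hv h).elim⟩
  choose δ2 hδ2 hδ2' using e2
  have e3 : ∀ v, ∃ δ : ℝ, 0 < δ ∧ (Int Φ p v → ∀ φ ∈ Φ, δ ≤ -ev φ (p v)) := by
    intro v
    by_cases hv : Int Φ p v
    · obtain ⟨δ, h1, h2⟩ := pos_min_finset Φ (fun φ => -ev φ (p v)) (fun φ hφ => by
        have := hv φ hφ
        linarith)
      exact ⟨δ, h1, fun _ => h2⟩
    · exact ⟨1, one_pos, fun h => (hv h).elim⟩
  choose δ3 hδ3 hδ3' using e3
  obtain ⟨a1, ha1, ha1'⟩ := pos_min δ1 hδ1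
  obtain ⟨a2, ha2, ha2'⟩ := pos_min δ2 hδ2
  obtain ⟨a3, ha3, ha3'⟩ := pos_min δ3 hδ3
  set η : ℝ := min ε (min (a1 / 2) (min a2 a3)) with hη
  have hηpos : 0 < η := by positivity
  have hηε : η ≤ ε := min_le_left _ _
  have hη1 : η ≤ a1 / 2 := (min_le_right _ _).trans (min_le_left _ _)
  have hη2 : η ≤ a2 := (min_le_right _ _).trans ((min_le_right _ _).trans (min_le_left _ _))
  have hη3 : η ≤ a3 := (min_le_right _ _).trans ((min_le_right _ _).trans (min_le_right _ _))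
  -- the Tutte perturbation
  obtain ⟨X, hX1, hX2, hX3⟩ := hTUT V p I N (by
    intro v hv
    have hv' := (hmI v).1 hv
    obtain ⟨y, hy⟩ := hne v
    refine ⟨⟨y, (hmN v y).2 hy⟩, fun y hy => hE1 v y ((hmN v y).1 hy), ?_⟩
    obtain ⟨w, hw1, hw2, hw3, hw4⟩ := hWBA V K p Φ hvt hH v hv'
    exact ⟨w, hw1, fun y hy => hw2 y (fun h => hy ((hmN v y).2 h)), hw3, hw4⟩) η hηpos
  have hXI : ∀ v, ¬ Int Φ p v → X v = p v := fun v hv => hX1 v (fun h => hv ((hmI v).1 h))
  have hXint : ∀ v, Int Φ p v → Int Φ X v := by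
    intro v hv φ hφ
    have h1 := ev_close (hH.unit φ hφ) (X v) (p v)
    have h2 := hX2 v
    have h3 := hδ3' v hv φ hφ
    have h4 := ha3' v
    have h5 := (abs_le.1 h1).2
    linarith
  have hint : ∀ v, Int Φ X v → Int Φ p v := by
    intro v hv
    by_contra h
    refine h (fun φ hφ => ?_)
    have h1 := hv φ hφ
    rw [hXI v h] at h1
    exact h1
  have hzero : ∀ (φ : E3 × ℝ), φ ∈ Φ → ∀ v, ev φ (X v) = 0 → X v = p v := by
    intro φ hφ v hv
    apply hXI
    intro h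
    have := hXint v h φ hφ
    linarith
  have hzero' : ∀ (φ : E3 × ℝ), φ ∈ Φ → ∀ v, ev φ (p v) = 0 → X v = p v := by
    intro φ hφ v hv
    apply hXI
    intro h
    have := h φ hφ
    linarith
  have hmem : ∀ v, X v ∈ TSM.hull Φ := by
    intro v φ hφ
    by_cases h : Int Φ p v
    · exact (hXint v h φ hφ).le
    · rw [hXI v h]
      exact hH.mem v φ hφ
  -- extreme points
  have hextp : ∀ e ∈ Set.extremePoints ℝ (TSM.hull Φ), ∀ v, p v = e → X v = e := by
    intro e he v hv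
    rw [← hv]
    apply hXI
    intro h
    exact not_extreme hH.unit (e := e) (by rw [← hv]; exact h) he
  have hext : ∀ e ∈ Set.extremePoints ℝ (TSM.hull Φ), ∃! v, X v = e := by
    intro e he
    obtain ⟨v0, hv0, huniq⟩ := hEXU V K p Φ hemb hvt hH e he
    refine ⟨v0, hextp e he v0 hv0, ?_⟩
    intro v hv
    by_cases h : Int Φ p v
    · exact (not_extreme hH.unit (e := e) (by
        have hv' : X v = e := hv
        rw [← hv']
        exact hXint v h) he).elim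
    · apply huniq
      have hv' : X v = e := hv
      show p v = e
      rw [← hXI v h, hv']
  have heq : TSM.hull Φ = convexHull ℝ (Set.range X) := by
    apply Set.Subset.antisymm
    · have hcomp : IsCompact (TSM.hull Φ) :=
        Metric.isCompact_of_isClosed_isBounded (isClosed_hull Φ) hH.bdd
      have h1 := closure_convexHull_extremePoints hcomp (convex_hull' Φ)
      have h2 : Set.extremePoints ℝ (TSM.hull Φ) ⊆ Set.range X := by
        intro e he
        obtain ⟨v, hv, -⟩ := hext e he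
        exact ⟨v, hv⟩
      have h3 : IsClosed (convexHull ℝ (Set.range X)) :=
        ((Set.finite_range X).isCompact_convexHull (𝕜 := ℝ)).isClosed
      calc TSM.hull Φ = closure (convexHull ℝ (Set.extremePoints ℝ (TSM.hull Φ))) := h1.symm
        _ ⊆ closure (convexHull ℝ (Set.range X)) := closure_mono (convexHull_mono h2)
        _ = convexHull ℝ (Set.range X) := h3.closure_eq
    · refine convexHull_min ?_ (convex_hull' Φ)
      rintro _ ⟨v, rfl⟩
      exact hmem v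
  refine ⟨X, ⟨?_, ⟨hH.unit, hH.normals, hH.bdd, hH.int, ?_, hmem, heq⟩, hext, ?_, ?_⟩,
    fun v => (hX2 v).trans_le hηε⟩
  · -- embedded stars
    intro v
    apply hδ1' v
    intro σ _ u _
    have h1 := hX2 u
    have h2 := hX2 v
    have h3 := ha1' v
    have h4 : X u - X v - (p u - p v) = (X u - p u) - (X v - p v) := by abel
    rw [h4]
    calc ‖(X u - p u) - (X v - p v)‖ ≤ ‖X u - p u‖ + ‖X v - p v‖ := norm_sub_le _ _
      _ < δ1 v := by linarith
  · -- facets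
    intro φ hφ
    obtain ⟨a, b, c, ha, hb, hc, hind⟩ := hH.facet φ hφ
    refine ⟨a, b, c, ?_, ?_, ?_, ?_⟩
    · rw [hzero' φ hφ a ha]; exact ha
    · rw [hzero' φ hφ b hb]; exact hb
    · rw [hzero' φ hφ c hc]; exact hc
    · rw [hzero' φ hφ a ha, hzero' φ hφ b hb, hzero' φ hφ c hc]; exact hind
  · -- tightness
    intro φ hφ ψ hψ z u hz1 hz2 hy
    obtain ⟨y, hyz, hy1, hy2, hy3⟩ := hy
    have hXz := hzero φ hφ z hz1
    have hXy := hzero φ hφ y hy1
    rw [hXz] at hz1 hz2 hy3 ⊢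
    rw [hXy] at hy1 hy2 hy3
    have hsum : ∀ x, ev (φ.1 + ψ.1, φ.2 + ψ.2) x = ev φ x + ev ψ x := by
      intro x
      simp only [ev, inner_add_left]
      ring
    obtain ⟨y', ha', hy1', hy2'⟩ := hvt (φ.1 + ψ.1, φ.2 + ψ.2) (fun v => by
      rw [hsum]
      have h1 := hH.mem v φ hφ
      have h2 := hH.mem v ψ hψ
      linarith) z u (by rw [hsum, hz1, hz2, add_zero])
      ⟨y, hyz, by rw [hsum, hy1, hy2, add_zero], hy3⟩
    rw [hsum] at hy1'
    have h1 := hH.mem y' φ hφ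
    have h2 := hH.mem y' ψ hψ
    have h3 : ev φ (p y') = 0 := by linarith
    have h4 : ev ψ (p y') = 0 := by linarith
    refine ⟨y', ha', ?_, ?_, ?_⟩
    · rw [hzero' φ hφ y' h3]; exact h3
    · rw [hzero' φ hφ y' h3]; exact h4
    · rw [hzero' φ hφ y' h3]; exact hy2'
  · -- balance
    intro v hv
    have hv' := hint v hv
    apply hδ2' v hv' X (fun y => by
      have h1 := hX2 y
      have h2 := ha2' v
      linarith)
    obtain ⟨w, hw1, hw2, hw3, hw4⟩ := hX3 v ((hmI v).2 hv')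
    exact ⟨w, fun y hy => hw1 y ((hmN v y).2 hy),
      fun y hy => hw2 y (fun h => hy ((hmN v y).1 h)), hw3, hw4⟩

end Pool.Agent.TSQ
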