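import Pool.Agent.TSQ.Stmts
import Pool.Agent.TSM.Final

/-!
# TSQ.P5M: the treatment of the boundary of the hull (assembly)
-/

set_option autoImplicit false

open scoped RealInnerProductSpace

namespace Pool.Agent.TSQ

open Pool.Agent.TSM Pool.Agent.TSP

namespace P5M_

theorem aux (hFOL : Stmt_FOL) (hPCK : Stmt_PCK) (hSPS : Stmt_SPS) (hSPE : Stmt_SPE)
    (hSPB : Stmt_SPB) (hSPW : Stmt_SPW) (hSPM : Stmt_SPM) (hSPH : Stmt_SPH) (hOUT : Stmt_OUT)
    (Φ : Finset (E3 × ℝ)) (n : ℕ) :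
    ∀ (V : Type) (_ : Fintype V) (_ : DecidableEq V) (K : Surf V) (p : V → E3) (W : Finset V),
      mu K p Φ W = n → Pre K p Φ → WGood K p Φ W → ∀ ε : ℝ, 0 < ε →
      ∃ (V' : Type) (_ : Fintype V') (_ : DecidableEq V') (K' : Surf V') (p' : V' → E3),
        Semi K' p' Φ ∧ CloseTo ε K p K' p' := by
  induction n using Nat.strong_induction_on with
  | _ n ih =>
    intro V _ _ K p W hmu hpre hW ε hε
    by_cases h : ∃ z0 m0 : V, z0 ∉ W ∧ (∃ φ ∈ Φ, ev φ (p z0) = 0) ∧ K.Adj z0 m0 ∧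
        ¬ TE Φ p z0 m0
    · obtain ⟨z0, m0, hz0, hb, hadj, hTE⟩ := h
      obtain ⟨z, x, y, mid, rest, hzW, hpath, hmid, hind⟩ :=
        hFOL V K p Φ W hpre hW z0 m0 hz0 hb hadj hTE
      obtain ⟨φ, hpock⟩ := hPCK V K p Φ hpre z x y mid rest hpath hmid hind
      obtain ⟨K', hK'⟩ := hSPS V K z x y mid rest hpath.1 hmid hpock.rest_ne
      obtain ⟨s1, hs1, h1⟩ := hSPE V K p Φ z x y mid rest φ hpre hpath hmid hind hpock
      obtain ⟨s2, hs2, h2⟩ := hSPB V K p Φ z x y mid rest φ hpre hpath hmid hind hpock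
      obtain ⟨s3, hs3, h3⟩ := hSPW V K p Φ W z x y mid rest φ hpre hpath hmid hind hpock hzW hW
      obtain ⟨s4, hs4, h4⟩ := hSPM V K p Φ W z x y mid rest φ hpre hpath hmid hind hpock hzW
      obtain ⟨s5, hs5, h5⟩ := hSPH V K p z x y mid rest hpath.1 hmid hpock.rest_ne (ε / 2)
        (by linarith)
      set s := min s1 (min s2 (min s3 (min s4 s5))) / 2 with hs
      have hm : 0 < min s1 (min s2 (min s3 (min s4 s5))) := by
        simp only [lt_min_iff]; exact ⟨hs1, hs2, hs3, hs4, hs5⟩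
      have hs0 : 0 < s := by rw [hs]; linarith
      have hlt : s < min s1 (min s2 (min s3 (min s4 s5))) := by rw [hs]; linarith
      simp only [lt_min_iff] at hlt
      obtain ⟨l1, l2, l3, l4, l5⟩ := hlt
      have e1 : Emb K'.tri (splitPos p (newPos p z x y s)) := by
        rw [hK']; exact h1 s hs0 l1
      have e2 := h2 s hs0 l2 K' hK' e1
      have e3 := h3 s hs0 l3 K' hK'
      have e4 := h4 s hs0 l4 K' hK'
      have e5 := h5 s hs0 l5 K' hK'
      obtain ⟨V'', i1, i2, K'', p'', hS, hC⟩ := ih _ (hmu ▸ e4) (Option V) inferInstance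
        inferInstance K' _ _ rfl e2 e3 (ε / 2) (by linarith)
      refine ⟨V'', i1, i2, K'', p'', hS, ?_⟩
      have := e5.trans hC
      rwa [add_halves] at this
    · push Not at h
      refine ⟨V, inferInstance, inferInstance, K, p, ⟨hpre.emb, hpre.hull, hpre.ext, ?_⟩,
        CloseTo.refl hε K p⟩
      intro v
      by_cases hb : ∃ φ ∈ Φ, ev φ (p v) = 0
      · by_cases hv : v ∈ W
        · exact Or.inr (Or.inr (hW.1 v hv))
        · exact Or.inl (hOUT V K p Φ hpre v fun y hy => h v y hv hb hy)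
      · have hI : Int Φ p v := by
          intro φ hφ
          have h1 := hpre.hull.mem v φ hφ
          exact lt_of_le_of_ne h1 fun h2 => hb ⟨φ, hφ, h2⟩
        exact Or.inr (Or.inl ⟨hI, hpre.bal v hI⟩)

end P5M_

theorem P5M_proof (hFOL : Stmt_FOL) (hPCK : Stmt_PCK) (hSPS : Stmt_SPS) (hSPE : Stmt_SPE)
    (hSPB : Stmt_SPB) (hSPW : Stmt_SPW) (hSPM : Stmt_SPM) (hSPH : Stmt_SPH) (hOUT : Stmt_OUT) :
    Stmt_P5M := by
  intro V _ _ K p Φ hpre ε hε
  refine P5M_.aux hFOL hPCK hSPS hSPE hSPB hSPW hSPM hSPH hOUT Φ _ V _ _ K p ∅ rfl hpre ?_ ε hε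
  refine ⟨fun w hw => absurd hw (Finset.notMem_empty w), ?_⟩
  intro z w u m m' _ hw
  exact absurd hw (Finset.notMem_empty w)

end Pool.Agent.TSQ
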