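import Pool.Agent.TSQ.Stmts

/-!
# P6M: the final generic perturbation
-/

set_option autoImplicit false

open scoped RealInnerProductSpace Topology

namespace Pool.Agent.TSQ

open Pool.Agent.TSM Pool.Agent.TSP

namespace P6M_

section
variable {V : Type} [Fintype V] [DecidableEq V]

/-- embedded stars from the cone form -/
theorem embStars (K : Surf V) (p : V → E3) (h : Emb K.tri p) : K.EmbStars p := by
  intro v w hw w' hw' he
  obtain ⟨hw0, hw1, t, ht, hvt, hwt⟩ := hw
  obtain ⟨hw0', hw1', t', ht', hvt', hwt'⟩ := hw'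
  have hσ : t.erase v ∈ arcs K.tri v :=
    Finset.mem_image.2 ⟨t, Finset.mem_filter.2 ⟨ht, hvt⟩, rfl⟩
  have hτ : t'.erase v ∈ arcs K.tri v :=
    Finset.mem_image.2 ⟨t', Finset.mem_filter.2 ⟨ht', hvt'⟩, rfl⟩
  have key := h v (t.erase v) hσ (t'.erase v) hτ (fun u => if u = v then 0 else w u - w' u)
  have h1 : ∀ u, u ∉ t.erase v → (if u = v then (0 : ℝ) else w u - w' u) ≤ 0 := by
    intro u hu
    by_cases huv : u = v
    · rw [if_pos huv]
    · rw [if_neg huv]
      have h2 : w u = 0 := hwt u fun h3 => hu (Finset.mem_erase.2 ⟨huv, h3⟩)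
      have h3 := hw0' u
      linarith
  have h2 : ∀ u, u ∉ t'.erase v → 0 ≤ (if u = v then (0 : ℝ) else w u - w' u) := by
    intro u hu
    by_cases huv : u = v
    · rw [if_pos huv]
    · rw [if_neg huv]
      have h2 : w' u = 0 := hwt' u fun h3 => hu (Finset.mem_erase.2 ⟨huv, h3⟩)
      have h3 := hw0 u
      linarith
  have h3 : ∑ u, (if u = v then (0 : ℝ) else w u - w' u) • (p u - p v) = 0 := by
    have e1 : ∀ u, (if u = v then (0 : ℝ) else w u - w' u) • (p u - p v) =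
        w u • p u - w' u • p u - (w u - w' u) • p v := by
      intro u
      by_cases huv : u = v
      · rw [if_pos huv, huv]
        module
      · rw [if_neg huv]
        module
    rw [Finset.sum_congr rfl fun u _ => e1 u, Finset.sum_sub_distrib, Finset.sum_sub_distrib,
      ← Finset.sum_smul, Finset.sum_sub_distrib, hw1, hw1']
    have e2 : ∑ u, w u • p u = ∑ u, w' u • p u := he
    rw [e2]
    simp
  have h4 := key h1 h2 h3
  have h5 : ∀ u, u ≠ v → w u = w' u := by
    intro u hu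
    have := congrFun h4 u
    simp only [if_neg hu, Pi.zero_apply] at this
    linarith
  funext u
  by_cases hu : u = v
  · rw [hu]
    have e1 : w v = 1 - ∑ x ∈ Finset.univ.erase v, w x := by
      have := Finset.add_sum_erase Finset.univ w (Finset.mem_univ v)
      rw [hw1] at this
      linarith
    have e2 : w' v = 1 - ∑ x ∈ Finset.univ.erase v, w' x := by
      have := Finset.add_sum_erase Finset.univ w' (Finset.mem_univ v)
      rw [hw1'] at this
      linarith
    rw [e1, e2, Finset.sum_congr rfl fun x hx => h5 x (Finset.ne_of_mem_erase hx)]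
  · exact h5 u hu

/-- a nonzero vector in a plane -/
theorem exists_perp (a : E3) : ∃ w : E3, w ≠ 0 ∧ ⟪a, w⟫ = 0 := by
  by_cases h : a 0 = 0
  · refine ⟨!₂[1, 0, 0], fun hw => ?_, ?_⟩
    · have := congrArg (fun x : E3 => x 0) hw
      simp at this
    · rw [inner3]
      simp [h]
  · refine ⟨!₂[a 1, -(a 0), 0], fun hw => ?_, ?_⟩
    · have := congrArg (fun x : E3 => x 1) hw
      simp at this
      exact h this
    · rw [inner3]
      simp
      ring

theorem ev_add (φ : E3 × ℝ) (x w : E3) : ev φ (x + w) = ev φ x + ⟪φ.1, w⟫ := by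
  unfold ev
  rw [inner_add_right]
  ring

/-- a point with at most one active plane is not extreme -/
theorem notExt (Φ : Finset (E3 × ℝ)) (φ0 : E3 × ℝ) (x : E3)
    (h : ∀ ψ ∈ Φ, ψ ≠ φ0 → ev ψ x < 0) : x ∉ Set.extremePoints ℝ (TSM.hull Φ) := by
  intro hx
  obtain ⟨hx1, hx2⟩ := mem_extremePoints.1 hx
  obtain ⟨w, hw, hw0⟩ := exists_perp φ0.1
  have hev : ∀ᶠ s in 𝓝 (0 : ℝ), ∀ ψ ∈ Φ, ψ ≠ φ0 → ev ψ (x + s • w) < 0 := by
    rw [Filter.eventually_all_finset]
    intro ψ hψ
    by_cases hne : ψ = φ0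
    · exact Filter.Eventually.of_forall fun s h' => absurd hne h'
    · have hc : Continuous fun s : ℝ => ev ψ (x + s • w) := by
        unfold ev
        fun_prop
      have h1 := (hc.tendsto 0).eventually_lt_const (u := 0) (by simpa using h ψ hψ hne)
      exact h1.mono fun s hs _ => hs
  obtain ⟨δ, hδ, hδ2⟩ := Metric.eventually_nhds_iff.1 hev
  have hmem : ∀ s : ℝ, |s| < δ → x + s • w ∈ TSM.hull Φ := by
    intro s hs ψ hψ
    by_cases hne : ψ = φ0
    · rw [hne, ev_add, inner_smul_right, hw0, mul_zero, add_zero, ← hne]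
      exact hx1 ψ hψ
    · exact (hδ2 (by rwa [Real.dist_eq, sub_zero]) ψ hψ hne).le
  have h1 : |δ / 2| < δ := by
    rw [abs_of_pos (by linarith)]
    linarith
  have h2 : |-(δ / 2)| < δ := by
    rw [abs_neg]
    exact h1
  have h3 : x ∈ openSegment ℝ (x + (δ / 2) • w) (x + (-(δ / 2)) • w) := by
    refine ⟨1 / 2, 1 / 2, by norm_num, by norm_num, by norm_num, ?_⟩
    module
  have h4 := (hx2 _ (hmem _ h1) _ (hmem _ h2) h3).1
  have h5 : (δ / 2) • w = 0 := by
    have : x + (δ / 2) • w = x + 0 := by rw [h4, add_zero]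
    exact add_left_cancel this
  rcases smul_eq_zero.1 h5 with h6 | h6
  · linarith
  · exact hw h6

theorem det3_cont (o : E3) (a b c : V) :
    Continuous fun q : V → E3 => det3 o (q b - q a) (q c - q a) := by
  unfold det3
  fun_prop

theorem ev_cont (φ : E3 × ℝ) (v : V) : Continuous fun q : V → E3 => ev φ (q v) := by
  unfold ev
  fun_prop

theorem ev_norm_cont (p : V → E3) (u v : V) :
    Continuous fun q : V → E3 => ‖(q u - q v) - (p u - p v)‖ := by
  fun_prop

theorem main (h3 : Stmt_CIO) (h4 : Stmt_BOP) (h5 : Stmt_GEN) (h6 : Stmt_CRO) (h7 : Stmt_CRN)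
    (K : Surf V) (p : V → E3) (Φ : Finset (E3 × ℝ)) (hs : Semi K p Φ) (ε : ℝ) (hε : 0 < ε) :
    ∃ p' : V → E3, K.Framed p' Φ ∧ ∀ v, ‖p' v - p v‖ < ε := by
  classical
  have hn0 : ∀ φ ∈ Φ, φ.1 ≠ 0 := by
    intro φ hφ h0
    have := hs.hull.unit φ hφ
    rw [h0, norm_zero] at this
    exact zero_ne_one this
  set S : Finset V := Finset.univ.filter fun v => ¬ K.Outer p Φ v with hS
  have memS : ∀ v, v ∈ S ↔ ¬ K.Outer p Φ v := by
    intro v
    rw [hS, Finset.mem_filter]
    simp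
  set fa : V → Option (E3 × ℝ) := fun v => if h : ∃ φ ∈ Φ, ev φ (p v) = 0 then
    some h.choose else none with hfadef
  have hfa : ∀ v φ, fa v = some φ → φ ∈ Φ ∧ ev φ (p v) = 0 := by
    intro v φ hv
    by_cases h : ∃ φ ∈ Φ, ev φ (p v) = 0
    · have e : fa v = some h.choose := dif_pos h
      rw [e] at hv
      rw [← Option.some.inj hv]
      exact h.choose_spec
    · have e : fa v = none := dif_neg h
      rw [e] at hv
      exact absurd hv (by simp)
  have hone : ∀ v ∈ S, ∃ φ0 : E3 × ℝ, ∀ ψ ∈ Φ, ψ ≠ φ0 → ev ψ (p v) < 0 := by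
    intro v hv
    rcases hs.kinds v with h | h | h
    · exact absurd h ((memS v).1 hv)
    · exact ⟨(0, 0), fun ψ hψ _ => h.1 ψ hψ⟩
    · obtain ⟨φ, hφ, e, hlt, -⟩ := h
      exact ⟨φ, hlt⟩
  have hfa2 : ∀ v ∈ S, ∀ φ ∈ Φ, ev φ (p v) = 0 → fa v = some φ := by
    intro v hv φ hφ he
    obtain ⟨φ0, h0⟩ := hone v hv
    have e1 : ∀ ψ ∈ Φ, ev ψ (p v) = 0 → ψ = φ0 := by
      intro ψ hψ he'
      by_contra hne
      have := h0 ψ hψ hne
      linarith
    have h : ∃ φ ∈ Φ, ev φ (p v) = 0 := ⟨φ, hφ, he⟩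
    have e : fa v = some h.choose := dif_pos h
    rw [e, e1 φ hφ he, e1 _ h.choose_spec.1 h.choose_spec.2]
  -- open conditions
  have E1 : ∀ᶠ q in 𝓝 p, Emb K.tri q := by
    refine Filter.eventually_all.2 fun v => ?_
    obtain ⟨δ, hδ, hc⟩ := h3 V (arcs K.tri v) (fun u => p u - p v) (hs.emb v)
    have : ∀ᶠ q in 𝓝 p, ∀ u, ‖(q u - q v) - (p u - p v)‖ < δ := by
      refine Filter.eventually_all.2 fun u => ?_
      exact ((ev_norm_cont p u v).tendsto p).eventually_lt_const (by simpa using hδ)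
    exact this.mono fun q hq => hc (fun u => q u - q v) fun σ _ u _ => hq u
  have E2 : ∀ᶠ q in 𝓝 p, ∀ φ ∈ Φ, ∃ a b c : V, ev φ (p a) = 0 ∧ ev φ (p b) = 0 ∧
      ev φ (p c) = 0 ∧ AffineIndependent ℝ ![q a, q b, q c] := by
    rw [Filter.eventually_all_finset]
    intro φ hφ
    obtain ⟨a, b, c, ea, eb, ec, hi⟩ := hs.hull.facet φ hφ
    rw [indep2_iff_affine] at hi
    obtain ⟨o, ho⟩ := exists_det3 hi
    have : ∀ᶠ q in 𝓝 p, det3 o (q b - q a) (q c - q a) ≠ 0 :=
      ((det3_cont o a b c).tendsto p).eventually_ne ho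
    refine this.mono fun q hq => ⟨a, b, c, ea, eb, ec, ?_⟩
    rw [indep2_iff_affine]
    exact indep2_of_det3 o _ _ hq
  have E3' : ∀ᶠ q in 𝓝 p, ∀ v, ∀ φ ∈ Φ, ev φ (p v) < 0 → ev φ (q v) < 0 := by
    refine Filter.eventually_all.2 fun v => ?_
    rw [Filter.eventually_all_finset]
    intro φ hφ
    by_cases h : ev φ (p v) < 0
    · exact (((ev_cont φ v).tendsto p).eventually_lt_const h).mono fun q hq _ => hq
    · exact Filter.Eventually.of_forall fun q h' => absurd h' h
  have E4 : ∀ᶠ q in 𝓝 p, ∀ v, Bal K p v → Bal K q v := by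
    refine Filter.eventually_all.2 fun v => ?_
    by_cases h : Bal K p v
    · obtain ⟨δ, hδ, hc⟩ := h4 V K p v h
      have : ∀ᶠ q in 𝓝 p, ∀ u, ‖q u - p u‖ < δ := by
        refine Filter.eventually_all.2 fun u => ?_
        have hc' : Continuous fun q : V → E3 => ‖q u - p u‖ := by fun_prop
        exact (hc'.tendsto p).eventually_lt_const (by simpa using hδ)
      exact this.mono fun q hq _ => hc q hq
    · exact Filter.Eventually.of_forall fun q h' => absurd h' h
  have E5 : ∀ᶠ q in 𝓝 p, ∀ v, Crn K p Φ v →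
      (∀ y, ∀ φ ∈ Φ, ev φ (p y) = 0 → ev φ (q y) = 0) → Crn K q Φ v := by
    refine Filter.eventually_all.2 fun v => ?_
    by_cases h : Crn K p Φ v
    · obtain ⟨δ, hδ, hc⟩ := h6 V K p Φ v hn0 h
      have : ∀ᶠ q in 𝓝 p, ∀ u, ‖q u - p u‖ < δ := by
        refine Filter.eventually_all.2 fun u => ?_
        have hc' : Continuous fun q : V → E3 => ‖q u - p u‖ := by fun_prop
        exact (hc'.tendsto p).eventually_lt_const (by simpa using hδ)
      exact this.mono fun q hq _ hP => hc q hq hP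
    · exact Filter.Eventually.of_forall fun q h' => absurd h' h
  obtain ⟨δ, hδ, hall⟩ := Metric.eventually_nhds_iff.1
    (E1.and (E2.and (E3'.and (E4.and E5))))
  -- the generic perturbation
  obtain ⟨q, hq1, hq2, hq3, hq4, hq5⟩ := h5 V p S fa
    (fun v _ φ hφ => ⟨hn0 φ (hfa v φ hφ).1, (hfa v φ hφ).2⟩)
    (fun v hv w _ ψ hψ hne h0 => hne (hfa2 v hv ψ (hfa w ψ hψ).1 h0))
    (min ε δ) (lt_min hε hδ)
  have hdist : dist q p < δ := by
    rw [dist_pi_lt_iff hδ]
    intro v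
    rw [dist_eq_norm]
    exact (hq2 v).trans_le (min_le_right _ _)
  obtain ⟨F1, F2, F3, F4, F5⟩ := hall hdist
  have hP : ∀ y, ∀ φ ∈ Φ, ev φ (p y) = 0 → ev φ (q y) = 0 := by
    intro y φ hφ he
    by_cases hy : y ∈ S
    · exact hq3 y hy φ (hfa2 y hy φ hφ he)
    · rw [hq1 y hy]
      exact he
  have hmem : ∀ v, p v ∈ TSM.hull Φ := hs.hull.mem
  have hiff : ∀ y, ∀ φ ∈ Φ, ev φ (q y) = 0 → ev φ (p y) = 0 := by
    intro y φ hφ he
    rcases lt_or_eq_of_le (hmem y φ hφ) with h | h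
    · have := F3 y φ hφ h
      linarith
    · exact h
  have hout : ∀ v, K.Outer p Φ v → K.Outer q Φ v := by
    intro v hv t ht hvt
    obtain ⟨φ, hφ, h⟩ := hv t ht hvt
    exact ⟨φ, hφ, fun w hw => hP w φ hφ (h w hw)⟩
  have hnS : ∀ v, ¬ K.Outer q Φ v → v ∈ S := by
    intro v hv
    rw [memS]
    exact fun h => hv (hout v h)
  have hextS : ∀ v ∈ S, q v ∉ Set.extremePoints ℝ (TSM.hull Φ) := by
    intro v hv
    obtain ⟨φ0, h0⟩ := hone v hv
    exact notExt Φ φ0 (q v) fun ψ hψ hne => F3 v ψ hψ (h0 ψ hψ hne)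
  have hextS' : ∀ v ∈ S, p v ∉ Set.extremePoints ℝ (TSM.hull Φ) := by
    intro v hv
    obtain ⟨φ0, h0⟩ := hone v hv
    exact notExt Φ φ0 (p v) h0
  refine ⟨q, ?_, fun v => (hq2 v).trans_le (min_le_left _ _)⟩
  refine ⟨embStars K q F1, hs.hull.unit, hs.hull.normals, hs.hull.bdd, hs.hull.int, ?_, ?_, ?_,
    ?_, ?_, ?_⟩
  · intro φ hφ
    obtain ⟨a, b, c, ea, eb, ec, hi⟩ := F2 φ hφ
    exact ⟨a, b, c, hP a φ hφ ea, hP b φ hφ eb, hP c φ hφ ec, hi⟩
  · intro v φ hφ
    rcases lt_or_eq_of_le (hmem v φ hφ) with h | h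
    · exact (F3 v φ hφ h).le
    · exact (hP v φ hφ h).le
  · intro e he
    obtain ⟨v, hv, huniq⟩ := hs.ext e he
    have hvS : v ∉ S := by
      intro h
      have := hextS' v h
      rw [hv] at this
      exact this he
    refine ⟨v, ?_, ?_⟩
    · show q v = e
      rw [hq1 v hvS]
      exact hv
    · intro w hw
      have hwS : w ∉ S := by
        intro h
        have := hextS w h
        rw [hw] at this
        exact this he
      rw [hq1 w hwS] at hw
      exact huniq w hw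
  · intro v
    rcases hs.kinds v with h | h | h
    · exact Or.inl (hout v h)
    · refine Or.inr (Or.inl ⟨fun φ hφ => F3 v φ hφ (h.1 φ hφ), F4 v h.2, ?_⟩)
      intro a b c ha hb hc hab hac hbc
      have hvS : v ∈ S := by
        rw [memS]
        intro ho
        obtain ⟨-, t, ht, hvt, -⟩ := ha
        obtain ⟨φ, hφ, h'⟩ := ho t ht hvt
        have h1 := h.1 φ hφ
        have h2 := h' v hvt
        linarith
      have hN : ∀ a, K.Adj v a → a ∈ S := by
        intro a ha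
        rw [memS]
        intro ho
        obtain ⟨-, t, ht, hvt, hat⟩ := ha
        obtain ⟨φ, hφ, h'⟩ := ho t ht hat
        have h1 := h.1 φ hφ
        have h2 := h' v hvt
        linarith
      rw [← det3_iff_affine]
      refine hq5 v hvS a (hN a ha) b (hN b hb) c (hN c hc) ha.1 hb.1 hc.1 hab hac hbc ?_
      rintro ⟨φ, hφ, -⟩
      have h1 := hfa v φ hφ
      have h2 := h.1 φ h1.1
      linarith [h1.2]
    · exact Or.inr (Or.inr (h7 V K q Φ v hn0 F1 (F5 v h hP)))
  · intro a b c ha hb hc hab hac hbc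
    exact hq4 a (hnS a ha) b (hnS b hb) c (hnS c hc) hab hac hbc
  · intro a b c d ha hb hc hd hab hac had hbc hbd hcd hno
    refine hq5 a (hnS a ha) b (hnS b hb) c (hnS c hc) d (hnS d hd) hab hac had hbc hbd hcd ?_
    rintro ⟨φ, e1, e2, e3, e4⟩
    have h1 := hfa a φ e1
    exact hno ⟨φ, h1.1, hP a φ h1.1 h1.2, hP b φ h1.1 (hfa b φ e2).2,
      hP c φ h1.1 (hfa c φ e3).2, hP d φ h1.1 (hfa d φ e4).2⟩

end

end P6M_

theorem P6M_proof (_h1 : Stmt_LKA) (_h2 : Stmt_EMC) (h3 : Stmt_CIO) (h4 : Stmt_BOP)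
    (h5 : Stmt_GEN) (h6 : Stmt_CRO) (h7 : Stmt_CRN) : Stmt_P6M := by
  intro V _ _ K p Φ hs ε hε
  exact P6M_.main h3 h4 h5 h6 h7 K p Φ hs ε hε

end Pool.Agent.TSQ
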