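import Pool.Agent.TSQ.Stmts

/-!
# PCK: the pocket lemma
-/

set_option autoImplicit false

open scoped RealInnerProductSpace

namespace Pool.Agent.TSQ

open Pool.Agent.TSM Pool.Agent.TSP

theorem PCK_proof (h1 : Stmt_LKA) (h2 : Stmt_OCH) (h3 : Stmt_PKC) (h4 : Stmt_PKB)
    (h5 : Stmt_PKF) (h6 : Stmt_PKL) : Stmt_PCK := by
  intro V _ _ K p Φ hP z x y mid rest hpath hmid hxy
  obtain ⟨φ, hφ, ez, ex, ey⟩ := h4 V K p Φ hP z x y mid rest hpath hxy
  obtain ⟨o, ho1, ho2⟩ := h2 V p Φ hP.hull z x y hxy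
  obtain ⟨b0, hb0, -, -⟩ := h3 V K p Φ hP z x y mid rest hpath o ho1 ho2
  refine ⟨φ, ⟨hφ, ez, ex, ey, ?_, List.ne_nil_of_mem hb0, ?_, ?_, ?_⟩⟩
  · intro u hu
    rcases (hP.hull.mem u φ hφ).lt_or_eq with h | h
    · exact h
    · exact absurd ⟨φ, hφ, ez, h⟩ (hpath.2.2.2 u hu)
  · exact h5 V K p Φ hP z x y mid rest hpath hmid hxy φ hφ ez ex ey
  · exact h6 V K p Φ hP z x y mid rest hpath hmid hxy φ hφ ez ex ey
  · have hpath' : Path K p Φ z y x mid.reverse rest.reverse := by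
      obtain ⟨hl, tx, ty, hm⟩ := hpath
      refine ⟨?_, ty, tx, fun u hu => hm u (List.mem_reverse.1 hu)⟩
      have h7 := (h1 V K.tri z).2.1 _ hl
      have h8 : (x :: (mid ++ y :: rest)).reverse =
          rest.reverse ++ (y :: (mid.reverse ++ [x])) := by simp
      rw [h8] at h7
      have h9 := (h1 V K.tri z).1 _ _ h7
      have h10 : (y :: (mid.reverse ++ [x])) ++ rest.reverse =
          y :: (mid.reverse ++ x :: rest.reverse) := by simp
      rw [h10] at h9
      exact h9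
    intro m1 b hm1 hb
    exact h6 V K p Φ hP z y x mid.reverse rest.reverse hpath' (by simpa using hmid) hxy.symm
      φ hφ ez ey ex m1 b (by rw [List.head?_reverse, hm1]) (by rw [List.getLast?_reverse, hb])

end Pool.Agent.TSQ
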