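import Pool.Agent.TSQ.Stmts

/-!
# TSQ, module PKA: there is no boundary neighbour inside the open small sector
-/

set_option autoImplicit false

open scoped RealInnerProductSpace

namespace Pool.Agent.TSQ

open Pool.Agent.TSM Pool.Agent.TSP

namespace PKA_

section lists
variable {α β : Type}

theorem conseq_iff (l : List α) (q : α × α) :
    q ∈ conseq l ↔ ∃ l1 l2, l = l1 ++ q.1 :: q.2 :: l2 := by
  induction l with
  | nil =>
    constructor
    · intro h
      simp [conseq] at h
    · rintro ⟨l1, l2, h⟩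
      have := congrArg List.length h
      simp at this
  | cons a l ih =>
    cases l with
    | nil =>
      constructor
      · intro h
        simp [conseq] at h
      · rintro ⟨l1, l2, h⟩
        have := congrArg List.length h
        simp only [List.length_append, List.length_cons, List.length_nil] at this
        omega
    | cons b l =>
      rw [conseq, List.mem_cons, ih]
      constructor
      · rintro (h | ⟨l1, l2, h⟩)
        · exact ⟨[], l, by rw [h]; rfl⟩
        · exact ⟨a :: l1, l2, by rw [h]; rfl⟩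
      · rintro ⟨l1, l2, h⟩
        cases l1 with
        | nil =>
          left
          simp only [List.nil_append, List.cons.injEq] at h
          exact Prod.ext h.1.symm h.2.1.symm
        | cons c l1 =>
          right
          simp only [List.cons_append, List.cons.injEq] at h
          exact ⟨l1, l2, h.2⟩

theorem conseq_infix {l l' : List α} (s t : List α) (h : l' = s ++ l ++ t) {q : α × α}
    (hq : q ∈ conseq l) : q ∈ conseq l' := by
  rw [conseq_iff] at hq ⊢
  obtain ⟨l1, l2, rfl⟩ := hq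
  exact ⟨s ++ l1, l2 ++ t, by rw [h]; simp⟩

theorem conseq_reverse {l : List α} {q : α × α} (hq : q ∈ conseq l.reverse) :
    (q.2, q.1) ∈ conseq l := by
  rw [conseq_iff] at hq ⊢
  obtain ⟨l1, l2, h⟩ := hq
  refine ⟨l2.reverse, l1.reverse, ?_⟩
  have := congrArg List.reverse h
  rw [List.reverse_reverse] at this
  rw [this]
  simp

theorem conseq_map (f : α → β) (l : List α) :
    conseq (l.map f) = (conseq l).map (Prod.map f f) := by
  induction l with
  | nil => rfl
  | cons a l ih =>
    cases l with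
    | nil => rfl
    | cons b l =>
      rw [List.map_cons, List.map_cons, conseq, conseq, List.map_cons, ← ih, List.map_cons]
      rfl

theorem sub_list {l : List α} {b d : α} (hb : b ∈ l) (hd : d ∈ l) (hne : b ≠ d) :
    ∃ L : List α, L.head? = some b ∧ L.getLast? = some d ∧ (∀ u ∈ L, u ∈ l) ∧
      ∀ q ∈ conseq L, q ∈ conseq l ∨ (q.2, q.1) ∈ conseq l := by
  obtain ⟨s, t, rfl⟩ := List.append_of_mem hb
  rw [List.mem_append, List.mem_cons] at hd
  rcases hd with hd | hd | hd
  · obtain ⟨s1, s2, rfl⟩ := List.append_of_mem hd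
    refine ⟨(d :: (s2 ++ [b])).reverse, ?_, ?_, ?_, ?_⟩
    · simp
    · rw [List.getLast?_reverse]
      rfl
    · intro u hu
      rw [List.mem_reverse] at hu
      simp only [List.mem_cons, List.mem_append, List.not_mem_nil, or_false] at hu ⊢
      tauto
    · intro q hq
      right
      exact conseq_infix s1 t (by simp) (conseq_reverse hq)
  · exact absurd hd.symm hne
  · obtain ⟨t1, t2, rfl⟩ := List.append_of_mem hd
    refine ⟨b :: (t1 ++ [d]), ?_, ?_, ?_, ?_⟩
    · simp
    · rw [← List.cons_append, List.getLast?_append]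
      simp
    · intro u hu
      simp only [List.mem_cons, List.mem_append, List.not_mem_nil, or_false] at hu ⊢
      tauto
    · intro q hq
      left
      exact conseq_infix s t2 (by simp) hq

end lists

end PKA_

open PKA_ in
theorem PKA_proof (hLKA : Stmt_LKA) (hPKC : Stmt_PKC) (hXLS : Stmt_XLS) (hEMC : Stmt_EMC) :
    Stmt_PKA := by
  intro V _ _ K p Φ hPre z x y mid rest hPath o ho hdet b hb hTEb l m k hl hm heq
  classical
  obtain ⟨d, hd, hTEd, hdn⟩ := hPKC V K p Φ hPre z x y mid rest hPath o ho hdet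
  have hbd : b ≠ d := by
    rintro rfl
    exact hdn l m k hl.le hm.le heq
  obtain ⟨hLink, hTEx, hTEy, -⟩ := hPath
  -- the list of the link
  set L := x :: (mid ++ y :: rest) with hLdef
  obtain ⟨-, hnd, hzL, htri⟩ := id hLink
  have hcyc : ∀ q ∈ conseq (L ++ [x]), q ∈ cyc L := fun q hq => hq
  have memL : ∀ q ∈ conseq (x :: (mid ++ [y])), q ∈ cyc L := by
    intro q hq
    refine hcyc q (conseq_infix [] (rest ++ [x]) ?_ hq)
    simp [hLdef]
  have memR : ∀ q ∈ conseq rest, q ∈ cyc L := by
    intro q hq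
    refine hcyc q (conseq_infix (x :: (mid ++ [y])) [x] ?_ hq)
    simp [hLdef]
  have harc : ∀ q ∈ cyc L, ({q.1, q.2} : Finset V) ∈ arcs K.tri z := fun q hq =>
    ((hLKA V K.tri z).2.2.2.1 L _ hLink).2 ⟨q.1, q.2, hq, rfl⟩
  -- members of consecutive pairs
  have hmem : ∀ (l' : List V) (q : V × V), q ∈ conseq l' → q.1 ∈ l' ∧ q.2 ∈ l' := by
    intro l' q hq
    rw [conseq_iff] at hq
    obtain ⟨l1, l2, rfl⟩ := hq
    simp
  have hneq : ∀ (l' : List V) (q : V × V), l'.Nodup → q ∈ conseq l' → q.1 ≠ q.2 := by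
    intro l' q hn hq h
    rw [conseq_iff] at hq
    obtain ⟨l1, l2, rfl⟩ := hq
    rw [List.nodup_append] at hn
    have := hn.2.1
    rw [List.nodup_cons] at this
    exact this.1 (by rw [h]; simp)
  have hndL : (x :: (mid ++ [y])).Nodup := by
    refine List.Nodup.sublist ?_ hnd
    rw [hLdef]
    refine List.Sublist.cons_cons x ?_
    refine List.Sublist.append_left ?_ mid
    simp
  have hndR : rest.Nodup := by
    refine List.Nodup.sublist ?_ hnd
    rw [hLdef]
    refine List.Sublist.cons x ?_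
    refine List.Sublist.trans ?_ (List.sublist_append_right mid (y :: rest))
    exact List.sublist_cons_self y rest
  have hdisj : ∀ u ∈ x :: (mid ++ [y]), u ∉ rest := by
    intro u hu hr
    have e : L = (x :: (mid ++ [y])) ++ rest := by simp [hLdef]
    rw [e, List.nodup_append] at hnd
    exact hnd.2.2 u hu u hr rfl
  have hin : ∀ u ∈ x :: (mid ++ [y]), u ∈ L := by
    intro u hu
    have e : L = (x :: (mid ++ [y])) ++ rest := by simp [hLdef]
    rw [e]
    exact List.mem_append_left _ hu
  have hinR : ∀ u ∈ rest, u ∈ L := by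
    intro u hu
    have e : L = (x :: (mid ++ [y])) ++ rest := by simp [hLdef]
    rw [e]
    exact List.mem_append_right _ hu
  have hInd : ∀ q ∈ cyc L, q.1 ∈ L → q.2 ∈ L → q.1 ≠ q.2 →
      Indep2 (p q.1 - p z) (p q.2 - p z) := by
    intro q hq h1 h2 h3
    refine (hEMC V K p hPre.emb).2.1 z q.1 q.2 ?_ ?_ h3 ?_
    · rintro rfl
      exact hzL h1
    · intro h
      rw [← h] at h2
      exact hzL h2
    · exact ((htri {z, q.1, q.2}).2 ⟨q.1, q.2, hq, rfl⟩).1
  obtain ⟨B, hB1, hB2, hB3, hB4⟩ := sub_list hb hd hbd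
  set f : V → E3 := fun u => p u - p z with hf
  set N : Finset E3 := (Φ.filter fun φ => ev φ (p z) = 0).image Prod.fst with hN
  have hNmem : ∀ n ∈ N, ∃ φ ∈ Φ, ev φ (p z) = 0 ∧ n = φ.1 := by
    intro n hn
    rw [hN, Finset.mem_image] at hn
    obtain ⟨φ, hφ, rfl⟩ := hn
    rw [Finset.mem_filter] at hφ
    exact ⟨φ, hφ.1, hφ.2, rfl⟩
  have hinner : ∀ (φ : E3 × ℝ) (u : V), ev φ (p z) = 0 → ⟪φ.1, f u⟫ = ev φ (p u) := by
    intro φ u h
    simp only [hf, inner_sub_right]
    unfold ev at h ⊢
    linarith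
  have hTEn : ∀ u, TE Φ p z u → ∃ n ∈ N, ⟪n, f u⟫ = 0 := by
    rintro u ⟨φ, hφ, h1, h2⟩
    refine ⟨φ.1, ?_, ?_⟩
    · rw [hN, Finset.mem_image]
      exact ⟨φ, Finset.mem_filter.2 ⟨hφ, h1⟩, rfl⟩
    · rw [hinner φ u h1, h2]
  have hle : ∀ u, ∀ n ∈ N, ⟪n, f u⟫ ≤ 0 := by
    intro u n hn
    obtain ⟨φ, hφ, h1, rfl⟩ := hNmem n hn
    rw [hinner φ u h1]
    exact hPre.hull.mem u φ hφ
  have hNne : N.Nonempty := by
    obtain ⟨n, hn, -⟩ := hTEn x hTEx
    exact ⟨n, hn⟩
  have key := hXLS N o (f x) (f y) (f b) (f d) ((x :: (mid ++ [y])).map f) (B.map f) hNne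
    (fun n hn => by
      obtain ⟨φ, hφ, h1, rfl⟩ := hNmem n hn
      exact ho φ hφ h1)
    hdet (by simp) (by
      rw [List.getLast?_map, ← List.cons_append, List.getLast?_append]
      simp)
    (by rw [List.head?_map, hB1]; rfl) (by rw [List.getLast?_map, hB2]; rfl)
    (fun v hv => by
      rw [List.mem_map] at hv
      obtain ⟨u, -, rfl⟩ := hv
      exact hle u)
    (fun v hv => by
      rw [List.mem_map] at hv
      obtain ⟨u, -, rfl⟩ := hv
      exact hle u)
    (hTEn x hTEx) (hTEn y hTEy) (hTEn b hTEb) (hTEn d hTEd)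
    (fun q hq s t _ _ h => by
      rw [conseq_map, List.mem_map] at hq
      obtain ⟨q', hq', rfl⟩ := hq
      have hm' := hmem _ q' hq'
      exact hInd q' (memL q' hq') (hin _ hm'.1) (hin _ hm'.2) (hneq _ q' hndL hq') s t h)
    (fun q hq s t _ _ h => by
      rw [conseq_map, List.mem_map] at hq
      obtain ⟨q', hq', rfl⟩ := hq
      rcases hB4 q' hq' with h' | h'
      · have hm' := hmem _ q' h'
        exact hInd q' (memR q' h') (hinR _ hm'.1) (hinR _ hm'.2) (hneq _ q' hndR h') s t h
      · have hm' := hmem _ _ h'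
        have := hInd (q'.2, q'.1) (memR _ h') (hinR _ hm'.1) (hinR _ hm'.2)
          (hneq _ _ hndR h') t s (by
            rw [add_comm]
            exact h)
        exact ⟨this.2, this.1⟩)
    ⟨l, m, k, hl, hm, heq⟩ hdn
  obtain ⟨q, hq, r, hr, s, t, s', t', hs, ht, hs', ht', he, hne0⟩ := key
  rw [conseq_map, List.mem_map] at hq hr
  obtain ⟨⟨q1, q2⟩, hq, rfl⟩ := hq
  obtain ⟨⟨r1, r2⟩, hr, rfl⟩ := hr
  simp only [Prod.map_apply] at he hne0
  have hqm := hmem _ _ hq
  have hσ : ({q1, q2} : Finset V) ∈ arcs K.tri z := harc _ (memL _ hq)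
  have hτ : ({r1, r2} : Finset V) ∈ arcs K.tri z := by
    rcases hB4 _ hr with h' | h'
    · exact harc _ (memR _ h')
    · have := harc _ (memR _ h')
      simp only at this
      rw [Finset.pair_comm]
      exact this
  have hrm : r1 ∈ rest ∧ r2 ∈ rest := by
    have := hmem _ _ hr
    exact ⟨hB3 _ this.1, hB3 _ this.2⟩
  have hq1 : q1 ∉ rest := hdisj _ hqm.1
  have hq2 : q2 ∉ rest := hdisj _ hqm.2
  have h11 : q1 ≠ r1 := fun h => hq1 (h ▸ hrm.1)
  have h12 : q1 ≠ r2 := fun h => hq1 (h ▸ hrm.2)
  have h21 : q2 ≠ r1 := fun h => hq2 (h ▸ hrm.1)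
  have h22 : q2 ≠ r2 := fun h => hq2 (h ▸ hrm.2)
  have hq12 : q1 ≠ q2 := hneq _ _ hndL hq
  have hsum : ∀ (a : V) (c : ℝ), ∑ u, (if u = a then c else 0) • f u = c • f a := by
    intro a c
    rw [Finset.sum_eq_single a]
    · simp
    · intro u _ hu
      simp [hu]
    · intro h
      exact absurd (Finset.mem_univ a) h
  have hζ := hPre.emb z _ hσ _ hτ (fun u => (if u = q1 then s else 0) + (if u = q2 then t else 0) -
    (if u = r1 then s' else 0) - (if u = r2 then t' else 0)) ?_ ?_ ?_
  · have e1 := congrFun hζ q1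
    have e2 := congrFun hζ q2
    simp only [if_pos rfl, if_neg hq12, if_neg hq12.symm, if_neg h11, if_neg h12, if_neg h21,
      if_neg h22, Pi.zero_apply, if_true] at e1 e2
    apply hne0
    have s0 : s = 0 := by linarith
    have t0 : t = 0 := by linarith
    rw [s0, t0]
    simp
  · intro u hu
    simp only [Finset.mem_insert, Finset.mem_singleton, not_or] at hu
    simp only [if_neg hu.1, if_neg hu.2]
    split_ifs <;> linarith
  · intro u hu
    simp only [Finset.mem_insert, Finset.mem_singleton, not_or] at hu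
    simp only [if_neg hu.1, if_neg hu.2]
    split_ifs <;> linarith
  · have e3 : ∀ u, ((if u = q1 then s else 0) + (if u = q2 then t else 0) -
      (if u = r1 then s' else 0) - (if u = r2 then t' else 0)) • (p u - p z) =
      (if u = q1 then s else 0) • f u + (if u = q2 then t else 0) • f u -
      (if u = r1 then s' else 0) • f u - (if u = r2 then t' else 0) • f u := by
      intro u
      rw [sub_smul, sub_smul, add_smul]
    rw [Finset.sum_congr rfl fun u _ => e3 u, Finset.sum_sub_distrib, Finset.sum_sub_distrib,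
      Finset.sum_add_distrib, hsum, hsum, hsum, hsum, he]
    abel

end Pool.Agent.TSQ
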