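import Pool.Agent.TSQ.Stmts

/-!
# TSQ.PKB: the ends of an inner path lie in a common facet
-/

set_option autoImplicit false

open scoped RealInnerProductSpace

namespace Pool.Agent.TSQ

open Pool.Agent.TSM Pool.Agent.TSP

namespace PKB_

/-- crossing of two upper envelopes -/
lemma cross {ι : Type} (A B : Finset ι) (hA : A.Nonempty) (hB : B.Nonempty) (a b : ι → ℝ)
    (h1 : ∀ i ∈ A, a i = 0) (h2 : ∀ i ∈ A, b i < 0) (h3 : ∀ j ∈ B, a j < 0)
    (h4 : ∃ j ∈ B, b j = 0) :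
    ∃ τ k : ℝ, 0 < τ ∧ τ < 1 ∧ (∃ i ∈ A, (1 - τ) * a i + τ * b i = k) ∧
      (∃ j ∈ B, (1 - τ) * a j + τ * b j = k) ∧ (∀ i ∈ A, (1 - τ) * a i + τ * b i ≤ k) ∧
      ∀ j ∈ B, (1 - τ) * a j + τ * b j ≤ k := by
  set FA : ℝ → ℝ := fun τ => A.sup' hA (fun i => (1 - τ) * a i + τ * b i) with hFA
  set FB : ℝ → ℝ := fun τ => B.sup' hB (fun i => (1 - τ) * a i + τ * b i) with hFB
  have hc : ∀ i : ι, Continuous (fun τ : ℝ => (1 - τ) * a i + τ * b i) := fun i => by fun_prop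
  have cA : Continuous FA := Continuous.finset_sup'_apply hA (fun i _ => hc i)
  have cB : Continuous FB := Continuous.finset_sup'_apply hB (fun i _ => hc i)
  have e0 : 0 < FA 0 - FB 0 := by
    have g1 : 0 ≤ FA 0 := by
      obtain ⟨i, hi⟩ := hA
      have h5 : (1 - (0 : ℝ)) * a i + 0 * b i ≤ FA 0 :=
        Finset.le_sup' (fun i => (1 - (0 : ℝ)) * a i + 0 * b i) hi
      rw [h1 i hi] at h5
      linarith
    have g2 : FB 0 < 0 := by
      rw [hFB]
      simp only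
      rw [Finset.sup'_lt_iff]
      intro j hj
      have := h3 j hj
      linarith
    linarith
  have e1 : FA 1 - FB 1 < 0 := by
    have g1 : FA 1 < 0 := by
      rw [hFA]
      simp only
      rw [Finset.sup'_lt_iff]
      intro i hi
      have := h2 i hi
      linarith
    have g2 : 0 ≤ FB 1 := by
      obtain ⟨j, hj, hj0⟩ := h4
      have h5 : (1 - (1 : ℝ)) * a j + 1 * b j ≤ FB 1 :=
        Finset.le_sup' (fun i => (1 - (1 : ℝ)) * a i + 1 * b i) hj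
      rw [hj0] at h5
      linarith
    linarith
  have hcont : ContinuousOn (fun τ => FA τ - FB τ) (Set.Icc 0 1) := (cA.sub cB).continuousOn
  obtain ⟨τ, hτ, hτ0⟩ := intermediate_value_Icc' (zero_le_one) hcont
    (show (0 : ℝ) ∈ Set.Icc (FA 1 - FB 1) (FA 0 - FB 0) from ⟨e1.le, e0.le⟩)
  simp only at hτ0
  have n0 : τ ≠ 0 := by
    rintro rfl
    linarith
  have n1 : τ ≠ 1 := by
    rintro rfl
    linarith
  obtain ⟨i, hi, hi2⟩ := Finset.exists_mem_eq_sup' hA (fun i => (1 - τ) * a i + τ * b i)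
  obtain ⟨j, hj, hj2⟩ := Finset.exists_mem_eq_sup' hB (fun i => (1 - τ) * a i + τ * b i)
  refine ⟨τ, FA τ, lt_of_le_of_ne hτ.1 (Ne.symm n0), lt_of_le_of_ne hτ.2 n1, ⟨i, hi, hi2.symm⟩,
    ⟨j, hj, ?_⟩, ?_, ?_⟩
  · have : FA τ = FB τ := by linarith
    rw [this]
    exact hj2.symm
  · intro l hl
    exact Finset.le_sup' (fun i => (1 - τ) * a i + τ * b i) hl
  · intro l hl
    have : FA τ = FB τ := by linarith
    rw [this]
    exact Finset.le_sup' (fun i => (1 - τ) * a i + τ * b i) hl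

lemma ev_sub (φ : E3 × ℝ) (a b : E3) : ⟪φ.1, a - b⟫ = ev φ a - ev φ b := by
  rw [ev, ev, inner_sub_right]
  ring

/-- different unit vectors which are both negative on `o` are independent -/
lemma indep_units {n n' o : E3} (hn : ‖n‖ = 1) (hn' : ‖n'‖ = 1) (hne : n ≠ n')
    (h1 : ⟪n, o⟫ < 0) (h2 : ⟪n', o⟫ < 0) : Indep2 n n' := by
  intro s t hst
  have hnn : ⟪n, n⟫ = 1 := by rw [real_inner_self_eq_norm_sq, hn]; norm_num
  have hnn' : ⟪n', n'⟫ = 1 := by rw [real_inner_self_eq_norm_sq, hn']; norm_num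
  have a1 : s * ⟪n, o⟫ + t * ⟪n', o⟫ = 0 := by
    have : ⟪s • n + t • n', o⟫ = 0 := by rw [hst, inner_zero_left]
    rwa [inner_add_left, real_inner_smul_left, real_inner_smul_left] at this
  have a2 : s + t * ⟪n, n'⟫ = 0 := by
    have : ⟪n, s • n + t • n'⟫ = 0 := by rw [hst, inner_zero_right]
    rwa [inner_add_right, real_inner_smul_right, real_inner_smul_right, hnn, mul_one] at this
  have a3 : s * ⟪n, n'⟫ + t = 0 := by
    have : ⟪n', s • n + t • n'⟫ = 0 := by rw [hst, inner_zero_right]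
    rw [inner_add_right, real_inner_smul_right, real_inner_smul_right, hnn', mul_one,
      real_inner_comm] at this
    exact this
  have hs : s ^ 2 = t ^ 2 := by
    have : s * (s + t * ⟪n, n'⟫) - t * (s * ⟪n, n'⟫ + t) = 0 := by rw [a2, a3]; ring
    nlinarith [this]
  rcases sq_eq_sq_iff_eq_or_eq_neg.1 hs with h | h
  · -- s = t
    subst h
    have : s * (⟪n, o⟫ + ⟪n', o⟫) = 0 := by linarith
    rcases mul_eq_zero.1 this with h | h
    · exact ⟨h, h⟩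
    · linarith
  · -- s = -t
    subst h
    by_cases ht : t = 0
    · exact ⟨by rw [ht, neg_zero], ht⟩
    · exfalso
      apply hne
      have h5 : t • (n' - n) = 0 := by
        rw [smul_sub, ← hst]
        module
      rcases smul_eq_zero.1 h5 with h6 | h6
      · exact absurd h6 ht
      · exact (sub_eq_zero.1 h6).symm

lemma small (Φ : Finset (E3 × ℝ)) (z r : E3) (hz : ∀ φ ∈ Φ, ev φ z ≤ 0)
    (hr : ∀ φ ∈ Φ, ev φ z = 0 → ⟪φ.1, r⟫ ≤ 0) :
    ∃ ε : ℝ, 0 < ε ∧ z + ε • r ∈ Pool.Agent.TSM.hull Φ := by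
  have h : ∀ φ ∈ Φ, ∃ ε : ℝ, 0 < ε ∧ ∀ δ : ℝ, 0 < δ → δ ≤ ε → ev φ (z + δ • r) ≤ 0 := by
    intro φ hφ
    by_cases h0 : ev φ z = 0
    · refine ⟨1, one_pos, ?_⟩
      intro δ hδ _
      have : ev φ (z + δ • r) = ev φ z + δ * ⟪φ.1, r⟫ := by
        rw [ev, ev, inner_add_right, real_inner_smul_right]; ring
      rw [this, h0]
      have := hr φ hφ h0
      nlinarith
    · have h1 : ev φ z < 0 := lt_of_le_of_ne (hz φ hφ) h0
      refine ⟨-(ev φ z) / (|⟪φ.1, r⟫| + 1), by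
        apply div_pos (by linarith)
        positivity, ?_⟩
      intro δ hδ hδ2
      have h2 : ev φ (z + δ • r) = ev φ z + δ * ⟪φ.1, r⟫ := by
        rw [ev, ev, inner_add_right, real_inner_smul_right]; ring
      rw [h2]
      rw [le_div_iff₀ (by positivity)] at hδ2
      have h3 := le_abs_self ⟪φ.1, r⟫
      nlinarith
  choose! ε h1 h2 using h
  by_cases hΦ : Φ.Nonempty
  · refine ⟨Φ.inf' hΦ ε, ?_, ?_⟩
    · rw [Finset.lt_inf'_iff]
      exact h1
    · intro φ hφ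
      exact h2 φ hφ _ (by rw [Finset.lt_inf'_iff]; exact h1) (Finset.inf'_le _ hφ)
  · refine ⟨1, one_pos, ?_⟩
    intro φ hφ
    exact absurd ⟨φ, hφ⟩ hΦ

end PKB_

open PKB_

theorem PKB_proof (hLKA : Stmt_LKA) (hFCV : Stmt_FCV) (hOCH : Stmt_OCH) (hPKA : Stmt_PKA)
    (hEMC : Stmt_EMC) : Stmt_PKB := by
  intro V _ _ K p Φ hpre z x y mid rest hpath hI
  by_contra hcon
  push Not at hcon
  obtain ⟨o, ho, hdet⟩ := hOCH V p Φ hpre.hull z x y hI
  have hpath' := hpath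
  obtain ⟨hlink, ⟨φx, hφx, hxz, hxx⟩, ⟨φy, hφy, hyz, hyy⟩, hmid⟩ := hpath
  classical
  set dx := p x - p z with hdx
  set dy := p y - p z with hdy
  have hle : ∀ φ ∈ Φ, ∀ v, ev φ (p v) ≤ 0 := fun φ hφ v => hpre.hull.mem v φ hφ
  have hin : ∀ φ ∈ Φ, ev φ (p z) = 0 → ∀ v, ⟪φ.1, p v - p z⟫ = ev φ (p v) := by
    intro φ _ h0 v
    rw [ev_sub, h0, sub_zero]
  set A := Φ.filter (fun φ => ev φ (p z) = 0 ∧ ⟪φ.1, dx⟫ = 0) with hAdef
  set B := Φ.filter (fun φ => ev φ (p z) = 0 ∧ ⟪φ.1, dx⟫ < 0) with hBdef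
  set a : E3 × ℝ → ℝ := fun φ => ⟪φ.1, dx⟫ / (-⟪φ.1, o⟫) with ha
  set b : E3 × ℝ → ℝ := fun φ => ⟪φ.1, dy⟫ / (-⟪φ.1, o⟫) with hb
  have hyx : ⟪φy.1, dx⟫ < 0 := by
    rw [hin φy hφy hyz x]
    refine lt_of_le_of_ne (hle φy hφy x) ?_
    intro h
    exact hcon φy hφy hyz h hyy
  obtain ⟨τ, k, hτ0, hτ1, ⟨n, hn, hnk⟩, ⟨n', hn', hnk'⟩, hAk, hBk⟩ := cross A B
    ⟨φx, by rw [hAdef, Finset.mem_filter]; exact ⟨hφx, hxz, by rw [hin φx hφx hxz x]; exact hxx⟩⟩
    ⟨φy, by rw [hBdef, Finset.mem_filter]; exact ⟨hφy, hyz, hyx⟩⟩ a b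
    (by
      intro φ hφ
      rw [hAdef, Finset.mem_filter] at hφ
      simp only [ha, hφ.2.2, zero_div])
    (by
      intro φ hφ
      rw [hAdef, Finset.mem_filter] at hφ
      have h1 : ⟪φ.1, dy⟫ < 0 := by
        rw [hin φ hφ.1 hφ.2.1 y]
        refine lt_of_le_of_ne (hle φ hφ.1 y) ?_
        intro h
        refine hcon φ hφ.1 hφ.2.1 ?_ h
        rw [← hin φ hφ.1 hφ.2.1 x]
        exact hφ.2.2
      have h2 := ho φ hφ.1 hφ.2.1
      exact div_neg_of_neg_of_pos h1 (by linarith))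
    (by
      intro φ hφ
      rw [hBdef, Finset.mem_filter] at hφ
      have h2 := ho φ hφ.1 hφ.2.1
      exact div_neg_of_neg_of_pos hφ.2.2 (by linarith))
    ⟨φy, by rw [hBdef, Finset.mem_filter]; exact ⟨hφy, hyz, hyx⟩, by
      have : ⟪φy.1, dy⟫ = 0 := by rw [hin φy hφy hyz y]; exact hyy
      simp only [hb, this, zero_div]⟩
  rw [hAdef, Finset.mem_filter] at hn
  rw [hBdef, Finset.mem_filter] at hn'
  set r : E3 := (1 - τ) • dx + τ • dy + k • o with hr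
  have hform : ∀ φ : E3 × ℝ, ⟪φ.1, o⟫ < 0 →
      ⟪φ.1, r⟫ = (-⟪φ.1, o⟫) * (((1 - τ) * a φ + τ * b φ) - k) := by
    intro φ hφ
    have h0 : -⟪φ.1, o⟫ ≠ 0 := by linarith
    have h1 : (-⟪φ.1, o⟫) * a φ = ⟪φ.1, dx⟫ := by
      simp only [ha]; rw [mul_div_cancel₀ _ h0]
    have h2 : (-⟪φ.1, o⟫) * b φ = ⟪φ.1, dy⟫ := by
      simp only [hb]; rw [mul_div_cancel₀ _ h0]
    rw [hr, inner_add_right, inner_add_right, real_inner_smul_right, real_inner_smul_right,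
      real_inner_smul_right]
    linear_combination (-(1 - τ)) * h1 - τ * h2
  have hnr : ⟪n.1, r⟫ = 0 := by
    rw [hform n (ho n hn.1 hn.2.1), hnk, sub_self, mul_zero]
  have hnr' : ⟪n'.1, r⟫ = 0 := by
    rw [hform n' (ho n' hn'.1 hn'.2.1), hnk', sub_self, mul_zero]
  have hall : ∀ φ ∈ Φ, ev φ (p z) = 0 → ⟪φ.1, r⟫ ≤ 0 := by
    intro φ hφ h0
    have h1 := ho φ hφ h0
    rw [hform φ h1]
    have h2 : (1 - τ) * a φ + τ * b φ ≤ k := by
      have h3 : ⟪φ.1, dx⟫ ≤ 0 := by rw [hin φ hφ h0 x]; exact hle φ hφ x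
      rcases h3.lt_or_eq with h4 | h4
      · exact hBk φ (by rw [hBdef, Finset.mem_filter]; exact ⟨hφ, h0, h4⟩)
      · exact hAk φ (by rw [hAdef, Finset.mem_filter]; exact ⟨hφ, h0, h4⟩)
    exact mul_nonpos_of_nonneg_of_nonpos (by linarith) (by linarith)
  have hr0 : r ≠ 0 := by
    intro h
    have := coords_zero o dx dy hdet (l := 1 - τ) (m := τ) (k := k) h
    linarith [this.2.1]
  have hnne : n.1 ≠ n'.1 := by
    intro h
    have h1 := hpre.hull.normals n hn.1 n' hn'.1 h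
    have h2 := hn.2.2
    have h3 := hn'.2.2
    rw [h1] at h2
    linarith
  have hII : Indep2 n.1 n'.1 := indep_units (hpre.hull.unit n hn.1) (hpre.hull.unit n' hn'.1)
    hnne (ho n hn.1 hn.2.1) (ho n' hn'.1 hn'.2.1)
  obtain ⟨ε, hε, hx0⟩ := small Φ (p z) r (fun φ hφ => hle φ hφ z) hall
  have hev : ∀ φ : E3 × ℝ, ev φ (p z) = 0 → ⟪φ.1, r⟫ = 0 → ev φ (p z + ε • r) = 0 := by
    intro φ h1 h2
    have : ev φ (p z + ε • r) = ev φ (p z) + ε * ⟪φ.1, r⟫ := by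
      rw [ev, ev, inner_add_right, real_inner_smul_right]; ring
    rw [this, h1, h2, mul_zero, add_zero]
  obtain ⟨y1, h1, h2, h3⟩ := hFCV V p Φ hpre.hull n hn.1 n' hn'.1 (p z + ε • r) hx0
    (hev n hn.2.1 hnr) (hev n' hn'.2.1 hnr') r
  have hrr : 0 < ⟪r, r⟫ := inner_self_pos hr0
  have h4 : ⟪r, p z⟫ < ⟪r, p y1⟫ := by
    rw [inner_add_right, real_inner_smul_right] at h3
    nlinarith [mul_pos hε hrr]
  obtain ⟨y2, h5, h6, h7, h8⟩ := hpre.t1 n hn.1 n' hn'.1 z r hn.2.1 hn'.2.1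
    ⟨y1, fun h => by rw [h] at h4; exact lt_irrefl _ h4, h1, h2, h4.le⟩
  obtain ⟨t, ht⟩ := normal_multiple (n := r) (x := n.1) (y := n'.1) (u := p y2 - p z) hr0
    (by rw [real_inner_comm]; exact hnr) (by rw [real_inner_comm]; exact hnr') hII
    (by rw [real_inner_comm, hin n hn.1 hn.2.1]; exact h6)
    (by rw [real_inner_comm, hin n' hn'.1 hn'.2.1]; exact h7)
  have hne : p y2 ≠ p z := (hEMC V K p hpre.emb).1 z y2 h5
  have ht0 : 0 < t := by
    have h9 : 0 ≤ ⟪r, p y2 - p z⟫ := by rw [inner_sub_right]; linarith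
    rw [ht, real_inner_smul_right] at h9
    have h10 : 0 ≤ t := by
      by_contra h
      push Not at h
      nlinarith
    refine lt_of_le_of_ne h10 ?_
    intro h
    apply hne
    rw [← sub_eq_zero, ht, ← h, zero_smul]
  have hd : p y2 - p z = (t * (1 - τ)) • dx + (t * τ) • dy + (t * k) • o := by
    rw [ht, hr]
    module
  have hTE : TE Φ p z y2 := ⟨n, hn.1, hn.2.1, h6⟩
  have hmem : y2 ∈ x :: (mid ++ y :: rest) := ((hLKA V K.tri z).2.2.1 _ y2 hlink).2 h5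
  rcases List.mem_cons.1 hmem with h | h
  · subst h
    have := coords_unique o dx dy hdet (l := 1) (m := 0) (k := 0) (l' := t * (1 - τ))
      (m' := t * τ) (k' := t * k) (by rw [← hd]; simp [hdx])
    have h11 := this.2.1
    nlinarith [mul_pos ht0 hτ0]
  · rcases List.mem_append.1 h with h | h
    · exact hmid y2 h hTE
    · rcases List.mem_cons.1 h with h | h
      · subst h
        have := coords_unique o dx dy hdet (l := 0) (m := 1) (k := 0) (l' := t * (1 - τ))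
          (m' := t * τ) (k' := t * k) (by rw [← hd]; simp [hdy])
        have h11 := this.1
        nlinarith [mul_pos ht0 (sub_pos.2 hτ1)]
      · exact hPKA V K p Φ hpre z x y mid rest hpath' o ho hdet y2 h hTE (t * (1 - τ)) (t * τ)
          (t * k) (mul_pos ht0 (sub_pos.2 hτ1)) (mul_pos ht0 hτ0) hd

end Pool.Agent.TSQ
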