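import Pool.Agent.TSQ.Stmts

/-!
# TSQ, module PKC: a boundary neighbour outside the closed small sector (helper29)
-/

set_option autoImplicit false

open scoped RealInnerProductSpace

namespace Pool.Agent.TSQ

open Pool.Agent.TSM Pool.Agent.TSP

namespace PKC_

/-- the functional `-(l + m)` -/
noncomputable def uu (o x y : E3) : E3 := (-(1 / det3 o x y)) • (cr y o + cr o x)

theorem det3_rot (a b c : E3) : det3 a b c = det3 b c a := by
  simp only [det3]
  ring

theorem uu_coord {o x y : E3} (h : det3 o x y ≠ 0) (l m k : ℝ) :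
    ⟪uu o x y, l • x + m • y + k • o⟫ = -(l + m) := by
  rw [uu, real_inner_comm, inner_smul_right, inner_add_right, ← det3_eq, ← det3_eq,
    ← det3_rot o (l • x + m • y + k • o) y, det3_coord1,
    det3_rot (l • x + m • y + k • o) o x, det3_coord2]
  field_simp

theorem ev_add (φ : E3 × ℝ) (a v : E3) : ev φ (a + v) = ev φ a + ⟪φ.1, v⟫ := by
  unfold ev
  rw [inner_add_right]
  ring

/-- a small multiple of a direction of the tangent cone stays in the hull -/
theorem small (Φ : Finset (E3 × ℝ)) (a m : E3) (h : ∀ φ ∈ Φ, ev φ a ≤ 0)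
    (h2 : ∀ φ ∈ Φ, ev φ a = 0 → ⟪φ.1, m⟫ ≤ 0) :
    ∃ ε : ℝ, 0 < ε ∧ ∀ φ ∈ Φ, ev φ (a + ε • m) ≤ 0 := by
  classical
  induction Φ using Finset.induction_on with
  | empty => exact ⟨1, one_pos, fun φ hφ => absurd hφ (Finset.notMem_empty φ)⟩
  | insert ψ Φ hψ ih =>
    obtain ⟨ε, hε, hε2⟩ := ih (fun φ hφ => h φ (Finset.mem_insert_of_mem hφ))
      (fun φ hφ => h2 φ (Finset.mem_insert_of_mem hφ))
    have key : ∃ δ : ℝ, 0 < δ ∧ δ ≤ ε ∧ ev ψ (a + δ • m) ≤ 0 := by
      rcases eq_or_ne (ev ψ a) 0 with h0 | h0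
      · refine ⟨ε, hε, le_refl _, ?_⟩
        rw [ev_add, inner_smul_right, h0, zero_add]
        exact mul_nonpos_of_nonneg_of_nonpos hε.le (h2 ψ (Finset.mem_insert_self _ _) h0)
      · have h1 : ev ψ a < 0 := lt_of_le_of_ne (h ψ (Finset.mem_insert_self _ _)) h0
        refine ⟨min ε (-(ev ψ a) / (|⟪ψ.1, m⟫| + 1)), lt_min hε (by
          apply div_pos (by linarith)
          positivity), min_le_left _ _, ?_⟩
        rw [ev_add, inner_smul_right]
        set δ := min ε (-(ev ψ a) / (|⟪ψ.1, m⟫| + 1)) with hδ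
        have hδ0 : 0 < δ := lt_min hε (by
          apply div_pos (by linarith)
          positivity)
        have h3 : δ ≤ -(ev ψ a) / (|⟪ψ.1, m⟫| + 1) := min_le_right _ _
        have h4 : δ * (|⟪ψ.1, m⟫| + 1) ≤ -(ev ψ a) := by
          rwa [le_div_iff₀ (by positivity)] at h3
        have h5 : δ * ⟪ψ.1, m⟫ ≤ δ * |⟪ψ.1, m⟫| :=
          mul_le_mul_of_nonneg_left (le_abs_self _) hδ0.le
        linarith
    obtain ⟨δ, hδ, hδε, hδ2⟩ := key
    refine ⟨δ, hδ, fun φ hφ => ?_⟩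
    rcases Finset.mem_insert.mp hφ with rfl | hφ'
    · exact hδ2
    · have h6 := hε2 φ hφ'
      have h7 := h φ hφ
      rw [ev_add, inner_smul_right] at h6 ⊢
      rcases le_or_gt ⟪φ.1, m⟫ 0 with h8 | h8
      · have := mul_nonpos_of_nonneg_of_nonpos hδ.le h8
        linarith
      · have := mul_le_mul_of_nonneg_right hδε h8.le
        linarith

end PKC_

open PKC_ in
theorem PKC_proof (h1 : Stmt_LKA) (h2 : Stmt_FCV) (h3 : Stmt_EMC) : Stmt_PKC := by
  classical
  intro V _ _ K p Φ hP z x y mid rest hpath o ho hD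
  obtain ⟨hl, ⟨φx, hφx, hφxz, hφxx⟩, hTy, hmid⟩ := hpath
  set dx := p x - p z with hdx
  set dy := p y - p z with hdy
  -- the maximal active facet
  obtain ⟨φ0, hφ0, hmax⟩ := Finset.exists_max_image (Φ.filter fun φ => ev φ (p z) = 0)
    (fun φ => ⟪φ.1, -(dx + dy)⟫ / (-⟪φ.1, o⟫)) ⟨φx, Finset.mem_filter.mpr ⟨hφx, hφxz⟩⟩
  rw [Finset.mem_filter] at hφ0
  obtain ⟨hφ0m, hφ0z⟩ := hφ0
  set τ : ℝ := ⟪φ0.1, -(dx + dy)⟫ / (-⟪φ0.1, o⟫) with hτ
  set m : E3 := -(dx + dy) + τ • o with hm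
  have hm0 : ⟪φ0.1, m⟫ = 0 := by
    have h0 := ho φ0 hφ0m hφ0z
    rw [hm, inner_add_right, inner_smul_right, hτ, div_neg, neg_mul, div_mul_cancel₀ _ h0.ne]
    ring
  have hmle : ∀ φ ∈ Φ, ev φ (p z) = 0 → ⟪φ.1, m⟫ ≤ 0 := by
    intro φ hφ hφz
    have h0 := ho φ hφ hφz
    have h4 := hmax φ (Finset.mem_filter.mpr ⟨hφ, hφz⟩)
    rw [div_le_iff₀ (by linarith)] at h4
    rw [hm, inner_add_right, inner_smul_right]
    linarith
  obtain ⟨ε, hε, hεh⟩ := small Φ (p z) m (fun φ hφ => hP.hull.mem z φ hφ) hmle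
  -- the functional
  set u : E3 := uu o dx dy with hu
  have hux : ⟪u, dx⟫ = -1 := by
    have := uu_coord hD 1 0 0
    rw [one_smul, zero_smul, zero_smul, add_zero, add_zero] at this
    rw [this]
    norm_num
  have huy : ⟪u, dy⟫ = -1 := by
    have := uu_coord hD 0 1 0
    rw [one_smul, zero_smul, zero_smul, add_zero, zero_add] at this
    rw [this]
    norm_num
  have hum : ⟪u, m⟫ = 2 := by
    have e : m = (-1 : ℝ) • dx + (-1 : ℝ) • dy + τ • o := by
      rw [hm]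
      module
    rw [e, uu_coord hD]
    norm_num
  have hx0 : ev φ0 (p z + ε • m) = 0 := by
    rw [ev_add, inner_smul_right, hm0, hφ0z]
    ring
  obtain ⟨y', hy1, -, hy3⟩ := h2 V p Φ hP.hull φ0 hφ0m φ0 hφ0m (p z + ε • m)
    (fun φ hφ => hεh φ hφ) hx0 hx0 u
  rw [inner_add_right, inner_smul_right, hum] at hy3
  have hyz : y' ≠ z := by
    rintro rfl
    linarith
  obtain ⟨b, hb1, hb2, -, hb4⟩ := hP.t1 φ0 hφ0m φ0 hφ0m z u hφ0z hφ0z
    ⟨y', hyz, hy1, hy1, by linarith⟩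
  have hub : 0 ≤ ⟪u, p b - p z⟫ := by
    rw [inner_sub_right]
    linarith
  have hTb : TE Φ p z b := ⟨φ0, hφ0m, hφ0z, hb2⟩
  have hmem : b ∈ x :: (mid ++ y :: rest) := ((h1 V K.tri z).2.2.1 _ b hl).2 hb1
  have hbr : b ∈ rest := by
    rcases List.mem_cons.mp hmem with rfl | hmem
    · exfalso
      linarith
    · rcases List.mem_append.mp hmem with hmem | hmem
      · exact absurd hTb (hmid b hmem)
      · rcases List.mem_cons.mp hmem with rfl | hmem
        · exfalso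
          linarith
        · exact hmem
  refine ⟨b, hbr, hTb, ?_⟩
  intro l n k hl0 hn0 he
  rw [he, uu_coord hD] at hub
  have hl1 : l = 0 := by linarith
  have hn1 : n = 0 := by linarith
  rw [hl1, hn1, zero_smul, zero_smul, zero_add, zero_add] at he
  have h5 : ⟪φ0.1, p b - p z⟫ = 0 := by
    rw [inner_sub_right]
    unfold ev at hb2 hφ0z
    linarith
  rw [he, inner_smul_right] at h5
  have hk : k = 0 := by
    rcases mul_eq_zero.mp h5 with h | h
    · exact h
    · exact absurd h (ho φ0 hφ0m hφ0z).ne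
  rw [hk, zero_smul] at he
  exact (h3 V K p hP.emb).1 z b hb1 (sub_eq_zero.mp he)

end Pool.Agent.TSQ
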