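import Pool.Agent.TSQ.Stmts

/-!
# PKF: the open sector between the ends of an inner path is free
-/

set_option autoImplicit false

open scoped RealInnerProductSpace

namespace Pool.Agent.TSQ

open Pool.Agent.TSM Pool.Agent.TSP

namespace PKF_

theorem conseq_left {α : Type} (l : List α) (a b c : α) (h : (a, b) ∈ conseq (l ++ [c])) :
    a ∈ l := by
  induction l with
  | nil => simp [conseq] at h
  | cons d l ih =>
    cases l with
    | nil =>
      simp only [List.cons_append, List.nil_append, conseq, List.mem_cons, Prod.mk.injEq,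
        List.not_mem_nil, or_false] at h
      simp [h.1]
    | cons e l =>
      simp only [List.cons_append] at ih h
      rw [conseq, List.mem_cons] at h
      rcases h with h | h
      · simp only [Prod.mk.injEq] at h
        simp [h.1]
      · exact List.mem_cons_of_mem _ (ih h)

theorem conseq_skip {α : Type} (l1 l2 : List α) (y w : α) (hy : y ∉ l1)
    (h : (y, w) ∈ conseq (l1 ++ y :: l2)) : (y, w) ∈ conseq (y :: l2) := by
  induction l1 with
  | nil => exact h
  | cons d l ih =>
    rw [List.mem_cons, not_or] at hy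
    cases l with
    | nil =>
      simp only [List.cons_append, List.nil_append] at h
      rw [conseq, List.mem_cons] at h
      rcases h with h | h
      · simp only [Prod.mk.injEq] at h
        exact absurd h.1 hy.1
      · exact h
    | cons e l =>
      simp only [List.cons_append] at ih h
      rw [conseq, List.mem_cons] at h
      rcases h with h | h
      · simp only [Prod.mk.injEq] at h
        exact absurd h.1 hy.1
      · exact ih hy.2 h

theorem not_arc {α : Type} {x y : α} {mid rest : List α}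
    (hnd : (x :: (mid ++ y :: rest)).Nodup) (hm : mid ≠ []) (hr : rest ≠ []) :
    (x, y) ∉ cyc (x :: (mid ++ y :: rest)) ∧ (y, x) ∉ cyc (x :: (mid ++ y :: rest)) := by
  obtain ⟨m, mid', rfl⟩ := List.exists_cons_of_ne_nil hm
  obtain ⟨r, rest', rfl⟩ := List.exists_cons_of_ne_nil hr
  have hnd1 := List.nodup_cons.1 hnd
  have hxin : x ∉ m :: mid' ++ y :: r :: rest' := hnd1.1
  have hnd2 := List.nodup_append.1 hnd1.2
  have hym : y ∉ m :: mid' := fun h => hnd2.2.2 y h y (by simp) rfl
  have hyr : y ∉ r :: rest' := (List.nodup_cons.1 hnd2.2.1).1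
  constructor
  · intro h
    have h' : (x, y) ∈ conseq (x :: m :: (mid' ++ y :: r :: rest' ++ [x])) := by
      simpa [cyc] using h
    rw [conseq, List.mem_cons] at h'
    rcases h' with h' | h'
    · simp only [Prod.mk.injEq, true_and] at h'
      exact hym (by simp [h'])
    · have h3 : (x, y) ∈ conseq ((m :: (mid' ++ y :: r :: rest')) ++ [x]) := by
        simpa using h'
      exact hxin (by simpa using conseq_left _ _ _ _ h3)
  · intro h
    have h' : (y, x) ∈ conseq ((x :: m :: mid') ++ y :: (r :: rest' ++ [x])) := by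
      simpa [cyc] using h
    have hy' : y ∉ x :: m :: mid' := by
      rw [List.mem_cons, not_or]
      refine ⟨?_, hym⟩
      rintro rfl
      exact hxin (by simp)
    have h3 := conseq_skip _ _ _ _ hy' h'
    simp only [List.cons_append] at h3
    rw [conseq, List.mem_cons] at h3
    rcases h3 with h3 | h3
    · simp only [Prod.mk.injEq, true_and] at h3
      exact hxin (by simp [h3])
    · have h4 : (y, x) ∈ conseq ((r :: rest') ++ [x]) := by simpa using h3
      exact hyr (conseq_left _ _ _ _ h4)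

theorem cone2 {V : Type} [Fintype V] [DecidableEq V] {A : Finset (Finset V)} {d : V → E3}
    (hA : ConeInj A d) {a b x : V} (h1 : {a, b} ∈ A) {τ : Finset V} (hτ : τ ∈ A) (hx : x ∈ τ)
    {s t r : ℝ} (hs : 0 ≤ s) (ht : 0 ≤ t) (hr : 0 < r)
    (he : s • d a + t • d b = r • d x) : x = a ∨ x = b := by
  by_contra hc
  rw [not_or] at hc
  have h2 := hA {a, b} h1 τ hτ (fun u => (if u = a then s else 0) + (if u = b then t else 0) -
    (if u = x then r else 0)) ?_ ?_ ?_
  · have h3 := congrFun h2 x
    simp only [hc.1, hc.2, if_false, if_true, Pi.zero_apply] at h3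
    linarith
  · intro u hu
    simp only [Finset.mem_insert, Finset.mem_singleton, not_or] at hu
    simp only [hu.1, hu.2, if_false]
    split_ifs <;> linarith
  · intro u hu
    have hux : u ≠ x := by
      rintro rfl
      exact hu hx
    simp only [hux, if_false]
    split_ifs <;> linarith
  · simp only [add_smul, sub_smul, ite_smul, zero_smul, Finset.sum_add_distrib,
      Finset.sum_sub_distrib, Finset.sum_ite_eq', Finset.mem_univ, if_true]
    rw [he, sub_self]

end PKF_

theorem PKF_proof (h1 : Stmt_LKA) (h2 : Stmt_OCH) (h3 : Stmt_PKC) (h4 : Stmt_PKA)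
    (_h5 : Stmt_EMC) : Stmt_PKF := by
  intro V _ _ K p Φ hP z x y mid rest hpath hmid hxy φ hφ ez ex ey σ hσ α hα0 hασ L M hL hM heq
  obtain ⟨o, ho1, ho2⟩ := h2 V p Φ hP.hull z x y hxy
  obtain ⟨b0, hb0, -, -⟩ := h3 V K p Φ hP z x y mid rest hpath o ho1 ho2
  have hrest : rest ≠ [] := List.ne_nil_of_mem hb0
  have hPKA := h4 V K p Φ hP z x y mid rest hpath o ho1 ho2
  obtain ⟨hlink, tx, ty, hmidTE⟩ := hpath
  have hn : φ.1 ≠ 0 := by
    intro h
    have := hP.hull.unit φ hφ
    rw [h, norm_zero] at this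
    exact zero_ne_one this
  have hin : ∀ u, ⟪φ.1, p u - p z⟫ = ev φ (p u) := by
    intro u
    have h5 : ev φ (p z) = 0 := ez
    unfold ev at h5 ⊢
    rw [inner_sub_right]
    linarith
  have hle : ∀ u, ⟪φ.1, p u - p z⟫ ≤ 0 := by
    intro u
    rw [hin]
    exact hP.hull.mem u φ hφ
  have hnx : ⟪φ.1, p x - p z⟫ = 0 := by rw [hin, ex]
  have hny : ⟪φ.1, p y - p z⟫ = 0 := by rw [hin, ey]
  -- the support of `α` lies in the plane
  have hsum : ∑ u, α u * ⟪φ.1, p u - p z⟫ = 0 := by
    have h5 : ⟪φ.1, ∑ u, α u • (p u - p z)⟫ = 0 := by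
      rw [heq, inner_add_right, inner_smul_right, inner_smul_right, hnx, hny]
      ring
    rw [inner_sum] at h5
    rw [← h5]
    refine Finset.sum_congr rfl fun u _ => ?_
    rw [inner_smul_right]
  have hterm : ∀ u, α u * ⟪φ.1, p u - p z⟫ = 0 := by
    intro u
    exact (Finset.sum_eq_zero_iff_of_nonpos
      (fun v _ => mul_nonpos_of_nonneg_of_nonpos (hα0 v) (hle v))).1 hsum u (Finset.mem_univ u)
  have hsupp : ∀ u, 0 < α u → ev φ (p u) = 0 := by
    intro u hu
    rw [← hin]
    rcases mul_eq_zero.1 (hterm u) with h | h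
    · exact absurd h hu.ne'
    · exact h
  -- no neighbour in the open quadrant
  have hquad : ∀ u, u ∈ x :: (mid ++ y :: rest) → ev φ (p u) = 0 → ∀ l m : ℝ, 0 < l → 0 < m →
      p u - p z ≠ l • (p x - p z) + m • (p y - p z) := by
    intro u hu hu0 l m hl hm he
    rw [List.mem_cons, List.mem_append, List.mem_cons] at hu
    rcases hu with rfl | hu | rfl | hu
    · have h5 := hxy (1 - l) (-m) (by
        have h9 := sub_eq_zero.2 he
        rw [← h9]
        module)
      linarith [h5.2]
    · exact hmidTE u hu ⟨φ, hφ, ez, hu0⟩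
    · have h5 := hxy (-l) (1 - m) (by
        have h9 := sub_eq_zero.2 he
        rw [← h9]
        module)
      linarith [h5.1]
    · exact hPKA u hu ⟨φ, hφ, ez, hu0⟩ l m 0 hl hm (by rw [zero_smul, add_zero]; exact he)
  -- one vertex is not enough
  have hone : ∀ u, u ∈ x :: (mid ++ y :: rest) → (α u • (p u - p z) ≠
      L • (p x - p z) + M • (p y - p z)) := by
    intro u hu he
    rcases (hα0 u).eq_or_lt with h5 | h5
    · rw [← h5, zero_smul] at he
      exact hL.ne' (hxy L M he.symm).1
    · refine hquad u hu (hsupp u h5) (L / α u) (M / α u) (div_pos hL h5) (div_pos hM h5) ?_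
      have h6 : p u - p z = (α u)⁻¹ • (α u • (p u - p z)) := by
        rw [smul_smul, inv_mul_cancel₀ h5.ne', one_smul]
      rw [h6, he, smul_add, smul_smul, smul_smul, div_eq_inv_mul, div_eq_inv_mul]
  obtain ⟨a, b, hab, rfl⟩ := ((h1 V K.tri z).2.2.2.1 _ σ hlink).1 hσ
  -- membership
  have hadj : ∀ u, (∃ τ ∈ arcs K.tri z, u ∈ τ) → u ∈ x :: (mid ++ y :: rest) := by
    rintro u ⟨τ, hτ, hu⟩
    rw [(h1 V K.tri z).2.2.1 _ u hlink]
    unfold arcs at hτ
    rw [Finset.mem_image] at hτ
    obtain ⟨t, ht, rfl⟩ := hτ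
    rw [Finset.mem_filter] at ht
    rw [Finset.mem_erase] at hu
    exact ⟨hu.1.symm, t, ht.1, ht.2, hu.2⟩
  have hinarc : ∀ u, u ∈ x :: (mid ++ y :: rest) → ∃ τ ∈ arcs K.tri z, u ∈ τ := by
    intro u hu
    rw [(h1 V K.tri z).2.2.1 _ u hlink] at hu
    obtain ⟨h5, t, ht, hz, hu⟩ := hu
    refine ⟨t.erase z, ?_, Finset.mem_erase.2 ⟨h5.symm, hu⟩⟩
    unfold arcs
    rw [Finset.mem_image]
    exact ⟨t, Finset.mem_filter.2 ⟨ht, hz⟩, rfl⟩
  have ha : a ∈ x :: (mid ++ y :: rest) := hadj a ⟨_, hσ, by simp⟩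
  have hb : b ∈ x :: (mid ++ y :: rest) := hadj b ⟨_, hσ, by simp⟩
  by_cases hne : a = b
  · subst hne
    refine hone a ha ?_
    rw [← heq]
    rw [Finset.sum_eq_single a]
    · intro u _ hu
      rw [hασ u (by simpa using hu), zero_smul]
    · intro h
      exact absurd (Finset.mem_univ a) h
  have hsum2 : α a • (p a - p z) + α b • (p b - p z) = L • (p x - p z) + M • (p y - p z) := by
    rw [← heq]
    symm
    refine Finset.sum_eq_add a b hne ?_ ?_ ?_
    · intro u _ hu
      rw [hασ u (by simp [hu.1, hu.2]), zero_smul]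
    · intro h
      exact absurd (Finset.mem_univ a) h
    · intro h
      exact absurd (Finset.mem_univ b) h
  have ha0 : 0 < α a := by
    rcases (hα0 a).eq_or_lt with h | h
    · exact absurd (by rw [← hsum2, ← h, zero_smul, zero_add]) (hone b hb)
    · exact h
  have hb0' : 0 < α b := by
    rcases (hα0 b).eq_or_lt with h | h
    · exact absurd (by rw [← hsum2, ← h, zero_smul, add_zero]) (hone a ha)
    · exact h
  obtain ⟨a1, a2, hea⟩ := plane_coords hn hnx hny hxy (v := p a - p z)
    (by rw [hin, hsupp a ha0])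
  obtain ⟨b1, b2, heb⟩ := plane_coords hn hnx hny hxy (v := p b - p z)
    (by rw [hin, hsupp b hb0'])
  have hqa : ¬ (0 < a1 ∧ 0 < a2) := fun h => hquad a ha (hsupp a ha0) a1 a2 h.1 h.2 hea
  have hqb : ¬ (0 < b1 ∧ 0 < b2) := fun h => hquad b hb (hsupp b hb0') b1 b2 h.1 h.2 heb
  have hLM : α a * a1 + α b * b1 = L ∧ α a * a2 + α b * b2 = M := by
    have h5 := hxy (α a * a1 + α b * b1 - L) (α a * a2 + α b * b2 - M) (by
      have h6 : α a • (p a - p z) + α b • (p b - p z) - (L • (p x - p z) + M • (p y - p z)) = 0 :=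
        sub_eq_zero.2 hsum2
      rw [hea, heb] at h6
      rw [← h6]
      module)
    constructor <;> linarith [h5.1, h5.2]
  -- key: the two vertices are `x` and `y`
  have key : ∀ (c e : V) (c1 c2 e1 e2 : ℝ), {c, e} ∈ arcs K.tri z →
      p c - p z = c1 • (p x - p z) + c2 • (p y - p z) →
      p e - p z = e1 • (p x - p z) + e2 • (p y - p z) →
      0 < c1 → c2 ≤ 0 → e1 ≤ 0 → 0 < e2 → 0 < c1 * e2 - c2 * e1 → c = x ∧ e = y := by
    intro c e c1 c2 e1 e2 hce hc he hc1 hc2 he1 he2 hD
    obtain ⟨τx, hτx, hxτ⟩ := hinarc x (by simp)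
    obtain ⟨τy, hτy, hyτ⟩ := hinarc y (by simp)
    have k1 := PKF_.cone2 (hP.emb z) hce hτx hxτ he2.le (neg_nonneg.2 hc2) hD (by
      rw [hc, he]
      module)
    have k2 := PKF_.cone2 (hP.emb z) hce hτy hyτ (neg_nonneg.2 he1) hc1.le hD (by
      rw [hc, he]
      module)
    constructor
    · rcases k1 with k1 | k1
      · exact k1.symm
      · exfalso
        rw [← k1] at he
        have h5 := hxy (1 - e1) (-e2) (by
          have h9 := sub_eq_zero.2 he
          rw [← h9]
          module)
        linarith [h5.2]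
    · rcases k2 with k2 | k2
      · exfalso
        rw [← k2] at hc
        have h5 := hxy (-c1) (1 - c2) (by
          have h9 := sub_eq_zero.2 hc
          rw [← h9]
          module)
        linarith [h5.1]
      · exact k2.symm
  have hnot := PKF_.not_arc hlink.2.1 hmid hrest
  rcases lt_or_ge 0 a1 with h5 | h5
  · have ha2 : a2 ≤ 0 := not_lt.1 fun h => hqa ⟨h5, h⟩
    have hb2 : 0 < b2 := by
      by_contra h
      push Not at h
      nlinarith [hLM.2]
    have hb1 : b1 ≤ 0 := not_lt.1 fun h => hqb ⟨h, hb2⟩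
    have hD : 0 < a1 * b2 - a2 * b1 := by
      have h6 : α a * (a1 * b2 - a2 * b1) = L * b2 - M * b1 := by
        rw [← hLM.1, ← hLM.2]
        ring
      have h7 : 0 < L * b2 - M * b1 := by nlinarith [mul_pos hL hb2]
      rw [← h6] at h7
      exact (pos_iff_pos_of_mul_pos h7).1 ha0
    obtain ⟨rfl, rfl⟩ := key a b a1 a2 b1 b2 hσ hea heb h5 ha2 hb1 hb2 hD
    exact hnot.1 hab
  · have hb1 : 0 < b1 := by
      by_contra h
      push Not at h
      nlinarith [hLM.1]
    have hb2 : b2 ≤ 0 := not_lt.1 fun h => hqb ⟨hb1, h⟩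
    have ha2 : 0 < a2 := by
      by_contra h
      push Not at h
      nlinarith [hLM.2]
    have hD : 0 < b1 * a2 - b2 * a1 := by
      have h6 : α b * (b1 * a2 - b2 * a1) = L * a2 - M * a1 := by
        rw [← hLM.1, ← hLM.2]
        ring
      have h7 : 0 < L * a2 - M * a1 := by nlinarith [mul_pos hL ha2]
      rw [← h6] at h7
      exact (pos_iff_pos_of_mul_pos h7).1 hb0'
    have hσ' : {b, a} ∈ arcs K.tri z := by
      rw [Finset.pair_comm]
      exact hσ
    obtain ⟨rfl, rfl⟩ := key b a b1 b2 a1 a2 hσ' heb hea hb1 hb2 h5 ha2 hD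
    exact hnot.2 hab

end Pool.Agent.TSQ
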