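import Pool.Agent.TSQ.Stmts

/-!
# TSQ, module PKL: the left-right condition at `x`
-/

set_option autoImplicit false

open scoped RealInnerProductSpace

namespace Pool.Agent.TSQ

open Pool.Agent.TSM Pool.Agent.TSP

namespace PKL_

lemma mem_conseq {α : Type} {a b : α} :
    ∀ {l : List α}, (a, b) ∈ conseq l ↔ ∃ l1 l2, l = l1 ++ a :: b :: l2
  | [] => by
    constructor
    · intro h
      simp [conseq] at h
    · rintro ⟨l1, l2, h⟩
      simp at h
  | [c] => by
    constructor
    · intro h
      simp [conseq] at h
    · rintro ⟨l1, l2, h⟩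
      have := congrArg List.length h
      simp only [List.length_cons, List.length_nil, List.length_append] at this
      omega
  | c :: d :: l => by
    have ih := mem_conseq (a := a) (b := b) (l := d :: l)
    show (a, b) ∈ (c, d) :: conseq (d :: l) ↔ _
    rw [List.mem_cons, ih]
    constructor
    · rintro (h | ⟨l1, l2, h⟩)
      · obtain ⟨rfl, rfl⟩ := Prod.mk.inj h
        exact ⟨[], l, rfl⟩
      · exact ⟨c :: l1, l2, by rw [h]; rfl⟩
    · rintro ⟨l1, l2, h⟩
      cases l1 with
      | nil =>
        left
        simp only [List.nil_append, List.cons.injEq] at h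
        rw [h.1, h.2.1]
      | cons e l1 =>
        right
        simp only [List.cons_append, List.cons.injEq] at h
        exact ⟨l1, l2, h.2⟩

lemma conseq_map {α β : Type} (f : α → β) :
    ∀ l : List α, conseq (l.map f) = (conseq l).map (Prod.map f f)
  | [] => rfl
  | [_] => rfl
  | a :: b :: l => by
    show (f a, f b) :: conseq ((b :: l).map f) = _
    rw [conseq_map f (b :: l)]
    rfl

lemma conseq_append_left {α : Type} {a b : α} {l l' : List α} (h : (a, b) ∈ conseq l) :
    (a, b) ∈ conseq (l ++ l') := by
  obtain ⟨l1, l2, rfl⟩ := mem_conseq.1 h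
  exact mem_conseq.2 ⟨l1, l2 ++ l', by simp⟩

lemma conseq_append_right {α : Type} {a b : α} {l l' : List α} (h : (a, b) ∈ conseq l) :
    (a, b) ∈ conseq (l' ++ l) := by
  obtain ⟨l1, l2, rfl⟩ := mem_conseq.1 h
  exact mem_conseq.2 ⟨l' ++ l1, l2, by simp⟩

lemma conseq_reverse {α : Type} {a b : α} {l : List α} (h : (a, b) ∈ conseq l.reverse) :
    (b, a) ∈ conseq l := by
  obtain ⟨l1, l2, h⟩ := mem_conseq.1 h
  have h2 : l = (l1 ++ a :: b :: l2).reverse := by rw [← h, List.reverse_reverse]
  refine mem_conseq.2 ⟨l2.reverse, l1.reverse, ?_⟩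
  rw [h2]
  simp

lemma mem_of_conseq {α : Type} {a b : α} {l : List α} (h : (a, b) ∈ conseq l) :
    a ∈ l ∧ b ∈ l := by
  obtain ⟨l1, l2, rfl⟩ := mem_conseq.1 h
  constructor <;> simp

section
variable {V : Type} [Fintype V] [DecidableEq V]

lemma sum_single (d : V → E3) (a : V) (s : ℝ) :
    ∑ u, (Pi.single a s : V → ℝ) u • d u = s • d a := by
  rw [Finset.sum_eq_single a]
  · rw [Pi.single_eq_same]
  · intro u _ hu
    rw [Pi.single_eq_of_ne hu, zero_smul]
  · intro h
    exact absurd (Finset.mem_univ a) h

omit [Fintype V] in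
lemma single_nonneg {a u : V} {s : ℝ} (hs : 0 ≤ s) : 0 ≤ (Pi.single a s : V → ℝ) u := by
  by_cases h : u = a
  · rw [h, Pi.single_eq_same]
    exact hs
  · rw [Pi.single_eq_of_ne h]

/-- the basic consequence of `ConeInj` -/
lemma ci {A : Finset (Finset V)} {d : V → E3} (h : ConeInj A d) {q1 q2 r1 r2 : V}
    (hq : ({q1, q2} : Finset V) ∈ A) (hr : ({r1, r2} : Finset V) ∈ A) {s t s' t' : ℝ}
    (hs : 0 ≤ s) (ht : 0 ≤ t) (hs' : 0 ≤ s') (ht' : 0 ≤ t')
    (he : s • d q1 + t • d q2 = s' • d r1 + t' • d r2) (u : V) :
    (Pi.single q1 s : V → ℝ) u + (Pi.single q2 t : V → ℝ) u =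
      (Pi.single r1 s' : V → ℝ) u + (Pi.single r2 t' : V → ℝ) u := by
  have key := h _ hq _ hr (fun u => (Pi.single q1 s : V → ℝ) u + (Pi.single q2 t : V → ℝ) u -
    ((Pi.single r1 s' : V → ℝ) u + (Pi.single r2 t' : V → ℝ) u)) ?_ ?_ ?_
  · have := congrFun key u
    simp only [Pi.zero_apply] at this
    linarith
  · intro u hu
    simp only [Finset.mem_insert, Finset.mem_singleton, not_or] at hu
    have h1 := single_nonneg (a := r1) (u := u) hs'
    have h2 := single_nonneg (a := r2) (u := u) ht'
    show (Pi.single q1 s : V → ℝ) u + (Pi.single q2 t : V → ℝ) u -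
      ((Pi.single r1 s' : V → ℝ) u + (Pi.single r2 t' : V → ℝ) u) ≤ 0
    rw [Pi.single_eq_of_ne hu.1, Pi.single_eq_of_ne hu.2]
    linarith
  · intro u hu
    simp only [Finset.mem_insert, Finset.mem_singleton, not_or] at hu
    have h1 := single_nonneg (a := q1) (u := u) hs
    have h2 := single_nonneg (a := q2) (u := u) ht
    show 0 ≤ (Pi.single q1 s : V → ℝ) u + (Pi.single q2 t : V → ℝ) u -
      ((Pi.single r1 s' : V → ℝ) u + (Pi.single r2 t' : V → ℝ) u)
    rw [Pi.single_eq_of_ne hu.1, Pi.single_eq_of_ne hu.2]
    linarith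
  · simp only [sub_smul, add_smul, Finset.sum_sub_distrib, Finset.sum_add_distrib, sum_single]
    rw [he, sub_self]

/-- two nonnegative coefficients on one arc -/
lemma ci2 {A : Finset (Finset V)} {d : V → E3} (h : ConeInj A d) {q1 q2 : V}
    (hq : ({q1, q2} : Finset V) ∈ A) {s t : ℝ} (hs : 0 ≤ s) (ht : 0 ≤ t)
    (he : s • d q1 + t • d q2 = 0) : s = 0 ∧ t = 0 := by
  have key := ci h hq hq hs ht le_rfl le_rfl (he.trans (by simp))
  have k1 := key q1
  have k2 := key q2
  simp only [Pi.single_zero, Pi.zero_apply, add_zero, Pi.single_eq_same] at k1 k2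
  have a1 := single_nonneg (a := q2) (u := q1) ht
  have a2 := single_nonneg (a := q1) (u := q2) hs
  constructor <;> linarith

end

end PKL_

open PKL_ in
open Classical in
theorem PKL_proof (h1 : Stmt_LKA) (h2 : Stmt_OCH) (h3 : Stmt_PKC) (h4 : Stmt_PKA)
    (h5 : Stmt_XLS) (h6 : Stmt_CIO) (_h7 : Stmt_EMC) : Stmt_PKL := by
  intro V _ _ K p Φ hpre z x y mid rest hpath hmid hind φ hφ ez ex ey m1 b hm1 hb l m k r
    hm hk hr heq
  obtain ⟨hL, tx, ty, hmidTE⟩ := hpath
  have hnd := hL.2.1
  -- directions
  set D : V → E3 := fun u => p u - p z with hD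
  have hin : ∀ (ψ : E3 × ℝ) (u : V), ev ψ (p z) = 0 → (⟪ψ.1, D u⟫ : ℝ) = ev ψ (p u) := by
    intro ψ u h
    unfold ev at h ⊢
    rw [hD]
    simp only [inner_sub_right]
    linarith
  have hle : ∀ ψ ∈ Φ, ∀ u, ev ψ (p z) = 0 → (⟪ψ.1, D u⟫ : ℝ) ≤ 0 := by
    intro ψ hψ u h
    rw [hin ψ u h]
    exact hpre.hull.mem u ψ hψ
  have nx : (⟪φ.1, D x⟫ : ℝ) = 0 := by rw [hin φ x ez, ex]
  have ny : (⟪φ.1, D y⟫ : ℝ) = 0 := by rw [hin φ y ez, ey]
  obtain ⟨mid', rfl⟩ : ∃ mid', mid = m1 :: mid' := by
    cases mid with
    | nil => exact absurd rfl hmid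
    | cons a mid' =>
      simp only [List.head?_cons, Option.some.injEq] at hm1
      exact ⟨mid', by rw [hm1]⟩
  have nm : (⟪φ.1, D m1⟫ : ℝ) < 0 := by
    refine lt_of_le_of_ne (hle φ hφ m1 ez) ?_
    intro h
    rw [hin φ m1 ez] at h
    exact hmidTE m1 (by simp) ⟨φ, hφ, ez, h⟩
  have hbr : b ∈ rest := List.mem_of_getLast? hb
  obtain ⟨rest', hrest'⟩ : ∃ rest', rest = rest' ++ [b] := by
    rcases List.eq_nil_or_concat rest with h | ⟨r', c, h⟩
    · rw [h] at hbr
      simp at hbr
    · rw [List.concat_eq_append] at h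
      rw [h, List.getLast?_append] at hb
      simp only [List.getLast?_singleton, Option.some_or, Option.some.injEq] at hb
      exact ⟨r', by rw [h, hb]⟩
  -- arcs
  have hci : ConeInj (arcs K.tri z) D := hpre.emb z
  have harc : ∀ u w : V, (u, w) ∈ cyc (x :: (m1 :: mid' ++ y :: rest)) →
      ({u, w} : Finset V) ∈ arcs K.tri z := by
    intro u w h
    exact ((h1 V K.tri z).2.2.2.1 _ _ hL).2 ⟨u, w, h, rfl⟩
  have hcyc : cyc (x :: (m1 :: mid' ++ y :: rest)) =
      conseq ((x :: (m1 :: mid') ++ [y]) ++ (rest ++ [x])) := by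
    show conseq (x :: (m1 :: mid' ++ y :: rest) ++ [x]) = _
    congr 1
    simp
  have harcA : ∀ u w : V, (u, w) ∈ conseq (x :: (m1 :: mid') ++ [y]) →
      ({u, w} : Finset V) ∈ arcs K.tri z := by
    intro u w h
    apply harc
    rw [hcyc]
    exact conseq_append_left h
  have harcR : ∀ u w : V, (u, w) ∈ conseq rest → ({u, w} : Finset V) ∈ arcs K.tri z := by
    intro u w h
    apply harc
    rw [hcyc]
    exact conseq_append_right (conseq_append_left h)
  have harcb : ({b, x} : Finset V) ∈ arcs K.tri z := by
    apply harc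
    rw [hcyc]
    apply conseq_append_right
    rw [hrest']
    exact mem_conseq.2 ⟨rest', [], by simp⟩
  have harcx : ({x, m1} : Finset V) ∈ arcs K.tri z :=
    harcA x m1 (mem_conseq.2 ⟨[], mid' ++ [y], by simp⟩)
  obtain ⟨w0, hw0, hw0m⟩ : ∃ w0, ({w0, y} : Finset V) ∈ arcs K.tri z ∧ w0 ∈ x :: (m1 :: mid') := by
    rcases List.eq_nil_or_concat (x :: (m1 :: mid')) with h | ⟨r', c, h⟩
    · simp at h
    · rw [List.concat_eq_append] at h
      refine ⟨c, harcA c y ?_, by rw [h]; simp⟩
      rw [h]
      exact mem_conseq.2 ⟨r', [], by simp⟩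
  -- disjointness
  have hdis : ∀ u ∈ x :: (m1 :: mid') ++ [y], u ∉ rest := by
    have e : x :: (m1 :: mid' ++ y :: rest) = (x :: (m1 :: mid') ++ [y]) ++ rest := by simp
    rw [e] at hnd
    intro u hu hu'
    exact (List.nodup_append.1 hnd).2.2 u hu u hu' rfl
  have hbx : b ≠ x := by
    rintro rfl
    exact hdis b (by simp) hbr
  have hby : b ≠ y := by
    rintro rfl
    exact hdis b (by simp) hbr
  have hbw0 : b ≠ w0 := by
    rintro rfl
    exact hdis b (List.mem_append_left _ hw0m) hbr
  -- r > 0
  have heq' : l • D x + m • D y + k • D m1 = r • D b := heq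
  have hnin : k * (⟪φ.1, D m1⟫ : ℝ) = r * (⟪φ.1, D b⟫ : ℝ) := by
    have := congrArg (fun v => (⟪φ.1, v⟫ : ℝ)) heq'
    simp only [inner_add_right, inner_smul_right, nx, ny] at this
    linarith
  have hr0 : 0 < r := by
    rcases hr.lt_or_eq with h | h
    · exact h
    · exfalso
      rw [← h, zero_mul] at hnin
      have hk0 : k = 0 := by
        rcases mul_eq_zero.1 hnin with h' | h'
        · exact h'
        · exact absurd h' nm.ne
      rw [← h, hk0, zero_smul, zero_smul, add_zero] at heq'
      exact hm.ne' (hind l m heq').2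
  -- scaling
  obtain ⟨l', m', k', hm', hk', hDb⟩ : ∃ l' m' k' : ℝ, 0 < m' ∧ 0 ≤ k' ∧
      D b = l' • D x + m' • D y + k' • D m1 := by
    refine ⟨r⁻¹ * l, r⁻¹ * m, r⁻¹ * k, by positivity, by positivity, ?_⟩
    rw [mul_smul, mul_smul, mul_smul, ← smul_add, ← smul_add, heq', smul_smul,
      inv_mul_cancel₀ hr0.ne', one_smul]
  obtain ⟨o, ho, hdet⟩ := h2 V p Φ hpre.hull z x y hind
  rcases hk'.lt_or_eq with hk0 | hk0
  · -- main case
    have nb : (⟪φ.1, D b⟫ : ℝ) < 0 := by
      rw [hDb, inner_add_right, inner_add_right, inner_smul_right, inner_smul_right,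
        inner_smul_right, nx, ny]
      have := mul_neg_of_pos_of_neg hk0 nm
      linarith
    obtain ⟨u0, hu0, hu0TE, hu0s⟩ := h3 V K p Φ hpre z x y (m1 :: mid') rest
      ⟨hL, tx, ty, hmidTE⟩ o ho hdet
    obtain ⟨ε, hε, hcio⟩ := h6 V (arcs K.tri z) D hci
    obtain ⟨R1, R2, hR⟩ := List.append_of_mem hu0
    set S : List V := u0 :: R2 with hS
    have hSb : S.getLast? = some b := by
      rw [hR, List.getLast?_append] at hb
      rw [hS] at hb ⊢
      cases h : (u0 :: R2).getLast? with
      | none => simp at h
      | some c =>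
        rw [h] at hb
        simpa using hb
    obtain ⟨S', hS'⟩ : ∃ S', S.reverse = b :: S' := by
      have h : S.reverse.head? = some b := by rw [List.head?_reverse]; exact hSb
      cases h' : S.reverse with
      | nil => rw [h'] at h; simp at h
      | cons c S' =>
        rw [h'] at h
        simp only [List.head?_cons, Option.some.injEq] at h
        exact ⟨S', by rw [h]⟩
    set τ : ℝ := ε / (2 * (‖D y‖ + ‖D b‖ + 1)) with hτ
    have hden : 0 < 2 * (‖D y‖ + ‖D b‖ + 1) := by positivity
    have hτ0 : 0 < τ := div_pos hε hden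
    have hτ1 : τ * (‖D y‖ + ‖D b‖ + 1) < ε := by
      have e : τ * (2 * (‖D y‖ + ‖D b‖ + 1)) = ε := by
        rw [hτ]
        exact div_mul_cancel₀ ε hden.ne'
      nlinarith [norm_nonneg (D y), norm_nonneg (D b)]
    set N : Finset E3 := (Φ.filter fun ψ => ev ψ (p z) = 0).image Prod.fst with hN
    have hNmem : ∀ n ∈ N, ∃ ψ ∈ Φ, ev ψ (p z) = 0 ∧ ψ.1 = n := by
      intro n hn
      rw [hN, Finset.mem_image] at hn
      obtain ⟨ψ, hψ, rfl⟩ := hn
      rw [Finset.mem_filter] at hψ
      exact ⟨ψ, hψ.1, hψ.2, rfl⟩
    have hmemN : ∀ ψ ∈ Φ, ev ψ (p z) = 0 → ψ.1 ∈ N := by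
      intro ψ hψ h
      rw [hN, Finset.mem_image]
      exact ⟨ψ, Finset.mem_filter.2 ⟨hψ, h⟩, rfl⟩
    have hNle : ∀ n ∈ N, ∀ u, (⟪n, D u⟫ : ℝ) ≤ 0 := by
      intro n hn u
      obtain ⟨ψ, hψ, h, rfl⟩ := hNmem n hn
      exact hle ψ hψ u h
    set e0 : E3 := D x + τ • D y with he0
    set e1 : E3 := D x + τ • D b with he1
    have key := h5 N o (D x) (D y) e0 (D u0) ((x :: (m1 :: mid') ++ [y]).map D)
      (e0 :: e1 :: S.reverse.map D) ⟨φ.1, hmemN φ hφ ez⟩
      (fun n hn => by
        obtain ⟨ψ, hψ, h, rfl⟩ := hNmem n hn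
        exact ho ψ hψ h) hdet
      (by simp) (by
        rw [List.getLast?_map, List.getLast?_concat, Option.map_some]) (by simp)
      (by
        have e : (e0 :: e1 :: S.reverse.map D).getLast? = (S.reverse.map D).getLast? := by
          rw [hS', List.map_cons, List.getLast?_cons_cons, List.getLast?_cons_cons]
        rw [e, List.getLast?_map, List.getLast?_reverse, hS]
        simp)
      (by
        intro v hv n hn
        rw [List.mem_map] at hv
        obtain ⟨u, -, rfl⟩ := hv
        exact hNle n hn u)
      (by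
        intro v hv n hn
        rw [List.mem_cons, List.mem_cons, List.mem_map] at hv
        rcases hv with rfl | rfl | ⟨u, -, rfl⟩
        · rw [inner_add_right, inner_smul_right]
          have a1 := hNle n hn x
          have a2 := mul_nonpos_of_nonneg_of_nonpos hτ0.le (hNle n hn y)
          linarith
        · rw [inner_add_right, inner_smul_right]
          have a1 := hNle n hn x
          have a2 := mul_nonpos_of_nonneg_of_nonpos hτ0.le (hNle n hn b)
          linarith
        · exact hNle n hn u)
      ⟨φ.1, hmemN φ hφ ez, nx⟩ ⟨φ.1, hmemN φ hφ ez, ny⟩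
      ⟨φ.1, hmemN φ hφ ez, by
        rw [he0, inner_add_right, inner_smul_right, nx, ny]
        ring⟩
      (by
        obtain ⟨ψ, hψ, hz, hu⟩ := hu0TE
        exact ⟨ψ.1, hmemN ψ hψ hz, by rw [hin ψ u0 hz, hu]⟩)
      (by
        intro q hq s t hs ht h
        rw [conseq_map, List.mem_map] at hq
        obtain ⟨⟨q1, q2⟩, hq, rfl⟩ := hq
        exact ci2 hci (harcA q1 q2 hq) hs ht h)
      (by
        intro q hq s t hs ht h
        rw [hS', List.map_cons] at hq
        change q ∈ (e0, e1) :: (e1, D b) :: conseq (D b :: S'.map D) at hq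
        rw [List.mem_cons, List.mem_cons] at hq
        rcases hq with rfl | rfl | hq
        · simp only at h
          have h' := congrArg (fun v => (⟪φ.1, v⟫ : ℝ)) h
          simp only [he0, he1, inner_add_right, inner_smul_right, nx, ny, inner_zero_right] at h'
          have ht0 : t = 0 := by
            have : t * (τ * (⟪φ.1, D b⟫ : ℝ)) = 0 := by linarith
            rcases mul_eq_zero.1 this with h'' | h''
            · exact h''
            · exact absurd h'' (mul_neg_of_pos_of_neg hτ0 nb).ne
          rw [ht0, zero_smul, add_zero, he0, smul_add, smul_smul] at h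
          exact ⟨(hind s (s * τ) h).1, ht0⟩
        · simp only at h
          have h' : (s * τ + t) • D b + s • D x = 0 := by
            rw [← h, he1, smul_add, smul_smul, add_smul]
            abel
          have := ci2 hci harcb (by positivity) hs h'
          refine ⟨this.2, ?_⟩
          have h3 := this.1
          rw [this.2] at h3
          linarith
        · have hq' : q ∈ conseq (S.reverse.map D) := by
            rw [hS', List.map_cons]
            exact hq
          rw [conseq_map, List.mem_map] at hq'
          obtain ⟨⟨q1, q2⟩, hq', rfl⟩ := hq'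
          have h5 := conseq_reverse hq'
          have h6 : (q2, q1) ∈ conseq rest := by
            rw [hR]
            exact conseq_append_right h5
          have h7 := harcR q2 q1 h6
          rw [Finset.pair_comm] at h7
          exact ci2 hci h7 hs ht h)
      ⟨1, τ, 0, one_pos, hτ0, by rw [he0, one_smul, zero_smul, add_zero]⟩
      hu0s
    obtain ⟨q, hq, rr, hrr, s, t, s', t', hs, ht, hs', ht', hE, hne⟩ := key
    rw [conseq_map, List.mem_map] at hq
    obtain ⟨⟨q1, q2⟩, hq, rfl⟩ := hq
    simp only [Prod.map_fst, Prod.map_snd] at hE hne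
    have hqarc := harcA q1 q2 hq
    have hqm := mem_of_conseq hq
    rw [hS', List.map_cons] at hrr
    change rr ∈ (e0, e1) :: (e1, D b) :: conseq (D b :: S'.map D) at hrr
    rw [List.mem_cons, List.mem_cons] at hrr
    rcases hrr with rfl | rfl | hrr
    · -- first segment
      simp only at hE
      have hst : 0 < s' + t' := by
        rcases (add_nonneg hs' ht').lt_or_eq with h | h
        · exact h
        · exfalso
          have hs0 : s' = 0 := by linarith
          have ht0 : t' = 0 := by linarith
          rw [hs0, ht0, zero_smul, zero_smul, add_zero] at hE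
          exact hne hE
      by_cases hxq : x = q1 ∨ x = q2
      · -- the arc is {x, m1}
        have hq12 : q1 = x ∧ q2 = m1 := by
          have hnd2 : (x :: (m1 :: mid') ++ [y]).Nodup := by
            have e : x :: (m1 :: mid' ++ y :: rest) = (x :: (m1 :: mid') ++ [y]) ++ rest := by simp
            rw [e] at hnd
            exact (List.nodup_append.1 hnd).1
          obtain ⟨l1, l2, hl⟩ := mem_conseq.1 hq
          cases l1 with
          | nil =>
            simp only [List.cons_append, List.nil_append, List.cons.injEq] at hl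
            exact ⟨hl.1.symm, hl.2.1.symm⟩
          | cons e l1 =>
            exfalso
            have hl0 := hl
            simp only [List.cons_append, List.cons.injEq] at hl
            have hx : x ∉ m1 :: (mid' ++ [y]) := by
              simpa using (List.nodup_cons.1 hnd2).1
            apply hx
            rw [hl.2]
            rcases hxq with h | h
            · rw [h]; simp
            · rw [h]; simp
        rw [hq12.1, hq12.2, he0, he1, hDb] at hE
        have h' := congrArg (fun v => (⟪φ.1, v⟫ : ℝ)) hE
        simp only [inner_add_right, inner_smul_right, nx, ny] at h'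
        have hc : t = t' * (τ * k') := by
          have : (t - t' * (τ * k')) * (⟪φ.1, D m1⟫ : ℝ) = 0 := by linarith
          rcases mul_eq_zero.1 this with h'' | h''
          · linarith
          · exact absurd h'' nm.ne
        have h0 : (s - (s' + t' + t' * (τ * l'))) • D x +
            (-(s' * τ + t' * (τ * m'))) • D y = 0 := by
          have e : (s - (s' + t' + t' * (τ * l'))) • D x +
            (-(s' * τ + t' * (τ * m'))) • D y = (s • D x + t • D m1) -
              (s' • (D x + τ • D y) + t' • (D x + τ • (l' • D x + m' • D y + k' • D m1))) +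
              (t' * (τ * k') - t) • D m1 := by
            module
          rw [e, hE, hc]
          simp
        have h3 := (hind _ _ h0).2
        have a1 : 0 ≤ s' * τ := mul_nonneg hs' hτ0.le
        have a2 : 0 ≤ t' * (τ * m') := mul_nonneg ht' (mul_pos hτ0 hm').le
        have a3 : s' * τ = 0 := by linarith
        have a4 : t' * (τ * m') = 0 := by linarith
        have hs0 : s' = 0 := (mul_eq_zero.1 a3).resolve_right hτ0.ne'
        have ht0 : t' = 0 := (mul_eq_zero.1 a4).resolve_right (mul_pos hτ0 hm').ne'
        rw [hs0, ht0] at hst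
        simp at hst
      · -- perturb the direction of x
        push Not at hxq
        set w : E3 := (s' + t')⁻¹ • (s' • e0 + t' • e1) with hw
        have hwx : w - D x = (s' / (s' + t') * τ) • D y + (t' / (s' + t') * τ) • D b := by
          have e : s' • e0 + t' • e1 = (s' + t') • D x + (s' * τ) • D y + (t' * τ) • D b := by
            rw [he0, he1]
            module
          rw [hw, e, smul_add, smul_add, smul_smul, smul_smul, smul_smul,
            inv_mul_cancel₀ hst.ne', one_smul, div_mul_eq_mul_div, div_mul_eq_mul_div,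
            div_eq_inv_mul, div_eq_inv_mul]
          abel
        have hwn : ‖w - D x‖ < ε := by
          rw [hwx]
          have b1 : s' / (s' + t') ≤ 1 := by
            rw [div_le_one hst]
            linarith
          have b2 : t' / (s' + t') ≤ 1 := by
            rw [div_le_one hst]
            linarith
          have b3 : 0 ≤ s' / (s' + t') := by positivity
          have b4 : 0 ≤ t' / (s' + t') := by positivity
          calc ‖(s' / (s' + t') * τ) • D y + (t' / (s' + t') * τ) • D b‖
              ≤ ‖(s' / (s' + t') * τ) • D y‖ + ‖(t' / (s' + t') * τ) • D b‖ := norm_add_le _ _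
            _ = (s' / (s' + t') * τ) * ‖D y‖ + (t' / (s' + t') * τ) * ‖D b‖ := by
                rw [norm_smul, norm_smul, Real.norm_of_nonneg (by positivity),
                  Real.norm_of_nonneg (by positivity)]
            _ ≤ (1 * τ) * ‖D y‖ + (1 * τ) * ‖D b‖ := by
                gcongr
            _ ≤ τ * (‖D y‖ + ‖D b‖ + 1) := by nlinarith
            _ < ε := hτ1
        have hci' : ConeInj (arcs K.tri z) (Function.update D x w) := by
          refine hcio _ fun σ _ u _ => ?_
          by_cases hu : u = x
          · rw [hu, Function.update_self]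
            exact hwn
          · rw [Function.update_of_ne hu, sub_self, norm_zero]
            exact hε
        have hE' : ((s' + t')⁻¹ * s) • Function.update D x w q1 +
            ((s' + t')⁻¹ * t) • Function.update D x w q2 =
            (1 : ℝ) • Function.update D x w x + (0 : ℝ) • Function.update D x w m1 := by
          rw [Function.update_of_ne hxq.1.symm, Function.update_of_ne hxq.2.symm,
            Function.update_self, one_smul, zero_smul, add_zero, mul_smul, mul_smul, ← smul_add,
            hE]
        have hc := ci hci' hqarc harcx (by positivity) (by positivity) zero_le_one le_rfl hE' x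
        rw [Pi.single_eq_of_ne hxq.1, Pi.single_eq_of_ne hxq.2, Pi.single_eq_same,
          Pi.single_zero] at hc
        simp at hc
    · -- second segment
      simp only at hE
      have hE' : s • D q1 + t • D q2 = (s' * τ + t') • D b + s' • D x := by
        rw [hE, he1]
        module
      have hc := ci hci hqarc harcb hs ht (by positivity) hs' hE' b
      have hb1 : b ≠ q1 := by
        rintro rfl
        exact hdis b hqm.1 hbr
      have hb2 : b ≠ q2 := by
        rintro rfl
        exact hdis b hqm.2 hbr
      rw [Pi.single_eq_of_ne hb1, Pi.single_eq_of_ne hb2, Pi.single_eq_same,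
        Pi.single_eq_of_ne hbx] at hc
      have a1 : 0 ≤ s' * τ := mul_nonneg hs' hτ0.le
      have a2 : s' * τ = 0 := by linarith
      have hs0 : s' = 0 := (mul_eq_zero.1 a2).resolve_right hτ0.ne'
      have ht0 : t' = 0 := by linarith
      rw [hE'] at hne
      apply hne
      rw [hs0, ht0]
      simp
    · -- the other segments
      have hq' : rr ∈ conseq (S.reverse.map D) := by
        rw [hS', List.map_cons]
        exact hrr
      rw [conseq_map, List.mem_map] at hq'
      obtain ⟨⟨r1, r2⟩, hq', rfl⟩ := hq'
      simp only [Prod.map_fst, Prod.map_snd] at hE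
      have g5 := conseq_reverse hq'
      have g6 : (r2, r1) ∈ conseq rest := by
        rw [hR]
        exact conseq_append_right g5
      have g7 := harcR r2 r1 g6
      rw [Finset.pair_comm] at g7
      have g8 := mem_of_conseq g6
      have n11 : q1 ≠ r1 := by
        rintro rfl
        exact hdis q1 hqm.1 g8.2
      have n12 : q1 ≠ r2 := by
        rintro rfl
        exact hdis q1 hqm.1 g8.1
      have n21 : q2 ≠ r1 := by
        rintro rfl
        exact hdis q2 hqm.2 g8.2
      have n22 : q2 ≠ r2 := by
        rintro rfl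
        exact hdis q2 hqm.2 g8.1
      have hc := ci hci hqarc g7 hs ht hs' ht' hE
      have c1 := hc q1
      have c2 := hc q2
      rw [Pi.single_eq_same, Pi.single_eq_of_ne n11, Pi.single_eq_of_ne n12] at c1
      rw [Pi.single_eq_same, Pi.single_eq_of_ne n21, Pi.single_eq_of_ne n22] at c2
      have p1 := single_nonneg (a := q2) (u := q1) ht
      have p2 := single_nonneg (a := q1) (u := q2) hs
      have hs0 : s = 0 := by linarith
      have ht0 : t = 0 := by linarith
      apply hne
      rw [hs0, ht0]
      simp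
  · -- k = 0
    rw [← hk0, zero_smul, add_zero] at hDb
    have nb : (⟪φ.1, D b⟫ : ℝ) = 0 := by
      rw [hDb, inner_add_right, inner_smul_right, inner_smul_right, nx, ny]
      ring
    have hbTE : TE Φ p z b := ⟨φ, hφ, ez, by rw [← hin φ b ez]; exact nb⟩
    rcases lt_or_ge 0 l' with hl | hl
    · refine h4 V K p Φ hpre z x y (m1 :: mid') rest ⟨hL, tx, ty, hmidTE⟩ o ho hdet b hbr hbTE
        l' m' 0 hl hm' ?_
      rw [zero_smul, add_zero]
      exact hDb
    · have hE : (1 : ℝ) • D b + (-l') • D x = (0 : ℝ) • D w0 + m' • D y := by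
        rw [hDb]
        module
      have hc := ci hci harcb hw0 zero_le_one (by linarith) le_rfl hm'.le hE b
      rw [Pi.single_eq_same, Pi.single_eq_of_ne hbx, Pi.single_eq_of_ne hbw0,
        Pi.single_eq_of_ne hby] at hc
      norm_num at hc

end Pool.Agent.TSQ
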