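import Pool.Agent.TSQ.Stmts

set_option autoImplicit false

namespace Pool.Agent.TSQ

open Pool.Agent.TSM Pool.Agent.TSP

namespace SPA_

theorem conseq_cc {α : Type} (a b : α) (l : List α) :
    conseq (a :: b :: l) = (a, b) :: conseq (b :: l) := rfl

theorem conseq_app {α : Type} (A : List α) (b : α) (C : List α) :
    conseq (A ++ b :: C) = conseq (A ++ [b]) ++ conseq (b :: C) := by
  induction A with
  | nil => simp [conseq]
  | cons a A ih =>
    cases A with
    | nil => simp [conseq]
    | cons a' A =>
      simp only [List.cons_append, conseq_cc] at ih ⊢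
      rw [ih]

theorem mem_conseq {α : Type} (L : List α) : ∀ q ∈ conseq L, q.1 ∈ L ∧ q.2 ∈ L := by
  induction L with
  | nil => intro q hq; simp [conseq] at hq
  | cons a L ih =>
    cases L with
    | nil => intro q hq; simp [conseq] at hq
    | cons b L =>
      intro q hq
      rw [conseq_cc, List.mem_cons] at hq
      rcases hq with rfl | hq
      · simp
      · have := ih q hq
        exact ⟨List.mem_cons_of_mem _ this.1, List.mem_cons_of_mem _ this.2⟩

theorem ex_conseq {α : Type} (L : List α) : ∀ u ∈ L, 2 ≤ L.length →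
    ∃ q ∈ conseq L, u = q.1 ∨ u = q.2 := by
  induction L with
  | nil => intro u hu; simp at hu
  | cons a L ih =>
    cases L with
    | nil => intro u hu h; simp at h
    | cons b L =>
      intro u hu _
      rw [conseq_cc]
      rcases List.mem_cons.1 hu with rfl | hu'
      · exact ⟨(u, b), List.mem_cons_self, Or.inl rfl⟩
      · cases L with
        | nil =>
          have : u = b := by simpa using hu'
          exact ⟨(a, b), List.mem_cons_self, Or.inr this⟩
        | cons c L =>
          obtain ⟨q, hq, h⟩ := ih u hu' (by simp)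
          exact ⟨q, List.mem_cons_of_mem _ hq, h⟩

section
variable {V : Type} [DecidableEq V]

omit [DecidableEq V] in
theorem cyc_eq (x y : V) (mid rest : List V) :
    cyc (x :: (mid ++ y :: rest)) = conseq (x :: mid ++ [y]) ++ conseq (y :: (rest ++ [x])) := by
  have h : x :: (mid ++ y :: rest) ++ [x] = (x :: mid) ++ y :: (rest ++ [x]) := by simp
  show conseq (x :: (mid ++ y :: rest) ++ [x]) = _
  rw [h, conseq_app]

theorem mem_split {T : Finset (Finset V)} {z x y : V} {mid : List V} {t : Finset (Option V)} :
    t ∈ splitTri T z x y mid ↔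
      (∃ t0 ∈ T, (∀ q ∈ conseq (x :: mid ++ [y]), t0 ≠ {z, q.1, q.2}) ∧ t = t0.image some) ∨
      (∃ q ∈ conseq (x :: mid ++ [y]), t = {none, some q.1, some q.2}) ∨
      t = {some z, some x, none} ∨ t = {some z, none, some y} := by
  unfold splitTri
  simp only [Finset.mem_union, Finset.mem_image, Finset.mem_sdiff, List.mem_toFinset,
    Finset.mem_insert, Finset.mem_singleton]
  constructor
  · rintro ((⟨t0, ⟨h1, h2⟩, rfl⟩ | ⟨q, hq, rfl⟩) | h | h)
    · refine Or.inl ⟨t0, h1, fun q hq h => h2 ⟨q, hq, h.symm⟩, rfl⟩
    · exact Or.inr (Or.inl ⟨q, hq, rfl⟩)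
    · exact Or.inr (Or.inr (Or.inl h))
    · exact Or.inr (Or.inr (Or.inr h))
  · rintro (⟨t0, h1, h2, rfl⟩ | ⟨q, hq, rfl⟩ | h | h)
    · refine Or.inl (Or.inl ⟨t0, ⟨h1, ?_⟩, rfl⟩)
      rintro ⟨q, hq, h⟩
      exact h2 q hq h.symm
    · exact Or.inl (Or.inr ⟨q, hq, rfl⟩)
    · exact Or.inr (Or.inl h)
    · exact Or.inr (Or.inr h)

end

end SPA_

open SPA_ in
theorem SPA_proof : Stmt_SPA := by
  intro V _ T z x y mid rest hT hL hmid hrest
  obtain ⟨_, hnd, hz, hlink⟩ := hL
  have hcyc := cyc_eq x y mid rest
  -- nodup facts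
  have hnd' : (x :: mid ++ y :: rest).Nodup := by simpa using hnd
  have hxmid : x ∉ mid := by
    simp only [List.cons_append, List.nodup_cons, List.mem_append, not_or] at hnd'
    exact hnd'.1.1
  have hymid : y ∉ mid := by
    simp only [List.cons_append, List.nodup_cons, List.nodup_append] at hnd'
    intro h
    exact hnd'.2.2.2 y h y (by simp) rfl
  have hrmid : ∀ u ∈ rest, u ∉ mid := by
    simp only [List.cons_append, List.nodup_cons, List.nodup_append] at hnd'
    intro u hu h
    exact hnd'.2.2.2 u h u (by simp [hu]) rfl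
  have hzl : z ≠ x ∧ z ≠ y ∧ z ∉ mid := by
    simp only [List.mem_cons, List.mem_append, not_or] at hz
    exact ⟨hz.1, hz.2.2.1, hz.2.1⟩
  have hsub : ∀ q ∈ conseq (x :: mid ++ [y]), q ∈ cyc (x :: (mid ++ y :: rest)) := by
    intro q hq; rw [hcyc]; exact List.mem_append_left _ hq
  have hTq : ∀ q ∈ conseq (x :: mid ++ [y]), ({z, q.1, q.2} : Finset V) ∈ T := by
    intro q hq
    exact ((hlink {z, q.1, q.2}).2 ⟨q.1, q.2, hsub q hq, rfl⟩).1
  have hmem : ∀ q ∈ conseq (x :: mid ++ [y]), (q.1 = x ∨ q.1 = y ∨ q.1 ∈ mid) ∧
      (q.2 = x ∨ q.2 = y ∨ q.2 ∈ mid) := by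
    intro q hq
    have := mem_conseq _ q hq
    simp only [List.cons_append, List.mem_cons, List.mem_append, List.not_mem_nil,
      or_false] at this
    tauto
  have hnz : ∀ q ∈ conseq (x :: mid ++ [y]), q.1 ≠ z ∧ q.2 ≠ z := by
    intro q hq
    have h := hmem q hq
    refine ⟨?_, ?_⟩
    · rcases h.1 with h | h | h
      · rw [h]; exact hzl.1.symm
      · rw [h]; exact hzl.2.1.symm
      · rintro rfl; exact hzl.2.2 h
    · rcases h.2 with h | h | h
      · rw [h]; exact hzl.1.symm
      · rw [h]; exact hzl.2.1.symm
      · rintro rfl; exact hzl.2.2 h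
  have hlen : 2 ≤ (x :: mid ++ [y]).length := by simp
  have hex : ∀ u, (u = x ∨ u = y ∨ u ∈ mid) → ∃ q ∈ conseq (x :: mid ++ [y]), u = q.1 ∨ u = q.2 := by
    intro u hu
    apply ex_conseq _ u _ hlen
    simp only [List.cons_append, List.mem_cons, List.mem_append, List.not_mem_nil,
      or_false]
    tauto
  -- the pair containing an element of mid
  have hkey : ∀ a b : V, (a, b) ∈ cyc (x :: (mid ++ y :: rest)) → (a ∈ mid ∨ b ∈ mid) →
      (a, b) ∈ conseq (x :: mid ++ [y]) := by
    intro a b hab hm
    rw [hcyc, List.mem_append] at hab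
    rcases hab with h | h
    · exact h
    · exfalso
      have := mem_conseq _ _ h
      simp only [List.mem_cons, List.mem_append, List.not_mem_nil, or_false] at this
      have hno : ∀ u, (u = y ∨ u ∈ rest ∨ u = x) → u ∉ mid := by
        rintro u (rfl | h | rfl)
        · exact hymid
        · exact hrmid u h
        · exact hxmid
      rcases hm with h1 | h1
      · exact hno a this.1 h1
      · exact hno b this.2 h1
  have hadjx : AdjT T z x := by
    obtain ⟨q, hq, h⟩ := hex x (Or.inl rfl)
    refine ⟨hzl.1, _, hTq q hq, by simp, ?_⟩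
    rcases h with h | h <;> simp [← h]
  have hadjy : AdjT T z y := by
    obtain ⟨q, hq, h⟩ := hex y (Or.inr (Or.inl rfl))
    refine ⟨hzl.2.1, _, hTq q hq, by simp, ?_⟩
    rcases h with h | h <;> simp [← h]
  have hsymm : ∀ a b : V, AdjT T a b → AdjT T b a := by
    rintro a b ⟨h1, t, h2, h3, h4⟩
    exact ⟨h1.symm, t, h2, h4, h3⟩
  refine ⟨?_, ?_, ?_, ?_⟩
  · intro u
    constructor
    · rintro ⟨-, t, ht, h1, h2⟩
      rcases mem_split.1 ht with ⟨t0, h3, h4, rfl⟩ | ⟨q, hq, rfl⟩ | rfl | rfl
      · simp at h2
      · have h := hmem q hq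
        simp only [Finset.mem_insert, Finset.mem_singleton, reduceCtorEq, Option.some.injEq,
          false_or] at h1
        rcases h1 with rfl | rfl
        · rcases h.1 with h | h | h
          · exact Or.inl h
          · exact Or.inr (Or.inl h)
          · exact Or.inr (Or.inr (Or.inr h))
        · rcases h.2 with h | h | h
          · exact Or.inl h
          · exact Or.inr (Or.inl h)
          · exact Or.inr (Or.inr (Or.inr h))
      · simp at h1
        tauto
      · simp at h1
        tauto
    · intro h
      refine ⟨by simp, ?_⟩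
      rcases h with h | h | h | h
      · exact ⟨_, mem_split.2 (Or.inr (Or.inr (Or.inl rfl))), by simp [h], by simp⟩
      · exact ⟨_, mem_split.2 (Or.inr (Or.inr (Or.inr rfl))), by simp [h], by simp⟩
      · exact ⟨_, mem_split.2 (Or.inr (Or.inr (Or.inl rfl))), by simp [h], by simp⟩
      · obtain ⟨q, hq, h'⟩ := hex u (Or.inr (Or.inr h))
        refine ⟨_, mem_split.2 (Or.inr (Or.inl ⟨q, hq, rfl⟩)), ?_, by simp⟩
        rcases h' with h' | h' <;> simp [← h']
  · intro u w
    constructor
    · rintro ⟨hne, t, ht, h1, h2⟩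
      have hne' : u ≠ w := fun h => hne (by rw [h])
      rcases mem_split.1 ht with ⟨t0, h3, h4, rfl⟩ | ⟨q, hq, rfl⟩ | rfl | rfl
      · simp only [Finset.mem_image, Option.some.injEq, exists_eq_right] at h1 h2
        have hkill : ∀ a b : V, a ∈ t0 → b ∈ t0 → ¬ (a = z ∧ b ∈ mid) := by
          rintro a b ha hb ⟨rfl, hbm⟩
          obtain ⟨c, d, hcd, rfl⟩ := (hlink t0).1 ⟨h3, ha⟩
          have hb' : b = c ∨ b = d := by
            simp only [Finset.mem_insert, Finset.mem_singleton] at hb
            rcases hb with rfl | h | h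
            · exact absurd hbm hzl.2.2
            · exact Or.inl h
            · exact Or.inr h
          have hcd' := hkey c d hcd (by
            rcases hb' with h | h
            · exact Or.inl (h ▸ hbm)
            · exact Or.inr (h ▸ hbm))
          exact h4 _ hcd' rfl
        exact ⟨⟨hne', t0, h3, h1, h2⟩, hkill u w h1 h2, hkill w u h2 h1⟩
      · simp only [Finset.mem_insert, Finset.mem_singleton, reduceCtorEq, Option.some.injEq,
          false_or] at h1 h2
        have hz' := hnz q hq
        refine ⟨⟨hne', _, hTq q hq, ?_, ?_⟩, ?_, ?_⟩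
        · rcases h1 with h | h <;> simp [h]
        · rcases h2 with h | h <;> simp [h]
        · rintro ⟨rfl, -⟩
          rcases h1 with h | h
          · exact hz'.1 h.symm
          · exact hz'.2 h.symm
        · rintro ⟨rfl, -⟩
          rcases h2 with h | h
          · exact hz'.1 h.symm
          · exact hz'.2 h.symm
      · simp only [Finset.mem_insert, Finset.mem_singleton, reduceCtorEq, Option.some.injEq,
          or_false] at h1 h2
        rcases h1 with rfl | rfl <;> rcases h2 with rfl | rfl
        · exact absurd rfl hne'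
        · exact ⟨hadjx, fun h => hxmid h.2, fun h => hzl.1 h.1.symm⟩
        · exact ⟨hsymm _ _ hadjx, fun h => hzl.1 h.1.symm, fun h => hxmid h.2⟩
        · exact absurd rfl hne'
      · simp only [Finset.mem_insert, Finset.mem_singleton, reduceCtorEq, Option.some.injEq,
          false_or] at h1 h2
        rcases h1 with rfl | rfl <;> rcases h2 with rfl | rfl
        · exact absurd rfl hne'
        · exact ⟨hadjy, fun h => hymid h.2, fun h => hzl.2.1 h.1.symm⟩
        · exact ⟨hsymm _ _ hadjy, fun h => hzl.2.1 h.1.symm, fun h => hymid h.2⟩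
        · exact absurd rfl hne'
    · rintro ⟨⟨hne, t0, ht0, h1, h2⟩, h3, h4⟩
      refine ⟨fun h => hne (Option.some.inj h), ?_⟩
      by_cases hrem : ∀ q ∈ conseq (x :: mid ++ [y]), t0 ≠ {z, q.1, q.2}
      · exact ⟨_, mem_split.2 (Or.inl ⟨t0, ht0, hrem, rfl⟩), by simp [h1], by simp [h2]⟩
      · push Not at hrem
        obtain ⟨q, hq, rfl⟩ := hrem
        have hm := hmem q hq
        simp only [Finset.mem_insert, Finset.mem_singleton] at h1 h2
        -- an end different from mid
        have hend : ∀ a : V, (a = x ∨ a = y ∨ a ∈ mid) → a ∉ mid →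
            ∃ t ∈ splitTri T z x y mid, some z ∈ t ∧ some a ∈ t := by
          rintro a (rfl | rfl | h) hn
          · exact ⟨_, mem_split.2 (Or.inr (Or.inr (Or.inl rfl))), by simp, by simp⟩
          · exact ⟨_, mem_split.2 (Or.inr (Or.inr (Or.inr rfl))), by simp, by simp⟩
          · exact absurd h hn
        have hqt : ({none, some q.1, some q.2} : Finset (Option V)) ∈ splitTri T z x y mid :=
          mem_split.2 (Or.inr (Or.inl ⟨q, hq, rfl⟩))
        rcases h1 with h1 | h1 | h1 <;> rcases h2 with h2 | h2 | h2
        · exact absurd (h1.trans h2.symm) hne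
        · subst h1; subst h2
          exact hend _ hm.1 (fun h => h3 ⟨rfl, h⟩)
        · subst h1; subst h2
          exact hend _ hm.2 (fun h => h3 ⟨rfl, h⟩)
        · subst h1; subst h2
          obtain ⟨t, ha, hb, hc⟩ := hend _ hm.1 (fun h => h4 ⟨rfl, h⟩)
          exact ⟨t, ha, hc, hb⟩
        · exact absurd (h1.trans h2.symm) hne
        · subst h1; subst h2
          exact ⟨_, hqt, by simp, by simp⟩
        · subst h1; subst h2
          obtain ⟨t, ha, hb, hc⟩ := hend _ hm.2 (fun h => h4 ⟨rfl, h⟩)
          exact ⟨t, ha, hc, hb⟩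
        · subst h1; subst h2
          exact ⟨_, hqt, by simp, by simp⟩
        · exact absurd (h1.trans h2.symm) hne
  · intro u v w h
    rcases mem_split.1 h with ⟨t0, h3, h4, h5⟩ | ⟨q, hq, h5⟩ | h5 | h5
    · have : ({some u, some v, some w} : Finset (Option V)) = ({u, v, w} : Finset V).image some := by
        simp [Finset.image_insert]
      rw [this] at h5
      have h6 := Finset.image_injective (Option.some_injective V) h5
      rw [h6]; exact h3
    · exfalso
      have : (none : Option V) ∈ ({some u, some v, some w} : Finset (Option V)) := by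
        rw [h5]; simp
      simp at this
    · exfalso
      have : (none : Option V) ∈ ({some u, some v, some w} : Finset (Option V)) := by
        rw [h5]; simp
      simp at this
    · exfalso
      have : (none : Option V) ∈ ({some u, some v, some w} : Finset (Option V)) := by
        rw [h5]; simp
      simp at this
  · intro u v h
    have hinj : ∀ a b : V, ({none, some u, some v} : Finset (Option V)) = {none, some a, some b} →
        ({u, v} : Finset V) = {a, b} := by
      intro a b hab
      ext c
      have := Finset.ext_iff.1 hab (some c)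
      simpa using this
    rcases mem_split.1 h with ⟨t0, h3, h4, h5⟩ | ⟨q, hq, h5⟩ | h5 | h5
    · exfalso
      have : (none : Option V) ∈ t0.image some := by
        rw [← h5]; simp
      simp at this
    · left
      have h6 := hinj _ _ h5
      rw [h6]; exact hTq q hq
    · right; left
      apply hinj
      rw [h5]
      ext c; simp; tauto
    · right; right
      apply hinj
      rw [h5]
      ext c; simp; tauto

end Pool.Agent.TSQ
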