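import Pool.Agent.TSQ.Stmts

/-!
# TSQ, module SPB: the state `Pre` after a vertex split
-/

set_option autoImplicit false

open scoped RealInnerProductSpace

namespace Pool.Agent.TSQ

open Pool.Agent.TSM Pool.Agent.TSP

namespace SPB_

theorem three {s a A B C : ℝ} (h0 : 0 < s) (h1 : s < 1 / 2)
    (h : a ≤ (1 - 2 * s) * A + s * B + s * C) : a ≤ A ∨ a ≤ B ∨ a ≤ C := by
  by_contra hc
  push Not at hc
  obtain ⟨h2, h3, h4⟩ := hc
  nlinarith

theorem three' {s a A B C : ℝ} (h0 : 0 < s) (h1 : s < 1 / 2)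
    (h : a = (1 - 2 * s) * A + s * B + s * C) : a ≤ A ∨ a ≤ B ∨ a ≤ C :=
  three h0 h1 h.le

theorem inner_newPos {V : Type} (p : V → E3) (z x y : V) (s : ℝ) (u : E3) :
    ⟪u, newPos p z x y s⟫ = (1 - 2 * s) * ⟪u, p z⟫ + s * ⟪u, p x⟫ + s * ⟪u, p y⟫ := by
  unfold newPos
  rw [inner_add_right, inner_smul_right, inner_add_right, inner_sub_right, inner_sub_right]
  ring

end SPB_

open SPB_ in
/-- `Pre` after the split -/
theorem SPB_proof (h1 : Stmt_SPA) (h2 : Stmt_NPS) (h3 : Stmt_BOP) (_h4 : Stmt_EMC) : Stmt_SPB := by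
  intro V _ _ K p Φ z x y mid rest φ hpre hpath hmid hind hpo
  obtain ⟨hlink, hTx, hTy, hTm⟩ := hpath
  obtain ⟨a1, a2, -, -⟩ := h1 V K.tri z x y mid rest K.card3 hlink hmid hpo.rest_ne
  obtain ⟨s1, hs1, hs12, hn⟩ := h2 V p Φ hpre.hull z x y φ hpo.mem hpo.ez hpo.ex hpo.ey hind
  -- stability of balance
  have hε : ∃ ε : ℝ, 0 < ε ∧ ∀ w, Int Φ p w → ∀ X : V → E3, (∀ y, ‖X y - p y‖ < ε) → Bal K X w := by
    have h5 : ∀ w, ∃ ε : ℝ, 0 < ε ∧ (Int Φ p w → ∀ X : V → E3, (∀ y, ‖X y - p y‖ < ε) →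
        Bal K X w) := by
      intro w
      by_cases hw : Int Φ p w
      · obtain ⟨ε, e1, e2⟩ := h3 V K p w (hpre.bal w hw)
        exact ⟨ε, e1, fun _ => e2⟩
      · exact ⟨1, one_pos, fun h => absurd h hw⟩
    choose ε e1 e2 using h5
    have hne : (Finset.univ : Finset V).Nonempty := ⟨z, Finset.mem_univ _⟩
    refine ⟨Finset.univ.inf' hne ε, ?_, ?_⟩
    · rw [Finset.lt_inf'_iff]
      exact fun w _ => e1 w
    · intro w hw X hX
      refine e2 w hw X fun y => lt_of_lt_of_le (hX y) ?_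
      exact Finset.inf'_le _ (Finset.mem_univ w)
  obtain ⟨ε, hε0, hbal⟩ := hε
  set g : E3 := (p x - p z) + (p y - p z) with hg
  have hg0 : 0 < ‖g‖ + 1 := by positivity
  refine ⟨min s1 (ε / (‖g‖ + 1)), lt_min hs1 (div_pos hε0 hg0), ?_⟩
  intro s hs0 hs K' hK' hemb
  have hss1 : s < s1 := lt_of_lt_of_le hs (min_le_left _ _)
  have hse : s * (‖g‖ + 1) < ε := by
    have := lt_of_lt_of_le hs (min_le_right _ _)
    rwa [lt_div_iff₀ hg0] at this
  have hs12' : s < 1 / 2 := hss1.trans hs12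
  obtain ⟨n1, n2, n3, -, -, -⟩ := hn s hs0 hss1
  set q : E3 := newPos p z x y s with hq
  have pn : splitPos p q none = q := rfl
  have ps : ∀ v, splitPos p q (some v) = p v := fun v => rfl
  have hqin : ∀ u : E3, ⟪u, q⟫ = (1 - 2 * s) * ⟪u, p z⟫ + s * ⟪u, p x⟫ + s * ⟪u, p y⟫ :=
    fun u => inner_newPos p z x y s u
  have only : ∀ ψ ∈ Φ, ev ψ q = 0 → ψ = φ := by
    intro ψ hψ h0
    by_contra hne
    have := n2 ψ hψ hne
    linarith
  have adj0 : ∀ u : V, K'.Adj (some u) none ↔ (u = x ∨ u = y ∨ u = z ∨ u ∈ mid) := by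
    intro u
    have := a1 u
    rw [← hK'] at this
    exact this
  have adj1 : ∀ u w : V, K'.Adj (some u) (some w) ↔
      K.Adj u w ∧ ¬ (u = z ∧ w ∈ mid) ∧ ¬ (w = z ∧ u ∈ mid) := by
    intro u w
    have := a2 u w
    rw [← hK'] at this
    exact this
  have adjs : ∀ u w, K'.Adj u w → K'.Adj w u := by
    rintro u w ⟨e1, t, e2, e3, e4⟩
    exact ⟨e1.symm, t, e2, e4, e3⟩
  have adjx : K'.Adj none (some x) := adjs _ _ ((adj0 x).2 (Or.inl rfl))
  have adjy : K'.Adj none (some y) := adjs _ _ ((adj0 y).2 (Or.inr (Or.inl rfl)))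
  have adjz : K'.Adj none (some z) := adjs _ _ ((adj0 z).2 (Or.inr (Or.inr (Or.inl rfl))))
  have lost1 : ∀ v w ψ, ψ ∈ Φ → ev ψ (p v) = 0 → ev ψ (p w) = 0 → ¬ (v = z ∧ w ∈ mid) := by
    rintro v w ψ hψ e1 e2 ⟨rfl, hw⟩
    exact hTm w hw ⟨ψ, hψ, e1, e2⟩
  have lost2 : ∀ v w ψ, ψ ∈ Φ → ev ψ (p v) = 0 → ev ψ (p w) = 0 → ¬ (w = z ∧ v ∈ mid) := by
    rintro v w ψ hψ e1 e2 ⟨rfl, hv⟩
    exact hTm v hv ⟨ψ, hψ, e2, e1⟩
  refine ⟨hemb, ⟨hpre.hull.unit, hpre.hull.normals, hpre.hull.bdd, hpre.hull.int, ?_, ?_, ?_⟩,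
    ?_, ?_, ?_⟩
  · -- facets
    intro ψ hψ
    obtain ⟨a, b, c, e1, e2, e3, e4⟩ := hpre.hull.facet ψ hψ
    exact ⟨some a, some b, some c, e1, e2, e3, e4⟩
  · -- members
    intro v
    cases v with
    | none =>
      intro ψ hψ
      rw [pn]
      by_cases h : ψ = φ
      · rw [h, n1]
      · exact (n2 ψ hψ h).le
    | some v => exact hpre.hull.mem v
  · -- the hull is the convex hull of the vertices
    have hqh : q ∈ TSM.hull Φ := by
      intro ψ hψ
      by_cases h : ψ = φ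
      · rw [h, n1]
      · exact (n2 ψ hψ h).le
    apply Set.Subset.antisymm
    · rw [hpre.hull.eq]
      refine convexHull_mono ?_
      rintro _ ⟨v, rfl⟩
      exact ⟨some v, rfl⟩
    · refine convexHull_min ?_ ?_
      · rintro _ ⟨v, rfl⟩
        cases v with
        | none => exact hqh
        | some v => exact hpre.hull.mem v
      · rw [hpre.hull.eq]
        exact convex_convexHull _ _
  · -- extreme points
    intro e he
    obtain ⟨v, hv, huniq⟩ := hpre.ext e he
    refine ⟨some v, hv, ?_⟩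
    intro w hw
    cases w with
    | none =>
      exfalso
      have hw' : q = e := hw
      exact n3 (hw' ▸ he)
    | some w =>
      rw [huniq w hw]
  · -- the tight vertex condition
    intro φ1 hφ1 ψ hψ z1 u e1 e2 hy1
    cases z1 with
    | none =>
      rw [pn] at e1 e2
      have f1 := only φ1 hφ1 e1
      have f2 := only ψ hψ e2
      subst f1
      subst f2
      have h6 := three' (a := ⟪u, q⟫) hs0 hs12' (hqin u)
      rcases h6 with h6 | h6 | h6
      · exact ⟨some z, adjz, hpo.ez, hpo.ez, h6⟩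
      · exact ⟨some x, adjx, hpo.ex, hpo.ex, h6⟩
      · exact ⟨some y, adjy, hpo.ey, hpo.ey, h6⟩
    | some v =>
      rw [ps] at e1 e2
      obtain ⟨y1, hne, e3, e4, e5⟩ := hy1
      rw [ps] at e5
      have old : (∃ w, w ≠ v ∧ ev φ1 (p w) = 0 ∧ ev ψ (p w) = 0 ∧ ⟪u, p v⟫ ≤ ⟪u, p w⟫) →
          ∃ y2, K'.Adj (some v) y2 ∧ ev φ1 (splitPos p q y2) = 0 ∧ ev ψ (splitPos p q y2) = 0 ∧
            ⟪u, splitPos p q (some v)⟫ ≤ ⟪u, splitPos p q y2⟫ := by
        intro h
        obtain ⟨y2, f1, f2, f3, f4⟩ := hpre.t1 φ1 hφ1 ψ hψ v u e1 e2 h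
        exact ⟨some y2, (adj1 v y2).2 ⟨f1, lost1 v y2 φ1 hφ1 e1 f2, lost2 v y2 φ1 hφ1 e1 f2⟩,
          f2, f3, f4⟩
      cases y1 with
      | none =>
        rw [pn] at e3 e4 e5
        have f1 := only φ1 hφ1 e3
        have f2 := only ψ hψ e4
        subst f1
        subst f2
        by_cases hv : v = x ∨ v = y ∨ v = z
        · refine ⟨none, (adj0 v).2 ?_, n1, n1, e5⟩
          rcases hv with h | h | h
          · exact Or.inl h
          · exact Or.inr (Or.inl h)
          · exact Or.inr (Or.inr (Or.inl h))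
        · push Not at hv
          apply old
          rw [hqin] at e5
          rcases three hs0 hs12' e5 with h6 | h6 | h6
          · exact ⟨z, hv.2.2.symm, hpo.ez, hpo.ez, h6⟩
          · exact ⟨x, hv.1.symm, hpo.ex, hpo.ex, h6⟩
          · exact ⟨y, hv.2.1.symm, hpo.ey, hpo.ey, h6⟩
      | some w =>
        apply old
        exact ⟨w, fun h => hne (by rw [h]), e3, e4, e5⟩
  · -- balance
    intro v hv
    cases v with
    | none =>
      exfalso
      have h6 := hv φ hpo.mem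
      rw [pn, n1] at h6
      exact lt_irrefl _ h6
    | some w =>
      have hw : Int Φ p w := fun ψ hψ => hv ψ hψ
      have hwz : w ≠ z := by
        rintro rfl
        have := hw φ hpo.mem
        rw [hpo.ez] at this
        exact lt_irrefl _ this
      intro ν hν
      by_cases hwm : w ∈ mid
      · have hX : ∀ y, ‖(Function.update p z q) y - p y‖ < ε := by
          intro y'
          by_cases hy' : y' = z
          · rw [hy', Function.update_self]
            have : q - p z = s • g := by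
              rw [hq, newPos, add_sub_cancel_left, hg]
            rw [this, norm_smul, Real.norm_eq_abs, abs_of_pos hs0]
            nlinarith
          · rw [Function.update_of_ne hy', sub_self, norm_zero]
            exact hε0
        obtain ⟨u, f1, f2⟩ := hbal w hw _ hX ν hν
        rw [Function.update_of_ne hwz] at f2
        by_cases hu : u = z
        · rw [hu, Function.update_self] at f2
          exact ⟨none, (adj0 w).2 (Or.inr (Or.inr (Or.inr hwm))), f2⟩
        · rw [Function.update_of_ne hu] at f2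
          exact ⟨some u, (adj1 w u).2 ⟨f1, fun h => hwz h.1, fun h => hu h.1⟩, f2⟩
      · obtain ⟨u, f1, f2⟩ := hpre.bal w hw ν hν
        exact ⟨some u, (adj1 w u).2 ⟨f1, fun h => hwz h.1, fun h => hwm h.2⟩, f2⟩

end Pool.Agent.TSQ
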