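import Pool.Agent.TSQ.Stmts

/-!
# TSQ module SPC: links and cards after a vertex split
-/

set_option autoImplicit false

namespace Pool.Agent.TSQ

open Pool.Agent.TSM Pool.Agent.TSP

namespace SPC_

section
variable {α β : Type}

lemma conseq_map (f : α → β) : ∀ l : List α, conseq (l.map f) = (conseq l).map (Prod.map f f)
  | [] => rfl
  | [_] => rfl
  | a :: b :: l => by
    have ih := conseq_map f (b :: l)
    simp only [List.map_cons] at ih
    simp only [List.map_cons, conseq, ih]
    rfl

lemma mem_conseq : ∀ {l : List α} {p q : α}, (p, q) ∈ conseq l → p ∈ l ∧ q ∈ l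
  | [], _, _, h => by simp [conseq] at h
  | [_], _, _, h => by simp [conseq] at h
  | a :: b :: l, p, q, h => by
    simp only [conseq, List.mem_cons, Prod.mk.injEq] at h
    rcases h with ⟨rfl, rfl⟩ | h
    · exact ⟨List.mem_cons_self, List.mem_cons_of_mem _ List.mem_cons_self⟩
    · have := mem_conseq h
      exact ⟨List.mem_cons_of_mem _ this.1, List.mem_cons_of_mem _ this.2⟩

lemma conseq_append (c : α) (l2 : List α) : ∀ l1 : List α,
    conseq (l1 ++ c :: l2) = conseq (l1 ++ [c]) ++ conseq (c :: l2)
  | [] => by simp [conseq]
  | [a] => by simp [conseq]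
  | a :: b :: l => by
    have ih := conseq_append c l2 (b :: l)
    simp only [List.cons_append] at ih
    simp only [List.cons_append, conseq, ih]

lemma conseq_ne : ∀ {l : List α} {p q : α}, l.Nodup → (p, q) ∈ conseq l → p ≠ q
  | [], _, _, _, h => by simp [conseq] at h
  | [_], _, _, _, h => by simp [conseq] at h
  | a :: b :: l, p, q, hn, h => by
    simp only [conseq, List.mem_cons, Prod.mk.injEq] at h
    rw [List.nodup_cons] at hn
    rcases h with ⟨rfl, rfl⟩ | h
    · intro h'
      apply hn.1
      rw [h']
      exact List.mem_cons_self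
    · exact conseq_ne hn.2 h

lemma conseq_mid (c : α) : ∀ {mid : List α} {a p q : α}, mid ≠ [] →
    (p, q) ∈ conseq (a :: (mid ++ [c])) → p ∈ mid ∨ q ∈ mid
  | [], _, _, _, h, _ => absurd rfl h
  | [m], a, p, q, _, h => by
    simp only [List.cons_append, List.nil_append, conseq, List.mem_cons, Prod.mk.injEq,
      List.not_mem_nil, or_false] at h
    rcases h with ⟨rfl, rfl⟩ | ⟨rfl, rfl⟩
    · right; exact List.mem_cons_self
    · left; exact List.mem_cons_self
  | m :: m' :: l, a, p, q, _, h => by
    have h' : (p, q) = (a, m) ∨ (p, q) ∈ conseq (m :: ((m' :: l) ++ [c])) := by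
      simpa only [List.cons_append, conseq, List.mem_cons] using h
    rcases h' with h' | h'
    · rw [Prod.mk.injEq] at h'
      right
      rw [h'.2]
      exact List.mem_cons_self
    · rcases conseq_mid c (by simp) h' with h2 | h2
      · exact Or.inl (List.mem_cons_of_mem _ h2)
      · exact Or.inr (List.mem_cons_of_mem _ h2)

lemma conseq_head {a b p q : α} {l : List α} (hn : (a :: b :: l).Nodup)
    (h : (p, q) ∈ conseq (a :: b :: l)) (ha : p = a ∨ q = a) : p = a ∧ q = b := by
  simp only [conseq, List.mem_cons, Prod.mk.injEq] at h
  rw [List.nodup_cons] at hn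
  rcases h with h | h
  · exact h
  · have := mem_conseq h
    rcases ha with rfl | rfl
    · exact absurd this.1 hn.1
    · exact absurd this.2 hn.1

lemma conseq_last {m c p q : α} {l : List α} (hn : (l ++ [m, c]).Nodup)
    (h : (p, q) ∈ conseq (l ++ [m, c])) (hc : p = c ∨ q = c) : p = m ∧ q = c := by
  have e : conseq (l ++ [m, c]) = conseq (l ++ [m]) ++ conseq [m, c] := conseq_append m [c] l
  rw [e, List.mem_append] at h
  have hc' : c ∉ l ++ [m] := by
    intro h'
    have e2 : l ++ [m, c] = (l ++ [m]) ++ [c] := by simp
    rw [e2, List.nodup_append] at hn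
    exact hn.2.2 c h' c (by simp) rfl
  rcases h with h | h
  · have := mem_conseq h
    rcases hc with rfl | rfl
    · exact absurd this.1 hc'
    · exact absurd this.2 hc'
  · simpa [conseq] using h

lemma cyc_map (f : α → β) (l : List α) : cyc (l.map f) = (cyc l).map (Prod.map f f) := by
  cases l with
  | nil => rfl
  | cons a l =>
    show conseq (f a :: l.map f ++ [f a]) = _
    have : f a :: l.map f ++ [f a] = (a :: l ++ [a]).map f := by simp
    rw [this, conseq_map]
    rfl

end

section
variable {V W : Type} [DecidableEq V] [DecidableEq W]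

/-- links under injective maps -/
lemma isLink_map {T : Finset (Finset V)} {T' : Finset (Finset W)} {g : V → W}
    (hg : Function.Injective g) {u : V} {l : List V} (hl : IsLink T u l)
    (h : ∀ t' : Finset W, (t' ∈ T' ∧ g u ∈ t') ↔ ∃ t ∈ T, u ∈ t ∧ t' = t.image g) :
    IsLink T' (g u) (l.map g) := by
  obtain ⟨h1, h2, h3, h4⟩ := hl
  refine ⟨by simpa using h1, h2.map hg, ?_, ?_⟩
  · intro h'
    rw [List.mem_map] at h'
    obtain ⟨a, ha, hga⟩ := h'
    rw [hg hga] at ha
    exact h3 ha
  · intro t'
    rw [h t', cyc_map]
    constructor
    · rintro ⟨t, ht, hut, rfl⟩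
      obtain ⟨p, q, hpq, rfl⟩ := (h4 t).1 ⟨ht, hut⟩
      refine ⟨g p, g q, List.mem_map.2 ⟨(p, q), hpq, rfl⟩, ?_⟩
      simp [Finset.image_insert, Finset.image_singleton]
    · rintro ⟨p', q', hpq, rfl⟩
      obtain ⟨⟨p, q⟩, hpq', he⟩ := List.mem_map.1 hpq
      simp only [Prod.map_apply, Prod.mk.injEq] at he
      obtain ⟨rfl, rfl⟩ := he
      have := (h4 {u, p, q}).2 ⟨p, q, hpq', rfl⟩
      refine ⟨_, this.1, this.2, ?_⟩
      simp [Finset.image_insert, Finset.image_singleton]

/-- clean description of the split -/
lemma mem_split {T : Finset (Finset V)} {z x y : V} {mid : List V} {t' : Finset (Option V)} :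
    t' ∈ splitTri T z x y mid ↔
      (∃ t ∈ T, (∀ p q, (p, q) ∈ conseq (x :: (mid ++ [y])) → t ≠ {z, p, q}) ∧
        t' = t.image some) ∨
      (∃ p q, (p, q) ∈ conseq (x :: (mid ++ [y])) ∧ t' = {none, some p, some q}) ∨
      t' = {some z, some x, none} ∨ t' = {some z, none, some y} := by
  unfold splitTri
  simp only [List.cons_append, Finset.mem_union, Finset.mem_image, Finset.mem_sdiff,
    List.mem_toFinset, Finset.mem_insert, Finset.mem_singleton, Prod.exists, not_exists, not_and]
  constructor
  · rintro ((⟨t, ⟨ht, hA⟩, rfl⟩ | ⟨p, q, hpq, rfl⟩) | h)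
    · exact Or.inl ⟨t, ht, fun p q hpq he => hA p q hpq he.symm, rfl⟩
    · exact Or.inr (Or.inl ⟨p, q, hpq, rfl⟩)
    · exact Or.inr (Or.inr h)
  · rintro (⟨t, ht, hA, rfl⟩ | ⟨p, q, hpq, rfl⟩ | h)
    · exact Or.inl (Or.inl ⟨t, ⟨ht, fun p q hpq he => hA p q hpq he.symm⟩, rfl⟩)
    · exact Or.inl (Or.inr ⟨p, q, hpq, rfl⟩)
    · exact Or.inr h

lemma some_mem_image {t : Finset V} {u : V} : some u ∈ t.image some ↔ u ∈ t := by
  simp

lemma none_not_mem_image {t : Finset V} : (none : Option V) ∉ t.image some := by
  simp

lemma image_triple (a b c : V) : ({a, b, c} : Finset V).image some = {some a, some b, some c} := by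
  simp [Finset.image_insert, Finset.image_singleton]

lemma perm1 {W : Type} [DecidableEq W] (a b c : W) : ({a, b, c} : Finset W) = {b, a, c} :=
  Finset.insert_comm a b {c}

lemma perm2 {W : Type} [DecidableEq W] (a b c : W) : ({a, b, c} : Finset W) = {a, c, b} := by
  rw [Finset.pair_comm b c]

lemma link_end {T : Finset (Finset V)} {z x y : V} {mid : List V} {e m : V} {r : List V}
    (he : IsLink T e (z :: m :: r)) (hez : e ≠ z)
    (hA1 : ∀ p q, (p, q) ∈ conseq (x :: (mid ++ [y])) → (p = e ∨ q = e) →
      ({p, q} : Finset V) = {e, m})
    (hA2 : ∃ p q, (p, q) ∈ conseq (x :: (mid ++ [y])) ∧ ({p, q} : Finset V) = {e, m})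
    (hend : ∀ t' : Finset (Option V), some e ∈ t' →
      ((t' = {some z, some x, none} ∨ t' = {some z, none, some y}) ↔
        t' = {some e, some z, none})) :
    IsLink (splitTri T z x y mid) (some e) (some z :: none :: some m :: r.map some) := by
  obtain ⟨h1, h2, h3, h4⟩ := he
  have hr : r ≠ [] := by
    rintro rfl
    simp at h1
  have hn := h2
  simp only [List.nodup_cons, List.mem_cons, not_or] at hn
  obtain ⟨⟨hzm, hzr⟩, hmr, hrn⟩ := hn
  simp only [List.mem_cons, not_or] at h3
  obtain ⟨-, hem, her⟩ := h3
  have hc1 : ∀ p q, (p, q) ∈ cyc (z :: m :: r) ↔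
      (p = z ∧ q = m) ∨ (p, q) ∈ conseq (m :: (r ++ [z])) := by
    intro p q
    show (p, q) ∈ conseq (z :: m :: (r ++ [z])) ↔ _
    simp only [conseq, List.mem_cons, Prod.mk.injEq]
  have hc2 : ∀ a b : Option V, (a, b) ∈ cyc (some z :: none :: some m :: r.map some) ↔
      (a = some z ∧ b = none) ∨ (a = none ∧ b = some m) ∨
        ∃ p q, (p, q) ∈ conseq (m :: (r ++ [z])) ∧ a = some p ∧ b = some q := by
    intro a b
    show (a, b) ∈ conseq (some z :: none :: some m :: (r.map some ++ [some z])) ↔ _
    have e1 : (some m :: (r.map some ++ [some z]) : List (Option V)) =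
        (m :: (r ++ [z])).map some := by simp
    have e2 : conseq (some z :: none :: some m :: (r.map some ++ [some z])) =
        (some z, none) :: (none, some m) :: conseq (some m :: (r.map some ++ [some z])) := rfl
    rw [e2, e1, conseq_map]
    simp only [List.mem_cons, Prod.mk.injEq, List.mem_map, Prod.exists, Prod.map_apply]
    constructor
    · rintro (h | h | ⟨p, q, hpq, rfl, rfl⟩)
      · exact Or.inl h
      · exact Or.inr (Or.inl h)
      · exact Or.inr (Or.inr ⟨p, q, hpq, rfl, rfl⟩)
    · rintro (h | h | ⟨p, q, hpq, rfl, rfl⟩)
      · exact Or.inl h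
      · exact Or.inr (Or.inl h)
      · exact Or.inr (Or.inr ⟨p, q, hpq, rfl, rfl⟩)
  refine ⟨by simp, ?_, ?_, ?_⟩
  · simp only [List.nodup_cons, List.mem_cons, List.mem_map, not_or, reduceCtorEq,
      Option.some.injEq, exists_eq_right, and_false, exists_false, not_false_eq_true, true_and]
    exact ⟨⟨hzm, hzr⟩, hmr, hrn.map (Option.some_injective _)⟩
  · simp only [List.mem_cons, List.mem_map, not_or, reduceCtorEq, Option.some.injEq,
      exists_eq_right, not_false_eq_true, true_and]
    exact ⟨hez, hem, her⟩
  · intro t'
    constructor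
    · rintro ⟨ht', hx⟩
      rw [mem_split] at ht'
      rcases ht' with ⟨t, ht, hA, rfl⟩ | ⟨p, q, hpq, rfl⟩ | h
      · obtain ⟨p, q, hpq, rfl⟩ := (h4 t).1 ⟨ht, some_mem_image.1 hx⟩
        rcases (hc1 p q).1 hpq with ⟨rfl, rfl⟩ | hC
        · exfalso
          obtain ⟨p', q', hpq', he'⟩ := hA2
          apply hA p' q' hpq'
          rw [he']
          exact perm1 _ _ _
        · exact ⟨some p, some q, (hc2 _ _).2 (Or.inr (Or.inr ⟨p, q, hC, rfl, rfl⟩)),
            image_triple _ _ _⟩
      · have hpq' : p = e ∨ q = e := by
          simp only [Finset.mem_insert, reduceCtorEq, Option.some.injEq, Finset.mem_singleton,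
            false_or] at hx
          rcases hx with h | h
          · exact Or.inl h.symm
          · exact Or.inr h.symm
        have h5 := hA1 p q hpq hpq'
        have h6 : ({some p, some q} : Finset (Option V)) = {some e, some m} := by
          have := congrArg (Finset.image some) h5
          simpa [Finset.image_insert, Finset.image_singleton] using this
        refine ⟨none, some m, (hc2 _ _).2 (Or.inr (Or.inl ⟨rfl, rfl⟩)), ?_⟩
        rw [h6]
        exact perm1 _ _ _
      · exact ⟨some z, none, (hc2 _ _).2 (Or.inl ⟨rfl, rfl⟩), (hend _ hx).1 h⟩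
    · rintro ⟨a, b, hab, rfl⟩
      refine ⟨?_, Finset.mem_insert_self _ _⟩
      rw [mem_split]
      rcases (hc2 _ _).1 hab with ⟨rfl, rfl⟩ | ⟨rfl, rfl⟩ | ⟨p, q, hpq, rfl, rfl⟩
      · exact Or.inr (Or.inr ((hend _ (Finset.mem_insert_self _ _)).2 rfl))
      · obtain ⟨p', q', hpq', he'⟩ := hA2
        refine Or.inr (Or.inl ⟨p', q', hpq', ?_⟩)
        have h6 : ({some p', some q'} : Finset (Option V)) = {some e, some m} := by
          have := congrArg (Finset.image some) he'
          simpa [Finset.image_insert, Finset.image_singleton] using this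
        rw [h6]
        exact perm1 _ _ _
      · have ht := (h4 {e, p, q}).2 ⟨p, q, (hc1 p q).2 (Or.inr hpq), rfl⟩
        refine Or.inl ⟨{e, p, q}, ht.1, ?_, (image_triple _ _ _).symm⟩
        intro p' q' hpq' heq
        have h5 : e ∈ ({z, p', q'} : Finset V) := by
          rw [← heq]
          exact Finset.mem_insert_self _ _
        simp only [Finset.mem_insert, Finset.mem_singleton] at h5
        have h6 : p' = e ∨ q' = e := by
          rcases h5 with h | h | h
          · exact absurd h hez
          · exact Or.inl h.symm
          · exact Or.inr h.symm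
        have h7 := hA1 p' q' hpq' h6
        have h8 : ({e, p, q} : Finset V) = {z, e, m} := by
          rw [heq, ← h7]
        have hz1 : z ∈ ({e, p, q} : Finset V) := by
          rw [h8]; simp
        have hm1 : m ∈ ({e, p, q} : Finset V) := by
          rw [h8]; simp
        simp only [Finset.mem_insert, Finset.mem_singleton] at hz1 hm1
        rcases conseq_mid z hr hpq with hp | hq
        · have a1 : z = q := by
            rcases hz1 with h | h | h
            · exact absurd h.symm hez
            · exact absurd (h ▸ hp) hzr
            · exact h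
          have a2 : m = q := by
            rcases hm1 with h | h | h
            · exact absurd h.symm hem
            · exact absurd (h ▸ hp) hmr
            · exact h
          exact hzm (a1.trans a2.symm)
        · have a1 : z = p := by
            rcases hz1 with h | h | h
            · exact absurd h.symm hez
            · exact h
            · exact absurd (h ▸ hq) hzr
          have a2 : m = p := by
            rcases hm1 with h | h | h
            · exact absurd h.symm hem
            · exact h
            · exact absurd (h ▸ hq) hmr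
          exact hzm (a1.trans a2.symm)

end

end SPC_

open SPC_ in
/-- SPC. -/
theorem SPC_proof : Stmt_SPC := by
  intro V _ T z x y mid rest hcard hz hmid hrest
  obtain ⟨g1, g2, g3, g4⟩ := hz
  have hn := g2
  simp only [List.nodup_cons, List.mem_append, List.mem_cons, not_or, List.nodup_append] at hn
  obtain ⟨⟨xm, xy, xr⟩, hmn, ⟨yr, hrn⟩, hdis⟩ := hn
  have g3' := g3
  simp only [List.mem_cons, List.mem_append, not_or] at g3'
  obtain ⟨zx, zm, zy, zr⟩ := g3'
  have ym : y ∉ mid := fun h => hdis y h y (Or.inl rfl) rfl
  have mr : ∀ a ∈ mid, a ∉ rest := fun a ha ha' => hdis a ha a (Or.inr ha') rfl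
  have hAnodup : (x :: (mid ++ [y])).Nodup := by
    simp only [List.nodup_cons, List.mem_append, List.mem_singleton, not_or, List.nodup_append,
      List.not_mem_nil, not_false_eq_true, List.nodup_nil, and_true, true_and]
    refine ⟨⟨xm, xy⟩, hmn, ?_⟩
    intro a ha b hb
    rw [hb]
    exact fun h => ym (h ▸ ha)
  have hcyc : ∀ p q, (p, q) ∈ cyc (x :: (mid ++ y :: rest)) ↔
      (p, q) ∈ conseq (x :: (mid ++ [y])) ∨ (p, q) ∈ conseq (y :: (rest ++ [x])) := by
    intro p q
    have e : cyc (x :: (mid ++ y :: rest)) =
        conseq (x :: (mid ++ [y])) ++ conseq (y :: (rest ++ [x])) := by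
      show conseq (x :: (mid ++ y :: rest) ++ [x]) = _
      have e1 : x :: (mid ++ y :: rest) ++ [x] = (x :: mid) ++ y :: (rest ++ [x]) := by simp
      rw [e1, conseq_append]
      rfl
    rw [e, List.mem_append]
  have hA : ∀ p q, (p, q) ∈ conseq (x :: (mid ++ [y])) →
      (p = x ∨ p ∈ mid ∨ p = y) ∧ (q = x ∨ q ∈ mid ∨ q = y) := by
    intro p q h
    have := mem_conseq h
    simpa only [List.mem_cons, List.mem_append, List.not_mem_nil, or_false] using this
  have hB : ∀ p q, (p, q) ∈ conseq (y :: (rest ++ [x])) →
      (p = y ∨ p ∈ rest ∨ p = x) ∧ (q = y ∨ q ∈ rest ∨ q = x) := by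
    intro p q h
    have := mem_conseq h
    simpa only [List.mem_cons, List.mem_append, List.not_mem_nil, or_false] using this
  have hAz : ∀ p q, (p, q) ∈ conseq (x :: (mid ++ [y])) → p ≠ z ∧ q ≠ z := by
    intro p q h
    obtain ⟨h1, h2⟩ := hA p q h
    constructor
    · rcases h1 with h | h | h
      · rw [h]; exact fun h' => zx h'.symm
      · exact fun h' => zm (h' ▸ h)
      · rw [h]; exact fun h' => zy h'.symm
    · rcases h2 with h | h | h
      · rw [h]; exact fun h' => zx h'.symm
      · exact fun h' => zm (h' ▸ h)
      · rw [h]; exact fun h' => zy h'.symm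
  have hBm : ∀ p q, (p, q) ∈ conseq (y :: (rest ++ [x])) → p ∉ mid ∧ q ∉ mid := by
    intro p q h
    obtain ⟨h1, h2⟩ := hB p q h
    constructor
    · rcases h1 with h | h | h
      · rw [h]; exact ym
      · exact fun h' => mr p h' h
      · rw [h]; exact xm
    · rcases h2 with h | h | h
      · rw [h]; exact ym
      · exact fun h' => mr q h' h
      · rw [h]; exact xm
  have hT : ∀ p q, (p, q) ∈ conseq (x :: (mid ++ [y])) → ({z, p, q} : Finset V) ∈ T :=
    fun p q h => ((g4 {z, p, q}).2 ⟨p, q, (hcyc p q).2 (Or.inl h), rfl⟩).1
  -- a triangle at `z` and at `u ∈ mid`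
  have hmidA : ∀ u ∈ mid, ∀ t ∈ T, z ∈ t → u ∈ t →
      ∃ p q, (p, q) ∈ conseq (x :: (mid ++ [y])) ∧ t = {z, p, q} := by
    intro u hu t ht hzt hut
    obtain ⟨p, q, hpq, rfl⟩ := (g4 t).1 ⟨ht, hzt⟩
    rcases (hcyc p q).1 hpq with h | h
    · exact ⟨p, q, h, rfl⟩
    · exfalso
      simp only [Finset.mem_insert, Finset.mem_singleton] at hut
      rcases hut with h' | h' | h'
      · exact zm (h' ▸ hu)
      · exact (hBm p q h).1 (h' ▸ hu)
      · exact (hBm p q h).2 (h' ▸ hu)
  refine ⟨?_, ?_, ?_, ?_, ?_, ?_, ?_⟩
  · -- cards
    intro t' ht'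
    rw [mem_split] at ht'
    rcases ht' with ⟨t, ht, -, rfl⟩ | ⟨p, q, hpq, rfl⟩ | rfl | rfl
    · rw [Finset.card_image_of_injective _ (Option.some_injective _)]
      exact hcard t ht
    · have hne := conseq_ne hAnodup hpq
      rw [Finset.card_eq_three]
      exact ⟨none, some p, some q, by simp, by simp, by simpa using hne, rfl⟩
    · rw [Finset.card_eq_three]
      exact ⟨some z, some x, none, by simpa using zx, by simp, by simp, rfl⟩
    · rw [Finset.card_eq_three]
      exact ⟨some z, none, some y, by simp, by simpa using zy, by simp, rfl⟩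
  · -- the link of `none`
    have hc : ∀ a b : Option V, (a, b) ∈ cyc (some x :: (mid.map some ++ [some y, some z])) ↔
        (∃ p q, (p, q) ∈ conseq (x :: (mid ++ [y])) ∧ a = some p ∧ b = some q) ∨
          (a = some y ∧ b = some z) ∨ (a = some z ∧ b = some x) := by
      intro a b
      have e : cyc (some x :: (mid.map some ++ [some y, some z])) =
          (conseq (x :: (mid ++ [y]))).map (Prod.map some some) ++
            [(some y, some z), (some z, some x)] := by
        show conseq (some x :: (mid.map some ++ [some y, some z]) ++ [some x]) = _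
        have e1 : some x :: (mid.map some ++ [some y, some z]) ++ [some x] =
            (some x :: mid.map some) ++ some y :: [some z, some x] := by simp
        rw [e1, conseq_append]
        have e2 : (some x :: mid.map some) ++ [some y] = (x :: (mid ++ [y])).map some := by simp
        rw [e2, conseq_map]
        rfl
      rw [e]
      simp only [List.mem_append, List.mem_map, Prod.exists, Prod.map_apply, Prod.mk.injEq,
        List.mem_cons, List.not_mem_nil, or_false]
      constructor
      · rintro (⟨p, q, hpq, rfl, rfl⟩ | h | h)
        · exact Or.inl ⟨p, q, hpq, rfl, rfl⟩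
        · exact Or.inr (Or.inl h)
        · exact Or.inr (Or.inr h)
      · rintro (⟨p, q, hpq, rfl, rfl⟩ | h | h)
        · exact Or.inl ⟨p, q, hpq, rfl, rfl⟩
        · exact Or.inr (Or.inl h)
        · exact Or.inr (Or.inr h)
    refine ⟨by simp, ?_, by simp, ?_⟩
    · have e : (some x :: (mid.map some ++ [some y, some z]) : List (Option V)) =
          (x :: (mid ++ [y, z])).map some := by simp
      rw [e]
      refine List.Nodup.map (Option.some_injective _) ?_
      simp only [List.nodup_cons, List.mem_append, List.mem_cons, not_or, List.nodup_append,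
        List.not_mem_nil, not_false_eq_true, List.nodup_nil, and_true, or_false]
      refine ⟨⟨xm, xy, fun h => zx h.symm⟩, hmn, fun h => zy h.symm, ?_⟩
      intro a ha b hb
      rcases hb with rfl | rfl
      · exact fun h => ym (h ▸ ha)
      · exact fun h => zm (h ▸ ha)
    · intro t'
      constructor
      · rintro ⟨ht', hx⟩
        rw [mem_split] at ht'
        rcases ht' with ⟨t, ht, -, rfl⟩ | ⟨p, q, hpq, rfl⟩ | rfl | rfl
        · exact absurd hx none_not_mem_image
        · exact ⟨some p, some q, (hc _ _).2 (Or.inl ⟨p, q, hpq, rfl, rfl⟩), rfl⟩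
        · refine ⟨some z, some x, (hc _ _).2 (Or.inr (Or.inr ⟨rfl, rfl⟩)), ?_⟩
          rw [perm2, perm1]
        · refine ⟨some y, some z, (hc _ _).2 (Or.inr (Or.inl ⟨rfl, rfl⟩)), ?_⟩
          rw [perm1, perm2]
      · rintro ⟨a, b, hab, rfl⟩
        refine ⟨?_, Finset.mem_insert_self _ _⟩
        rw [mem_split]
        rcases (hc _ _).1 hab with ⟨p, q, hpq, rfl, rfl⟩ | ⟨rfl, rfl⟩ | ⟨rfl, rfl⟩
        · exact Or.inr (Or.inl ⟨p, q, hpq, rfl⟩)
        · refine Or.inr (Or.inr (Or.inr ?_))
          rw [perm2, perm1]
        · refine Or.inr (Or.inr (Or.inl ?_))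
          rw [perm1, perm2]
  · -- the link of `z`
    have hc : ∀ a b : Option V, (a, b) ∈ cyc (some x :: none :: some y :: rest.map some) ↔
        (a = some x ∧ b = none) ∨ (a = none ∧ b = some y) ∨
          ∃ p q, (p, q) ∈ conseq (y :: (rest ++ [x])) ∧ a = some p ∧ b = some q := by
      intro a b
      have e : cyc (some x :: none :: some y :: rest.map some) =
          (some x, none) :: (none, some y) ::
            (conseq (y :: (rest ++ [x]))).map (Prod.map some some) := by
        show conseq (some x :: none :: some y :: (rest.map some ++ [some x])) = _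
        have e1 : (some y :: (rest.map some ++ [some x]) : List (Option V)) =
            (y :: (rest ++ [x])).map some := by simp
        have e2 : conseq (some x :: none :: some y :: (rest.map some ++ [some x])) =
            (some x, none) :: (none, some y) :: conseq (some y :: (rest.map some ++ [some x])) :=
          rfl
        rw [e2, e1, conseq_map]
      rw [e]
      simp only [List.mem_map, Prod.exists, Prod.map_apply, Prod.mk.injEq, List.mem_cons]
      constructor
      · rintro (h | h | ⟨p, q, hpq, rfl, rfl⟩)
        · exact Or.inl h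
        · exact Or.inr (Or.inl h)
        · exact Or.inr (Or.inr ⟨p, q, hpq, rfl, rfl⟩)
      · rintro (h | h | ⟨p, q, hpq, rfl, rfl⟩)
        · exact Or.inl h
        · exact Or.inr (Or.inl h)
        · exact Or.inr (Or.inr ⟨p, q, hpq, rfl, rfl⟩)
    refine ⟨by simp, ?_, ?_, ?_⟩
    · simp only [List.nodup_cons, List.mem_cons, List.mem_map, not_or, reduceCtorEq,
        Option.some.injEq, exists_eq_right, and_false, exists_false, not_false_eq_true, true_and]
      exact ⟨⟨xy, xr⟩, yr, hrn.map (Option.some_injective _)⟩
    · simp only [List.mem_cons, List.mem_map, not_or, reduceCtorEq, Option.some.injEq,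
        exists_eq_right, not_false_eq_true, true_and]
      exact ⟨zx, zy, zr⟩
    · intro t'
      constructor
      · rintro ⟨ht', hx⟩
        rw [mem_split] at ht'
        rcases ht' with ⟨t, ht, hA', rfl⟩ | ⟨p, q, hpq, rfl⟩ | rfl | rfl
        · obtain ⟨p, q, hpq, rfl⟩ := (g4 t).1 ⟨ht, some_mem_image.1 hx⟩
          rcases (hcyc p q).1 hpq with h | h
          · exact absurd rfl (hA' p q h)
          · exact ⟨some p, some q, (hc _ _).2 (Or.inr (Or.inr ⟨p, q, h, rfl, rfl⟩)),
              image_triple _ _ _⟩
        · exfalso
          simp only [Finset.mem_insert, reduceCtorEq, Option.some.injEq, Finset.mem_singleton,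
            false_or] at hx
          have := hAz p q hpq
          rcases hx with h | h
          · exact this.1 h.symm
          · exact this.2 h.symm
        · exact ⟨some x, none, (hc _ _).2 (Or.inl ⟨rfl, rfl⟩), rfl⟩
        · exact ⟨none, some y, (hc _ _).2 (Or.inr (Or.inl ⟨rfl, rfl⟩)), rfl⟩
      · rintro ⟨a, b, hab, rfl⟩
        refine ⟨?_, Finset.mem_insert_self _ _⟩
        rw [mem_split]
        rcases (hc _ _).1 hab with ⟨rfl, rfl⟩ | ⟨rfl, rfl⟩ | ⟨p, q, hpq, rfl, rfl⟩
        · exact Or.inr (Or.inr (Or.inl rfl))
        · exact Or.inr (Or.inr (Or.inr rfl))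
        · have ht := (g4 {z, p, q}).2 ⟨p, q, (hcyc p q).2 (Or.inr hpq), rfl⟩
          refine Or.inl ⟨{z, p, q}, ht.1, ?_, (image_triple _ _ _).symm⟩
          intro p' q' hpq' heq
          have hb := hBm p q hpq
          have hz' := hAz p' q' hpq'
          rcases conseq_mid y hmid hpq' with hp | hq
          · have h5 : p' ∈ ({z, p, q} : Finset V) := by
              rw [heq]; simp
            simp only [Finset.mem_insert, Finset.mem_singleton] at h5
            rcases h5 with h | h | h
            · exact hz'.1 h
            · exact hb.1 (h ▸ hp)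
            · exact hb.2 (h ▸ hp)
          · have h5 : q' ∈ ({z, p, q} : Finset V) := by
              rw [heq]; simp
            simp only [Finset.mem_insert, Finset.mem_singleton] at h5
            rcases h5 with h | h | h
            · exact hz'.2 h
            · exact hb.1 (h ▸ hq)
            · exact hb.2 (h ▸ hq)
  · -- the link of `x`
    intro m r hm hx
    obtain ⟨mid', rfl⟩ : ∃ mid', mid = m :: mid' := by
      cases mid with
      | nil => exact absurd rfl hmid
      | cons a l =>
        simp only [List.head?_cons, Option.some.injEq] at hm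
        exact ⟨l, by rw [hm]⟩
    refine link_end hx (fun h => zx h.symm) ?_ ⟨x, m, by simp [conseq], rfl⟩ ?_
    · intro p q hpq h
      obtain ⟨rfl, rfl⟩ := conseq_head (l := mid' ++ [y]) hAnodup hpq h
      rfl
    · intro t' ht'
      constructor
      · rintro (rfl | rfl)
        · exact perm1 _ _ _
        · exfalso
          simp only [Finset.mem_insert, reduceCtorEq, Option.some.injEq, Finset.mem_singleton,
            false_or] at ht'
          rcases ht' with h | h
          · exact zx h.symm
          · exact xy h
      · intro h
        left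
        rw [h]
        exact perm1 _ _ _
  · -- the link of `y`
    intro m r hm hy
    obtain ⟨mid', rfl⟩ : ∃ mid', mid = mid' ++ [m] := by
      refine ⟨mid.dropLast, ?_⟩
      have h1 := List.getLast?_eq_getLast_of_ne_nil hmid
      rw [h1] at hm
      simp only [Option.some.injEq] at hm
      rw [← hm, List.dropLast_append_getLast]
    have e : x :: (mid' ++ [m] ++ [y]) = (x :: mid') ++ [m, y] := by simp
    refine link_end hy (fun h => zy h.symm) ?_ ⟨m, y, ?_, ?_⟩ ?_
    · intro p q hpq h
      rw [e] at hpq hAnodup
      obtain ⟨rfl, rfl⟩ := conseq_last hAnodup hpq h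
      exact Finset.pair_comm _ _
    · rw [e, conseq_append m [y] (x :: mid'), List.mem_append]
      right
      simp [conseq]
    · exact Finset.pair_comm _ _
    · intro t' ht'
      constructor
      · rintro (rfl | rfl)
        · exfalso
          simp only [Finset.mem_insert, reduceCtorEq, Option.some.injEq, Finset.mem_singleton,
            or_false] at ht'
          rcases ht' with h | h
          · exact zy h.symm
          · exact xy h.symm
        · rw [perm2, perm1]
      · intro h
        right
        rw [h, perm1, perm2]
  · -- the link of `u ∈ mid`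
    intro u r hu hl
    have hzr : z ∉ r := by
      have := hl.2.1
      rw [List.nodup_cons] at this
      exact this.1
    have huz : u ≠ z := fun h => zm (h ▸ hu)
    have key := isLink_map (T' := splitTri T z x y mid) (g := fun v => if v = z then none else some v)
      (by
        intro a b hab
        by_cases h1 : a = z <;> by_cases h2 : b = z
        · rw [h1, h2]
        · simp [h1, h2] at hab
        · simp [h1, h2] at hab
        · simpa [h1, h2] using hab) hl (by
        intro t'
        have hgu : (if u = z then none else some u) = some u := if_neg huz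
        simp only [hgu]
        have himg : ∀ t : Finset V, z ∉ t →
            t.image (fun v => if v = z then none else some v) = t.image some := by
          intro t ht
          refine Finset.image_congr fun v hv => ?_
          have hvz : v ≠ z := by
            rintro rfl
            exact ht (Finset.mem_coe.1 hv)
          exact if_neg hvz
        have himg2 : ∀ p q, p ≠ z → q ≠ z → ({z, p, q} : Finset V).image
            (fun v => if v = z then none else some v) = {none, some p, some q} := by
          intro p q hp hq
          simp [Finset.image_insert, Finset.image_singleton, hp, hq]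
        constructor
        · rintro ⟨ht', hx⟩
          rw [mem_split] at ht'
          rcases ht' with ⟨t, ht, hA', rfl⟩ | ⟨p, q, hpq, rfl⟩ | rfl | rfl
          · have hut := some_mem_image.1 hx
            have hzt : z ∉ t := by
              intro h
              obtain ⟨p, q, hpq, he⟩ := hmidA u hu t ht h hut
              exact hA' p q hpq he
            exact ⟨t, ht, hut, (himg t hzt).symm⟩
          · have hz' := hAz p q hpq
            refine ⟨{z, p, q}, hT p q hpq, ?_, (himg2 p q hz'.1 hz'.2).symm⟩
            simp only [Finset.mem_insert, reduceCtorEq, Option.some.injEq, Finset.mem_singleton,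
              false_or] at hx
            simp only [Finset.mem_insert, Finset.mem_singleton]
            exact Or.inr hx
          · exfalso
            simp only [Finset.mem_insert, reduceCtorEq, Option.some.injEq, Finset.mem_singleton,
              or_false] at hx
            rcases hx with h | h
            · exact huz h
            · exact xm (h ▸ hu)
          · exfalso
            simp only [Finset.mem_insert, reduceCtorEq, Option.some.injEq, Finset.mem_singleton,
              false_or] at hx
            rcases hx with h | h
            · exact huz h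
            · exact ym (h ▸ hu)
        · rintro ⟨t, ht, hut, rfl⟩
          by_cases hzt : z ∈ t
          · obtain ⟨p, q, hpq, rfl⟩ := hmidA u hu t ht hzt hut
            have hz' := hAz p q hpq
            rw [himg2 p q hz'.1 hz'.2]
            refine ⟨mem_split.2 (Or.inr (Or.inl ⟨p, q, hpq, rfl⟩)), ?_⟩
            simp only [Finset.mem_insert, Finset.mem_singleton] at hut
            simp only [Finset.mem_insert, reduceCtorEq, Option.some.injEq, Finset.mem_singleton,
              false_or]
            rcases hut with h | h
            · exact absurd h huz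
            · exact h
          · rw [himg t hzt]
            refine ⟨mem_split.2 (Or.inl ⟨t, ht, ?_, rfl⟩), some_mem_image.2 hut⟩
            intro p q _ he
            apply hzt
            rw [he]
            exact Finset.mem_insert_self _ _)
    have e1 : (if u = z then none else some u) = some u := if_neg huz
    have e2 : (z :: r).map (fun v => if v = z then none else some v) =
        none :: r.map some := by
      rw [List.map_cons, if_pos rfl]
      congr 1
      refine List.map_congr_left fun v hv => ?_
      have hvz : v ≠ z := by
        rintro rfl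
        exact hzr hv
      exact if_neg hvz
    simp only [e1] at key
    rw [e2] at key
    exact key
  · -- the other links
    intro u l hz' hx' hy' hm' hl
    have hnot : ∀ p q, (p, q) ∈ conseq (x :: (mid ++ [y])) → u ≠ p ∧ u ≠ q := by
      intro p q h
      obtain ⟨h1, h2⟩ := hA p q h
      constructor
      · rcases h1 with h | h | h
        · rw [h]; exact hx'
        · exact fun h' => hm' (h' ▸ h)
        · rw [h]; exact hy'
      · rcases h2 with h | h | h
        · rw [h]; exact hx'
        · exact fun h' => hm' (h' ▸ h)
        · rw [h]; exact hy'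
    refine isLink_map (Option.some_injective _) hl ?_
    intro t'
    constructor
    · rintro ⟨ht', hx⟩
      rw [mem_split] at ht'
      rcases ht' with ⟨t, ht, -, rfl⟩ | ⟨p, q, hpq, rfl⟩ | rfl | rfl
      · exact ⟨t, ht, some_mem_image.1 hx, rfl⟩
      · exfalso
        simp only [Finset.mem_insert, reduceCtorEq, Option.some.injEq, Finset.mem_singleton,
          false_or] at hx
        have := hnot p q hpq
        rcases hx with h | h
        · exact this.1 h
        · exact this.2 h
      · exfalso
        simp only [Finset.mem_insert, reduceCtorEq, Option.some.injEq, Finset.mem_singleton,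
          or_false] at hx
        rcases hx with h | h
        · exact hz' h
        · exact hx' h
      · exfalso
        simp only [Finset.mem_insert, reduceCtorEq, Option.some.injEq, Finset.mem_singleton,
          false_or] at hx
        rcases hx with h | h
        · exact hz' h
        · exact hy' h
    · rintro ⟨t, ht, hut, rfl⟩
      refine ⟨mem_split.2 (Or.inl ⟨t, ht, ?_, rfl⟩), some_mem_image.2 hut⟩
      intro p q hpq he
      rw [he] at hut
      simp only [Finset.mem_insert, Finset.mem_singleton] at hut
      have := hnot p q hpq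
      rcases hut with h | h | h
      · exact hz' h
      · exact this.1 h
      · exact this.2 h

end Pool.Agent.TSQ
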