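import Pool.Agent.TSQ.Stmts

set_option autoImplicit false

open scoped RealInnerProductSpace

namespace Pool.Agent.TSQ

open Pool.Agent.TSM Pool.Agent.TSP

namespace SPE_

section lists
variable {α β : Type}

theorem conseq_cc (a b : α) (l : List α) : conseq (a :: b :: l) = (a, b) :: conseq (b :: l) := by
  simp [conseq]

theorem mem_split (l1 : List α) (c : α) (l2 : List α) (q : α × α) :
    q ∈ conseq (l1 ++ c :: l2) ↔ q ∈ conseq (l1 ++ [c]) ∨ q ∈ conseq (c :: l2) := by
  induction l1 with
  | nil =>
    have : conseq [c] = [] := by simp [conseq]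
    simp [this]
  | cons a l ih =>
    cases l with
    | nil =>
      have h1 : conseq [c] = [] := by simp [conseq]
      simp only [List.cons_append, List.nil_append, conseq_cc, List.mem_cons, h1, List.not_mem_nil,
        or_false]
    | cons b l =>
      simp only [List.cons_append, conseq_cc, List.mem_cons] at ih ⊢
      rw [ih, or_assoc]

theorem conseq_map (f : α → β) : ∀ l : List α, conseq (l.map f) = (conseq l).map (Prod.map f f)
  | [] => by simp [conseq]
  | [a] => by simp [conseq]
  | a :: b :: l => by
    have ih := conseq_map f (b :: l)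
    simp only [List.map_cons, conseq_cc] at ih ⊢
    rw [ih]
    rfl

theorem cyc_map (f : α → β) (l : List α) : cyc (l.map f) = (cyc l).map (Prod.map f f) := by
  cases l with
  | nil => rfl
  | cons a l =>
    have h1 : cyc ((a :: l).map f) = conseq (((a :: l) ++ [a]).map f) := by
      simp [cyc]
    rw [h1, conseq_map]
    rfl

theorem mem_of_conseq : ∀ (l : List α) (q : α × α), q ∈ conseq l → q.1 ∈ l ∧ q.2 ∈ l
  | [], q, h => by simp [conseq] at h
  | [a], q, h => by simp [conseq] at h
  | a :: b :: l, q, h => by
    rw [conseq_cc, List.mem_cons] at h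
    rcases h with rfl | h
    · simp
    · have := mem_of_conseq (b :: l) q h
      exact ⟨List.mem_cons_of_mem _ this.1, List.mem_cons_of_mem _ this.2⟩

/-- cyclic pairs of `z :: m :: (r ++ [b])` -/
theorem mem_cyc_end (z m b : α) (r : List α) (q : α × α) :
    q ∈ cyc (z :: m :: (r ++ [b])) ↔
      q = (z, m) ∨ q ∈ conseq (m :: (r ++ [b])) ∨ q = (b, z) := by
  have h1 : cyc (z :: m :: (r ++ [b])) = conseq (z :: m :: (r ++ [b]) ++ [z]) := rfl
  have h2 : z :: m :: (r ++ [b]) ++ [z] = (z :: m :: r) ++ b :: [z] := by simp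
  have h3 : (z :: m :: r) ++ [b] = z :: m :: (r ++ [b]) := by simp
  have h4 : conseq [b, z] = [(b, z)] := by simp [conseq]
  rw [h1, h2, mem_split, h3, conseq_cc, h4, List.mem_cons, List.mem_singleton, or_assoc]

theorem mem_cyc_new (z m : α) (l : List α) (q : Option α × Option α) :
    q ∈ cyc (some z :: none :: some m :: l.map some) ↔
      q = (some z, none) ∨ q = (none, some m) ∨
        ∃ q' ∈ conseq (m :: l ++ [z]), q = (some q'.1, some q'.2) := by
  have h1 : cyc (some z :: none :: some m :: l.map some) =
      conseq (some z :: none :: some m :: (l.map some ++ [some z])) := rfl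
  have h2 : some m :: (l.map some ++ [some z]) = (m :: l ++ [z]).map some := by simp
  rw [h1, conseq_cc, conseq_cc, h2, conseq_map, List.mem_cons, List.mem_cons, List.mem_map]
  constructor
  · rintro (h | h | ⟨q', h, rfl⟩)
    · exact Or.inl h
    · exact Or.inr (Or.inl h)
    · exact Or.inr (Or.inr ⟨q', h, rfl⟩)
  · rintro (h | h | ⟨q', h, rfl⟩)
    · exact Or.inl h
    · exact Or.inr (Or.inl h)
    · exact Or.inr (Or.inr ⟨q', h, rfl⟩)

end lists

section
variable {V : Type} [Fintype V] [DecidableEq V]

omit [DecidableEq V] in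
theorem coneInj_mono {A B : Finset (Finset V)} {d : V → E3} (h : ConeInj A d) (hB : B ⊆ A) :
    ConeInj B d := fun σ hσ τ hτ => h σ (hB hσ) τ (hB hτ)

theorem inner_sub_of_ev {φ : E3 × ℝ} {a b : E3} : ⟪φ.1, a - b⟫ = ev φ a - ev φ b := by
  rw [inner_sub_right]
  simp only [ev]
  ring

omit [Fintype V] [DecidableEq V] in
theorem newPos_symm (p : V → E3) (z x y : V) (s : ℝ) : newPos p z x y s = newPos p z y x s := by
  unfold newPos
  rw [add_comm (p x - p z)]

/-- the end vertices -/
theorem end_case (hLKA : Stmt_LKA) (hCIA : Stmt_CIA) (T : Finset (Finset V)) (p : V → E3)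
    (z x y m b : V) (r : List V) (n : E3) (hL : IsLink T x (z :: m :: (r ++ [b])))
    (hC : ConeInj (arcs T x) (fun u => p u - p x)) (hx : ⟪n, p x - p z⟫ = 0)
    (hy : ⟪n, p y - p z⟫ = 0) (hm : ⟪n, p m - p z⟫ ≠ 0)
    (hI : Indep2 (p x - p z) (p y - p z))
    (hlr : ∀ l μ k r : ℝ, 0 < μ → 0 ≤ k → 0 ≤ r →
      l • (p x - p z) + μ • (p y - p z) + k • (p m - p z) ≠ r • (p b - p z)) :
    ∃ s0 : ℝ, 0 < s0 ∧ ∀ s : ℝ, 0 < s → s < s0 → ∀ T' : Finset (Finset (Option V)),
      IsLink T' (some x) (some z :: none :: some m :: (r ++ [b]).map some) →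
      ConeInj (arcs T' (some x))
        (fun u => splitPos p (newPos p z x y s) u - splitPos p (newPos p z x y s) (some x)) := by
  have hnd := hL.2.1
  have hzm : z ≠ m := by
    intro h; subst h; simp at hnd
  have hzb : z ≠ b := by
    intro h; subst h; simp at hnd
  have hmb : m ≠ b := by
    intro h; subst h; simp at hnd
  have hzl : z ∉ m :: (r ++ [b]) := (List.nodup_cons.1 hnd).1
  have hA : ∀ σ : Finset V, σ ∈ arcs T x ↔ ∃ a c, (a, c) ∈ cyc (z :: m :: (r ++ [b])) ∧
      σ = {a, c} := fun σ => (hLKA V T x).2.2.2.1 _ σ hL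
  obtain ⟨s0, hs0, H⟩ := hCIA V (arcs T x) (fun u => p u - p x) z m b
    ((p x - p z) + (p y - p z)) n hC
    ((hA _).2 ⟨z, m, (mem_cyc_end _ _ _ _ _).2 (Or.inl rfl), rfl⟩)
    ((hA _).2 ⟨b, z, (mem_cyc_end _ _ _ _ _).2 (Or.inr (Or.inr rfl)), rfl⟩)
    (by
      intro σ hσ hz
      obtain ⟨a, c, hac, rfl⟩ := (hA _).1 hσ
      rcases (mem_cyc_end _ _ _ _ _).1 hac with h | h | h
      · left
        rw [Prod.mk.injEq] at h
        rw [h.1, h.2]
      · exfalso
        have h1 := mem_of_conseq _ _ h
        simp only at h1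
        rcases Finset.mem_insert.1 hz with h2 | h2
        · exact hzl (h2 ▸ h1.1)
        · exact hzl ((Finset.mem_singleton.1 h2) ▸ h1.2)
      · right
        rw [Prod.mk.injEq] at h
        rw [h.1, h.2])
    hzm hzb hmb
    (by
      show ⟪n, p z - p x⟫ = 0
      have : p z - p x = -(p x - p z) := by abel
      rw [this, inner_neg_right, hx, neg_zero])
    (by rw [inner_add_right, hx, hy, add_zero])
    (by
      show ⟪n, p m - p x⟫ ≠ 0
      have : p m - p x = (p m - p z) - (p x - p z) := by abel
      rw [this, inner_sub_right, hx, sub_zero]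
      exact hm)
    (by
      intro a c hac
      have h1 : (c - a) • (p x - p z) + c • (p y - p z) = 0 := by
        rw [← hac]
        module
      obtain ⟨h2, h3⟩ := hI _ _ h1
      exact ⟨by linarith, h3⟩)
    (by
      intro l μ k r' hμ hk hr h
      refine hlr (μ - l - k + r') μ k r' hμ hk hr ?_
      have h' : l • (p z - p x) + μ • (p x - p z + (p y - p z)) + k • (p m - p x) -
        r' • (p b - p x) = 0 := sub_eq_zero.2 h
      rw [← sub_eq_zero, ← h']
      module)
  refine ⟨s0, hs0, fun s hs hs' T' hL' => ?_⟩
  have hA' : ∀ σ : Finset (Option V), σ ∈ arcs T' (some x) ↔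
      ∃ a c, (a, c) ∈ cyc (some z :: none :: some m :: (r ++ [b]).map some) ∧ σ = {a, c} :=
    fun σ => (hLKA (Option V) T' (some x)).2.2.2.1 _ σ hL'
  have key := H s hs hs' (arcs T' (some x)) (by
    intro τ hτ
    obtain ⟨a, c, hac, rfl⟩ := (hA' _).1 hτ
    rcases (mem_cyc_new _ _ _ _).1 hac with h | h | ⟨q, hq, h⟩
    · rw [Prod.mk.injEq] at h
      right; left
      rw [h.1, h.2]
    · rw [Prod.mk.injEq] at h
      right; right
      rw [h.1, h.2]
    · rw [Prod.mk.injEq] at h
      left
      have hq2 : q ∈ conseq (m :: (r ++ [b])) ∨ q = (b, z) := by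
        have h2 : m :: (r ++ [b]) ++ [z] = (m :: r) ++ b :: [z] := by simp
        have h3 : (m :: r) ++ [b] = m :: (r ++ [b]) := by simp
        have h4 : conseq [b, z] = [(b, z)] := by simp [conseq]
        rw [h2, mem_split, h3, h4, List.mem_singleton] at hq
        exact hq
      refine ⟨{q.1, q.2}, (hA _).2 ⟨q.1, q.2, (mem_cyc_end _ _ _ _ _).2 ?_, rfl⟩, ?_, ?_⟩
      · rcases hq2 with h5 | h5
        · exact Or.inr (Or.inl h5)
        · exact Or.inr (Or.inr h5)
      · intro he
        rcases hq2 with h5 | h5
        · have h6 := mem_of_conseq _ _ h5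
          have h7 : z ∈ ({q.1, q.2} : Finset V) := by rw [he]; simp
          rcases Finset.mem_insert.1 h7 with h2 | h2
          · exact hzl (h2 ▸ h6.1)
          · exact hzl ((Finset.mem_singleton.1 h2) ▸ h6.2)
        · rw [h5] at he
          have h7 : m ∈ ({b, z} : Finset V) := by
            have : m ∈ ({z, m} : Finset V) := by simp
            rw [← he] at this
            exact this
          rcases Finset.mem_insert.1 h7 with h2 | h2
          · exact hmb h2
          · exact hzm (Finset.mem_singleton.1 h2).symm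
      · rw [h.1, h.2, Finset.image_insert, Finset.image_singleton])
  have hfun : (fun u => splitPos p (newPos p z x y s) u -
      splitPos p (newPos p z x y s) (some x)) =
      fun o : Option V => o.elim (p z - p x + s • (p x - p z + (p y - p z)))
        (fun u => p u - p x) := by
    funext o
    cases o with
    | none =>
      simp only [splitPos, Option.elim, newPos]
      abel
    | some u => rfl
  rw [hfun]
  exact key

end

end SPE_

open SPE_

theorem SPE_proof (hLKA : Stmt_LKA) (hLKB : Stmt_LKB) (_hEMC : Stmt_EMC) (hSPC : Stmt_SPC)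
    (hCIZ : Stmt_CIZ) (hCIW : Stmt_CIW) (hCIA : Stmt_CIA) (hCIM : Stmt_CIM) (hCIS : Stmt_CIS) :
    Stmt_SPE := by
  intro V _ _ K p Φ z x y mid rest φ hPre hPath hmid hI hPo
  have hEmb : ∀ v, ConeInj (arcs K.tri v) (fun u => p u - p v) := hPre.emb
  obtain ⟨hL, hTx, hTy, hTm⟩ := hPath
  have hcard : ∀ t ∈ K.tri, t.card = 3 := K.card3
  obtain ⟨hc', hLn, hLz, hLx, hLy, hLm, hLo⟩ := hSPC V K.tri z x y mid rest hcard hL hmid hPo.rest_ne
  set T' := splitTri K.tri z x y mid with hT'
  have hlinks : ∀ v : V, ∃ l, IsLink K.tri v l := by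
    intro v
    obtain ⟨n, c, h⟩ := K.link v
    exact (hLKB V K.tri v).1 n c h
  have hnd := hL.2.1
  have hz := hL.2.2.1
  have hA : ∀ (v : V) (l : List V), IsLink K.tri v l → ∀ σ : Finset V, σ ∈ arcs K.tri v ↔
      ∃ a c, (a, c) ∈ cyc l ∧ σ = {a, c} := fun v l h σ => (hLKA V K.tri v).2.2.2.1 l σ h
  have hA' : ∀ (v : Option V) (l : List (Option V)), IsLink T' v l → ∀ σ : Finset (Option V),
      σ ∈ arcs T' v ↔ ∃ a c, (a, c) ∈ cyc l ∧ σ = {a, c} :=
    fun v l h σ => (hLKA (Option V) T' v).2.2.2.1 l σ h
  have hix : ⟪φ.1, p x - p z⟫ = 0 := by rw [inner_sub_of_ev, hPo.ex, hPo.ez, sub_zero]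
  have hiy : ⟪φ.1, p y - p z⟫ = 0 := by rw [inner_sub_of_ev, hPo.ey, hPo.ez, sub_zero]
  have him : ∀ u ∈ mid, ⟪φ.1, p u - p z⟫ < 0 := by
    intro u hu
    rw [inner_sub_of_ev, hPo.ez, sub_zero]
    exact hPo.emid u hu
  have hxy : x ≠ y := by
    intro h; subst h; simp at hnd
  have hxz : x ≠ z := by
    intro h; subst h; simp at hz
  have hyz : y ≠ z := by
    intro h; subst h; simp at hz
  have main : ∀ v : Option V, ∃ s0 : ℝ, 0 < s0 ∧ ∀ s : ℝ, 0 < s → s < s0 →
      ConeInj (arcs T' v)
        (fun u => splitPos p (newPos p z x y s) u - splitPos p (newPos p z x y s) v) := by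
    intro v
    cases v with
    | none =>
      have hB : ((conseq (x :: mid ++ [y])).toFinset.image fun q => ({q.1, q.2} : Finset V)) ⊆
          arcs K.tri z := by
        intro σ hσ
        obtain ⟨q, hq, rfl⟩ := Finset.mem_image.1 hσ
        rw [List.mem_toFinset] at hq
        refine (hA z _ hL _).2 ⟨q.1, q.2, ?_, rfl⟩
        have e1 : cyc (x :: (mid ++ y :: rest)) = conseq ((x :: mid) ++ y :: (rest ++ [x])) := by
          simp [cyc]
        rw [e1, mem_split]
        exact Or.inl hq
      have hBmem : ∀ σ ∈ ((conseq (x :: mid ++ [y])).toFinset.image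
          fun q => ({q.1, q.2} : Finset V)), ∀ u ∈ σ, u ∈ x :: mid ++ [y] := by
        intro σ hσ u hu
        obtain ⟨q, hq, rfl⟩ := Finset.mem_image.1 hσ
        rw [List.mem_toFinset] at hq
        have h1 := mem_of_conseq _ _ hq
        rcases Finset.mem_insert.1 hu with h2 | h2
        · rw [h2]; exact h1.1
        · rw [Finset.mem_singleton.1 h2]; exact h1.2
      have hzl : z ∉ x :: mid ++ [y] := by
        intro h
        apply hz
        simp only [List.cons_append, List.mem_cons, List.mem_append, List.not_mem_nil,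
          or_false] at h ⊢
        tauto
      obtain ⟨s0, hs0, H⟩ := hCIW V _ (fun u => p u - p z) x y z φ.1 (coneInj_mono (hEmb z) hB)
        (fun σ hσ hzσ => hzl (hBmem σ hσ z hzσ)) (sub_self _) hxy hxz hyz hI hix hiy (by
          intro σ hσ u hu hux huy
          have h1 := hBmem σ hσ u hu
          simp only [List.cons_append, List.mem_cons, List.mem_append, List.not_mem_nil,
            or_false] at h1
          rcases h1 with h1 | h1 | h1
          · exact absurd h1 hux
          · exact him u h1
          · exact absurd h1 huy)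
      refine ⟨s0, hs0, fun s hs hs' => ?_⟩
      refine hCIS V (((conseq (x :: mid ++ [y])).toFinset.image
        fun q => ({q.1, q.2} : Finset V)) ∪ {{z, x}, {y, z}}) _ ?_ _ ?_
      · have := H s hs hs'
        have hfun : (fun u : V => splitPos p (newPos p z x y s) (some u) -
            splitPos p (newPos p z x y s) none) =
            fun u => (p u - p z) - s • ((p x - p z) + (p y - p z)) := by
          funext u
          simp only [splitPos, Option.elim, newPos]
          abel
        rw [hfun]
        exact this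
      · intro τ hτ
        obtain ⟨a, c, hac, rfl⟩ := (hA' none _ hLn _).1 hτ
        have e1 : cyc (some x :: (mid.map some ++ [some y, some z])) =
            conseq (((x :: mid) ++ y :: [z, x]).map some) := by
          simp [cyc]
        have e2 : conseq [y, z, x] = [(y, z), (z, x)] := by simp [conseq]
        rw [e1, conseq_map, List.mem_map] at hac
        obtain ⟨q, hq, hq'⟩ := hac
        rw [mem_split, e2] at hq
        have hq1 : a = some q.1 := (congrArg Prod.fst hq').symm
        have hq2 : c = some q.2 := (congrArg Prod.snd hq').symm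
        refine ⟨{q.1, q.2}, ?_, by rw [hq1, hq2, Finset.image_insert, Finset.image_singleton]⟩
        rcases hq with h | h
        · exact Finset.mem_union_left _ (Finset.mem_image.2 ⟨q, List.mem_toFinset.2 h, rfl⟩)
        · apply Finset.mem_union_right
          rw [List.mem_cons, List.mem_singleton] at h
          rcases h with h | h
          · rw [h]; simp
          · rw [h]; simp
    | some v =>
      by_cases h1 : v = z
      · subst h1
        refine ⟨1, one_pos, fun s hs _ => ?_⟩
        obtain ⟨m1, mid', rfl⟩ := List.exists_cons_of_ne_nil hmid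
        obtain ⟨r1, rest', hr⟩ := List.exists_cons_of_ne_nil hPo.rest_ne
        subst hr
        have key := hCIZ V (arcs K.tri v) (fun u => p u - p v) x y s hs (hEmb v) hI
          ⟨{x, m1}, (hA v _ hL _).2 ⟨x, m1, by simp [cyc, conseq], rfl⟩, by simp⟩
          ⟨{y, r1}, (hA v _ hL _).2 ⟨y, r1, by
            have e1 : cyc (x :: (m1 :: mid' ++ y :: r1 :: rest')) =
                conseq ((x :: m1 :: mid') ++ y :: (r1 :: rest' ++ [x])) := by
              simp [cyc]
            have e2 : conseq (y :: (r1 :: rest' ++ [x])) = (y, r1) :: conseq (r1 :: (rest' ++ [x])) :=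
              conseq_cc _ _ _
            rw [e1, mem_split, e2]
            exact Or.inr (List.mem_cons_self ..), rfl⟩, by simp⟩
          hPo.free (arcs T' (some v)) (by
            intro τ hτ
            obtain ⟨a, c, hac, rfl⟩ := (hA' (some v) _ hLz _).1 hτ
            rcases (mem_cyc_new _ _ _ _).1 hac with h | h | ⟨q, hq, h⟩
            · rw [Prod.mk.injEq] at h
              right; left
              rw [h.1, h.2]
            · rw [Prod.mk.injEq] at h
              right; right
              rw [h.1, h.2]
            · rw [Prod.mk.injEq] at h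
              left
              refine ⟨{q.1, q.2}, (hA v _ hL _).2 ⟨q.1, q.2, ?_, rfl⟩, by
                rw [h.1, h.2, Finset.image_insert, Finset.image_singleton]⟩
              have e1 : cyc (x :: (m1 :: mid' ++ y :: r1 :: rest')) =
                  conseq ((x :: m1 :: mid') ++ y :: (r1 :: rest' ++ [x])) := by
                simp [cyc]
              rw [e1, mem_split]
              exact Or.inr hq)
        have hfun : (fun u => splitPos p (newPos p v x y s) u -
            splitPos p (newPos p v x y s) (some v)) =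
            fun o : Option V => o.elim (s • ((p x - p v) + (p y - p v)))
              (fun u => p u - p v) := by
          funext o
          cases o with
          | none =>
            simp only [splitPos, Option.elim, newPos]
            abel
          | some u => rfl
        rw [hfun]
        exact key
      by_cases h2 : v = x
      · subst h2
        obtain ⟨m1, mid', hm1⟩ := List.exists_cons_of_ne_nil hmid
        obtain ⟨r0, b, hb⟩ : ∃ r0 b, rest = r0 ++ [b] :=
          ⟨rest.dropLast, rest.getLast hPo.rest_ne, (List.dropLast_append_getLast _).symm⟩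
        obtain ⟨l, hl⟩ := hlinks v
        have hL2 : IsLink K.tri z (v :: m1 :: ((mid' ++ y :: r0) ++ [b])) := by
          have e1 : v :: m1 :: ((mid' ++ y :: r0) ++ [b]) = v :: (mid ++ y :: rest) := by
            rw [hm1, hb]; simp
          rw [e1]; exact hL
        obtain ⟨r', hr'⟩ := (hLKA V K.tri z).2.2.2.2.2 v m1 b _ l hL2 hl
        obtain ⟨s0, hs0, H⟩ := end_case hLKA hCIA K.tri p z v y m1 b r' φ.1 hr' (hEmb v) hix hiy
          (him m1 (by rw [hm1]; simp)).ne hI
          (fun l μ k r => hPo.lrx m1 b (by rw [hm1]; rfl) (by rw [hb]; simp) l μ k r)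
        exact ⟨s0, hs0, fun s hs hs' => H s hs hs' T' (hLx m1 _ (by rw [hm1]; rfl) hr')⟩
      by_cases h3 : v = y
      · subst h3
        obtain ⟨b, rest', hb⟩ := List.exists_cons_of_ne_nil hPo.rest_ne
        obtain ⟨mid', m1, hm1⟩ : ∃ mid' m1, mid = mid' ++ [m1] :=
          ⟨mid.dropLast, mid.getLast hmid, (List.dropLast_append_getLast _).symm⟩
        obtain ⟨l, hl⟩ := hlinks v
        have hL2 : IsLink K.tri z (v :: m1 :: ((mid'.reverse ++ [x] ++ rest'.reverse) ++ [b])) := by
          have e0 : x :: (mid ++ v :: rest) = (x :: mid) ++ (v :: rest) := by simp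
          have h5 := hL
          rw [e0] at h5
          have h6 := (hLKA V K.tri z).1 _ _ h5
          have h7 := (hLKA V K.tri z).2.1 _ h6
          have e1 : (v :: rest ++ x :: mid).reverse =
              (mid.reverse ++ [x] ++ rest.reverse) ++ [v] := by simp
          rw [e1] at h7
          have h8 := (hLKA V K.tri z).1 _ _ h7
          have e2 : v :: m1 :: ((mid'.reverse ++ [x] ++ rest'.reverse) ++ [b]) =
              [v] ++ (mid.reverse ++ [x] ++ rest.reverse) := by
            rw [hm1, hb]; simp
          rw [e2]; exact h8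
        obtain ⟨r', hr'⟩ := (hLKA V K.tri z).2.2.2.2.2 v m1 b _ l hL2 hl
        obtain ⟨s0, hs0, H⟩ := end_case hLKA hCIA K.tri p z v x m1 b r' φ.1 hr' (hEmb v) hiy hix
          (him m1 (by rw [hm1]; simp)).ne hI.symm
          (fun l μ k r => hPo.lry m1 b (by rw [hm1]; simp) (by rw [hb]; rfl) l μ k r)
        refine ⟨s0, hs0, fun s hs hs' => ?_⟩
        rw [newPos_symm p z x v s]
        exact H s hs hs' T' (hLy m1 _ (by rw [hm1]; simp) hr')
      obtain ⟨l, hl⟩ := hlinks v
      by_cases h4 : v ∈ mid
      · have hvl : v ∈ x :: (mid ++ y :: rest) := by simp [h4]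
        have hadj : AdjT K.tri z v := ((hLKA V K.tri z).2.2.1 _ v hL).1 hvl
        have hadj' : AdjT K.tri v z := by
          obtain ⟨h5, t, ht, h6, h7⟩ := hadj
          exact ⟨h5.symm, t, ht, h7, h6⟩
        have hzl : z ∈ l := ((hLKA V K.tri v).2.2.1 _ z hl).2 hadj'
        obtain ⟨l1, l2, rfl⟩ := List.append_of_mem hzl
        have hl2 : IsLink K.tri v (z :: (l2 ++ l1)) := (hLKA V K.tri v).1 _ _ hl
        have hzr : z ∉ l2 ++ l1 := (List.nodup_cons.1 hl2.2.1).1
        have hlm := hLm v (l2 ++ l1) h4 hl2
        obtain ⟨s0, hs0, H⟩ := hCIM V (arcs K.tri v) (fun u => p u - p v) z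
          ((p x - p z) + (p y - p z)) (hEmb v)
        refine ⟨s0, hs0, fun s hs hs' => ?_⟩
        have key := H s hs hs' (arcs T' (some v)) (by
          intro τ hτ
          obtain ⟨a, c, hac, rfl⟩ := (hA' (some v) _ hlm _).1 hτ
          have e1 : (none :: (l2 ++ l1).map some : List (Option V)) =
              (z :: (l2 ++ l1)).map (fun u => if u = z then none else some u) := by
            rw [List.map_cons, if_pos rfl]
            congr 1
            apply List.map_congr_left
            intro u hu
            rw [if_neg]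
            rintro rfl
            exact hzr hu
          rw [e1, cyc_map, List.mem_map] at hac
          obtain ⟨q, hq, hq'⟩ := hac
          have hq1 : a = if q.1 = z then none else some q.1 := (congrArg Prod.fst hq').symm
          have hq2 : c = if q.2 = z then none else some q.2 := (congrArg Prod.snd hq').symm
          refine ⟨{q.1, q.2}, (hA v _ hl2 _).2 ⟨q.1, q.2, hq, rfl⟩, ?_⟩
          rw [hq1, hq2, Finset.image_insert, Finset.image_singleton])
        have hfun : (fun u => splitPos p (newPos p z x y s) u -
            splitPos p (newPos p z x y s) (some v)) =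
            fun o : Option V => o.elim (p z - p v + s • ((p x - p z) + (p y - p z)))
              (fun u => p u - p v) := by
          funext o
          cases o with
          | none =>
            simp only [splitPos, Option.elim, newPos]
            abel
          | some u => rfl
        rw [hfun]
        exact key
      · refine ⟨1, one_pos, fun s _ _ => ?_⟩
        have hlo := hLo v l h1 h2 h3 h4 hl
        refine hCIS V (arcs K.tri v) _ (hEmb v) _ ?_
        intro τ hτ
        obtain ⟨a, c, hac, rfl⟩ := (hA' (some v) _ hlo _).1 hτ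
        rw [cyc_map, List.mem_map] at hac
        obtain ⟨q, hq, hq'⟩ := hac
        have hq1 : a = some q.1 := (congrArg Prod.fst hq').symm
        have hq2 : c = some q.2 := (congrArg Prod.snd hq').symm
        refine ⟨{q.1, q.2}, (hA v _ hl _).2 ⟨q.1, q.2, hq, rfl⟩, ?_⟩
        rw [hq1, hq2, Finset.image_insert, Finset.image_singleton]
  choose f hf using main
  obtain ⟨v0, -, h0⟩ := Finset.exists_min_image Finset.univ f ⟨none, Finset.mem_univ _⟩
  refine ⟨f v0, (hf v0).1, fun s hs hs' v => (hf v).2 s hs (lt_of_lt_of_le hs' (h0 v (Finset.mem_univ _)))⟩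

end Pool.Agent.TSQ
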