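import Pool.Agent.TSQ.Stmts

/-!
# TSQ, module SPH: a vertex split with a close position of the new vertex is a close surface
-/

set_option autoImplicit false

open scoped RealInnerProductSpace

namespace Pool.Agent.TSQ

open Pool.Agent.TSM Pool.Agent.TSP

namespace SPH_

lemma sum_collapse {V : Type} [Fintype V] [DecidableEq V] (p : V → E3) (z : V)
    (w : Option V → ℝ) (g : E3) (s : ℝ) :
    lin (splitPos p (p z + s • g)) w =
      ∑ u, collapse z w u • p u + (w none * s) • g := by
  simp only [lin, Fintype.sum_option, splitPos, Option.elim]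
  have h1 : ∑ u, collapse z w u • p u = ∑ u, w (some u) • p u + w none • p z := by
    simp only [collapse, add_smul, Finset.sum_add_distrib]
    congr 1
    rw [Finset.sum_eq_single z]
    · simp
    · intro u _ hu
      simp [hu]
    · simp
  rw [h1]
  module

end SPH_

open SPH_ in
theorem SPH_proof (hHSP : TSP.Stmt_Hsp) : Stmt_SPH := by
  intro V _ _ K p z x y mid rest hL hmid _ ε hε
  set g : E3 := (p x - p z) + (p y - p z) with hg
  set B : ℝ := ∑ u, ‖p u‖ with hB
  have hB0 : 0 ≤ B := Finset.sum_nonneg fun u _ => norm_nonneg _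
  refine ⟨ε / (2 * (1 + ‖g‖)), by positivity, ?_⟩
  intro s hs hs0 K' hK'
  have hδ : 0 < ε / (2 * (1 + B)) := by positivity
  obtain ⟨h, hh⟩ := hHSP V K.tri z x y mid rest K.card3 hL hmid (ε / (2 * (1 + B))) hδ
  have e1 : K.body = bodyOf K.tri := rfl
  have e2 : bodyOf (splitTri K.tri z x y mid) = K'.body := by rw [← hK']; rfl
  refine ⟨(Homeomorph.setCongr e1).trans (h.trans (Homeomorph.setCongr e2)), ?_⟩
  intro w
  set w' : Option V → ℝ := (h ⟨w.1, w.2⟩).1 with hw'
  have hval : (((Homeomorph.setCongr e1).trans (h.trans (Homeomorph.setCongr e2))) w).1 = w' := rfl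
  have hmem := (h ⟨w.1, w.2⟩).2
  have hnn : ∀ o, 0 ≤ w' o := hmem.1
  have hsum : ∑ o, w' o = 1 := hmem.2.1
  have hn1 : w' none ≤ 1 := by
    rw [← hsum]
    exact Finset.single_le_sum (fun o _ => hnn o) (Finset.mem_univ none)
  have hcl : ∀ u, |collapse z w' u - w.1 u| ≤ ε / (2 * (1 + B)) := fun u => hh ⟨w.1, w.2⟩ u
  have key : K'.map (splitPos p (newPos p z x y s))
      (((Homeomorph.setCongr e1).trans (h.trans (Homeomorph.setCongr e2))) w) - K.map p w =
      ∑ u, (collapse z w' u - w.1 u) • p u + (w' none * s) • g := by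
    have h1 := sum_collapse p z w' g s
    have h2 : K'.map (splitPos p (newPos p z x y s))
      (((Homeomorph.setCongr e1).trans (h.trans (Homeomorph.setCongr e2))) w) =
        lin (splitPos p (p z + s • g)) w' := rfl
    rw [h2, h1]
    simp only [Surf.map, lin, sub_smul, Finset.sum_sub_distrib]
    abel
  rw [key]
  have h3 : ‖∑ u, (collapse z w' u - w.1 u) • p u‖ ≤ ε / (2 * (1 + B)) * B := by
    calc ‖∑ u, (collapse z w' u - w.1 u) • p u‖
        ≤ ∑ u, ‖(collapse z w' u - w.1 u) • p u‖ := norm_sum_le _ _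
      _ ≤ ∑ u, ε / (2 * (1 + B)) * ‖p u‖ := by
          refine Finset.sum_le_sum fun u _ => ?_
          rw [norm_smul, Real.norm_eq_abs]
          exact mul_le_mul_of_nonneg_right (hcl u) (norm_nonneg _)
      _ = ε / (2 * (1 + B)) * B := by rw [← Finset.mul_sum]
  have h4 : ‖(w' none * s) • g‖ ≤ s * ‖g‖ := by
    rw [norm_smul, Real.norm_eq_abs, abs_mul, abs_of_nonneg (hnn none), abs_of_pos hs]
    have : w' none * s ≤ s := by nlinarith
    exact mul_le_mul_of_nonneg_right this (norm_nonneg _)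
  have h5 : ε / (2 * (1 + B)) * B < ε / 2 := by
    rw [div_mul_eq_mul_div, div_lt_div_iff₀ (by positivity) (by norm_num)]
    nlinarith
  have h6 : s * ‖g‖ ≤ ε / 2 := by
    have h7 : s * (2 * (1 + ‖g‖)) < ε := by
      rw [lt_div_iff₀ (by positivity)] at hs0
      exact hs0
    nlinarith [norm_nonneg g]
  calc ‖∑ u, (collapse z w' u - w.1 u) • p u + (w' none * s) • g‖
      ≤ ‖∑ u, (collapse z w' u - w.1 u) • p u‖ + ‖(w' none * s) • g‖ := norm_add_le _ _
    _ < ε := by linarith

end Pool.Agent.TSQ
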