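import Pool.Agent.TSQ.Stmts

/-!
# TSQ.SPR: the corners after a vertex split
-/

set_option autoImplicit false

open scoped RealInnerProductSpace

namespace Pool.Agent.TSQ

open Pool.Agent.TSM Pool.Agent.TSP

namespace SPR_

section
variable {α : Type}

theorem conseq_mem : ∀ (l : List α) (a b : α), (a, b) ∈ conseq l → a ∈ l ∧ b ∈ l
  | [], _, _, h => by simp [conseq] at h
  | [_], _, _, h => by simp [conseq] at h
  | c :: d :: l, a, b, h => by
    rw [conseq, List.mem_cons] at h
    rcases h with h | h
    · obtain ⟨rfl, rfl⟩ := Prod.mk.inj h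
      exact ⟨by simp, by simp⟩
    · obtain ⟨h1, h2⟩ := conseq_mem (d :: l) a b h
      exact ⟨List.mem_cons_of_mem _ h1, List.mem_cons_of_mem _ h2⟩

theorem conseq_app (a b c d : α) (B : List α) : ∀ A : List α, (a, b) ∈ conseq (A ++ c :: d :: B) →
    (a, b) ∈ conseq (A ++ [c]) ∨ (a = c ∧ b = d) ∨ (a, b) ∈ conseq (d :: B)
  | [], h => by
    rw [List.nil_append, conseq, List.mem_cons] at h
    rcases h with h | h
    · exact Or.inr (Or.inl (Prod.mk.inj h))
    · exact Or.inr (Or.inr h)
  | [e], h => by
    have h' : (a, b) ∈ (e, c) :: (c, d) :: conseq (d :: B) := h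
    rw [List.mem_cons, List.mem_cons] at h'
    rcases h' with h | h | h
    · left
      show (a, b) ∈ (e, c) :: conseq [c]
      rw [h]
      exact List.mem_cons_self
    · exact Or.inr (Or.inl (Prod.mk.inj h))
    · exact Or.inr (Or.inr h)
  | e :: f :: A, h => by
    have h' : (a, b) ∈ (e, f) :: conseq ((f :: A) ++ c :: d :: B) := h
    rw [List.mem_cons] at h'
    rcases h' with h | h
    · left
      show (a, b) ∈ (e, f) :: conseq ((f :: A) ++ [c])
      rw [h]
      exact List.mem_cons_self
    · rcases conseq_app a b c d B (f :: A) h with h1 | h1 | h1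
      · left
        show (a, b) ∈ (e, f) :: conseq ((f :: A) ++ [c])
        exact List.mem_cons_of_mem _ h1
      · exact Or.inr (Or.inl h1)
      · exact Or.inr (Or.inr h1)

/-- consecutive pairs of `F ++ P` which go from `F` to `P` or back -/
theorem cyc_cases (F P : List α) (hF : F ≠ []) (hP : P ≠ []) (a b : α) (h : (a, b) ∈ cyc (F ++ P)) :
    (a ∈ F ∧ b ∈ F) ∨ (a ∈ P ∧ b ∈ P) ∨ (∃ F0 P0, F = F0 ++ [a] ∧ P = b :: P0) ∨
      (∃ F0 P0, F = b :: F0 ∧ P = P0 ++ [a]) := by
  obtain ⟨F0, c, hFc⟩ : ∃ F0 c, F = F0 ++ [c] := ⟨F.dropLast, F.getLast hF, (List.dropLast_append_getLast hF).symm⟩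
  obtain ⟨P1, e, hPe⟩ : ∃ P1 e, P = P1 ++ [e] := ⟨P.dropLast, P.getLast hP, (List.dropLast_append_getLast hP).symm⟩
  cases F with
  | nil => exact absurd rfl hF
  | cons f F1 =>
    cases P with
    | nil => exact absurd rfl hP
    | cons d P0 =>
      have h1 : (a, b) ∈ conseq (f :: F1 ++ d :: P0 ++ [f]) := h
      have e1 : f :: F1 ++ d :: P0 ++ [f] = F0 ++ c :: d :: (P0 ++ [f]) := by
        rw [hFc]
        simp
      rw [e1] at h1
      rcases conseq_app a b c d (P0 ++ [f]) F0 h1 with h2 | h2 | h2
      · rw [← hFc] at h2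
        exact Or.inl (conseq_mem _ _ _ h2)
      · right; right; left
        exact ⟨F0, P0, by rw [hFc, h2.1], by rw [h2.2]⟩
      · have e2 : d :: (P0 ++ [f]) = P1 ++ e :: f :: [] := by
          have : d :: (P0 ++ [f]) = (d :: P0) ++ [f] := rfl
          rw [this, hPe]
          simp
        rw [e2] at h2
        rcases conseq_app a b e f [] P1 h2 with h3 | h3 | h3
        · rw [← hPe] at h3
          exact Or.inr (Or.inl (conseq_mem _ _ _ h3))
        · right; right; right
          exact ⟨F1, P1, by rw [h3.2], by rw [hPe, h3.1]⟩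
        · simp [conseq] at h3

theorem between (F P : List α) (hF : F ≠ []) (hP : P ≠ []) (hnd : (F ++ P).Nodup) (z m : α)
    (hz : z ∈ F) (hm : m ∈ P) (h : (z, m) ∈ cyc (F ++ P) ∨ (m, z) ∈ cyc (F ++ P)) :
    (∃ F0 P0, F = F0 ++ [z] ∧ P = m :: P0) ∨ (∃ F0 P0, F = z :: F0 ∧ P = P0 ++ [m]) := by
  have hd := (List.nodup_append.1 hnd).2.2
  have hzP : z ∉ P := fun h => hd z hz z h rfl
  have hmF : m ∉ F := fun h => hd m h m hm rfl
  rcases h with h | h
  · rcases cyc_cases F P hF hP _ _ h with h1 | h1 | h1 | h1
    · exact absurd h1.2 hmF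
    · exact absurd h1.1 hzP
    · exact Or.inl h1
    · obtain ⟨F0, P0, hF1, hP1⟩ := h1
      exact absurd (by rw [hP1]; simp) hzP
  · rcases cyc_cases F P hF hP _ _ h with h1 | h1 | h1 | h1
    · exact absurd h1.1 hmF
    · exact absurd h1.2 hzP
    · obtain ⟨F0, P0, hF1, hP1⟩ := h1
      exact absurd (by rw [hP1]; simp) hzP
    · exact Or.inr h1

end

section
variable {V : Type} [DecidableEq V]

/-- two vertices of a common triangle with the centre of the link are consecutive -/
theorem cyc_of_tri (T : Finset (Finset V)) (w z m : V) (l : List V) (hl : IsLink T w l)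
    (hwz : w ≠ z) (hwm : w ≠ m) (hzm : z ≠ m) (ht : {w, z, m} ∈ T) :
    (z, m) ∈ cyc l ∨ (m, z) ∈ cyc l := by
  obtain ⟨a, b, hab, he⟩ := (hl.2.2.2 {w, z, m}).1 ⟨ht, by simp⟩
  have hz : z ∈ ({w, a, b} : Finset V) := by rw [← he]; simp
  have hm : m ∈ ({w, a, b} : Finset V) := by rw [← he]; simp
  simp only [Finset.mem_insert, Finset.mem_singleton] at hz hm
  rcases hz with h | h | h
  · exact absurd h.symm hwz
  · rcases hm with h2 | h2 | h2
    · exact absurd h2.symm hwm
    · exact absurd (h.trans h2.symm) hzm
    · left; rw [h, h2]; exact hab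
  · rcases hm with h2 | h2 | h2
    · exact absurd h2.symm hwm
    · right; rw [h, h2]; exact hab
    · exact absurd (h.trans h2.symm) hzm

end

section
variable {V : Type} [Fintype V] [DecidableEq V]

/-- the ends `x` and `y` -/
theorem ends (hA : Stmt_LKA) (T : Finset (Finset V)) (T' : Finset (Finset (Option V))) (w z m : V)
    (F P : List V) (hF : F ≠ []) (hP : P ≠ []) (hl : IsLink T w (F ++ P)) (hwz : w ≠ z)
    (hwm : w ≠ m) (hzm : z ≠ m) (ht : {w, z, m} ∈ T) (hz : z ∈ F) (hm : m ∈ P)
    (H : ∀ r : List V, IsLink T w (z :: m :: r) →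
      IsLink T' (some w) (some z :: none :: some m :: r.map some)) :
    ∃ F' : List (Option V), (∀ o ∈ F', o = none ∨ ∃ u ∈ F, o = some u) ∧ (∀ u ∈ F, some u ∈ F') ∧
      F.length ≤ F'.length ∧ IsLink T' (some w) (F' ++ P.map some) := by
  have hA1 := (hA V T w).1
  have hA2 := (hA V T w).2.1
  have hB1 := (hA (Option V) T' (some w)).1
  have hB2 := (hA (Option V) T' (some w)).2.1
  rcases between F P hF hP hl.2.1 z m hz hm (cyc_of_tri T w z m _ hl hwz hwm hzm ht) with h | h
  · obtain ⟨F0, P0, hF0, hP0⟩ := h
    have h1 : IsLink T w (F0 ++ (z :: m :: P0)) := by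
      have : F0 ++ (z :: m :: P0) = F ++ P := by rw [hF0, hP0]; simp
      rw [this]; exact hl
    have h2 : IsLink T w (z :: m :: (P0 ++ F0)) := hA1 _ _ h1
    have h3 := H _ h2
    have h4 : IsLink T' (some w) ((some z :: none :: some m :: P0.map some) ++ F0.map some) := by
      have : (some z :: none :: some m :: P0.map some) ++ F0.map some =
        some z :: none :: some m :: (P0 ++ F0).map some := by simp
      rw [this]; exact h3
    have h5 := hB1 _ _ h4
    refine ⟨F.map some ++ [none], ?_, ?_, ?_, ?_⟩
    · intro o ho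
      rw [List.mem_append] at ho
      rcases ho with ho | ho
      · obtain ⟨u, hu, rfl⟩ := List.mem_map.1 ho
        exact Or.inr ⟨u, hu, rfl⟩
      · left; simpa using ho
    · intro u hu
      rw [List.mem_append]
      left
      exact List.mem_map.2 ⟨u, hu, rfl⟩
    · simp
    · have : F.map some ++ [none] ++ P.map some =
        F0.map some ++ (some z :: none :: some m :: P0.map some) := by rw [hF0, hP0]; simp
      rw [this]; exact h5
  · obtain ⟨F0, P0, hF0, hP0⟩ := h
    have h1 : IsLink T w ((F0 ++ P0 ++ [m]).reverse ++ [z]) := by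
      have h0 := hA2 _ hl
      have : (F0 ++ P0 ++ [m]).reverse ++ [z] = (F ++ P).reverse := by rw [hF0, hP0]; simp
      rw [this]; exact h0
    have h2 : IsLink T w (z :: m :: (P0.reverse ++ F0.reverse)) := by
      have h0 := hA1 _ _ h1
      have : [z] ++ (F0 ++ P0 ++ [m]).reverse = z :: m :: (P0.reverse ++ F0.reverse) := by simp
      rw [this] at h0; exact h0
    have h3 := hB2 _ (H _ h2)
    have h4 : IsLink T' (some w) ((F0 ++ P0 ++ [m]).map some ++ [none, some z]) := by
      have : (F0 ++ P0 ++ [m]).map some ++ [none, some z] =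
        (some z :: none :: some m :: (P0.reverse ++ F0.reverse).map some).reverse := by simp
      rw [this]; exact h3
    have h5 := hB1 _ _ h4
    refine ⟨none :: F.map some, ?_, ?_, ?_, ?_⟩
    · intro o ho
      rw [List.mem_cons] at ho
      rcases ho with ho | ho
      · exact Or.inl ho
      · obtain ⟨u, hu, rfl⟩ := List.mem_map.1 ho
        exact Or.inr ⟨u, hu, rfl⟩
    · intro u hu
      exact List.mem_cons_of_mem _ (List.mem_map.2 ⟨u, hu, rfl⟩)
    · simp
    · have : none :: F.map some ++ P.map some =
        [none, some z] ++ (F0 ++ P0 ++ [m]).map some := by rw [hF0, hP0]; simp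
      rw [this]; exact h5

theorem ev_sub (φ : E3 × ℝ) (a b : E3) : ⟪φ.1, a - b⟫ = ev φ a - ev φ b := by
  unfold ev
  rw [inner_sub_right]
  ring

end

end SPR_

open SPR_ in
theorem SPR_proof (hLKA : Stmt_LKA) (_hLKB : Stmt_LKB) (hSPC : Stmt_SPC) (hNPS : Stmt_NPS) :
    Stmt_SPR := by
  intro V _ _ K p Φ W z x y mid rest φ hPre hPath hmid hind hPoc hzW hCrn
  obtain ⟨s0, hs0, hs0', hN⟩ := hNPS V p Φ hPre.hull z x y φ hPoc.mem hPoc.ez hPoc.ex hPoc.ey hind
  refine ⟨s0, hs0, ?_⟩
  intro s hs hss K' hK' w hw
  obtain ⟨hNφ, hNψ, _⟩ := hN s hs hss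
  obtain ⟨hlz, hTx, hTy, hTmid⟩ := hPath
  have hrest := hPoc.rest_ne
  obtain ⟨_, c2, _, c4, c5, c6, c7⟩ := hSPC V K.tri z x y mid rest K.card3 hlz hmid hrest
  have hB1 := fun v => (hLKA (Option V) (splitTri K.tri z x y mid) v).1
  have hnd := hlz.2.1
  have hzl := hlz.2.2.1
  have hzx : z ≠ x := fun h => hzl (by rw [h]; simp)
  have hzy : z ≠ y := fun h => hzl (by rw [h]; simp)
  have hzm : ∀ u ∈ mid, z ≠ u := fun u hu h => hzl (by rw [h]; simp [hu])
  have hxm : ∀ u ∈ mid, x ≠ u := fun u hu h => (List.nodup_cons.1 hnd).1 (by rw [h]; simp [hu])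
  have hnd2 := (List.nodup_cons.1 hnd).2
  have hym : ∀ u ∈ mid, y ≠ u := fun u hu h =>
    (List.nodup_append.1 hnd2).2.2 u hu y (by simp) h.symm
  rw [Finset.mem_insert] at hw
  rcases hw with rfl | hw
  · -- the new vertex
    refine ⟨φ, hPoc.mem, hNφ, hNψ, [some y, some z, some x], mid.map some, by simp, ?_, ?_, ?_, ?_, ?_⟩
    · intro h
      exact hmid (List.map_eq_nil_iff.1 h)
    · rw [hK']
      have h1 : IsLink (splitTri K.tri z x y mid) none ([some x] ++ (mid.map some ++ [some y, some z])) := c2
      have h2 := hB1 none _ _ h1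
      have h3 : IsLink (splitTri K.tri z x y mid) none (mid.map some ++ [some y, some z, some x]) := by
        have : mid.map some ++ [some y, some z, some x] = mid.map some ++ [some y, some z] ++ [some x] := by simp
        rw [this]; exact h2
      exact hB1 none _ _ h3
    · intro o ho
      simp only [List.mem_cons, List.not_mem_nil, or_false] at ho
      rcases ho with rfl | rfl | rfl
      · exact hPoc.ey
      · exact hPoc.ez
      · exact hPoc.ex
    · intro o ho
      obtain ⟨u, hu, rfl⟩ := List.mem_map.1 ho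
      exact hPoc.emid u hu
    · intro u hu
      by_contra hcon
      push Not at hcon
      have h1 : ⟪u, p x - newPos p z x y s⟫ ≤ 0 := hcon (some x) (by simp)
      have h2 : ⟪u, p y - newPos p z x y s⟫ ≤ 0 := hcon (some y) (by simp)
      have h3 : ⟪u, p z - newPos p z x y s⟫ ≤ 0 := hcon (some z) (by simp)
      have h4 : s * ⟪u, p x - newPos p z x y s⟫ + s * ⟪u, p y - newPos p z x y s⟫ +
          (1 - 2 * s) * ⟪u, p z - newPos p z x y s⟫ = 0 := by
        rw [← inner_smul_right, ← inner_smul_right, ← inner_smul_right, ← inner_add_right, ← inner_add_right]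
        have : s • (p x - newPos p z x y s) + s • (p y - newPos p z x y s) +
            (1 - 2 * s) • (p z - newPos p z x y s) = 0 := by
          unfold newPos
          module
        rw [this, inner_zero_right]
      have h2s : 0 < 1 - 2 * s := by linarith
      have e1 : ⟪u, p x - newPos p z x y s⟫ = 0 := by nlinarith [mul_nonneg hs.le (neg_nonneg.2 h2), mul_nonneg h2s.le (neg_nonneg.2 h3), mul_nonneg hs.le (neg_nonneg.2 h1)]
      have e2 : ⟪u, p y - newPos p z x y s⟫ = 0 := by nlinarith [mul_nonneg hs.le (neg_nonneg.2 h2), mul_nonneg h2s.le (neg_nonneg.2 h3), mul_nonneg hs.le (neg_nonneg.2 h1)]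
      have e3 : ⟪u, p z - newPos p z x y s⟫ = 0 := by nlinarith [mul_nonneg hs.le (neg_nonneg.2 h2), mul_nonneg h2s.le (neg_nonneg.2 h3), mul_nonneg hs.le (neg_nonneg.2 h1)]
      have f1 : ⟪u, p x - p z⟫ = 0 := by
        have : p x - p z = (p x - newPos p z x y s) - (p z - newPos p z x y s) := by abel
        rw [this, inner_sub_right, e1, e3, sub_zero]
      have f2 : ⟪u, p y - p z⟫ = 0 := by
        have : p y - p z = (p y - newPos p z x y s) - (p z - newPos p z x y s) := by abel
        rw [this, inner_sub_right, e2, e3, sub_zero]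
      have hn0 : φ.1 ≠ 0 := by
        intro h
        have := hPre.hull.unit φ hPoc.mem
        rw [h, norm_zero] at this
        exact zero_ne_one this
      have g1 : ⟪φ.1, p x - p z⟫ = 0 := by rw [ev_sub, hPoc.ex, hPoc.ez, sub_zero]
      have g2 : ⟪φ.1, p y - p z⟫ = 0 := by rw [ev_sub, hPoc.ey, hPoc.ez, sub_zero]
      obtain ⟨t, ht⟩ := normal_multiple hn0 g1 g2 hind f1 f2
      exact hu t ht
  · obtain ⟨w, hwW, rfl⟩ := Finset.mem_image.1 hw
    have hwz : w ≠ z := fun h => hzW (h ▸ hwW)
    obtain ⟨φ', hφ', hφw, hψw, F, P, hF3, hP0, hl, hFe, hPe, hbal⟩ := hCrn w hwW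
    have hF0 : F ≠ [] := by
      intro h
      rw [h] at hF3
      simp at hF3
    have hpos : ∀ u : V, splitPos p (newPos p z x y s) (some u) = p u := fun _ => rfl
    have hposn : splitPos p (newPos p z x y s) none = newPos p z x y s := rfl
    have hadj : ∀ u, (u ∈ x :: (mid ++ y :: rest) ↔ AdjT K.tri z u) := fun u => (hLKA V K.tri z).2.2.1 _ u hlz
    by_cases hwm : w ∈ mid
    · -- inner vertices of the path
      have hzl' : z ∈ F ++ P := by
        rw [(hLKA V K.tri w).2.2.1 _ z hl]
        obtain ⟨h1, t, ht, h2, h3⟩ := (hadj w).1 (by simp [hwm])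
        exact ⟨hwz, t, ht, h3, h2⟩
      have hzF : z ∉ F := fun h => hTmid w hwm ⟨φ', hφ', hFe z h, hφw⟩
      have hzP : z ∈ P := (List.mem_append.1 hzl').resolve_left hzF
      obtain ⟨P1, P2, hP12⟩ := List.append_of_mem hzP
      have hne : φ' ≠ φ := by
        intro h
        have := hPoc.emid w hwm
        rw [← h, hφw] at this
        exact lt_irrefl _ this
      have h1 : IsLink K.tri w ((F ++ P1) ++ (z :: P2)) := by
        have : (F ++ P1) ++ (z :: P2) = F ++ P := by rw [hP12]; simp
        rw [this]; exact hl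
      have h2 : IsLink K.tri w (z :: (P2 ++ (F ++ P1))) := (hLKA V K.tri w).1 _ _ h1
      have h3 := c6 w _ hwm h2
      have h4 : IsLink (splitTri K.tri z x y mid) (some w) ((none :: P2.map some) ++ (F ++ P1).map some) := by
        have : (none :: P2.map some) ++ (F ++ P1).map some = none :: (P2 ++ (F ++ P1)).map some := by simp
        rw [this]; exact h3
      have h5 := hB1 _ _ _ h4
      refine ⟨φ', hφ', hφw, hψw, F.map some, P1.map some ++ none :: P2.map some, by simpa using hF3,
        by simp, ?_, ?_, ?_, ?_⟩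
      · rw [hK']
        have : F.map some ++ (P1.map some ++ none :: P2.map some) = (F ++ P1).map some ++ (none :: P2.map some) := by simp
        rw [this]; exact h5
      · intro o ho
        obtain ⟨u, hu, rfl⟩ := List.mem_map.1 ho
        exact hFe u hu
      · intro o ho
        rw [List.mem_append, List.mem_cons] at ho
        rcases ho with ho | ho | ho
        · obtain ⟨u, hu, rfl⟩ := List.mem_map.1 ho
          exact hPe u (by rw [hP12]; simp [hu])
        · rw [ho]
          exact hNψ φ' hφ' hne
        · obtain ⟨u, hu, rfl⟩ := List.mem_map.1 ho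
          exact hPe u (by rw [hP12]; simp [hu])
      · intro u hu
        obtain ⟨v, hv, hv2⟩ := hbal u hu
        exact ⟨some v, List.mem_map.2 ⟨v, hv, rfl⟩, hv2⟩
    · by_cases hxy : w = x ∨ w = y
      · -- the ends
        have hev : ev φ (p w) = 0 := by
          rcases hxy with rfl | rfl
          · exact hPoc.ex
          · exact hPoc.ey
        have hφφ : φ' = φ := by
          by_contra h
          have := hψw φ hPoc.mem (fun h2 => h h2.symm)
          rw [hev] at this
          exact lt_irrefl _ this
        -- the neighbour `m` in `mid`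
        obtain ⟨m, hm, hmt, H⟩ : ∃ m ∈ mid, {w, z, m} ∈ K.tri ∧ ∀ r : List V, IsLink K.tri w (z :: m :: r) →
            IsLink (splitTri K.tri z x y mid) (some w) (some z :: none :: some m :: r.map some) := by
          rcases hxy with rfl | rfl
          · obtain ⟨m, mid', rfl⟩ : ∃ m mid', mid = m :: mid' := by
              cases mid with
              | nil => exact absurd rfl hmid
              | cons m mid' => exact ⟨m, mid', rfl⟩
            refine ⟨m, by simp, ?_, fun r hr => c4 m r rfl hr⟩
            have h1 : {z, w, m} ∈ K.tri := by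
              refine ((hlz.2.2.2 {z, w, m}).2 ⟨w, m, ?_, rfl⟩).1
              show (w, m) ∈ (w, m) :: _
              exact List.mem_cons_self
            have : ({w, z, m} : Finset V) = {z, w, m} := Finset.insert_comm _ _ _
            rw [this]; exact h1
          · obtain ⟨mid', m, rfl⟩ : ∃ mid' m, mid = mid' ++ [m] :=
              ⟨mid.dropLast, mid.getLast hmid, (List.dropLast_append_getLast hmid).symm⟩
            refine ⟨m, by simp, ?_, fun r hr => c5 m r (by simp) hr⟩
            have h0 : IsLink K.tri z (m :: w :: (rest ++ x :: mid')) := by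
              have h1 : IsLink K.tri z ((x :: mid') ++ (m :: w :: rest)) := by
                have : (x :: mid') ++ (m :: w :: rest) = x :: (mid' ++ [m] ++ w :: rest) := by simp
                rw [this]; exact hlz
              exact (hLKA V K.tri z).1 _ _ h1
            have h1 : {z, m, w} ∈ K.tri := by
              refine ((h0.2.2.2 {z, m, w}).2 ⟨m, w, ?_, rfl⟩).1
              show (m, w) ∈ (m, w) :: _
              exact List.mem_cons_self
            have : ({w, z, m} : Finset V) = {z, m, w} := by
              ext a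
              simp only [Finset.mem_insert, Finset.mem_singleton]
              tauto
            rw [this]; exact h1
        have hwm' : w ≠ m := fun h => hwm (h ▸ hm)
        have hmev : ev φ (p m) < 0 := hPoc.emid m hm
        have hzP : z ∉ P := by
          intro h
          have := hPe z h
          rw [hφφ, hPoc.ez] at this
          exact lt_irrefl _ this
        have hzl' : z ∈ F ++ P := by
          rw [(hLKA V K.tri w).2.2.1 _ z hl]
          exact ⟨hwz, _, hmt, by simp, by simp⟩
        have hzF : z ∈ F := (List.mem_append.1 hzl').resolve_right hzP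
        have hmF : m ∉ F := by
          intro h
          have := hFe m h
          rw [hφφ] at this
          linarith
        have hml' : m ∈ F ++ P := by
          rw [(hLKA V K.tri w).2.2.1 _ m hl]
          exact ⟨hwm', _, hmt, by simp, by simp⟩
        have hmP : m ∈ P := (List.mem_append.1 hml').resolve_left hmF
        obtain ⟨F', hF'1, hF'2, hF'3, hF'4⟩ := ends hLKA K.tri (splitTri K.tri z x y mid) w z m F P hF0 hP0 hl
          hwz hwm' (hzm m hm) hmt hzF hmP H
        refine ⟨φ', hφ', hφw, hψw, F', P.map some, le_trans hF3 hF'3, ?_, ?_, ?_, ?_, ?_⟩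
        · intro h
          exact hP0 (List.map_eq_nil_iff.1 h)
        · rw [hK']
          exact hF'4
        · intro o ho
          rcases hF'1 o ho with rfl | ⟨u, hu, rfl⟩
          · rw [hφφ]
            exact hNφ
          · exact hFe u hu
        · intro o ho
          obtain ⟨u, hu, rfl⟩ := List.mem_map.1 ho
          exact hPe u hu
        · intro u hu
          obtain ⟨v, hv, hv2⟩ := hbal u hu
          exact ⟨some v, hF'2 v hv, hv2⟩
      · -- all other vertices
        push Not at hxy
        have h1 := c7 w _ hwz hxy.1 hxy.2 hwm hl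
        refine ⟨φ', hφ', hφw, hψw, F.map some, P.map some, by simpa using hF3, ?_, ?_, ?_, ?_, ?_⟩
        · intro h
          exact hP0 (List.map_eq_nil_iff.1 h)
        · rw [hK', ← List.map_append]
          exact h1
        · intro o ho
          obtain ⟨u, hu, rfl⟩ := List.mem_map.1 ho
          exact hFe u hu
        · intro o ho
          obtain ⟨u, hu, rfl⟩ := List.mem_map.1 ho
          exact hPe u hu
        · intro u hu
          obtain ⟨v, hv, hv2⟩ := hbal u hu
          exact ⟨some v, List.mem_map.2 ⟨v, hv, rfl⟩, hv2⟩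

end Pool.Agent.TSQ
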