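import Pool.Agent.TSQ.Stmts

/-!
# SPS: a vertex split of a closed surface is a closed surface
-/

set_option autoImplicit false

open scoped RealInnerProductSpace

namespace Pool.Agent.TSQ

open Pool.Agent.TSM Pool.Agent.TSP

namespace SPS_

theorem mem_conseq {α : Type} (l1 l2 : List α) (a b : α) :
    (a, b) ∈ conseq (l1 ++ a :: b :: l2) := by
  induction l1 with
  | nil => simp [conseq]
  | cons c l1 ih =>
    cases l1 with
    | nil => simp [conseq]
    | cons d l1 =>
      simp only [List.cons_append] at ih ⊢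
      rw [conseq]
      exact List.mem_cons_of_mem _ ih

theorem adjT_symm {V : Type} [DecidableEq V] {T : Finset (Finset V)} {v w : V}
    (h : AdjT T v w) : AdjT T w v := by
  obtain ⟨h1, t, h2, h3, h4⟩ := h
  exact ⟨h1.symm, t, h2, h4, h3⟩

end SPS_

theorem SPS_proof (h1 : Stmt_LKA) (h2 : Stmt_LKB) (h3 : Stmt_SPC) : Stmt_SPS := by
  intro V _ _ K z x y mid rest hl hm hr
  obtain ⟨s1, s2, s3, s4, s5, s6, s7⟩ := h3 V K.tri z x y mid rest K.card3 hl hm hr
  have hlen := hl.1
  have hnd := hl.2.1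
  have hz := hl.2.2.1
  have htri := hl.2.2.2
  -- every vertex has a list link
  have hlist : ∀ v : V, ∃ l, IsLink K.tri v l := by
    intro v
    obtain ⟨n, c, hc⟩ := K.link v
    exact (h2 V K.tri v).1 n c hc
  have hzx : z ≠ x := by
    rintro rfl
    exact hz (by simp)
  have hzy : z ≠ y := by
    rintro rfl
    exact hz (by simp)
  refine ⟨⟨splitTri K.tri z x y mid, s1, ?_⟩, rfl⟩
  suffices h : ∀ o : Option V, ∃ l, IsLink (splitTri K.tri z x y mid) o l by
    intro o
    obtain ⟨l, hl'⟩ := h o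
    obtain ⟨c, hc, -⟩ := (h2 (Option V) (splitTri K.tri z x y mid) o).2 l hl'
    exact ⟨l.length, c, hc⟩
  intro o
  rcases o with _ | u
  · exact ⟨_, s2⟩
  by_cases huz : u = z
  · subst huz
    exact ⟨_, s3⟩
  by_cases hux : u = x
  · subst hux
    obtain ⟨m, mid', rfl⟩ := List.exists_cons_of_ne_nil hm
    have hzm : z ≠ m := by
      rintro rfl
      exact hz (by simp)
    have hum : u ≠ m := by
      rintro rfl
      simp at hnd
    have ht : {u, z, m} ∈ K.tri := by
      have h5 := (htri {z, u, m}).2 ⟨u, m, by simp [cyc, conseq], rfl⟩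
      have h6 : ({u, z, m} : Finset V) = {z, u, m} := by
        ext w
        simp only [Finset.mem_insert, Finset.mem_singleton]
        tauto
      rw [h6]
      exact h5.1
    obtain ⟨l, hl'⟩ := hlist u
    obtain ⟨r, -, hr'⟩ := (h1 V K.tri u).2.2.2.2.1 l z m hl' huz hum hzm ht
    exact ⟨_, s4 m r (by simp) hr'⟩
  by_cases huy : u = y
  · subst huy
    obtain ⟨mid', m, rfl⟩ := List.eq_nil_or_concat' mid |>.resolve_left hm
    have hzm : z ≠ m := by
      rintro rfl
      exact hz (by simp)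
    have hum : u ≠ m := by
      rintro rfl
      have h8 := (List.nodup_cons.1 hnd).2
      rw [List.nodup_append] at h8
      exact h8.2.2 u (by simp) u (by simp) rfl
    have ht : {u, z, m} ∈ K.tri := by
      have h5 := (htri {z, m, u}).2 ⟨m, u, by
        have h7 := SPS_.mem_conseq (x :: mid') (rest ++ [x]) m u
        simpa [cyc] using h7, rfl⟩
      have h6 : ({u, z, m} : Finset V) = {z, m, u} := by
        ext w
        simp only [Finset.mem_insert, Finset.mem_singleton]
        tauto
      rw [h6]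
      exact h5.1
    obtain ⟨l, hl'⟩ := hlist u
    obtain ⟨r, -, hr'⟩ := (h1 V K.tri u).2.2.2.2.1 l z m hl' huz hum hzm ht
    exact ⟨_, s5 m r (by simp) hr'⟩
  obtain ⟨l, hl'⟩ := hlist u
  by_cases hmid : u ∈ mid
  · have h5 : AdjT K.tri z u := ((h1 V K.tri z).2.2.1 _ u hl).1 (by simp [hmid])
    have h6 : z ∈ l := ((h1 V K.tri u).2.2.1 l z hl').2 (SPS_.adjT_symm h5)
    obtain ⟨l1, l2, rfl⟩ := List.append_of_mem h6
    have h7 := (h1 V K.tri u).1 l1 (z :: l2) hl'
    exact ⟨_, s6 u (l2 ++ l1) hmid h7⟩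
  · exact ⟨_, s7 u l huz hux huy hmid hl'⟩

end Pool.Agent.TSQ
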