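import Pool.Agent.TSQ.Stmts

/-! # TSQ, module STB: non-flat plus positive weights gives strict balance, stably -/

set_option autoImplicit false

open scoped RealInnerProductSpace

namespace Pool.Agent.TSQ

open Pool.Agent.TSM Pool.Agent.TSP

theorem STB_proof : Stmt_STB := by
  classical
  intro V _ _ K p v hnf
  -- the lower bound on the sphere
  obtain ⟨c, hc, hcF⟩ : ∃ c : ℝ, 0 < c ∧ ∀ ν : E3, ‖ν‖ = 1 →
      c ≤ ∑ y, (if K.Adj v y then |⟪ν, p y - p v⟫| else 0) := by
    have hcont : Continuous fun ν : E3 => ∑ y, (if K.Adj v y then |⟪ν, p y - p v⟫| else 0) := by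
      refine continuous_finsetSum _ fun y _ => ?_
      split_ifs
      · exact (continuous_id.inner continuous_const).abs
      · exact continuous_const
    have hne : (Metric.sphere (0 : E3) 1).Nonempty := NormedSpace.sphere_nonempty.2 zero_le_one
    obtain ⟨ν₀, hν₀, hmin⟩ := (isCompact_sphere (0 : E3) 1).exists_isMinOn hne hcont.continuousOn
    refine ⟨∑ y, (if K.Adj v y then |⟪ν₀, p y - p v⟫| else 0), ?_, fun ν hν => ?_⟩
    · have h1 : ν₀ ≠ 0 := by
        rintro rfl
        rw [mem_sphere_zero_iff_norm, norm_zero] at hν₀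
        exact zero_ne_one hν₀
      obtain ⟨y, hy, hy'⟩ := hnf ν₀ h1
      refine Finset.sum_pos' (fun z _ => ?_) ⟨y, Finset.mem_univ y, ?_⟩
      · split_ifs
        · exact abs_nonneg _
        · exact le_rfl
      · rw [if_pos hy]
        exact abs_pos.2 hy'
    · exact hmin (mem_sphere_zero_iff_norm.2 hν)
  have hN : (0 : ℝ) < 2 * (Fintype.card V + 1) := by positivity
  refine ⟨c / (2 * (Fintype.card V + 1)), div_pos hc hN, fun X hX hw ν hν => ?_⟩
  obtain ⟨w, hw1, hw2, hw3, hw4⟩ := hw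
  by_contra hcon
  push Not at hcon
  -- all products vanish
  have hsum : ∑ y, w y * ⟪ν, X y - X v⟫ = 0 := by
    have h1 : ∑ y, w y * ⟪ν, X y - X v⟫ = ⟪ν, ∑ y, w y • X y⟫ - (∑ y, w y) * ⟪ν, X v⟫ := by
      rw [inner_sum, Finset.sum_mul, ← Finset.sum_sub_distrib]
      refine Finset.sum_congr rfl fun y _ => ?_
      rw [inner_sub_right, real_inner_smul_right]
      ring
    rw [h1, ← hw4, hw3, one_mul, sub_self]
  have hterm : ∀ y ∈ Finset.univ, w y * ⟪ν, X y - X v⟫ ≤ 0 := by
    intro y _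
    by_cases h : K.Adj v y
    · exact mul_nonpos_of_nonneg_of_nonpos (hw1 y h).le (hcon y h)
    · rw [hw2 y h, zero_mul]
  have hzero := (Finset.sum_eq_zero_iff_of_nonpos hterm).1 hsum
  have hz : ∀ y, K.Adj v y → ⟪ν, X y - X v⟫ = 0 := by
    intro y hy
    have := hzero y (Finset.mem_univ y)
    rcases mul_eq_zero.1 this with h | h
    · exact absurd h (hw1 y hy).ne'
    · exact h
  -- normalise
  have hnν : 0 < ‖ν‖ := norm_pos_iff.2 hν
  have hu : ‖(‖ν‖⁻¹ • ν : E3)‖ = 1 := by
    rw [norm_smul, norm_inv, norm_norm, inv_mul_cancel₀ hnν.ne']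
  have hlow := hcF _ hu
  have hb : ∀ y ∈ Finset.univ, (if K.Adj v y then |⟪(‖ν‖⁻¹ • ν : E3), p y - p v⟫| else 0) ≤
      2 * (c / (2 * (Fintype.card V + 1))) := by
    intro y _
    have hpos : 0 ≤ 2 * (c / (2 * ((Fintype.card V : ℝ) + 1))) := by
      have := div_pos hc hN
      linarith
    split_ifs with h
    · have e : ⟪(‖ν‖⁻¹ • ν : E3), p y - p v⟫ =
          ⟪(‖ν‖⁻¹ • ν : E3), (p y - X y) - (p v - X v)⟫ := by
        have h1 : ⟪(‖ν‖⁻¹ • ν : E3), X y - X v⟫ = 0 := by
          rw [real_inner_smul_left, hz y h, mul_zero]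
        have h2 : (p y - X y) - (p v - X v) = (p y - p v) - (X y - X v) := by abel
        rw [h2, inner_sub_right _ (p y - p v), h1, sub_zero]
      rw [e]
      refine (abs_real_inner_le_norm _ _).trans ?_
      rw [hu, one_mul]
      refine (norm_sub_le _ _).trans ?_
      have h3 := hX y
      have h4 := hX v
      rw [norm_sub_rev] at h3 h4
      linarith
    · exact hpos
  have hup := Finset.sum_le_sum hb
  rw [Finset.sum_const, Finset.card_univ, nsmul_eq_mul] at hup
  have hfin : (Fintype.card V : ℝ) * (2 * (c / (2 * ((Fintype.card V : ℝ) + 1)))) < c := by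
    have hp : (0 : ℝ) < (Fintype.card V : ℝ) + 1 := by positivity
    have e : (Fintype.card V : ℝ) * (2 * (c / (2 * ((Fintype.card V : ℝ) + 1)))) =
        (Fintype.card V : ℝ) * c / ((Fintype.card V : ℝ) + 1) := by
      field_simp
    rw [e, div_lt_iff₀ hp]
    nlinarith
  linarith

end Pool.Agent.TSQ
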