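import Pool.Agent.TSQ.Stmts

/-!
# TSQ, module TTR: a triangle at `z` with two boundary edges at `z` lies in a facet plane
-/

set_option autoImplicit false

open scoped RealInnerProductSpace

namespace Pool.Agent.TSQ

open Pool.Agent.TSM Pool.Agent.TSP

theorem TTR_proof (hLKA : Stmt_LKA) (hLKB : Stmt_LKB) (hEMC : Stmt_EMC) (hPKB : Stmt_PKB) :
    Stmt_TTR := by
  intro V _ _ K p Φ hP z x y hzx hzy hxy ht hTx hTy
  obtain ⟨n, c, hc⟩ := K.link z
  obtain ⟨l, hl⟩ := (hLKB V K.tri z).1 n c hc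
  obtain ⟨-, -, -, -, h5, -⟩ := hLKA V K.tri z
  obtain ⟨rest, -, hr⟩ := h5 l x y hl hzx hzy hxy ht
  obtain ⟨-, e2, -, -⟩ := hEMC V K p hP.emb
  exact hPKB V K p Φ hP z x y [] rest ⟨hr, hTx, hTy, by simp⟩ (e2 z x y hzx hzy hxy ht)

end Pool.Agent.TSQ
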