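import Pool.Agent.TSQ.Stmts

/-!
# Module TUT: a Tutte system with perturbed weights
-/

set_option autoImplicit false

open scoped RealInnerProductSpace

namespace Pool.Agent.TSQ

open Pool.Agent.TSM Pool.Agent.TSP

namespace TUT_

variable {V : Type} [Fintype V] [DecidableEq V]

/-- scalar maximum principle -/
theorem max_le (p : V → E3) (I : Finset V) (w : V → V → ℝ)
    (h0 : ∀ v ∈ I, ∀ y, 0 ≤ w v y) (h1 : ∀ v ∈ I, ∑ y, w v y = 1)
    (hp : ∀ v ∈ I, p v = ∑ y, w v y • p y) (hne : ∀ v ∈ I, ∀ y, 0 < w v y → p y ≠ p v)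
    (ζ : V → ℝ) (hζ0 : ∀ v, v ∉ I → ζ v = 0) (hζ : ∀ v ∈ I, ζ v = ∑ y, w v y * ζ y) :
    ∀ v, ζ v ≤ 0 := by
  by_contra hcon
  push Not at hcon
  obtain ⟨v0, hv0⟩ := hcon
  obtain ⟨vm, _, hvm⟩ := Finset.exists_max_image Finset.univ ζ ⟨v0, Finset.mem_univ _⟩
  have hm : 0 < ζ vm := lt_of_lt_of_le hv0 (hvm v0 (Finset.mem_univ _))
  obtain ⟨v, hvC, hvmax⟩ := Finset.exists_max_image (Finset.univ.filter fun v => ζ v = ζ vm)
    (fun v => ‖p v‖) ⟨vm, by simp⟩
  have hv : ζ v = ζ vm := (Finset.mem_filter.1 hvC).2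
  have hvI : v ∈ I := by
    by_contra h
    rw [hζ0 v h] at hv
    linarith
  have hsupp : ∀ y, 0 < w v y → ζ y = ζ vm := by
    have hs : ∑ y, w v y * (ζ vm - ζ y) = 0 := by
      have h2 : ∑ y, w v y * (ζ vm - ζ y) = (∑ y, w v y) * ζ vm - ∑ y, w v y * ζ y := by
        rw [Finset.sum_mul, ← Finset.sum_sub_distrib]
        exact Finset.sum_congr rfl fun y _ => by ring
      rw [h2, h1 v hvI, ← hζ v hvI, hv]
      ring
    intro y hy
    have h3 := (Finset.sum_eq_zero_iff_of_nonneg (fun y _ => mul_nonneg (h0 v hvI y)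
      (sub_nonneg.2 (hvm y (Finset.mem_univ _))))).1 hs y (Finset.mem_univ _)
    rcases mul_eq_zero.1 h3 with h | h
    · linarith
    · linarith
  have hs2 : ∑ y, w v y * ‖p y - p v‖ ^ 2 ≤ 0 := by
    have h3 : ∀ y, w v y * ‖p y - p v‖ ^ 2 ≤ w v y * (2 * ‖p v‖ ^ 2 - 2 * ⟪p v, p y⟫) := by
      intro y
      by_cases hy : 0 < w v y
      · have hle : ‖p y‖ ≤ ‖p v‖ := hvmax y (Finset.mem_filter.2 ⟨Finset.mem_univ _, hsupp y hy⟩)
        refine mul_le_mul_of_nonneg_left ?_ hy.le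
        rw [norm_sub_sq_real, real_inner_comm]
        have : ‖p y‖ ^ 2 ≤ ‖p v‖ ^ 2 := pow_le_pow_left₀ (norm_nonneg _) hle 2
        linarith
      · have h4 : w v y = 0 := le_antisymm (not_lt.1 hy) (h0 v hvI y)
        rw [h4, zero_mul, zero_mul]
    refine (Finset.sum_le_sum fun y _ => h3 y).trans ?_
    have h5 : ∑ y, w v y * (2 * ‖p v‖ ^ 2 - 2 * ⟪p v, p y⟫) =
        2 * ‖p v‖ ^ 2 * (∑ y, w v y) - 2 * ⟪p v, ∑ y, w v y • p y⟫ := by
      rw [inner_sum, Finset.mul_sum, Finset.mul_sum, ← Finset.sum_sub_distrib]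
      refine Finset.sum_congr rfl fun y _ => ?_
      rw [inner_smul_right]
      ring
    rw [h5, h1 v hvI, ← hp v hvI, real_inner_self_eq_norm_sq]
    linarith
  have hnn : ∀ y ∈ Finset.univ, 0 ≤ w v y * ‖p y - p v‖ ^ 2 := fun y _ =>
    mul_nonneg (h0 v hvI y) (sq_nonneg _)
  have hz := (Finset.sum_eq_zero_iff_of_nonneg hnn).1 (le_antisymm hs2 (Finset.sum_nonneg hnn))
  obtain ⟨y, hy⟩ : ∃ y, 0 < w v y := by
    by_contra hno
    push Not at hno
    have : ∑ y, w v y ≤ 0 := Finset.sum_nonpos fun y _ => hno y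
    rw [h1 v hvI] at this
    linarith
  rcases mul_eq_zero.1 (hz y (Finset.mem_univ _)) with h | h
  · linarith
  · have h6 : p y - p v = 0 := norm_eq_zero.1 (pow_eq_zero_iff two_ne_zero |>.1 h)
    exact hne v hvI y hy (sub_eq_zero.1 h6)

/-- the linear system with weights `M` -/
def T (I : Finset V) (M : V → V → ℝ) : (V → E3) →ₗ[ℝ] (V → E3) where
  toFun X := fun v => if v ∈ I then X v - ∑ y, M v y • X y else X v
  map_add' X Y := by
    funext v
    by_cases hv : v ∈ I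
    · simp only [hv, if_true, Pi.add_apply, smul_add, Finset.sum_add_distrib]
      abel
    · simp only [hv, if_false, Pi.add_apply]
  map_smul' c X := by
    funext v
    by_cases hv : v ∈ I
    · simp only [hv, if_true, Pi.smul_apply, RingHom.id_apply, smul_sub, Finset.smul_sum]
      congr 1
      exact Finset.sum_congr rfl fun y _ => smul_comm _ _ _
    · simp only [hv, if_false, Pi.smul_apply, RingHom.id_apply]

theorem T_mem (I : Finset V) (M : V → V → ℝ) (X : V → E3) {v : V} (hv : v ∈ I) :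
    T I M X v = X v - ∑ y, M v y • X y := if_pos hv

theorem T_not (I : Finset V) (M : V → V → ℝ) (X : V → E3) {v : V} (hv : v ∉ I) :
    T I M X v = X v := if_neg hv

theorem T_inj (p : V → E3) (I : Finset V) (w : V → V → ℝ)
    (h0 : ∀ v ∈ I, ∀ y, 0 ≤ w v y) (h1 : ∀ v ∈ I, ∑ y, w v y = 1)
    (hp : ∀ v ∈ I, p v = ∑ y, w v y • p y) (hne : ∀ v ∈ I, ∀ y, 0 < w v y → p y ≠ p v) :
    LinearMap.ker (T I w) = ⊥ := by
  rw [LinearMap.ker_eq_bot']
  intro Z hZ
  have hZ0 : ∀ v, v ∉ I → Z v = 0 := fun v hv => by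
    have := congrFun hZ v
    rwa [T_not I w Z hv] at this
  have hZ1 : ∀ v ∈ I, Z v = ∑ y, w v y • Z y := fun v hv => by
    have := congrFun hZ v
    rw [T_mem I w Z hv] at this
    exact sub_eq_zero.1 this
  funext v
  ext i
  have ha : ∀ v, Z v i ≤ 0 := by
    refine max_le p I w h0 h1 hp hne (fun v => Z v i) (fun v hv => ?_) (fun v hv => ?_)
    · show Z v i = 0
      rw [hZ0 v hv]
      rfl
    · show Z v i = ∑ y, w v y * Z y i
      have := congrArg (fun x : E3 => x i) (hZ1 v hv)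
      simpa using this
  have hb : ∀ v, -(Z v i) ≤ 0 := by
    refine max_le p I w h0 h1 hp hne (fun v => -(Z v i)) (fun v hv => ?_) (fun v hv => ?_)
    · show -(Z v i) = 0
      rw [hZ0 v hv]
      simp
    · show -(Z v i) = ∑ y, w v y * (-(Z y i))
      have := congrArg (fun x : E3 => x i) (hZ1 v hv)
      have h2 : Z v i = ∑ y, w v y * Z y i := by simpa using this
      rw [h2, ← Finset.sum_neg_distrib]
      exact Finset.sum_congr rfl fun y _ => by ring
  have h3 := ha v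
  have h4 := hb v
  show Z v i = 0
  linarith

end TUT_

open TUT_ in
theorem TUT_proof : Stmt_TUT := by
  intro V _ _ p I N hyp ε hε
  have h' : ∀ v, ∃ w : V → ℝ, v ∈ I → (∀ y, 0 ≤ w y) ∧ (∀ y, y ∉ N v → w y = 0) ∧ ∑ y, w y = 1 ∧
      p v = ∑ y, w y • p y := by
    intro v
    by_cases hv : v ∈ I
    · obtain ⟨_, _, w, hw⟩ := hyp v hv
      exact ⟨w, fun _ => hw⟩
    · exact ⟨fun _ => 0, fun h => absurd h hv⟩
  choose w hw using h'
  have hker := T_inj p I w (fun v hv => (hw v hv).1) (fun v hv => (hw v hv).2.2.1)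
    (fun v hv => (hw v hv).2.2.2) (fun v hv y hy => by
      have hyN : y ∈ N v := by
        by_contra h
        rw [(hw v hv).2.1 y h] at hy
        exact lt_irrefl _ hy
      exact (hyp v hv).2.1 y hyN)
  -- uniform weights
  obtain ⟨un, hun⟩ : ∃ un : V → V → ℝ, un = fun v y => if y ∈ N v then 1 / ((N v).card : ℝ) else 0 :=
    ⟨_, rfl⟩
  have hun0 : ∀ v y, 0 ≤ un v y := by
    intro v y
    rw [hun]
    by_cases hy : y ∈ N v
    · simp only [hy, if_true]
      positivity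
    · simp only [hy, if_false]
      exact le_rfl
  have hunpos : ∀ v, ∀ y ∈ N v, 0 < un v y := by
    intro v y hy
    rw [hun]
    simp only [hy, if_true]
    have : 0 < (N v).card := Finset.card_pos.2 ⟨y, hy⟩
    positivity
  have hunN : ∀ v y, y ∉ N v → un v y = 0 := by
    intro v y hy
    rw [hun]
    simp only [hy, if_false]
  have hun1 : ∀ v ∈ I, ∑ y, un v y = 1 := by
    intro v hv
    have hc : 0 < (N v).card := Finset.card_pos.2 (hyp v hv).1
    have hc' : ((N v).card : ℝ) ≠ 0 := by exact_mod_cast hc.ne'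
    rw [hun]
    simp only
    rw [← Finset.sum_filter, Finset.sum_const, nsmul_eq_mul]
    have : (Finset.univ.filter fun y => y ∈ N v) = N v := by ext y; simp
    rw [this]
    field_simp
  -- lower bound
  obtain ⟨K, hK0, hK⟩ := LinearMap.exists_antilipschitzWith (T I w) hker
  have hlow : ∀ X : V → E3, ‖X‖ ≤ (K : ℝ) * ‖T I w X‖ := by
    intro X
    have h2 := hK.le_mul_dist X 0
    rw [map_zero, dist_zero_right, dist_zero_right] at h2
    exact h2
  have hKr : (0 : ℝ) < (K : ℝ) := by exact_mod_cast hK0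
  -- the perturbed operator
  have hdiff : ∀ δ : ℝ, 0 ≤ δ → ∀ X : V → E3,
      ‖T I w X - T I (fun v y => (1 - δ) * w v y + δ * un v y) X‖ ≤ 2 * δ * ‖X‖ := by
    intro δ hδ X
    refine (pi_norm_le_iff_of_nonneg (by positivity)).2 fun v => ?_
    by_cases hv : v ∈ I
    · rw [Pi.sub_apply, T_mem I _ X hv, T_mem I _ X hv]
      have e1 : X v - ∑ y, w v y • X y - (X v - ∑ y, ((1 - δ) * w v y + δ * un v y) • X y) =
          ∑ y, (δ * (un v y - w v y)) • X y := by
        rw [sub_sub_sub_cancel_left, ← Finset.sum_sub_distrib]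
        refine Finset.sum_congr rfl fun y _ => ?_
        rw [← sub_smul]
        congr 1
        ring
      rw [e1]
      refine (norm_sum_le _ _).trans ?_
      have h3 : ∀ y ∈ Finset.univ, ‖(δ * (un v y - w v y)) • X y‖ ≤ δ * (un v y + w v y) * ‖X‖ := by
        intro y _
        rw [norm_smul, norm_mul, Real.norm_of_nonneg hδ]
        have h4 : ‖un v y - w v y‖ ≤ un v y + w v y := by
          rw [Real.norm_eq_abs, abs_le]
          have ha := hun0 v y
          have hb := (hw v hv).1 y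
          constructor
          · linarith
          · linarith
        exact mul_le_mul (mul_le_mul_of_nonneg_left h4 hδ) (norm_le_pi_norm X y) (norm_nonneg _)
          (mul_nonneg hδ (add_nonneg (hun0 v y) ((hw v hv).1 y)))
      refine (Finset.sum_le_sum h3).trans ?_
      rw [← Finset.sum_mul, ← Finset.mul_sum, Finset.sum_add_distrib, hun1 v hv, (hw v hv).2.2.1]
      apply le_of_eq
      ring
    · rw [Pi.sub_apply, T_not I _ X hv, T_not I _ X hv, sub_self, norm_zero]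
      positivity
  -- choice of δ
  have hP : 0 ≤ ‖p‖ := norm_nonneg p
  obtain ⟨δ, hδ0, hδ1, hδ2, hδ3⟩ : ∃ δ : ℝ, 0 < δ ∧ δ < 1 ∧ 4 * K * δ ≤ 1 ∧ 4 * K * δ * ‖p‖ < ε := by
    have hA : (0 : ℝ) < 4 * K + 1 := by linarith
    have hB : (0 : ℝ) < 4 * K * (‖p‖ + 1) + 1 := by positivity
    refine ⟨min (1 / (4 * K + 1)) (ε / (4 * K * (‖p‖ + 1) + 1)), ?_, ?_, ?_, ?_⟩
    · exact lt_min (by positivity) (by positivity)
    · refine lt_of_le_of_lt (min_le_left _ _) ?_
      rw [div_lt_one hA]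
      linarith
    · have h5 : min (1 / (4 * (K : ℝ) + 1)) (ε / (4 * K * (‖p‖ + 1) + 1)) ≤ 1 / (4 * K + 1) := min_le_left _ _
      have h6 := mul_le_mul_of_nonneg_left h5 (by positivity : (0 : ℝ) ≤ 4 * K)
      refine h6.trans ?_
      rw [mul_one_div, div_le_one hA]
      linarith
    · have h5 : min (1 / (4 * (K : ℝ) + 1)) (ε / (4 * K * (‖p‖ + 1) + 1)) ≤ ε / (4 * K * (‖p‖ + 1) + 1) :=
        min_le_right _ _
      have h6 := mul_le_mul_of_nonneg_left h5 (by positivity : (0 : ℝ) ≤ 4 * K * ‖p‖)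
      have h7 : 4 * (K : ℝ) * ‖p‖ * (ε / (4 * K * (‖p‖ + 1) + 1)) < ε := by
        rw [mul_div_assoc', div_lt_iff₀ hB]
        nlinarith [mul_pos hKr hε]
      calc 4 * (K : ℝ) * min (1 / (4 * (K : ℝ) + 1)) (ε / (4 * K * (‖p‖ + 1) + 1)) * ‖p‖
          = 4 * (K : ℝ) * ‖p‖ * min (1 / (4 * (K : ℝ) + 1)) (ε / (4 * K * (‖p‖ + 1) + 1)) := by ring
        _ ≤ 4 * (K : ℝ) * ‖p‖ * (ε / (4 * K * (‖p‖ + 1) + 1)) := h6
        _ < ε := h7
  obtain ⟨M, hM⟩ : ∃ M : V → V → ℝ, M = fun v y => (1 - δ) * w v y + δ * un v y := ⟨_, rfl⟩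
  have hd : ∀ X : V → E3, ‖T I w X - T I M X‖ ≤ 2 * δ * ‖X‖ := by
    rw [hM]
    exact hdiff δ hδ0.le
  have hlow2 : ∀ X : V → E3, ‖X‖ ≤ 2 * K * ‖T I M X‖ := by
    intro X
    have h5 := hlow X
    have h6 : ‖T I w X‖ ≤ ‖T I M X‖ + 2 * δ * ‖X‖ := by
      have e1 : T I w X = T I M X + (T I w X - T I M X) := by abel
      calc ‖T I w X‖ = ‖T I M X + (T I w X - T I M X)‖ := by rw [← e1]
        _ ≤ ‖T I M X‖ + ‖T I w X - T I M X‖ := norm_add_le _ _
        _ ≤ ‖T I M X‖ + 2 * δ * ‖X‖ := by linarith [hd X]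
    have h7 := mul_le_mul_of_nonneg_left h6 hKr.le
    have h8 : (4 * K * δ) * ‖X‖ ≤ 1 * ‖X‖ := mul_le_mul_of_nonneg_right hδ2 (norm_nonneg X)
    nlinarith
  have hinj : Function.Injective (T I M) := by
    rw [← LinearMap.ker_eq_bot, LinearMap.ker_eq_bot']
    intro X hX
    have h5 := hlow2 X
    rw [hX, norm_zero, mul_zero] at h5
    exact norm_le_zero_iff.1 h5
  have hsurj : Function.Surjective (T I M) := LinearMap.injective_iff_surjective.1 hinj
  obtain ⟨X, hX⟩ := hsurj (T I w p)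
  refine ⟨X, ?_, ?_, ?_⟩
  · intro v hv
    have := congrFun hX v
    rwa [T_not I M X hv, T_not I w p hv] at this
  · have h5 : ‖X - p‖ < ε := by
      have h6 := hlow2 (X - p)
      rw [map_sub, hX] at h6
      have h7 := mul_le_mul_of_nonneg_left (hd p) (by positivity : (0 : ℝ) ≤ 2 * K)
      have h8 : 2 * (K : ℝ) * (2 * δ * ‖p‖) = 4 * K * δ * ‖p‖ := by ring
      linarith
    intro v
    have := norm_le_pi_norm (X - p) v
    exact lt_of_le_of_lt this h5
  · intro v hv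
    refine ⟨M v, ?_, ?_, ?_, ?_⟩
    · intro y hy
      rw [hM]
      have h5 := (hw v hv).1 y
      have h6 := hunpos v y hy
      have h7 : 0 ≤ (1 - δ) * w v y := mul_nonneg (by linarith) h5
      have h8 : 0 < δ * un v y := mul_pos hδ0 h6
      show 0 < (1 - δ) * w v y + δ * un v y
      linarith
    · intro y hy
      rw [hM]
      show (1 - δ) * w v y + δ * un v y = 0
      rw [(hw v hv).2.1 y hy, hunN v y hy]
      ring
    · rw [hM]
      show ∑ y, ((1 - δ) * w v y + δ * un v y) = 1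
      rw [Finset.sum_add_distrib, ← Finset.mul_sum, ← Finset.mul_sum, hun1 v hv, (hw v hv).2.2.1]
      ring
    · have h5 := congrFun hX v
      rw [T_mem I M X hv, T_mem I w p hv, ← (hw v hv).2.2.2, sub_self] at h5
      exact sub_eq_zero.1 h5

end Pool.Agent.TSQ
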