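import Pool.Agent.TSQ.Stmts

/-!
# TSQ, module TWO: a boundary vertex has two neighbours in each of its facet planes
-/

set_option autoImplicit false

open scoped RealInnerProductSpace

namespace Pool.Agent.TSQ

open Pool.Agent.TSM Pool.Agent.TSP

namespace TWO_

/-- Three affinely independent points are not all on one line through `z`. -/
theorem off_line {a b c z d : E3} (h : AffineIndependent ℝ ![a, b, c])
    (ha : ∃ r : ℝ, a - z = r • d) (hb : ∃ r : ℝ, b - z = r • d) (hc : ∃ r : ℝ, c - z = r • d) :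
    False := by
  rw [indep2_iff_affine] at h
  obtain ⟨r, hr⟩ := ha
  obtain ⟨s, hs⟩ := hb
  obtain ⟨t, ht⟩ := hc
  have hab : b - a = (s - r) • d := by
    rw [sub_smul, ← hr, ← hs]
    abel
  have hac : c - a = (t - r) • d := by
    rw [sub_smul, ← hr, ← ht]
    abel
  have h1 := h (t - r) (-(s - r)) (by
    rw [hab, hac, smul_smul, smul_smul, ← add_smul]
    have : (t - r) * (s - r) + -(s - r) * (t - r) = 0 := by ring
    rw [this, zero_smul])
  have h2 := h 1 0 (by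
    rw [hab, neg_eq_zero.mp h1.2, zero_smul, smul_zero, zero_smul, add_zero])
  exact one_ne_zero h2.1

end TWO_

theorem TWO_proof (hEMC : Stmt_EMC) : Stmt_TWO := by
  intro V _ _ K p Φ hP z φ hφ hz
  obtain ⟨e1, -, -, -⟩ := hEMC V K p hP.emb
  obtain ⟨a, b, c, ha, hb, hc, hind⟩ := hP.hull.facet φ hφ
  -- a vertex of the facet outside the line `z + ℝ d`
  have key : ∀ d : E3, ∃ y, ev φ (p y) = 0 ∧ ∀ r : ℝ, p y - p z ≠ r • d := by
    intro d
    by_contra hcon
    push Not at hcon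
    exact TWO_.off_line hind (hcon a ha) (hcon b hb) (hcon c hc)
  obtain ⟨y0, hy0, hy0'⟩ := key 0
  have hne0 : y0 ≠ z := by
    rintro rfl
    exact hy0' 0 (by rw [sub_self, smul_zero])
  obtain ⟨n1, hn1, hn1', -, -⟩ := hP.t1 φ hφ φ hφ z 0 hz hz
    ⟨y0, hne0, hy0, hy0, by rw [inner_zero_left, inner_zero_left]⟩
  have hd : p n1 - p z ≠ 0 := sub_ne_zero.mpr (e1 z n1 hn1)
  obtain ⟨y1, hy1, hy1'⟩ := key (p n1 - p z)
  have hne1 : y1 ≠ z := by
    rintro rfl
    exact hy1' 0 (by rw [sub_self, zero_smul])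
  set d := p n1 - p z with hdd
  set x := p y1 - p z with hx
  have hdpos : 0 < ⟪d, d⟫ := inner_self_pos hd
  set w : E3 := x - (⟪d, x⟫ / ⟪d, d⟫) • d with hw
  have hw0 : w ≠ 0 := by
    intro h
    exact hy1' _ (sub_eq_zero.mp h)
  have hwpos : 0 < ⟪w, w⟫ := inner_self_pos hw0
  have hwd : ⟪w, d⟫ = 0 := by
    rw [hw, inner_sub_left, inner_smul_left, real_inner_comm d x]
    simp only [conj_trivial]
    field_simp
    ring
  have hwx : ⟪w, x⟫ = ⟪w, w⟫ := by
    have : ⟪w, w⟫ = ⟪w, x⟫ - (⟪d, x⟫ / ⟪d, d⟫) * ⟪w, d⟫ := by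
      conv_lhs => rw [hw]
      rw [← hw, inner_sub_right, inner_smul_right]
    rw [this, hwd, mul_zero, sub_zero]
  set u : E3 := (⟪d, x⟫ / ⟪w, w⟫) • w - d with hu
  have hud : ⟪u, d⟫ < 0 := by
    rw [hu, inner_sub_left, inner_smul_left, hwd]
    simp only [mul_zero, zero_sub]
    linarith
  have hux : ⟪u, x⟫ = 0 := by
    rw [hu, inner_sub_left, inner_smul_left, hwx]
    simp only [conj_trivial]
    rw [div_mul_cancel₀ _ (ne_of_gt hwpos), sub_self]
  obtain ⟨n2, hn2, hn2', -, hn2''⟩ := hP.t1 φ hφ φ hφ z u hz hz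
    ⟨y1, hne1, hy1, hy1, by
      have : ⟪u, p y1⟫ - ⟪u, p z⟫ = 0 := by rw [← inner_sub_right, ← hx, hux]
      linarith⟩
  refine ⟨n1, n2, ?_, hn1, hn2, hn1', hn2'⟩
  rintro rfl
  have : ⟪u, d⟫ = ⟪u, p n1⟫ - ⟪u, p z⟫ := by rw [hdd, inner_sub_right]
  linarith

end Pool.Agent.TSQ
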