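import Pool.Agent.TSQ.Stmts

/-!
# TSQ, module VTX: the vertex form of the two-piece property
-/

set_option autoImplicit false

open scoped RealInnerProductSpace

namespace Pool.Agent.TSQ

open Pool.Agent.TSM Pool.Agent.TSP

namespace VTX_

variable {V : Type} [Fintype V] [DecidableEq V]

lemma single_mem (K : Surf V) (z : V) : (Pi.single z 1 : V → ℝ) ∈ K.body := by
  refine ⟨?_, ?_, ?_⟩
  · intro v
    by_cases h : v = z
    · subst h; simp
    · simp [Pi.single_apply, h]
  · simp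
  · obtain ⟨n, c, hc⟩ := K.link z
    have h1 := (hc.2.2.2 {z, c 0, c (0 + 1)}).2 ⟨0, rfl⟩
    refine ⟨_, h1.1, ?_⟩
    intro v hv
    have h2 : v ≠ z := by
      rintro rfl
      exact hv (by simp)
    simp [Pi.single_apply, h2]

lemma ev_lin (a : E3 × ℝ) (p : V → E3) (w : V → ℝ) (h : ∑ v, w v = 1) :
    ev a (lin p w) = ∑ v, w v * ev a (p v) := by
  have h1 : ∑ v, w v * ev a (p v) = ∑ v, w v * ⟪a.1, p v⟫ - (∑ v, w v) * a.2 := by
    rw [Finset.sum_mul, ← Finset.sum_sub_distrib]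
    refine Finset.sum_congr rfl fun v _ => ?_
    unfold ev
    ring
  rw [h1, h, one_mul]
  unfold ev lin
  rw [inner_sum]
  congr 1
  refine Finset.sum_congr rfl fun v _ => ?_
  rw [real_inner_smul_right]

lemma inner_lin (u : E3) (p : V → E3) (w : V → ℝ) :
    ⟪u, lin p w⟫ = ∑ v, w v * ⟪u, p v⟫ := by
  unfold lin
  rw [inner_sum]
  refine Finset.sum_congr rfl fun v _ => ?_
  rw [real_inner_smul_right]

lemma lin_single (p : V → E3) (z : V) : lin p (Pi.single z 1) = p z := by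
  unfold lin
  rw [Finset.sum_eq_single z]
  · simp
  · intro b _ hb
    simp [Pi.single_apply, hb]
  · intro h
    exact absurd (Finset.mem_univ z) h

lemma continuous_lin (p : V → E3) : Continuous (lin p) := by
  unfold lin
  fun_prop

/-- the key local step -/
lemma star_step (K : Surf V) (p : V → E3) (a : E3 × ℝ) (ha : ∀ v, ev a (p v) ≤ 0) (z : V) (u : E3)
    (hcon : ∀ y, K.Adj z y → ev a (p y) = 0 → ⟪u, p y⟫ < ⟪u, p z⟫)
    (w : V → ℝ) (hw : w ∈ K.body) (hwz : 0 < w z) (hwz' : w z < 1)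
    (hF : ev a (lin p w) = 0) (hG : ⟪u, p z⟫ ≤ ⟪u, lin p w⟫) : False := by
  obtain ⟨h0, h1, t, ht, ht'⟩ := hw
  have hzt : z ∈ t := by
    by_contra h
    have := ht' z h
    linarith
  rw [ev_lin a p w h1] at hF
  have hterm : ∀ v, w v * ev a (p v) ≤ 0 := fun v => mul_nonpos_of_nonneg_of_nonpos (h0 v) (ha v)
  have hzero : ∀ v, w v * ev a (p v) = 0 := by
    intro v
    exact (Finset.sum_eq_zero_iff_of_nonpos (fun v _ => hterm v)).1 hF v (Finset.mem_univ v)
  have hlt : ∀ v, v ≠ z → 0 < w v → ⟪u, p v⟫ < ⟪u, p z⟫ := by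
    intro v hvz hv
    apply hcon v
    · refine ⟨fun h => hvz h.symm, t, ht, hzt, ?_⟩
      by_contra h
      have := ht' v h
      linarith
    · rcases mul_eq_zero.1 (hzero v) with h | h
      · linarith
      · exact h
  have hle : ∀ v, w v * ⟪u, p v⟫ ≤ w v * ⟪u, p z⟫ := by
    intro v
    by_cases hvz : v = z
    · subst hvz; exact le_rfl
    · rcases (h0 v).lt_or_eq with h | h
      · exact mul_le_mul_of_nonneg_left (hlt v hvz h).le (h0 v)
      · rw [← h]; simp
  have hex : ∃ v, v ≠ z ∧ 0 < w v := by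
    by_contra h
    push Not at h
    have h2 : ∑ v, w v = w z := by
      apply Finset.sum_eq_single z
      · intro b _ hb
        exact le_antisymm (h b hb) (h0 b)
      · intro h; exact absurd (Finset.mem_univ z) h
    linarith
  obtain ⟨v, hvz, hv⟩ := hex
  have hs : ∑ v, w v * ⟪u, p v⟫ < ∑ v, w v * ⟪u, p z⟫ := by
    apply Finset.sum_lt_sum (fun v _ => hle v)
    exact ⟨v, Finset.mem_univ v, mul_lt_mul_of_pos_left (hlt v hvz hv) hv⟩
  rw [inner_lin, ← one_mul (⟪u, p z⟫ : ℝ), ← h1, Finset.sum_mul] at hG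
  linarith

end VTX_

open VTX_ in
theorem VTX_proof : Stmt_VTX := by
  intro V _ _ K p hT a ha z u hz hy
  obtain ⟨y0, hy0z, hy0a, hy0u⟩ := hy
  by_contra hcon
  push Not at hcon
  have hF0 : ∀ w ∈ K.body, ev a (lin p w) ≤ 0 := by
    intro w hw
    rw [ev_lin a p w hw.2.1]
    exact Finset.sum_nonpos fun v _ => mul_nonpos_of_nonneg_of_nonpos (hw.1 v) (ha v)
  have hmid : ∀ N : ℕ, ∃ w ∈ K.body, w z = 1 / 2 ∧
      0 ≤ (N : ℝ) * ev a (lin p w) + (⟪u, lin p w⟫ - ⟪u, p z⟫) := by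
    intro N
    have hpre := hT ((N : ℝ) • a.1 + u) ((N : ℝ) * a.2 + ⟪u, p z⟫)
    have key : ∀ x : K.body, ((N : ℝ) * a.2 + ⟪u, p z⟫ ≤ ⟪(N : ℝ) • a.1 + u, K.map p x⟫ ↔
        0 ≤ (N : ℝ) * ev a (lin p x.1) + (⟪u, lin p x.1⟫ - ⟪u, p z⟫)) := by
      intro x
      rw [inner_add_left, real_inner_smul_left]
      unfold ev Surf.map
      constructor
      · intro h; nlinarith
      · intro h; nlinarith
    have hcont : ContinuousOn (fun x : K.body => x.1 z)
        {x : K.body | (N : ℝ) * a.2 + ⟪u, p z⟫ ≤ ⟪(N : ℝ) • a.1 + u, K.map p x⟫} :=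
      ((continuous_apply z).comp continuous_subtype_val).continuousOn
    have hy0m : (⟨Pi.single y0 1, single_mem K y0⟩ : K.body) ∈
        {x : K.body | (N : ℝ) * a.2 + ⟪u, p z⟫ ≤ ⟪(N : ℝ) • a.1 + u, K.map p x⟫} := by
      rw [Set.mem_ofPred_eq, key]
      simp only [lin_single, hy0a]
      linarith
    have hzm : (⟨Pi.single z 1, single_mem K z⟩ : K.body) ∈
        {x : K.body | (N : ℝ) * a.2 + ⟪u, p z⟫ ≤ ⟪(N : ℝ) • a.1 + u, K.map p x⟫} := by
      rw [Set.mem_ofPred_eq, key]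
      simp only [lin_single, hz]
      linarith
    have hiv := hpre.intermediate_value hy0m hzm hcont
    have hmem : (1 / 2 : ℝ) ∈ Set.Icc ((fun x : K.body => x.1 z) ⟨Pi.single y0 1, single_mem K y0⟩)
        ((fun x : K.body => x.1 z) ⟨Pi.single z 1, single_mem K z⟩) := by
      have h1 : (Pi.single y0 1 : V → ℝ) z = 0 := by
        simp [Pi.single_apply, Ne.symm hy0z]
      have h2 : (Pi.single z 1 : V → ℝ) z = 1 := by simp
      simp only [h1, h2]
      constructor <;> norm_num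
    obtain ⟨x, hx, hx2⟩ := hiv hmem
    exact ⟨x.1, x.2, hx2, (key x).1 hx⟩
  have hbody : IsCompact K.body := isCompact_bodyOf K.tri
  have hclosed : ∀ N : ℕ, IsClosed {w : V → ℝ | w ∈ K.body ∧ w z = 1 / 2 ∧
      0 ≤ (N : ℝ) * ev a (lin p w) + (⟪u, lin p w⟫ - ⟪u, p z⟫)} := by
    intro N
    have hc1 : Continuous fun w : V → ℝ => ev a (lin p w) := by
      unfold ev
      exact (continuous_const.inner (continuous_lin p)).sub continuous_const
    have hc2 : Continuous fun w : V → ℝ => (N : ℝ) * ev a (lin p w) +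
        (⟪u, lin p w⟫ - ⟪u, p z⟫) :=
      (continuous_const.mul hc1).add
        ((continuous_const.inner (continuous_lin p)).sub continuous_const)
    exact hbody.isClosed.inter ((isClosed_eq (continuous_apply z) continuous_const).inter
      (isClosed_le continuous_const hc2))
  obtain ⟨w, hw⟩ := IsCompact.nonempty_iInter_of_sequence_nonempty_isCompact_isClosed
    (fun N : ℕ => {w : V → ℝ | w ∈ K.body ∧ w z = 1 / 2 ∧
      0 ≤ (N : ℝ) * ev a (lin p w) + (⟪u, lin p w⟫ - ⟪u, p z⟫)})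
    (by
      intro N w hw
      refine ⟨hw.1, hw.2.1, ?_⟩
      have h1 := hw.2.2
      have h2 := hF0 w hw.1
      push_cast at h1
      nlinarith)
    (by
      intro N
      obtain ⟨w, h1, h2, h3⟩ := hmid N
      exact ⟨w, h1, h2, h3⟩)
    (hbody.of_isClosed_subset (hclosed 0) fun w hw => hw.1)
    hclosed
  rw [Set.mem_iInter] at hw
  have hw0 := hw 0
  have hG0 : 0 ≤ ⟪u, lin p w⟫ - ⟪u, p z⟫ := by
    have := hw0.2.2
    simpa using this
  have hF : ev a (lin p w) = 0 := by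
    refine le_antisymm (hF0 w hw0.1) ?_
    by_contra h
    push Not at h
    obtain ⟨N, hN⟩ := exists_nat_gt ((⟪u, lin p w⟫ - ⟪u, p z⟫) / (-(ev a (lin p w))))
    have h1 := (hw N).2.2
    have h2 : 0 < -(ev a (lin p w)) := by linarith
    rw [div_lt_iff₀ h2] at hN
    nlinarith
  have hwz := hw0.2.1
  exact star_step K p a ha z u (fun y h1 h2 => hcon y h1 h2) w hw0.1 (by rw [hwz]; norm_num)
    (by rw [hwz]; norm_num) hF (by linarith)

end Pool.Agent.TSQ
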