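import Pool.Agent.TSQ.Stmts

/-!
# TSQ, module WBA: an inner vertex is a convex combination of its neighbours
-/

set_option autoImplicit false

open scoped RealInnerProductSpace

namespace Pool.Agent.TSQ

open Pool.Agent.TSM Pool.Agent.TSP

namespace WBA_

/-- an inner vertex is not an extreme vertex in any direction -/
theorem exists_other {V : Type} [Fintype V] [DecidableEq V] {p : V → E3} {Φ : Finset (E3 × ℝ)}
    (hH : Hull p Φ) {v : V} (hv : Int Φ p v) {u1 : E3} (hu1 : u1 ≠ 0) :
    ∃ y, ⟪u1, p v⟫ < ⟪u1, p y⟫ := by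
  by_contra hcon
  push Not at hcon
  have hev : ∀ᶠ ε in nhdsWithin (0 : ℝ) (Set.Ioi 0), ∀ φ ∈ Φ, ev φ (p v + ε • u1) < 0 := by
    rw [Filter.eventually_all_finset]
    intro φ hφ
    have hc : Continuous fun ε : ℝ => ev φ (p v + ε • u1) := by
      unfold ev
      fun_prop
    have h0 : ev φ (p v + (0 : ℝ) • u1) < 0 := by
      rw [zero_smul, add_zero]
      exact hv φ hφ
    exact mem_nhdsWithin_of_mem_nhds (hc.continuousAt.eventually (Iio_mem_nhds h0))
  obtain ⟨ε, hε, hε0⟩ := (hev.and self_mem_nhdsWithin).exists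
  have hmem : p v + ε • u1 ∈ convexHull ℝ (Set.range p) := by
    rw [← hH.eq]
    intro φ hφ
    exact (hε φ hφ).le
  have hsub : convexHull ℝ (Set.range p) ⊆ {x | ⟪u1, x⟫ ≤ ⟪u1, p v⟫} := by
    apply convexHull_min
    · rintro _ ⟨y, rfl⟩
      exact hcon y
    · exact convex_halfSpace_le (innerₛₗ ℝ u1).isLinear _
  have h1 := hsub hmem
  change ⟪u1, p v + ε • u1⟫ ≤ ⟪u1, p v⟫ at h1
  rw [inner_add_right, real_inner_smul_right] at h1
  have h2 : 0 < ε * ⟪u1, u1⟫ := mul_pos hε0 (inner_self_pos hu1)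
  linarith

end WBA_

open WBA_ in
theorem WBA_proof : Stmt_WBA := by
  classical
  intro V _ _ K p Φ hVT hH v hv
  set N : Set V := {y | K.Adj v y} with hN
  have hmem : p v ∈ convexHull ℝ (p '' N) := by
    by_contra hno
    have hfin : (p '' N).Finite := Set.toFinite _
    obtain ⟨f, c, hf1, hf2⟩ := geometric_hahn_banach_closed_point (convex_convexHull ℝ (p '' N))
      (hfin.isClosed_convexHull (𝕜 := ℝ)) hno
    set u0 : E3 := (InnerProductSpace.toDual ℝ E3).symm f with hu0
    have hu : ∀ x, ⟪u0, x⟫ = f x := by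
      intro x
      rw [hu0, InnerProductSpace.toDual_symm_apply]
    -- a point of the surface in the half space
    have hex : ∃ y, y ≠ v ∧ ⟪u0, p v⟫ ≤ ⟪u0, p y⟫ := by
      by_cases h0 : u0 = 0
      · obtain ⟨y, hy⟩ := exists_other hH hv (u1 := EuclideanSpace.single 0 1) (by
          intro h
          have := congrArg (fun x : E3 => x 0) h
          simp at this)
        refine ⟨y, ?_, ?_⟩
        · rintro rfl; exact lt_irrefl _ hy
        · rw [h0, inner_zero_left, inner_zero_left]
      · obtain ⟨y, hy⟩ := exists_other hH hv h0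
        exact ⟨y, by rintro rfl; exact lt_irrefl _ hy, hy.le⟩
    obtain ⟨y0, hy0, hy0'⟩ := hex
    have hzero : ∀ x : E3, ev ((0 : E3), (0 : ℝ)) x = 0 := by
      intro x; simp [ev]
    obtain ⟨y, hy, _, hy2⟩ := hVT ((0 : E3), (0 : ℝ)) (fun w => (hzero _).le) v u0 (hzero _)
      ⟨y0, hy0, hzero _, hy0'⟩
    have h1 := hf1 (p y) (subset_convexHull ℝ _ ⟨y, hy, rfl⟩)
    rw [hu, hu] at hy2
    linarith
  -- weights
  set C : Set E3 := {x | ∃ w : V → ℝ, (∀ y, 0 ≤ w y) ∧ (∀ y, ¬ K.Adj v y → w y = 0) ∧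
    ∑ y, w y = 1 ∧ x = ∑ y, w y • p y} with hC
  have hsub : convexHull ℝ (p '' N) ⊆ C := by
    apply convexHull_min
    · rintro _ ⟨y, hy, rfl⟩
      refine ⟨fun z => if z = y then 1 else 0, ?_, ?_, ?_, ?_⟩
      · intro z
        change 0 ≤ (if z = y then (1 : ℝ) else 0)
        split_ifs <;> norm_num
      · intro z hz
        change (if z = y then (1 : ℝ) else 0) = 0
        rw [if_neg]
        rintro rfl; exact hz hy
      · rw [Finset.sum_ite_eq' Finset.univ y]; simp
      · simp
    · rintro x ⟨w, hw1, hw2, hw3, hw4⟩ y ⟨w', hw1', hw2', hw3', hw4'⟩ a b ha hb hab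
      refine ⟨fun z => a * w z + b * w' z, ?_, ?_, ?_, ?_⟩
      · intro z
        have := mul_nonneg ha (hw1 z)
        have := mul_nonneg hb (hw1' z)
        positivity
      · intro z hz
        simp only [hw2 z hz, hw2' z hz, mul_zero, add_zero]
      · rw [Finset.sum_add_distrib, ← Finset.mul_sum, ← Finset.mul_sum, hw3, hw3', mul_one, mul_one,
          hab]
      · rw [hw4, hw4', Finset.smul_sum, Finset.smul_sum, ← Finset.sum_add_distrib]
        refine Finset.sum_congr rfl fun z _ => ?_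
        rw [add_smul, smul_smul, smul_smul]
  exact hsub hmem

end Pool.Agent.TSQ
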