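import Pool.Agent.TSQ.Stmts

/-!
# XCO: crossing of two paths in a cone
-/

set_option autoImplicit false

open scoped RealInnerProductSpace

namespace Pool.Agent.TSQ

open Pool.Agent.TSM Pool.Agent.TSP

namespace XCO_

/-- first coordinate -/
noncomputable def cL (o a c v : E3) : ℝ := det3 o v c / det3 o a c

/-- second coordinate -/
noncomputable def cM (o a c v : E3) : ℝ := det3 o a v / det3 o a c

/-- height above the boundary of the cone -/
noncomputable def cH (N : Finset E3) (hN : N.Nonempty) (o v : E3) : ℝ :=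
  N.inf' hN fun n => ⟪n, v⟫ / ⟪n, o⟫

/-- the norm -/
noncomputable def cR (N : Finset E3) (hN : N.Nonempty) (o a c v : E3) : ℝ :=
  Real.sqrt (cL o a c v ^ 2 + cM o a c v ^ 2 + cH N hN o v ^ 2)

theorem cont_cL (o a c : E3) : Continuous (cL o a c) := by
  unfold cL det3
  fun_prop

theorem cont_cM (o a c : E3) : Continuous (cM o a c) := by
  unfold cM det3
  fun_prop

theorem cont_cH (N : Finset E3) (hN : N.Nonempty) (o : E3) : Continuous (cH N hN o) := by
  unfold cH
  refine Continuous.finset_inf'_apply hN fun n _ => ?_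
  exact (continuous_const.inner continuous_id).div_const _

theorem cont_cR (N : Finset E3) (hN : N.Nonempty) (o a c : E3) :
    Continuous (cR N hN o a c) := by
  unfold cR
  exact Real.continuous_sqrt.comp ((((cont_cL o a c).pow 2).add ((cont_cM o a c).pow 2)).add
    ((cont_cH N hN o).pow 2))

theorem cL_smul (o a c v : E3) (r : ℝ) : cL o a c (r • v) = r * cL o a c v := by
  unfold cL det3
  simp only [PiLp.smul_apply, smul_eq_mul]
  ring

theorem cM_smul (o a c v : E3) (r : ℝ) : cM o a c (r • v) = r * cM o a c v := by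
  unfold cM det3
  simp only [PiLp.smul_apply, smul_eq_mul]
  ring

theorem cH_smul (N : Finset E3) (hN : N.Nonempty) (o v : E3) {r : ℝ} (hr : 0 < r) :
    cH N hN o (r • v) = r * cH N hN o v := by
  have e : ∀ n : E3, ⟪n, r • v⟫ / ⟪n, o⟫ = r * (⟪n, v⟫ / ⟪n, o⟫) := by
    intro n
    rw [inner_smul_right]
    ring
  apply le_antisymm
  · obtain ⟨n, hn, e1⟩ := Finset.exists_mem_eq_inf' hN (fun n : E3 => ⟪n, v⟫ / ⟪n, o⟫)
    unfold cH
    rw [e1, ← e]
    exact Finset.inf'_le (fun n : E3 => ⟪n, r • v⟫ / ⟪n, o⟫) hn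
  · unfold cH
    refine Finset.le_inf' hN _ fun n hn => ?_
    rw [e]
    exact mul_le_mul_of_nonneg_left (Finset.inf'_le (fun n : E3 => ⟪n, v⟫ / ⟪n, o⟫) hn) hr.le

theorem cH_add_le (N : Finset E3) (hN : N.Nonempty) (o v : E3) (ho : ∀ n ∈ N, ⟪n, o⟫ < 0)
    (t : ℝ) : cH N hN o (v + t • o) ≤ cH N hN o v + t := by
  obtain ⟨n, hn, e1⟩ := Finset.exists_mem_eq_inf' hN (fun n : E3 => ⟪n, v⟫ / ⟪n, o⟫)
  have e2 : cH N hN o v = ⟪n, v⟫ / ⟪n, o⟫ := e1
  have e3 : ⟪n, v + t • o⟫ / ⟪n, o⟫ = ⟪n, v⟫ / ⟪n, o⟫ + t := by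
    rw [inner_add_right, inner_smul_right]
    have := (ho n hn).ne
    field_simp
  rw [e2, ← e3]
  exact Finset.inf'_le (fun m : E3 => ⟪m, v + t • o⟫ / ⟪m, o⟫) hn

theorem uniq (N : Finset E3) (hN : N.Nonempty) (o a c : E3) (ho : ∀ n ∈ N, ⟪n, o⟫ < 0)
    (hd : det3 o a c ≠ 0) {v w : E3} (h1 : cL o a c v = cL o a c w)
    (h2 : cM o a c v = cM o a c w) (h3 : cH N hN o v = cH N hN o w) : v = w := by
  have ev := cramer o a c v hd
  have ew := cramer o a c w hd
  unfold cL at h1
  unfold cM at h2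
  rw [h1, h2] at ev
  have e : w = v + (det3 w a c / det3 o a c - det3 v a c / det3 o a c) • o := by
    calc w = (det3 o w c / det3 o a c) • a + (det3 o a w / det3 o a c) • c +
          (det3 w a c / det3 o a c) • o := ew
      _ = ((det3 o w c / det3 o a c) • a + (det3 o a w / det3 o a c) • c +
          (det3 v a c / det3 o a c) • o) +
          (det3 w a c / det3 o a c - det3 v a c / det3 o a c) • o := by module
      _ = v + (det3 w a c / det3 o a c - det3 v a c / det3 o a c) • o := by rw [← ev]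
  have e' : v = w + (-(det3 w a c / det3 o a c - det3 v a c / det3 o a c)) • o := by
    rw [neg_smul, eq_add_neg_iff_add_eq]
    exact e.symm
  have k1 := cH_add_le N hN o v ho (det3 w a c / det3 o a c - det3 v a c / det3 o a c)
  rw [← e] at k1
  have k2 := cH_add_le N hN o w ho (-(det3 w a c / det3 o a c - det3 v a c / det3 o a c))
  rw [← e'] at k2
  have k3 : det3 w a c / det3 o a c - det3 v a c / det3 o a c = 0 := by linarith
  rw [k3, zero_smul, add_zero] at e
  exact e.symm

theorem cH_nonneg (N : Finset E3) (hN : N.Nonempty) (o v : E3) (ho : ∀ n ∈ N, ⟪n, o⟫ < 0)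
    (hv : ∀ n ∈ N, ⟪n, v⟫ ≤ 0) : 0 ≤ cH N hN o v :=
  Finset.le_inf' hN _ fun n hn => div_nonneg_of_nonpos (hv n hn) (ho n hn).le

theorem cH_zero (N : Finset E3) (hN : N.Nonempty) (o v : E3) (ho : ∀ n ∈ N, ⟪n, o⟫ < 0)
    (hv : ∀ n ∈ N, ⟪n, v⟫ ≤ 0) (h0 : ∃ n ∈ N, ⟪n, v⟫ = 0) : cH N hN o v = 0 := by
  apply le_antisymm _ (cH_nonneg N hN o v ho hv)
  obtain ⟨n, hn, h⟩ := h0
  have := Finset.inf'_le (fun m : E3 => ⟪m, v⟫ / ⟪m, o⟫) hn
  simp only [h, zero_div] at this
  exact this

theorem cR_pos (N : Finset E3) (hN : N.Nonempty) (o a c : E3) (ho : ∀ n ∈ N, ⟪n, o⟫ < 0)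
    (hd : det3 o a c ≠ 0) {v : E3} (hv : v ≠ 0) : 0 < cR N hN o a c v := by
  apply Real.sqrt_pos.2
  by_contra hc
  push Not at hc
  have q1 := sq_nonneg (cL o a c v)
  have q2 := sq_nonneg (cM o a c v)
  have q3 := sq_nonneg (cH N hN o v)
  have h1 : cL o a c v = 0 := by
    have : cL o a c v ^ 2 = 0 := by linarith
    exact pow_eq_zero_iff (two_ne_zero) |>.1 this
  have h2 : cM o a c v = 0 := by
    have : cM o a c v ^ 2 = 0 := by linarith
    exact pow_eq_zero_iff (two_ne_zero) |>.1 this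
  have h3 : cH N hN o v = 0 := by
    have : cH N hN o v ^ 2 = 0 := by linarith
    exact pow_eq_zero_iff (two_ne_zero) |>.1 this
  apply hv
  refine uniq N hN o a c ho hd ?_ ?_ ?_
  · rw [h1]
    have := cL_smul o a c 0 0
    rw [zero_smul, zero_mul] at this
    exact this.symm
  · rw [h2]
    have := cM_smul o a c 0 0
    rw [zero_smul, zero_mul] at this
    exact this.symm
  · rw [h3]
    unfold cH
    simp only [inner_zero_right, zero_div]
    rw [Finset.inf'_const]

theorem cR_sq (N : Finset E3) (hN : N.Nonempty) (o a c v : E3) :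
    cR N hN o a c v ^ 2 = cL o a c v ^ 2 + cM o a c v ^ 2 + cH N hN o v ^ 2 :=
  Real.sq_sqrt (by positivity)

/-- the projection to the disc -/
noncomputable def prj (N : Finset E3) (hN : N.Nonempty) (o a c v : E3) : ℝ × ℝ :=
  (cL o a c v / cR N hN o a c v, cM o a c v / cR N hN o a c v)

theorem prj_disc (N : Finset E3) (hN : N.Nonempty) (o a c : E3) (ho : ∀ n ∈ N, ⟪n, o⟫ < 0)
    (hd : det3 o a c ≠ 0) {v : E3} (hv : v ≠ 0) :
    (prj N hN o a c v).1 ^ 2 + (prj N hN o a c v).2 ^ 2 +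
      (cH N hN o v / cR N hN o a c v) ^ 2 = 1 := by
  have hR := cR_pos N hN o a c ho hd hv
  have hs := cR_sq N hN o a c v
  unfold prj
  simp only [div_pow]
  rw [← add_div, ← add_div, ← hs]
  exact div_self (by positivity)

theorem cont_path {S : Set E3} (N : Finset E3) (hN : N.Nonempty) (o a c : E3)
    (ho : ∀ n ∈ N, ⟪n, o⟫ < 0) (hd : det3 o a c ≠ 0) (hS : ∀ v ∈ S, v ≠ 0) (γ : ℝ → E3)
    (hγ : Continuous γ) (hm : ∀ s, γ s ∈ S) : Continuous fun s => prj N hN o a c (γ s) := by
  unfold prj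
  refine Continuous.prodMk ?_ ?_
  · exact ((cont_cL o a c).comp hγ).div ((cont_cR N hN o a c).comp hγ)
      fun s => (cR_pos N hN o a c ho hd (hS _ (hm s))).ne'
  · exact ((cont_cM o a c).comp hγ).div ((cont_cR N hN o a c).comp hγ)
      fun s => (cR_pos N hN o a c ho hd (hS _ (hm s))).ne'

theorem coords (o a c : E3) (hd : det3 o a c ≠ 0) (l m k : ℝ) :
    cL o a c (l • a + m • c + k • o) = l ∧ cM o a c (l • a + m • c + k • o) = m := by
  unfold cL cM
  rw [det3_coord1, det3_coord2]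
  constructor
  · field_simp
  · field_simp

theorem get_path {S : Set E3} {x y : E3} (h : JoinedIn S x y) :
    ∃ γ : ℝ → E3, Continuous γ ∧ (∀ s, γ s ∈ S) ∧ γ 0 = x ∧ γ 1 = y := by
  refine ⟨h.somePath.extend, h.somePath.continuous_extend, fun s => ?_,
    h.somePath.extend_zero, h.somePath.extend_one⟩
  have h1 : h.somePath.extend s ∈ Set.range h.somePath.extend := Set.mem_range_self s
  rw [Path.extend_range] at h1
  obtain ⟨t, ht⟩ := h1
  rw [← ht]
  exact h.somePath_mem t

end XCO_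

open XCO_ in
theorem XCO_proof (hX : Stmt_XPL) : Stmt_XCO := by
  intro N o a c b d A B hN ho hd hA hB hAc hBd ha0 hc0 hb0 hd0 hb hdd
  obtain ⟨γ, g1, g2, g3, g4⟩ := get_path hAc
  obtain ⟨η, e1, e2, e3, e4⟩ := get_path hBd
  have haA : a ∈ A := by
    have := g2 0
    rwa [g3] at this
  have hcA : c ∈ A := by
    have := g2 1
    rwa [g4] at this
  have hbB : b ∈ B := by
    have := e2 0
    rwa [e3] at this
  have hdB : d ∈ B := by
    have := e2 1
    rwa [e4] at this
  have ha := coords o a c hd 1 0 0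
  have hc := coords o a c hd 0 1 0
  simp only [one_smul, zero_smul, add_zero, zero_add] at ha hc
  have Ha := cH_zero N hN o a ho (hA a haA).2 ha0
  have Hc := cH_zero N hN o c ho (hA c hcA).2 hc0
  have Hb := cH_zero N hN o b ho (hB b hbB).2 hb0
  have Hd := cH_zero N hN o d ho (hB d hdB).2 hd0
  have pa : prj N hN o a c a = (1, 0) := by
    unfold prj cR
    rw [ha.1, ha.2, Ha]
    simp
  have pc : prj N hN o a c c = (0, 1) := by
    unfold prj cR
    rw [hc.1, hc.2, Hc]
    simp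
  have pb := prj_disc N hN o a c ho hd (hB b hbB).1
  have pd := prj_disc N hN o a c ho hd (hB d hdB).1
  rw [Hb, zero_div] at pb
  rw [Hd, zero_div] at pd
  have Rb := cR_pos N hN o a c ho hd (hB b hbB).1
  have Rd := cR_pos N hN o a c ho hd (hB d hdB).1
  obtain ⟨l, m, k, hl, hm, hbe⟩ := hb
  have hbc := coords o a c hd l m k
  rw [← hbe] at hbc
  have hneg : cL o a c d < 0 ∨ cM o a c d < 0 := by
    by_contra hcon
    push Not at hcon
    exact hdd _ _ _ hcon.1 hcon.2 (cramer o a c d hd)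
  obtain ⟨s, _, t, _, hst⟩ := hX (fun s => prj N hN o a c (γ s)) (fun s => prj N hN o a c (η s))
    (cont_path N hN o a c ho hd (fun v hv => (hA v hv).1) γ g1 g2).continuousOn
    (cont_path N hN o a c ho hd (fun v hv => (hB v hv).1) η e1 e2).continuousOn
    (fun s _ => by
      have h1 := prj_disc N hN o a c ho hd (hA _ (g2 s)).1
      have h2 := sq_nonneg (cH N hN o (γ s) / cR N hN o a c (γ s))
      linarith)
    (fun s _ => by
      have h1 := prj_disc N hN o a c ho hd (hB _ (e2 s)).1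
      have h2 := sq_nonneg (cH N hN o (η s) / cR N hN o a c (η s))
      linarith)
    (by rw [g3, pa]) (by rw [g4, pc])
    (by
      rw [e3]
      unfold prj
      dsimp only
      rw [hbc.1]
      positivity)
    (by
      rw [e3]
      unfold prj
      dsimp only
      rw [hbc.2]
      positivity)
    (by rw [e3]; linarith) (by rw [e4]; linarith)
    (by
      rw [e4]
      unfold prj
      dsimp only
      rcases hneg with h | h
      · exact Or.inl (div_neg_of_neg_of_pos h Rd)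
      · exact Or.inr (div_neg_of_neg_of_pos h Rd))
  refine ⟨γ s, g2 s, η t, e2 t, ?_⟩
  have Rv := cR_pos N hN o a c ho hd (hA _ (g2 s)).1
  have Rw := cR_pos N hN o a c ho hd (hB _ (e2 t)).1
  have Pv := prj_disc N hN o a c ho hd (hA _ (g2 s)).1
  have Pw := prj_disc N hN o a c ho hd (hB _ (e2 t)).1
  rw [hst] at Pv
  have hH : cH N hN o (γ s) / cR N hN o a c (γ s) = cH N hN o (η t) / cR N hN o a c (η t) := by
    have h1 : 0 ≤ cH N hN o (γ s) / cR N hN o a c (γ s) :=
      div_nonneg (cH_nonneg N hN o _ ho (hA _ (g2 s)).2) Rv.le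
    have h2 : 0 ≤ cH N hN o (η t) / cR N hN o a c (η t) :=
      div_nonneg (cH_nonneg N hN o _ ho (hB _ (e2 t)).2) Rw.le
    have h3 : (cH N hN o (γ s) / cR N hN o a c (γ s)) ^ 2 =
        (cH N hN o (η t) / cR N hN o a c (η t)) ^ 2 := by linarith
    exact (pow_left_inj₀ h1 h2 two_ne_zero).1 h3
  unfold prj at hst
  rw [Prod.mk.injEq] at hst
  refine ⟨cR N hN o a c (γ s) / cR N hN o a c (η t), div_pos Rv Rw, ?_⟩
  refine uniq N hN o a c ho hd ?_ ?_ ?_
  · rw [cL_smul]
    have := hst.1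
    rw [div_eq_div_iff Rv.ne' Rw.ne'] at this
    field_simp
    linarith
  · rw [cM_smul]
    have := hst.2
    rw [div_eq_div_iff Rv.ne' Rw.ne'] at this
    field_simp
    linarith
  · rw [cH_smul N hN o _ (div_pos Rv Rw)]
    rw [div_eq_div_iff Rv.ne' Rw.ne'] at hH
    field_simp
    linarith

end Pool.Agent.TSQ
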