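import Pool.Agent.TSQ.Stmts

/-!
# XLS: crossing of two polygonal cone paths
-/

set_option autoImplicit false

open scoped RealInnerProductSpace

namespace Pool.Agent.TSQ

open Pool.Agent.TSM Pool.Agent.TSP

namespace XLS_

/-- union of the segments of a list -/
def S (l : List E3) : Set E3 := {v | ∃ q ∈ conseq l, v ∈ segment ℝ q.1 q.2}

theorem conseq_mem {α : Type} : ∀ (l : List α) (q : α × α), q ∈ conseq l → q.1 ∈ l ∧ q.2 ∈ l
  | [], q, h => by simp [conseq] at h
  | [a], q, h => by simp [conseq] at h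
  | a :: b :: l, q, h => by
    rw [conseq, List.mem_cons] at h
    rcases h with rfl | h
    · exact ⟨by simp, by simp⟩
    · obtain ⟨h1, h2⟩ := conseq_mem (b :: l) q h
      exact ⟨List.mem_cons_of_mem _ h1, List.mem_cons_of_mem _ h2⟩

theorem joined : ∀ (l : List E3) (x y z : E3), (x :: y :: l).getLast? = some z →
    JoinedIn (S (x :: y :: l)) x z
  | [], x, y, z, h => by
    simp at h
    subst h
    refine JoinedIn.of_segment_subset fun v hv => ?_
    exact ⟨(x, y), by simp [conseq], hv⟩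
  | w :: l, x, y, z, h => by
    have h' : (y :: w :: l).getLast? = some z := by
      rw [← h]
      simp [List.getLast?_cons_cons]
    have ih := joined l y w z h'
    have h1 : JoinedIn (S (x :: y :: w :: l)) x y := by
      refine JoinedIn.of_segment_subset fun v hv => ?_
      exact ⟨(x, y), by simp [conseq], hv⟩
    refine h1.trans (ih.mono ?_)
    rintro v ⟨q, hq, hv⟩
    refine ⟨q, ?_, hv⟩
    rw [conseq]
    exact List.mem_cons_of_mem _ hq

theorem props (N : Finset E3) (A : List E3) (hA : ∀ v ∈ A, ∀ n ∈ N, ⟪n, v⟫ ≤ 0)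
    (h0 : ∀ q ∈ conseq A, ∀ s t : ℝ, 0 ≤ s → 0 ≤ t → s • q.1 + t • q.2 = 0 → s = 0 ∧ t = 0) :
    ∀ v ∈ S A, v ≠ 0 ∧ ∀ n ∈ N, ⟪n, v⟫ ≤ 0 := by
  rintro v ⟨q, hq, s, t, hs, ht, hst, rfl⟩
  obtain ⟨m1, m2⟩ := conseq_mem A q hq
  refine ⟨fun h => ?_, fun n hn => ?_⟩
  · obtain ⟨h1, h2⟩ := h0 q hq s t hs ht h
    rw [h1, h2] at hst
    norm_num at hst
  · rw [inner_add_right, inner_smul_right, inner_smul_right]
    have h1 := mul_nonneg hs (neg_nonneg.2 (hA _ m1 n hn))
    have h2 := mul_nonneg ht (neg_nonneg.2 (hA _ m2 n hn))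
    linarith

theorem getJoined (l : List E3) (x z : E3) (h1 : l.head? = some x) (h2 : l.getLast? = some z)
    (hne : x ≠ z) : JoinedIn (S l) x z := by
  match l, h1, h2 with
  | [], h1, _ => simp at h1
  | [w], h1, h2 =>
    simp at h1 h2
    exact absurd (h1.symm.trans h2) hne
  | w :: y :: l, h1, h2 =>
    simp at h1
    subst h1
    exact joined l w y z h2

end XLS_

open XLS_ in
theorem XLS_proof (hX : Stmt_XCO) : Stmt_XLS := by
  intro N o a c b d A B hN ho hd hAh hAl hBh hBl hA hB ha hc hb hdd hA0 hB0 hbc hdc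
  have hac : a ≠ c := by
    rintro rfl
    apply hd
    unfold det3
    ring
  have hbd : b ≠ d := by
    rintro rfl
    obtain ⟨l, m, k, hl, hm, h⟩ := hbc
    exact hdc l m k hl.le hm.le h
  obtain ⟨v, ⟨q, hq, s, t, hs, ht, hst, rfl⟩, w, ⟨r, hr, s', t', hs', ht', hst', rfl⟩, ρ, hρ, he⟩ :=
    hX N o a c b d (S A) (S B) hN ho hd (props N A hA hA0) (props N B hB hB0)
    (getJoined A a c hAh hAl hac) (getJoined B b d hBh hBl hbd) ha hc hb hdd hbc hdc
  refine ⟨q, hq, r, hr, s, t, ρ * s', ρ * t', hs, ht, by positivity, by positivity, ?_, ?_⟩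
  · rw [he]
    module
  · intro h
    obtain ⟨h1, h2⟩ := hA0 q hq s t hs ht h
    rw [h1, h2] at hst
    norm_num at hst

end Pool.Agent.TSQ
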