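import Pool.Agent.TSQ.Stmts
import Pool.Agent.SD.LBC

/-!
# TSQ, module XPL: planar crossing of two paths in the disc (helper29)
-/

set_option autoImplicit false

namespace Pool.Agent.TSQ

namespace XPL_

/-- the clamp to the unit interval -/
theorem clamp (x : ℝ) : ∃ y : ℝ, x = max 0 (min 1 x) + y ∧
    ((y < 0 ∧ max 0 (min 1 x) = 0) ∨ y = 0 ∨ (0 < y ∧ max 0 (min 1 x) = 1)) := by
  refine ⟨x - max 0 (min 1 x), by ring, ?_⟩
  rcases lt_or_ge x 0 with h | h
  · left
    have e : max 0 (min 1 x) = 0 := max_eq_left ((min_le_right _ _).trans h.le)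
    rw [e]
    exact ⟨by linarith, rfl⟩
  · rcases le_or_gt x 1 with h1 | h1
    · right
      left
      rw [min_eq_right h1, max_eq_right h]
      ring
    · right
      right
      have e : max 0 (min 1 x) = 1 := by
        rw [min_eq_left h1.le]
        exact max_eq_right zero_le_one
      rw [e]
      exact ⟨by linarith, rfl⟩

theorem clamp_mem (x : ℝ) : max 0 (min 1 x) ∈ Set.Icc (0 : ℝ) 1 :=
  ⟨le_max_left _ _, max_le zero_le_one (min_le_left _ _)⟩

theorem coord_bd {a b : ℝ} (h : a ^ 2 + b ^ 2 ≤ 1) : |a| ≤ 1 ∧ |b| ≤ 1 := by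
  constructor
  · rw [abs_le]
    constructor <;> nlinarith
  · rw [abs_le]
    constructor <;> nlinarith

theorem inner_le {a b c d : ℝ} (h : a ^ 2 + b ^ 2 ≤ 1) (h' : c ^ 2 + d ^ 2 ≤ 1) :
    a * c + b * d ≤ 1 := by
  nlinarith [sq_nonneg (a - c), sq_nonneg (b - d)]

end XPL_

open XPL_ in
theorem XPL_proof : Stmt_XPL := by
  intro α β hα hβ hα1 hβ1 hα0 hα1' hb1 hb2 hbn hdn hd
  set b1 := (β 0).1 with hb1d
  set b2 := (β 0).2 with hb2d
  set d1 := (β 1).1 with hd1d
  set d2 := (β 1).2 with hd2d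
  have hbs : 1 < b1 + b2 := by nlinarith [mul_pos hb1 hb2]
  have hds : d1 + d2 < 1 := by
    rcases hd with h | h
    · have : d2 ≤ 1 := by nlinarith
      linarith
    · have : d1 ≤ 1 := by nlinarith
      linarith
  have hbd : b1 * d1 + b2 * d2 < 1 := by
    rcases hd with h | h
    · have h1 : b1 * d1 < 0 := mul_neg_of_pos_of_neg hb1 h
      have h2 : d2 ≤ 1 := by nlinarith
      have h3 : b2 ≤ 1 := by nlinarith
      nlinarith
    · have h1 : b2 * d2 < 0 := mul_neg_of_pos_of_neg hb2 h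
      have h2 : d1 ≤ 1 := by nlinarith
      have h3 : b1 ≤ 1 := by nlinarith
      nlinarith
  set Δ : ℝ := (b1 + b2) - (d1 + d2) with hΔ
  have hΔ0 : 0 < Δ := by
    rw [hΔ]
    linarith
  -- the clamped paths
  set c : ℝ → ℝ := fun x => max 0 (min 1 x) with hc
  have hcc : Continuous c := continuous_const.max (continuous_const.min continuous_id)
  have hαc : Continuous fun x => α (c x) := by
    rw [← continuousOn_univ]
    exact hα.comp hcc.continuousOn fun x _ => clamp_mem x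
  have hβc : Continuous fun x => β (c x) := by
    rw [← continuousOn_univ]
    exact hβ.comp hcc.continuousOn fun x _ => clamp_mem x
  set F1 : (Fin 2 → ℝ) → ℝ := fun x => (α (c (x 0))).1 - (β (c (x 1))).1 with hF1
  set F2 : (Fin 2 → ℝ) → ℝ := fun x => (α (c (x 0))).2 - (β (c (x 1))).2 with hF2
  have hF1c : Continuous F1 :=
    ((hαc.comp (continuous_apply 0)).fst).sub ((hβc.comp (continuous_apply 1)).fst)
  have hF2c : Continuous F2 :=
    ((hαc.comp (continuous_apply 0)).snd).sub ((hβc.comp (continuous_apply 1)).snd)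
  set f : (Fin 2 → ℝ) → (Fin 2 → ℝ) := fun x =>
    ![x 0 - c (x 0) + (-(b2 - d2) * F1 x + (b1 - d1) * F2 x) / Δ,
      x 1 - c (x 1) + (F1 x + F2 x) / Δ] with hf
  have hfc : Continuous f := by
    refine continuous_pi fun i => ?_
    fin_cases i
    · exact ((continuous_apply 0).sub (hcc.comp (continuous_apply 0))).add
        (((continuous_const.mul hF1c).add (continuous_const.mul hF2c)).div_const _)
    · exact ((continuous_apply 1).sub (hcc.comp (continuous_apply 1))).add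
        ((hF1c.add hF2c).div_const _)
  have hF1b : ∀ x, |F1 x| ≤ 2 := by
    intro x
    have h1 := (coord_bd (hα1 _ (clamp_mem (x 0)))).1
    have h2 := (coord_bd (hβ1 _ (clamp_mem (x 1)))).1
    exact (abs_sub _ _).trans (by linarith)
  have hF2b : ∀ x, |F2 x| ≤ 2 := by
    intro x
    have h1 := (coord_bd (hα1 _ (clamp_mem (x 0)))).2
    have h2 := (coord_bd (hβ1 _ (clamp_mem (x 1)))).2
    exact (abs_sub _ _).trans (by linarith)
  obtain ⟨x, hx⟩ := Pool.Agent.SD.LBC.surj_pi f hfc ⟨1 + 8 / Δ, fun x => by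
    have hb := coord_bd hbn.le
    have hd' := coord_bd hdn.le
    have hc0 := clamp_mem (x 0)
    have hc1 := clamp_mem (x 1)
    have g1 := hF1b x
    have g2 := hF2b x
    have g3 : |b2 - d2| ≤ 2 := (abs_sub _ _).trans (by linarith)
    have g4 : |b1 - d1| ≤ 2 := (abs_sub _ _).trans (by linarith)
    have g5 : |(b2 - d2) * F1 x| ≤ 4 := by
      rw [abs_mul]
      have := mul_le_mul g3 g1 (abs_nonneg _) (by norm_num)
      linarith
    have g6 : |(b1 - d1) * F2 x| ≤ 4 := by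
      rw [abs_mul]
      have := mul_le_mul g4 g2 (abs_nonneg _) (by norm_num)
      linarith
    have hΔ8 : 0 ≤ 8 / Δ := by positivity
    rw [pi_norm_le_iff_of_nonneg (by linarith)]
    intro i
    fin_cases i
    · change |x 0 - c (x 0) + (-(b2 - d2) * F1 x + (b1 - d1) * F2 x) / Δ - x 0| ≤ _
      have e : x 0 - c (x 0) + (-(b2 - d2) * F1 x + (b1 - d1) * F2 x) / Δ - x 0 =
        -c (x 0) + (-(b2 - d2) * F1 x + (b1 - d1) * F2 x) / Δ := by ring
      rw [e]
      refine (abs_add_le _ _).trans (add_le_add ?_ ?_)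
      · rw [abs_neg, abs_of_nonneg hc0.1]
        exact hc0.2
      · rw [abs_div, abs_of_pos hΔ0]
        refine div_le_div_of_nonneg_right ?_ hΔ0.le
        refine (abs_add_le _ _).trans ?_
        rw [neg_mul, abs_neg]
        linarith
    · change |x 1 - c (x 1) + (F1 x + F2 x) / Δ - x 1| ≤ _
      have e : x 1 - c (x 1) + (F1 x + F2 x) / Δ - x 1 =
        -c (x 1) + (F1 x + F2 x) / Δ := by ring
      rw [e]
      refine (abs_add_le _ _).trans (add_le_add ?_ ?_)
      · rw [abs_neg, abs_of_nonneg hc1.1]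
        exact hc1.2
      · rw [abs_div, abs_of_pos hΔ0]
        refine div_le_div_of_nonneg_right ?_ hΔ0.le
        refine (abs_add_le _ _).trans ?_
        linarith⟩ 0
  have e1 : x 0 - c (x 0) + (-(b2 - d2) * F1 x + (b1 - d1) * F2 x) / Δ = 0 := congrFun hx 0
  have e2 : x 1 - c (x 1) + (F1 x + F2 x) / Δ = 0 := congrFun hx 1
  obtain ⟨y1, hy1, hy1'⟩ := clamp (x 0)
  obtain ⟨y2, hy2, hy2'⟩ := clamp (x 1)
  have e1' : y1 * Δ = (b2 - d2) * F1 x - (b1 - d1) * F2 x := by
    have h1 : y1 = -((-(b2 - d2) * F1 x + (b1 - d1) * F2 x) / Δ) := by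
      have : x 0 = c (x 0) + y1 := hy1
      linarith
    rw [h1, neg_mul, div_mul_cancel₀ _ hΔ0.ne']
    ring
  have e2' : y2 * Δ = -(F1 x + F2 x) := by
    have h1 : y2 = -((F1 x + F2 x) / Δ) := by
      have : x 1 = c (x 1) + y2 := hy2
      linarith
    rw [h1, neg_mul, div_mul_cancel₀ _ hΔ0.ne']
  have k1 : F1 x = y1 - (b1 - d1) * y2 := by
    have : Δ * F1 x = Δ * (y1 - (b1 - d1) * y2) := by
      rw [hΔ] at e1' e2' ⊢
      linear_combination (-1 : ℝ) * e1' + (b1 - d1) * e2'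
    exact mul_left_cancel₀ hΔ0.ne' this
  have k2 : F2 x = -y1 - (b2 - d2) * y2 := by
    have : Δ * F2 x = Δ * (-y1 - (b2 - d2) * y2) := by
      rw [hΔ] at e1' e2' ⊢
      linear_combination e1' + (b2 - d2) * e2'
    exact mul_left_cancel₀ hΔ0.ne' this
  have m0 := clamp_mem (x 0)
  have m1 := clamp_mem (x 1)
  have a1 := hα1 _ m0
  have a2 := hβ1 _ m1
  have f1 : F1 x = (α (c (x 0))).1 - (β (c (x 1))).1 := rfl
  have f2 : F2 x = (α (c (x 0))).2 - (β (c (x 1))).2 := rfl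
  change y1 < 0 ∧ c (x 0) = 0 ∨ y1 = 0 ∨ 0 < y1 ∧ c (x 0) = 1 at hy1'
  change y2 < 0 ∧ c (x 1) = 0 ∨ y2 = 0 ∨ 0 < y2 ∧ c (x 1) = 1 at hy2'
  change (α (c (x 0))).1 ^ 2 + (α (c (x 0))).2 ^ 2 ≤ 1 at a1
  change (β (c (x 1))).1 ^ 2 + (β (c (x 1))).2 ^ 2 ≤ 1 at a2
  rcases hy2' with ⟨h2, g2⟩ | h2 | ⟨h2, g2⟩
  · exfalso
    rw [g2] at f1 f2
    change F1 x = (α (c (x 0))).1 - b1 at f1
    change F2 x = (α (c (x 0))).2 - b2 at f2
    rcases hy1' with ⟨h1, g1⟩ | h1 | ⟨h1, g1⟩
    · rw [g1, hα0] at f1 f2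
      have : (b1 + b2 - (d1 + d2)) * y2 < 0 := mul_neg_of_pos_of_neg hΔ0 h2
      linarith
    · have h3 := inner_le a1 hbn.le
      have h4 : (1 - (b1 * d1 + b2 * d2)) * y2 < 0 := mul_neg_of_pos_of_neg (by linarith) h2
      rw [h1] at k1 k2
      nlinarith
    · rw [g1, hα1'] at f1 f2
      have : (b1 + b2 - (d1 + d2)) * y2 < 0 := mul_neg_of_pos_of_neg hΔ0 h2
      linarith
  · rcases hy1' with ⟨h1, g1⟩ | h1 | ⟨h1, g1⟩
    · exfalso
      rw [g1, hα0] at f1
      have h3 := (abs_le.mp (coord_bd a2).1).2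
      rw [h2] at k1
      have f1' : F1 x = 1 - (β (c (x 1))).1 := f1
      linarith
    · refine ⟨c (x 0), m0, c (x 1), m1, ?_⟩
      rw [h1, h2] at k1 k2
      refine Prod.ext ?_ ?_
      · linarith
      · linarith
    · exfalso
      rw [g1, hα1'] at f2
      have h3 := (abs_le.mp (coord_bd a2).2).2
      rw [h2] at k2
      have f2' : F2 x = 1 - (β (c (x 1))).2 := f2
      linarith
  · exfalso
    rw [g2] at f1 f2
    change F1 x = (α (c (x 0))).1 - d1 at f1
    change F2 x = (α (c (x 0))).2 - d2 at f2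
    rcases hy1' with ⟨h1, g1⟩ | h1 | ⟨h1, g1⟩
    · rw [g1, hα0] at f1 f2
      have : 0 < (b1 + b2 - (d1 + d2)) * y2 := mul_pos hΔ0 h2
      linarith
    · have h3 := inner_le a1 hdn.le
      have h4 : 0 < (1 - (b1 * d1 + b2 * d2)) * y2 := mul_pos (by linarith) h2
      rw [h1] at k1 k2
      have i1 : (α (c (x 0))).1 = d1 - (b1 - d1) * y2 := by linarith
      have i2 : (α (c (x 0))).2 = d2 - (b2 - d2) * y2 := by linarith
      have i3 : (α (c (x 0))).1 * d1 + (α (c (x 0))).2 * d2 =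
          (d1 ^ 2 + d2 ^ 2) + ((d1 ^ 2 + d2 ^ 2) - (b1 * d1 + b2 * d2)) * y2 := by
        rw [i1, i2]
        ring
      rw [hdn] at i3
      linarith
    · rw [g1, hα1'] at f1 f2
      have : 0 < (b1 + b2 - (d1 + d2)) * y2 := mul_pos hΔ0 h2
      linarith

end Pool.Agent.TSQ
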