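import Pool.Agent.TSQ.PMain
import Pool.Agent.TSQ.P5M
import Pool.Agent.TSQ.AVD
import Pool.Agent.TSQ.BOP
import Pool.Agent.TSQ.CIA
import Pool.Agent.TSQ.CIM
import Pool.Agent.TSQ.CIO
import Pool.Agent.TSQ.CIS
import Pool.Agent.TSQ.CIW
import Pool.Agent.TSQ.CIZ
import Pool.Agent.TSQ.CRN
import Pool.Agent.TSQ.CRO
import Pool.Agent.TSQ.EMB
import Pool.Agent.TSQ.EMC
import Pool.Agent.TSQ.EXU
import Pool.Agent.TSQ.FAN
import Pool.Agent.TSQ.FCV
import Pool.Agent.TSQ.FOL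
import Pool.Agent.TSQ.GEN
import Pool.Agent.TSQ.HPA
import Pool.Agent.TSQ.HPL
import Pool.Agent.TSQ.LKA
import Pool.Agent.TSQ.LKB
import Pool.Agent.TSQ.NPL
import Pool.Agent.TSQ.NPS
import Pool.Agent.TSQ.OCH
import Pool.Agent.TSQ.OUT
import Pool.Agent.TSQ.P4M
import Pool.Agent.TSQ.P6M
import Pool.Agent.TSQ.PCK
import Pool.Agent.TSQ.PKA
import Pool.Agent.TSQ.PKB
import Pool.Agent.TSQ.PKC
import Pool.Agent.TSQ.PKF
import Pool.Agent.TSQ.PKL
import Pool.Agent.TSQ.PTH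
import Pool.Agent.TSQ.SPA
import Pool.Agent.TSQ.SPB
import Pool.Agent.TSQ.SPC
import Pool.Agent.TSQ.SPE
import Pool.Agent.TSQ.SPH
import Pool.Agent.TSQ.SPR
import Pool.Agent.TSQ.SPS
import Pool.Agent.TSQ.STB
import Pool.Agent.TSQ.TTR
import Pool.Agent.TSQ.TUT
import Pool.Agent.TSQ.TWO
import Pool.Agent.TSQ.VTX
import Pool.Agent.TSQ.WBA
import Pool.Agent.TSQ.XCO
import Pool.Agent.TSQ.XLS
import Pool.Agent.TSQ.XPL

/-!
# TSQ.PAsm: Part P with all modules plugged in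
-/

set_option autoImplicit false

open scoped RealInnerProductSpace

namespace Pool.Agent.TSQ

open Pool.Agent.TSM Pool.Agent.TSP

namespace PAsm_

theorem pkc : Stmt_PKC := PKC_proof LKA_proof FCV_proof EMC_proof
theorem xls : Stmt_XLS := XLS_proof (XCO_proof XPL_proof)
theorem pka : Stmt_PKA := PKA_proof LKA_proof pkc xls EMC_proof
theorem pkb : Stmt_PKB := PKB_proof LKA_proof FCV_proof OCH_proof pka EMC_proof
theorem pkf : Stmt_PKF := PKF_proof LKA_proof OCH_proof pkc pka EMC_proof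
theorem pkl : Stmt_PKL := PKL_proof LKA_proof OCH_proof pkc pka xls CIO_proof EMC_proof
theorem pck : Stmt_PCK := PCK_proof LKA_proof OCH_proof pkc pkb pkf pkl
theorem ttr : Stmt_TTR := TTR_proof LKA_proof LKB_proof EMC_proof pkb
theorem out : Stmt_OUT := OUT_proof ttr
theorem two : Stmt_TWO := TWO_proof EMC_proof
theorem fol : Stmt_FOL :=
  FOL_proof LKA_proof LKB_proof (PTH_proof LKA_proof) EMC_proof two ttr
theorem sps : Stmt_SPS := SPS_proof LKA_proof LKB_proof SPC_proof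
theorem spe : Stmt_SPE := SPE_proof LKA_proof LKB_proof EMC_proof SPC_proof CIZ_proof
  (CIW_proof CIO_proof) (CIA_proof CIO_proof) (CIM_proof CIO_proof) CIS_proof
theorem spb : Stmt_SPB := SPB_proof SPA_proof NPS_proof BOP_proof EMC_proof
theorem spr : Stmt_SPR := SPR_proof LKA_proof LKB_proof SPC_proof NPS_proof
theorem hpl : Stmt_HPL := HPL_proof HPA_proof
theorem npl : Stmt_NPL := NPL_proof LKA_proof LKB_proof EMC_proof
theorem p4m : Stmt_P4M :=
  P4M_proof EMC_proof (EXU_proof EMC_proof) WBA_proof TUT_proof STB_proof CIO_proof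
theorem p6m : Stmt_P6M := P6M_proof LKA_proof EMC_proof CIO_proof BOP_proof
  (GEN_proof AVD_proof) CRO_proof (CRN_proof LKA_proof LKB_proof EMC_proof FAN_proof)

end PAsm_

open PAsm_ in
/-- Part P from the removal of flat vertices, the split homeomorphism and two split modules. -/
theorem stmt_P_of' (hP3 : TSP.Stmt_P3) (hHsp : TSP.Stmt_Hsp) (hSPW : Stmt_SPW)
    (hSPM : Stmt_SPM) : Stmt_P :=
  stmt_P_of hP3 EMB_proof VTX_proof npl hpl p4m
    (P5M_proof fol pck sps spe spb hSPW hSPM (SPH_proof hHsp) out) p6m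

end Pool.Agent.TSQ
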