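import Pool.Agent.TSQ.Stmts
import Pool.Agent.TSM.Final

/-!
# TSQ.PMain: assembly of Part P
-/

set_option autoImplicit false

open scoped RealInnerProductSpace

namespace Pool.Agent.TSQ

open Pool.Agent.TSM Pool.Agent.TSP

theorem stmt_P_of (hP3 : TSP.Stmt_P3) (hEMB : Stmt_EMB) (hVTX : Stmt_VTX) (hNPL : Stmt_NPL)
    (hHPL : Stmt_HPL) (hP4 : Stmt_P4M) (hP5 : Stmt_P5M) (hP6 : Stmt_P6M) : Stmt_P := by
  intro V _ _ _ K p hemb htpp ε hε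
  obtain ⟨V1, i1, i2, i3, K1, p1, he1, -, hfl1, h, hh⟩ := hP3 V K p ((hEMB V K p).1 hemb)
  have htpp1 : TPP (K1.map p1) := by
    have h1 := htpp.comp_homeo h.symm
    have h2 : (fun x => K.map p (h.symm x)) = K1.map p1 := by
      funext x
      rw [← hh (h.symm x), h.apply_symm_apply]
    rwa [h2] at h1
  have hc1 : CloseTo (ε / 4) K p K1 p1 :=
    ⟨h, fun x => by rw [hh x, sub_self, norm_zero]; linarith⟩
  obtain ⟨Φ, hΦ⟩ := hHPL V1 p1 i3 (hNPL V1 K1 p1 he1)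
  obtain ⟨X, hpre, hX⟩ := hP4 V1 K1 p1 Φ he1 (hVTX V1 K1 p1 htpp1) hΦ
    (fun v _ ν hν => by
      by_contra hcon
      push Not at hcon
      exact hfl1 v ⟨ν, hν, hcon⟩) (ε / 4) (by linarith)
  have hc2 : CloseTo (ε / 4) K1 p1 K1 X := CloseTo.of_move K1 hX
  obtain ⟨V2, j1, j2, K2, p2, hS, hc3⟩ := hP5 V1 K1 X Φ hpre (ε / 4) (by linarith)
  obtain ⟨p3, hF, hp3⟩ := hP6 V2 K2 p2 Φ hS (ε / 4) (by linarith)
  have hc4 : CloseTo (ε / 4) K2 p2 K2 p3 := CloseTo.of_move K2 hp3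
  refine ⟨V2, j1, j2, K2, p3, Φ, hF, ?_⟩
  have := ((hc1.trans hc2).trans hc3).trans hc4
  have he : ε / 4 + ε / 4 + ε / 4 + ε / 4 = ε := by ring
  rwa [he] at this

end Pool.Agent.TSQ
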