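import Pool.Agent.TSQ.Stmts

set_option autoImplicit false

namespace Pool.Agent.TSQ

open Pool.Agent.TSM Pool.Agent.TSP

/-- cut a list at the first element with `P` -/
theorem PTH_first {V : Type} (P : V → Prop) : ∀ (l : List V), (∃ a ∈ l, P a) →
    ∃ (A : List V) (y : V) (B : List V), l = A ++ y :: B ∧ P y ∧ ∀ u ∈ A, ¬ P u := by
  intro l
  induction l with
  | nil =>
    rintro ⟨a, ha, _⟩
    simp at ha
  | cons c l ih =>
    intro h
    by_cases hc : P c
    · exact ⟨[], c, l, rfl, hc, by simp⟩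
    · have h' : ∃ a ∈ l, P a := by
        obtain ⟨a, ha, hPa⟩ := h
        rcases List.mem_cons.1 ha with rfl | ha
        · exact absurd hPa hc
        · exact ⟨a, ha, hPa⟩
      obtain ⟨A, y, B, h1, h2, h3⟩ := ih h'
      refine ⟨c :: A, y, B, by rw [h1]; rfl, h2, ?_⟩
      intro u hu
      rcases List.mem_cons.1 hu with rfl | hu
      · exact hc
      · exact h3 u hu

/-- cut a list at the last element with `P` -/
theorem PTH_last {V : Type} (P : V → Prop) (l : List V) (h : ∃ a ∈ l, P a) :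
    ∃ (C : List V) (x : V) (D : List V), l = C ++ x :: D ∧ P x ∧ ∀ u ∈ D, ¬ P u := by
  have h' : ∃ a ∈ l.reverse, P a := by
    obtain ⟨a, ha, hPa⟩ := h
    exact ⟨a, List.mem_reverse.2 ha, hPa⟩
  obtain ⟨A, y, B, h1, h2, h3⟩ := PTH_first P l.reverse h'
  refine ⟨B.reverse, y, A.reverse, ?_, h2, ?_⟩
  · have h4 : l = (A ++ y :: B).reverse := by rw [← h1, List.reverse_reverse]
    rw [h4]
    simp
  · intro u hu
    exact h3 u (List.mem_reverse.1 hu)

theorem PTH_proof (hLKA : Stmt_LKA) : Stmt_PTH := by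
  intro V _ T z l P hl a b m ha hb hab hPa hPb hm hPm
  obtain ⟨s, t, rfl⟩ := List.append_of_mem hm
  have hrot := (hLKA V T z).1
  have hl2 : IsLink T z ((m :: t) ++ s) := hrot s (m :: t) hl
  have mem' : ∀ c : V, c ∈ s ++ m :: t → P c → c ∈ t ++ s := by
    intro c hc hPc
    have hcm : c ≠ m := by
      rintro rfl
      exact hPm hPc
    rcases List.mem_append.1 hc with hc | hc
    · exact List.mem_append.2 (Or.inr hc)
    · rcases List.mem_cons.1 hc with hc | hc
      · exact absurd hc hcm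
      · exact List.mem_append.2 (Or.inl hc)
  have ha' := mem' a ha hPa
  have hb' := mem' b hb hPb
  obtain ⟨A, y, B, h1, h2, h3⟩ := PTH_first P (t ++ s) ⟨a, ha', hPa⟩
  have memB : ∀ c : V, c ∈ t ++ s → P c → c ≠ y → c ∈ B := by
    intro c hc hPc hcy
    rw [h1] at hc
    rcases List.mem_append.1 hc with hc | hc
    · exact absurd hPc (h3 c hc)
    · rcases List.mem_cons.1 hc with hc | hc
      · exact absurd hc hcy
      · exact hc
  have hB : ∃ c ∈ B, P c := by
    by_cases hay : a = y
    · refine ⟨b, memB b hb' hPb ?_, hPb⟩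
      rintro rfl
      exact hab hay
    · exact ⟨a, memB a ha' hPa hay, hPa⟩
  obtain ⟨C, x, D, h4, h5, h6⟩ := PTH_last P B hB
  have hl3 : IsLink T z ((m :: A ++ y :: C) ++ (x :: D)) := by
    have e : (m :: t) ++ s = (m :: A ++ y :: C) ++ (x :: D) := by
      have : m :: (t ++ s) = (m :: A ++ y :: C) ++ (x :: D) := by
        rw [h1, h4]
        simp
      simpa using this
    rw [← e]
    exact hl2
  have hl4 := hrot _ _ hl3
  refine ⟨x, D ++ m :: A, y, C, ?_, h5, h2, ?_, ?_⟩
  · have e : x :: ((D ++ m :: A) ++ y :: C) = (x :: D) ++ (m :: A ++ y :: C) := by simp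
    rw [e]
    exact hl4
  · intro u hu
    rcases List.mem_append.1 hu with hu | hu
    · exact h6 u hu
    · rcases List.mem_cons.1 hu with rfl | hu
      · exact hPm
      · exact h3 u hu
  · exact List.mem_append.2 (Or.inr (List.mem_cons.2 (Or.inl rfl)))

end Pool.Agent.TSQ
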