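import Pool.Agent.TSP.Lin
import Pool.Agent.TSP.P3Stmts

/-!
# TSQ: the exact statements of the modules of Part P (MP_89ee87_gt)

Recipes: /team-store/MP_89ee87_TSP.md. Each module `X` proves `theorem X_proof : Stmt_X`
(hypotheses of the form `Stmt_Y` allowed as listed in the recipes).
-/

set_option autoImplicit false

open scoped RealInnerProductSpace

namespace Pool.Agent.TSQ

open Pool.Agent.TSM Pool.Agent.TSP

/-! ### A. Link lists -/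

def Stmt_LKA : Prop := ∀ (V : Type) [DecidableEq V] (T : Finset (Finset V)) (v : V),
  (∀ l1 l2 : List V, IsLink T v (l1 ++ l2) → IsLink T v (l2 ++ l1)) ∧
  (∀ l : List V, IsLink T v l → IsLink T v l.reverse) ∧
  (∀ (l : List V) (u : V), IsLink T v l → (u ∈ l ↔ AdjT T v u)) ∧
  (∀ (l : List V) (σ : Finset V), IsLink T v l →
    (σ ∈ arcs T v ↔ ∃ x y, (x, y) ∈ cyc l ∧ σ = {x, y})) ∧
  (∀ (l : List V) (x y : V), IsLink T v l → v ≠ x → v ≠ y → x ≠ y → {v, x, y} ∈ T →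
    ∃ rest : List V, rest ≠ [] ∧ IsLink T v (x :: y :: rest)) ∧
  (∀ (x m b : V) (r l : List V), IsLink T v (x :: m :: (r ++ [b])) → IsLink T x l →
    ∃ r' : List V, IsLink T x (v :: m :: (r' ++ [b])))

def Stmt_LKB : Prop := ∀ (V : Type) [DecidableEq V] (T : Finset (Finset V)) (v : V),
  (∀ (n : ℕ) (c : ZMod n → V), IsLinkCycle T v n c → ∃ l, IsLink T v l) ∧
  (∀ l : List V, IsLink T v l → ∃ c : ZMod l.length → V, IsLinkCycle T v l.length c ∧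
    ∀ (i : ℕ) (h : i < l.length), c (i : ZMod l.length) = l[i])

def Stmt_PTH : Prop := ∀ (V : Type) [DecidableEq V] (T : Finset (Finset V)) (z : V)
  (l : List V) (P : V → Prop), IsLink T z l → ∀ a b m : V, a ∈ l → b ∈ l → a ≠ b → P a → P b →
    m ∈ l → ¬ P m →
    ∃ (x : V) (mid : List V) (y : V) (rest : List V), IsLink T z (x :: (mid ++ y :: rest)) ∧
      P x ∧ P y ∧ (∀ u ∈ mid, ¬ P u) ∧ m ∈ mid

/-- links and cards after a split -/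
def Stmt_SPC : Prop := ∀ (V : Type) [DecidableEq V] (T : Finset (Finset V)) (z x y : V)
  (mid rest : List V), (∀ t ∈ T, t.card = 3) → IsLink T z (x :: (mid ++ y :: rest)) →
    mid ≠ [] → rest ≠ [] →
  (∀ t ∈ splitTri T z x y mid, t.card = 3) ∧
  IsLink (splitTri T z x y mid) none (some x :: (mid.map some ++ [some y, some z])) ∧
  IsLink (splitTri T z x y mid) (some z) (some x :: none :: some y :: rest.map some) ∧
  (∀ (m : V) (r : List V), mid.head? = some m → IsLink T x (z :: m :: r) →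
    IsLink (splitTri T z x y mid) (some x) (some z :: none :: some m :: r.map some)) ∧
  (∀ (m : V) (r : List V), mid.getLast? = some m → IsLink T y (z :: m :: r) →
    IsLink (splitTri T z x y mid) (some y) (some z :: none :: some m :: r.map some)) ∧
  (∀ (u : V) (r : List V), u ∈ mid → IsLink T u (z :: r) →
    IsLink (splitTri T z x y mid) (some u) (none :: r.map some)) ∧
  (∀ (u : V) (l : List V), u ≠ z → u ≠ x → u ≠ y → u ∉ mid → IsLink T u l →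
    IsLink (splitTri T z x y mid) (some u) (l.map some))

/-- adjacency and triangles after a split -/
def Stmt_SPA : Prop := ∀ (V : Type) [DecidableEq V] (T : Finset (Finset V)) (z x y : V)
  (mid rest : List V), (∀ t ∈ T, t.card = 3) → IsLink T z (x :: (mid ++ y :: rest)) →
    mid ≠ [] → rest ≠ [] →
  (∀ u : V, AdjT (splitTri T z x y mid) (some u) none ↔ (u = x ∨ u = y ∨ u = z ∨ u ∈ mid)) ∧
  (∀ u w : V, AdjT (splitTri T z x y mid) (some u) (some w) ↔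
    AdjT T u w ∧ ¬ (u = z ∧ w ∈ mid) ∧ ¬ (w = z ∧ u ∈ mid)) ∧
  (∀ u v w : V, {some u, some v, some w} ∈ splitTri T z x y mid → {u, v, w} ∈ T) ∧
  (∀ u v : V, {none, some u, some v} ∈ splitTri T z x y mid →
    {z, u, v} ∈ T ∨ ({u, v} : Finset V) = {z, x} ∨ ({u, v} : Finset V) = {z, y})

/-- a closed surface after a split -/
def Stmt_SPS : Prop := ∀ (V : Type) [Fintype V] [DecidableEq V] (K : Surf V) (z x y : V)
  (mid rest : List V), IsLink K.tri z (x :: (mid ++ y :: rest)) → mid ≠ [] → rest ≠ [] →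
  ∃ K' : Surf (Option V), K'.tri = splitTri K.tri z x y mid

/-! ### B. Embedded stars in cone form -/

def Stmt_EMB : Prop := ∀ (V : Type) [Fintype V] [DecidableEq V] (K : Surf V) (p : V → E3),
  K.EmbStars p ↔ Emb K.tri p

def Stmt_CIO : Prop := ∀ (V : Type) [Fintype V] [DecidableEq V] (A : Finset (Finset V))
  (d : V → E3), ConeInj A d → ∃ ε : ℝ, 0 < ε ∧ ∀ d' : V → E3,
    (∀ σ ∈ A, ∀ u ∈ σ, ‖d' u - d u‖ < ε) → ConeInj A d'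

/-- the star of `z` after a split -/
def Stmt_CIZ : Prop := ∀ (V : Type) [Fintype V] [DecidableEq V] (A : Finset (Finset V))
  (d : V → E3) (x y : V) (s : ℝ), 0 < s → ConeInj A d → Indep2 (d x) (d y) →
  (∃ σ ∈ A, x ∈ σ) → (∃ σ ∈ A, y ∈ σ) →
  (∀ σ ∈ A, ∀ α : V → ℝ, (∀ u, 0 ≤ α u) → (∀ u, u ∉ σ → α u = 0) → ∀ l m : ℝ, 0 < l → 0 < m →
    ∑ u, α u • d u ≠ l • d x + m • d y) →
  ∀ A' : Finset (Finset (Option V)),
    (∀ τ ∈ A', (∃ σ ∈ A, τ = σ.image some) ∨ τ = {some x, none} ∨ τ = {none, some y}) →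
    ConeInj A' (fun o => o.elim (s • (d x + d y)) d)

/-- the star of the new vertex -/
def Stmt_CIW : Prop := ∀ (V : Type) [Fintype V] [DecidableEq V] (B : Finset (Finset V))
  (d : V → E3) (x y z : V) (n : E3), ConeInj B d → (∀ σ ∈ B, z ∉ σ) → d z = 0 →
  x ≠ y → x ≠ z → y ≠ z → Indep2 (d x) (d y) → ⟪n, d x⟫ = 0 → ⟪n, d y⟫ = 0 →
  (∀ σ ∈ B, ∀ u ∈ σ, u ≠ x → u ≠ y → ⟪n, d u⟫ < 0) →
  ∃ s0 : ℝ, 0 < s0 ∧ ∀ s : ℝ, 0 < s → s < s0 →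
    ConeInj (B ∪ {{z, x}, {y, z}}) (fun u => d u - s • (d x + d y))

/-- the stars of the ends `x` and `y` after a split -/
def Stmt_CIA : Prop := ∀ (V : Type) [Fintype V] [DecidableEq V] (A : Finset (Finset V))
  (D : V → E3) (z m b : V) (g n : E3), ConeInj A D → {z, m} ∈ A → {b, z} ∈ A →
  (∀ σ ∈ A, z ∈ σ → σ = {z, m} ∨ σ = {b, z}) → z ≠ m → z ≠ b → m ≠ b →
  ⟪n, D z⟫ = 0 → ⟪n, g⟫ = 0 → ⟪n, D m⟫ ≠ 0 → Indep2 (D z) g →
  (∀ l μ k r : ℝ, 0 < μ → 0 ≤ k → 0 ≤ r → l • D z + μ • g + k • D m ≠ r • D b) →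
  ∃ s0 : ℝ, 0 < s0 ∧ ∀ s : ℝ, 0 < s → s < s0 → ∀ A' : Finset (Finset (Option V)),
    (∀ τ ∈ A', (∃ σ ∈ A, σ ≠ {z, m} ∧ τ = σ.image some) ∨ τ = {some z, none} ∨
      τ = {none, some m}) →
    ConeInj A' (fun o => o.elim (D z + s • g) D)

/-- the stars of the vertices of `mid` after a split -/
def Stmt_CIM : Prop := ∀ (V : Type) [Fintype V] [DecidableEq V] (A : Finset (Finset V))
  (D : V → E3) (z : V) (g : E3), ConeInj A D →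
  ∃ s0 : ℝ, 0 < s0 ∧ ∀ s : ℝ, 0 < s → s < s0 → ∀ A' : Finset (Finset (Option V)),
    (∀ τ ∈ A', ∃ σ ∈ A, τ = σ.image fun u => if u = z then none else some u) →
    ConeInj A' (fun o => o.elim (D z + s • g) D)

/-- the other stars after a split -/
def Stmt_CIS : Prop := ∀ (V : Type) [Fintype V] [DecidableEq V] (A : Finset (Finset V))
  (D : Option V → E3), ConeInj A (fun u => D (some u)) →
  ∀ A' : Finset (Finset (Option V)), (∀ τ ∈ A', ∃ σ ∈ A, τ = σ.image some) → ConeInj A' D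

/-- consequences of embeddedness -/
def Stmt_EMC : Prop := ∀ (V : Type) [Fintype V] [DecidableEq V] (K : Surf V) (p : V → E3),
  Emb K.tri p →
  (∀ z x, K.Adj z x → p x ≠ p z) ∧
  (∀ z x y, z ≠ x → z ≠ y → x ≠ y → {z, x, y} ∈ K.tri → Indep2 (p x - p z) (p y - p z)) ∧
  (∀ z x y, K.Adj z x → K.Adj z y → x ≠ y → ∀ r : ℝ, 0 ≤ r → p y - p z ≠ r • (p x - p z)) ∧
  (∀ z x y, K.Adj z x → K.Adj z y → x ≠ y → ¬ Indep2 (p x - p z) (p y - p z) →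
    ∃ r : ℝ, 0 < r ∧ p y - p z = (-r) • (p x - p z))

/-! ### C. Two-piece property, hull, facets -/

def Stmt_VTX : Prop := ∀ (V : Type) [Fintype V] [DecidableEq V] (K : Surf V) (p : V → E3),
  TPP (K.map p) → VT K p

def Stmt_NPL : Prop := ∀ (V : Type) [Fintype V] [DecidableEq V] [Nonempty V] (K : Surf V)
  (p : V → E3), Emb K.tri p → ¬ ∃ (ν : E3) (c : ℝ), ν ≠ 0 ∧ ∀ v, ⟪ν, p v⟫ = c

/-- separation of a point from a polytope by a facet plane -/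
def Stmt_HPA : Prop := ∀ (V : Type) [Fintype V] (p : V → E3),
  (interior (convexHull ℝ (Set.range p))).Nonempty → ∀ x : E3, x ∉ convexHull ℝ (Set.range p) →
  ∃ φ : E3 × ℝ, ‖φ.1‖ = 1 ∧ (∀ v, ev φ (p v) ≤ 0) ∧ 0 < ev φ x ∧
    ∃ a b c : V, ev φ (p a) = 0 ∧ ev φ (p b) = 0 ∧ ev φ (p c) = 0 ∧
      AffineIndependent ℝ ![p a, p b, p c]

/-- the facet planes of the hull (uses HPA) -/
def Stmt_HPL : Prop := ∀ (V : Type) [Fintype V] [DecidableEq V] (p : V → E3), Nonempty V →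
  (¬ ∃ (ν : E3) (c : ℝ), ν ≠ 0 ∧ ∀ v, ⟪ν, p v⟫ = c) → ∃ Φ : Finset (E3 × ℝ), Hull p Φ

/-- every extreme point of the hull is the image of exactly one vertex -/
def Stmt_EXU : Prop := ∀ (V : Type) [Fintype V] [DecidableEq V] (K : Surf V) (p : V → E3)
  (Φ : Finset (E3 × ℝ)), Emb K.tri p → VT K p → Hull p Φ →
  ∀ e ∈ Set.extremePoints ℝ (Pool.Agent.TSM.hull Φ), ∃! v, p v = e

/-- a face contains a vertex which is extreme in a given direction -/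
def Stmt_FCV : Prop := ∀ (V : Type) [Fintype V] (p : V → E3) (Φ : Finset (E3 × ℝ)), Hull p Φ →
  ∀ φ ∈ Φ, ∀ ψ ∈ Φ, ∀ x ∈ Pool.Agent.TSM.hull Φ, ev φ x = 0 → ev ψ x = 0 → ∀ u : E3,
  ∃ y, ev φ (p y) = 0 ∧ ev ψ (p y) = 0 ∧ ⟪u, x⟫ ≤ ⟪u, p y⟫

/-- an inner vertex is a convex combination of its neighbours -/
def Stmt_WBA : Prop := ∀ (V : Type) [Fintype V] [DecidableEq V] (K : Surf V) (p : V → E3)
  (Φ : Finset (E3 × ℝ)), VT K p → Hull p Φ → ∀ v, Int Φ p v →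
  ∃ w : V → ℝ, (∀ y, 0 ≤ w y) ∧ (∀ y, ¬ K.Adj v y → w y = 0) ∧ ∑ y, w y = 1 ∧
    p v = ∑ y, w y • p y

/-- directions strictly inside the tangent cone -/
def Stmt_OCH : Prop := ∀ (V : Type) [Fintype V] (p : V → E3) (Φ : Finset (E3 × ℝ)), Hull p Φ →
  ∀ z x y : V, Indep2 (p x - p z) (p y - p z) →
  ∃ o : E3, (∀ φ ∈ Φ, ev φ (p z) = 0 → ⟪φ.1, o⟫ < 0) ∧ det3 o (p x - p z) (p y - p z) ≠ 0

/-- two neighbours on each facet plane -/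
def Stmt_TWO : Prop := ∀ (V : Type) [Fintype V] [DecidableEq V] (K : Surf V) (p : V → E3)
  (Φ : Finset (E3 × ℝ)), Pre K p Φ → ∀ z : V, ∀ φ ∈ Φ, ev φ (p z) = 0 →
  ∃ a b, a ≠ b ∧ K.Adj z a ∧ K.Adj z b ∧ ev φ (p a) = 0 ∧ ev φ (p b) = 0

/-! ### D. Inner vertices: strict balance -/

/-- Tutte embedding with perturbed weights -/
def Stmt_TUT : Prop := ∀ (V : Type) [Fintype V] [DecidableEq V] (p : V → E3) (I : Finset V)
  (N : V → Finset V),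
  (∀ v ∈ I, (N v).Nonempty ∧ (∀ y ∈ N v, p y ≠ p v) ∧ ∃ w : V → ℝ, (∀ y, 0 ≤ w y) ∧
    (∀ y, y ∉ N v → w y = 0) ∧ ∑ y, w y = 1 ∧ p v = ∑ y, w y • p y) →
  ∀ ε : ℝ, 0 < ε → ∃ X : V → E3, (∀ v, v ∉ I → X v = p v) ∧ (∀ v, ‖X v - p v‖ < ε) ∧
    ∀ v ∈ I, ∃ w : V → ℝ, (∀ y ∈ N v, 0 < w y) ∧ (∀ y, y ∉ N v → w y = 0) ∧ ∑ y, w y = 1 ∧
      X v = ∑ y, w y • X y

/-- non-flat plus positive weights gives strict balance, stably -/
def Stmt_STB : Prop := ∀ (V : Type) [Fintype V] [DecidableEq V] (K : Surf V) (p : V → E3)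
  (v : V), (∀ ν : E3, ν ≠ 0 → ∃ y, K.Adj v y ∧ ⟪ν, p y - p v⟫ ≠ 0) →
  ∃ ε : ℝ, 0 < ε ∧ ∀ X : V → E3, (∀ y, ‖X y - p y‖ < ε) →
    (∃ w : V → ℝ, (∀ y, K.Adj v y → 0 < w y) ∧ (∀ y, ¬ K.Adj v y → w y = 0) ∧ ∑ y, w y = 1 ∧
      X v = ∑ y, w y • X y) → Bal K X v

/-- strict balance is an open condition -/
def Stmt_BOP : Prop := ∀ (V : Type) [Fintype V] [DecidableEq V] (K : Surf V) (p : V → E3)
  (v : V), Bal K p v → ∃ ε : ℝ, 0 < ε ∧ ∀ X : V → E3, (∀ y, ‖X y - p y‖ < ε) → Bal K X v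

/-- P4: the result of the first step -/
def Stmt_P4M : Prop := ∀ (V : Type) [Fintype V] [DecidableEq V] (K : Surf V) (p : V → E3)
  (Φ : Finset (E3 × ℝ)), Emb K.tri p → VT K p → Hull p Φ →
  (∀ v, Int Φ p v → ∀ ν : E3, ν ≠ 0 → ∃ y, K.Adj v y ∧ ⟪ν, p y - p v⟫ ≠ 0) →
  ∀ ε : ℝ, 0 < ε → ∃ X : V → E3, Pre K X Φ ∧ ∀ v, ‖X v - p v‖ < ε

/-! ### E. Crossing lemmas -/

def Stmt_XPL : Prop := ∀ α β : ℝ → ℝ × ℝ, ContinuousOn α (Set.Icc 0 1) →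
  ContinuousOn β (Set.Icc 0 1) →
  (∀ t ∈ Set.Icc (0 : ℝ) 1, (α t).1 ^ 2 + (α t).2 ^ 2 ≤ 1) →
  (∀ t ∈ Set.Icc (0 : ℝ) 1, (β t).1 ^ 2 + (β t).2 ^ 2 ≤ 1) →
  α 0 = (1, 0) → α 1 = (0, 1) → 0 < (β 0).1 → 0 < (β 0).2 →
  (β 0).1 ^ 2 + (β 0).2 ^ 2 = 1 → (β 1).1 ^ 2 + (β 1).2 ^ 2 = 1 →
  ((β 1).1 < 0 ∨ (β 1).2 < 0) →
  ∃ s ∈ Set.Icc (0 : ℝ) 1, ∃ t ∈ Set.Icc (0 : ℝ) 1, α s = β t

def Stmt_XCO : Prop := ∀ (N : Finset E3) (o a c b d : E3) (A B : Set E3), N.Nonempty →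
  (∀ n ∈ N, ⟪n, o⟫ < 0) → det3 o a c ≠ 0 →
  (∀ v ∈ A, v ≠ 0 ∧ ∀ n ∈ N, ⟪n, v⟫ ≤ 0) → (∀ v ∈ B, v ≠ 0 ∧ ∀ n ∈ N, ⟪n, v⟫ ≤ 0) →
  JoinedIn A a c → JoinedIn B b d →
  (∃ n ∈ N, ⟪n, a⟫ = 0) → (∃ n ∈ N, ⟪n, c⟫ = 0) → (∃ n ∈ N, ⟪n, b⟫ = 0) →
  (∃ n ∈ N, ⟪n, d⟫ = 0) →
  (∃ l m k : ℝ, 0 < l ∧ 0 < m ∧ b = l • a + m • c + k • o) →
  (∀ l m k : ℝ, 0 ≤ l → 0 ≤ m → d ≠ l • a + m • c + k • o) →
  ∃ v ∈ A, ∃ w ∈ B, ∃ r : ℝ, 0 < r ∧ v = r • w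

def Stmt_XLS : Prop := ∀ (N : Finset E3) (o a c b d : E3) (A B : List E3), N.Nonempty →
  (∀ n ∈ N, ⟪n, o⟫ < 0) → det3 o a c ≠ 0 →
  A.head? = some a → A.getLast? = some c → B.head? = some b → B.getLast? = some d →
  (∀ v ∈ A, ∀ n ∈ N, ⟪n, v⟫ ≤ 0) → (∀ v ∈ B, ∀ n ∈ N, ⟪n, v⟫ ≤ 0) →
  (∃ n ∈ N, ⟪n, a⟫ = 0) → (∃ n ∈ N, ⟪n, c⟫ = 0) → (∃ n ∈ N, ⟪n, b⟫ = 0) →
  (∃ n ∈ N, ⟪n, d⟫ = 0) →
  (∀ q ∈ conseq A, ∀ s t : ℝ, 0 ≤ s → 0 ≤ t → s • q.1 + t • q.2 = 0 → s = 0 ∧ t = 0) →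
  (∀ q ∈ conseq B, ∀ s t : ℝ, 0 ≤ s → 0 ≤ t → s • q.1 + t • q.2 = 0 → s = 0 ∧ t = 0) →
  (∃ l m k : ℝ, 0 < l ∧ 0 < m ∧ b = l • a + m • c + k • o) →
  (∀ l m k : ℝ, 0 ≤ l → 0 ≤ m → d ≠ l • a + m • c + k • o) →
  ∃ q ∈ conseq A, ∃ r ∈ conseq B, ∃ s t s' t' : ℝ, 0 ≤ s ∧ 0 ≤ t ∧ 0 ≤ s' ∧ 0 ≤ t' ∧
    s • q.1 + t • q.2 = s' • r.1 + t' • r.2 ∧ s • q.1 + t • q.2 ≠ 0

/-! ### F. The pocket lemma -/

/-- there is a boundary neighbour outside the closed small sector -/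
def Stmt_PKC : Prop := ∀ (V : Type) [Fintype V] [DecidableEq V] (K : Surf V) (p : V → E3)
  (Φ : Finset (E3 × ℝ)), Pre K p Φ → ∀ (z x y : V) (mid rest : List V),
  Path K p Φ z x y mid rest → ∀ o : E3, (∀ φ ∈ Φ, ev φ (p z) = 0 → ⟪φ.1, o⟫ < 0) →
  det3 o (p x - p z) (p y - p z) ≠ 0 →
  ∃ b ∈ rest, TE Φ p z b ∧ ∀ l m k : ℝ, 0 ≤ l → 0 ≤ m →
    p b - p z ≠ l • (p x - p z) + m • (p y - p z) + k • o

/-- there is no boundary neighbour inside the open small sector -/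
def Stmt_PKA : Prop := ∀ (V : Type) [Fintype V] [DecidableEq V] (K : Surf V) (p : V → E3)
  (Φ : Finset (E3 × ℝ)), Pre K p Φ → ∀ (z x y : V) (mid rest : List V),
  Path K p Φ z x y mid rest → ∀ o : E3, (∀ φ ∈ Φ, ev φ (p z) = 0 → ⟪φ.1, o⟫ < 0) →
  det3 o (p x - p z) (p y - p z) ≠ 0 →
  ∀ b ∈ rest, TE Φ p z b → ∀ l m k : ℝ, 0 < l → 0 < m →
    p b - p z ≠ l • (p x - p z) + m • (p y - p z) + k • o

/-- the ends of an inner path lie in a common facet -/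
def Stmt_PKB : Prop := ∀ (V : Type) [Fintype V] [DecidableEq V] (K : Surf V) (p : V → E3)
  (Φ : Finset (E3 × ℝ)), Pre K p Φ → ∀ (z x y : V) (mid rest : List V),
  Path K p Φ z x y mid rest → Indep2 (p x - p z) (p y - p z) →
  ∃ φ ∈ Φ, ev φ (p z) = 0 ∧ ev φ (p x) = 0 ∧ ev φ (p y) = 0

/-- the open sector is free -/
def Stmt_PKF : Prop := ∀ (V : Type) [Fintype V] [DecidableEq V] (K : Surf V) (p : V → E3)
  (Φ : Finset (E3 × ℝ)), Pre K p Φ → ∀ (z x y : V) (mid rest : List V),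
  Path K p Φ z x y mid rest → mid ≠ [] → Indep2 (p x - p z) (p y - p z) →
  ∀ φ ∈ Φ, ev φ (p z) = 0 → ev φ (p x) = 0 → ev φ (p y) = 0 →
  ∀ σ ∈ arcs K.tri z, ∀ α : V → ℝ, (∀ u, 0 ≤ α u) → (∀ u, u ∉ σ → α u = 0) →
    ∀ l m : ℝ, 0 < l → 0 < m → ∑ u, α u • (p u - p z) ≠ l • (p x - p z) + m • (p y - p z)

/-- the left-right condition at `x` -/
def Stmt_PKL : Prop := ∀ (V : Type) [Fintype V] [DecidableEq V] (K : Surf V) (p : V → E3)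
  (Φ : Finset (E3 × ℝ)), Pre K p Φ → ∀ (z x y : V) (mid rest : List V),
  Path K p Φ z x y mid rest → mid ≠ [] → Indep2 (p x - p z) (p y - p z) →
  ∀ φ ∈ Φ, ev φ (p z) = 0 → ev φ (p x) = 0 → ev φ (p y) = 0 →
  ∀ m1 b : V, mid.head? = some m1 → rest.getLast? = some b → ∀ l m k r : ℝ, 0 < m → 0 ≤ k →
    0 ≤ r → l • (p x - p z) + m • (p y - p z) + k • (p m1 - p z) ≠ r • (p b - p z)

/-- the pocket lemma -/
def Stmt_PCK : Prop := ∀ (V : Type) [Fintype V] [DecidableEq V] (K : Surf V) (p : V → E3)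
  (Φ : Finset (E3 × ℝ)), Pre K p Φ → ∀ (z x y : V) (mid rest : List V),
  Path K p Φ z x y mid rest → mid ≠ [] → Indep2 (p x - p z) (p y - p z) →
  ∃ φ, Pocket K p Φ z x y mid rest φ

/-- triangles with two boundary edges at a vertex lie in a facet -/
def Stmt_TTR : Prop := ∀ (V : Type) [Fintype V] [DecidableEq V] (K : Surf V) (p : V → E3)
  (Φ : Finset (E3 × ℝ)), Pre K p Φ → ∀ z x y : V, z ≠ x → z ≠ y → x ≠ y → {z, x, y} ∈ K.tri →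
  TE Φ p z x → TE Φ p z y → ∃ φ ∈ Φ, ev φ (p z) = 0 ∧ ev φ (p x) = 0 ∧ ev φ (p y) = 0

/-- a boundary vertex with only boundary edges is an outer vertex -/
def Stmt_OUT : Prop := ∀ (V : Type) [Fintype V] [DecidableEq V] (K : Surf V) (p : V → E3)
  (Φ : Finset (E3 × ℝ)), Pre K p Φ → ∀ z : V, (∀ y, K.Adj z y → TE Φ p z y) → K.Outer p Φ z

/-- follow the line -/
def Stmt_FOL : Prop := ∀ (V : Type) [Fintype V] [DecidableEq V] (K : Surf V) (p : V → E3)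
  (Φ : Finset (E3 × ℝ)) (W : Finset V), Pre K p Φ → WGood K p Φ W → ∀ z0 m0 : V, z0 ∉ W →
  (∃ φ ∈ Φ, ev φ (p z0) = 0) → K.Adj z0 m0 → ¬ TE Φ p z0 m0 →
  ∃ (z x y : V) (mid rest : List V), z ∉ W ∧ Path K p Φ z x y mid rest ∧ mid ≠ [] ∧
    Indep2 (p x - p z) (p y - p z)

/-! ### G. The vertex split -/

/-- position of the new vertex -/
noncomputable def newPos {V : Type} (p : V → E3) (z x y : V) (s : ℝ) : E3 :=
  p z + s • ((p x - p z) + (p y - p z))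

/-- the hull after the split: small facts about the position of the new vertex -/
def Stmt_NPS : Prop := ∀ (V : Type) [Fintype V] [DecidableEq V] (p : V → E3)
  (Φ : Finset (E3 × ℝ)), Hull p Φ → ∀ (z x y : V) (φ : E3 × ℝ), φ ∈ Φ → ev φ (p z) = 0 →
  ev φ (p x) = 0 → ev φ (p y) = 0 → Indep2 (p x - p z) (p y - p z) →
  ∃ s0 : ℝ, 0 < s0 ∧ s0 < 1 / 2 ∧ ∀ s : ℝ, 0 < s → s < s0 →
    ev φ (newPos p z x y s) = 0 ∧ (∀ ψ ∈ Φ, ψ ≠ φ → ev ψ (newPos p z x y s) < 0) ∧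
    newPos p z x y s ∉ Set.extremePoints ℝ (Pool.Agent.TSM.hull Φ) ∧
    (∀ v, p v ≠ newPos p z x y s) ∧
    (∀ v, p v ≠ p x → Indep2 (newPos p z x y s - p x) (p v - p x)) ∧
    (∀ v, p v ≠ p y → Indep2 (newPos p z x y s - p y) (p v - p y))

def Stmt_SPE : Prop := ∀ (V : Type) [Fintype V] [DecidableEq V] (K : Surf V) (p : V → E3)
  (Φ : Finset (E3 × ℝ)) (z x y : V) (mid rest : List V) (φ : E3 × ℝ), Pre K p Φ →
  Path K p Φ z x y mid rest → mid ≠ [] → Indep2 (p x - p z) (p y - p z) →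
  Pocket K p Φ z x y mid rest φ →
  ∃ s0 : ℝ, 0 < s0 ∧ ∀ s : ℝ, 0 < s → s < s0 →
    Emb (splitTri K.tri z x y mid) (splitPos p (newPos p z x y s))

/-- `Pre` after the split, embeddedness given -/
def Stmt_SPB : Prop := ∀ (V : Type) [Fintype V] [DecidableEq V] (K : Surf V) (p : V → E3)
  (Φ : Finset (E3 × ℝ)) (z x y : V) (mid rest : List V) (φ : E3 × ℝ), Pre K p Φ →
  Path K p Φ z x y mid rest → mid ≠ [] → Indep2 (p x - p z) (p y - p z) →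
  Pocket K p Φ z x y mid rest φ →
  ∃ s0 : ℝ, 0 < s0 ∧ ∀ s : ℝ, 0 < s → s < s0 → ∀ K' : Surf (Option V),
    K'.tri = splitTri K.tri z x y mid → Emb K'.tri (splitPos p (newPos p z x y s)) →
    Pre K' (splitPos p (newPos p z x y s)) Φ

/-- the corners after the split -/
def Stmt_SPR : Prop := ∀ (V : Type) [Fintype V] [DecidableEq V] (K : Surf V) (p : V → E3)
  (Φ : Finset (E3 × ℝ)) (W : Finset V) (z x y : V) (mid rest : List V) (φ : E3 × ℝ),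
  Pre K p Φ → Path K p Φ z x y mid rest → mid ≠ [] → Indep2 (p x - p z) (p y - p z) →
  Pocket K p Φ z x y mid rest φ → z ∉ W → (∀ w ∈ W, Crn K p Φ w) →
  ∃ s0 : ℝ, 0 < s0 ∧ ∀ s : ℝ, 0 < s → s < s0 → ∀ K' : Surf (Option V),
    K'.tri = splitTri K.tri z x y mid →
    ∀ w ∈ insert none (W.image some), Crn K' (splitPos p (newPos p z x y s)) Φ w

/-- `WGood` after the split (uses SPR) -/
def Stmt_SPW : Prop := ∀ (V : Type) [Fintype V] [DecidableEq V] (K : Surf V) (p : V → E3)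
  (Φ : Finset (E3 × ℝ)) (W : Finset V) (z x y : V) (mid rest : List V) (φ : E3 × ℝ),
  Pre K p Φ → Path K p Φ z x y mid rest → mid ≠ [] → Indep2 (p x - p z) (p y - p z) →
  Pocket K p Φ z x y mid rest φ → z ∉ W → WGood K p Φ W →
  ∃ s0 : ℝ, 0 < s0 ∧ ∀ s : ℝ, 0 < s → s < s0 → ∀ K' : Surf (Option V),
    K'.tri = splitTri K.tri z x y mid →
    WGood K' (splitPos p (newPos p z x y s)) Φ (insert none (W.image some))

/-- the number of inner edges at old boundary vertices decreases -/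
def Stmt_SPM : Prop := ∀ (V : Type) [Fintype V] [DecidableEq V] (K : Surf V) (p : V → E3)
  (Φ : Finset (E3 × ℝ)) (W : Finset V) (z x y : V) (mid rest : List V) (φ : E3 × ℝ),
  Pre K p Φ → Path K p Φ z x y mid rest → mid ≠ [] → Indep2 (p x - p z) (p y - p z) →
  Pocket K p Φ z x y mid rest φ → z ∉ W →
  ∃ s0 : ℝ, 0 < s0 ∧ ∀ s : ℝ, 0 < s → s < s0 → ∀ K' : Surf (Option V),
    K'.tri = splitTri K.tri z x y mid →
    mu K' (splitPos p (newPos p z x y s)) Φ (insert none (W.image some)) < mu K p Φ W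

/-- closeness of the split surface (uses TSP.Stmt_Hsp) -/
def Stmt_SPH : Prop := ∀ (V : Type) [Fintype V] [DecidableEq V] (K : Surf V) (p : V → E3)
  (z x y : V) (mid rest : List V), IsLink K.tri z (x :: (mid ++ y :: rest)) → mid ≠ [] →
  rest ≠ [] → ∀ ε : ℝ, 0 < ε → ∃ s0 : ℝ, 0 < s0 ∧ ∀ s : ℝ, 0 < s → s < s0 →
  ∀ K' : Surf (Option V), K'.tri = splitTri K.tri z x y mid →
    CloseTo ε K p K' (splitPos p (newPos p z x y s))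

/-- P5: the treatment of the boundary -/
def Stmt_P5M : Prop := ∀ (V : Type) [Fintype V] [DecidableEq V] (K : Surf V) (p : V → E3)
  (Φ : Finset (E3 × ℝ)), Pre K p Φ → ∀ ε : ℝ, 0 < ε →
  ∃ (V' : Type) (_ : Fintype V') (_ : DecidableEq V') (K' : Surf V') (p' : V' → E3),
    Semi K' p' Φ ∧ CloseTo ε K p K' p'

/-! ### H. The final generic perturbation -/

/-- avoid finitely many planes inside the space or inside a plane -/
def Stmt_AVD : Prop := ∀ (fa : Option (E3 × ℝ)) (G : Finset (E3 × ℝ)) (x : E3),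
  (∀ φ, fa = some φ → ev φ x = 0) →
  (∀ g ∈ G, ∃ y, (∀ φ, fa = some φ → ev φ y = 0) ∧ ev g y ≠ 0) → ∀ ε : ℝ, 0 < ε →
  ∃ x', ‖x' - x‖ < ε ∧ (∀ φ, fa = some φ → ev φ x' = 0) ∧ ∀ g ∈ G, ev g x' ≠ 0

/-- generic position of the non-outer vertices -/
def Stmt_GEN : Prop := ∀ (V : Type) [Fintype V] [DecidableEq V] (p : V → E3) (S : Finset V)
  (fa : V → Option (E3 × ℝ)),
  (∀ v ∈ S, ∀ φ, fa v = some φ → φ.1 ≠ 0 ∧ ev φ (p v) = 0) →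
  (∀ v ∈ S, ∀ w ∈ S, ∀ ψ, fa w = some ψ → fa v ≠ some ψ → ev ψ (p v) ≠ 0) →
  ∀ ε : ℝ, 0 < ε → ∃ p' : V → E3, (∀ v, v ∉ S → p' v = p v) ∧ (∀ v, ‖p' v - p v‖ < ε) ∧
    (∀ v ∈ S, ∀ φ, fa v = some φ → ev φ (p' v) = 0) ∧
    (∀ a ∈ S, ∀ b ∈ S, ∀ c ∈ S, a ≠ b → a ≠ c → b ≠ c →
      AffineIndependent ℝ ![p' a, p' b, p' c]) ∧
    (∀ a ∈ S, ∀ b ∈ S, ∀ c ∈ S, ∀ d ∈ S, a ≠ b → a ≠ c → a ≠ d → b ≠ c → b ≠ d → c ≠ d →
      (¬ ∃ φ, fa a = some φ ∧ fa b = some φ ∧ fa c = some φ ∧ fa d = some φ) →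
      AffineIndependent ℝ ![p' a, p' b, p' c, p' d])

/-- the corner condition is stable in the facet plane -/
def Stmt_CRO : Prop := ∀ (V : Type) [Fintype V] [DecidableEq V] (K : Surf V) (p : V → E3)
  (Φ : Finset (E3 × ℝ)) (v : V), (∀ φ ∈ Φ, φ.1 ≠ 0) → Crn K p Φ v →
  ∃ ε : ℝ, 0 < ε ∧ ∀ p' : V → E3,
    (∀ y, ‖p' y - p y‖ < ε) → (∀ y, ∀ φ ∈ Φ, ev φ (p y) = 0 → ev φ (p' y) = 0) → Crn K p' Φ v

/-- planar part of CRN: a fan which is strictly balanced has an angle `> π` -/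
def Stmt_FAN : Prop := ∀ (q : ℕ → E3) (m : ℕ) (n : E3), n ≠ 0 → 2 ≤ m →
  (∀ i, i ≤ m → ⟪n, q i⟫ = 0) →
  (∀ u : E3, (∀ t : ℝ, u ≠ t • n) → ∃ i, i ≤ m ∧ 0 < ⟪u, q i⟫) →
  (∀ i, i < m → Indep2 (q i) (q (i + 1))) →
  (∀ i j, i < m → j ≤ m → j ≠ i → j ≠ i + 1 → ∀ s t r : ℝ, 0 ≤ s → 0 ≤ t → 0 < r →
    s • q i + t • q (i + 1) ≠ r • q j) →
  Indep2 (q 0) (q m) ∧
    ∃ (s t : ℝ) (i : ℕ), 0 ≤ s ∧ 0 ≤ t ∧ i < m ∧ -(q 0 + q m) = s • q i + t • q (i + 1)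

/-- corners in list form are corners (uses LKB, FAN) -/
def Stmt_CRN : Prop := ∀ (V : Type) [Fintype V] [DecidableEq V] (K : Surf V) (p : V → E3)
  (Φ : Finset (E3 × ℝ)) (v : V), (∀ φ ∈ Φ, φ.1 ≠ 0) → Emb K.tri p → Crn K p Φ v →
  K.Corner p Φ v

/-- P6: the final generic perturbation -/
def Stmt_P6M : Prop := ∀ (V : Type) [Fintype V] [DecidableEq V] (K : Surf V) (p : V → E3)
  (Φ : Finset (E3 × ℝ)), Semi K p Φ → ∀ ε : ℝ, 0 < ε →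
  ∃ p' : V → E3, K.Framed p' Φ ∧ ∀ v, ‖p' v - p v‖ < ε

end Pool.Agent.TSQ
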